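import Pool.Agent.H99Q.Stm

/-!
Project PCR: assembly, part 1 (the process).
-/

set_option autoImplicit false

open MeasureTheory Set Filter Topology Pool.Agent.R972.PC
open scoped NNReal ENNReal

namespace Pool.Agent.H99Q

noncomputable abbrev nu : Measure (ℕ → ℝ) := Measure.infinitePi (fun _ : ℕ => leb)

noncomputable def Y (P : Measure ℝ) (M : ℕ) (t s : ℝ) (U : ℕ → ℝ) : ℕ → ℝ
  | 0 => G P (U 0)
  | n + 1 => rs P (lab M t s n) (Y P M t s U n) (U (n + 1))

theorem lab_rs (P : Measure ℝ) (l : ℝ → ℕ) (y u : ℝ) : l (rs P l y u) = l y := by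
  unfold rs
  split_ifs with h
  · exact h
  · rfl

theorem lab_Y (P : Measure ℝ) (M : ℕ) (t s : ℝ) (U : ℕ → ℝ) (n : ℕ) :
    lab M t s n (Y P M t s U (n + 1)) = lab M t s n (Y P M t s U n) := by
  rw [Y]
  exact lab_rs _ _ _ _

theorem Y_dep (P : Measure ℝ) (M : ℕ) (t s : ℝ) (n : ℕ) (U U' : ℕ → ℝ) (h : ∀ i ≤ n, U i = U' i) :
    Y P M t s U n = Y P M t s U' n := by
  induction n with
  | zero => rw [Y, Y, h 0 le_rfl]
  | succ n ih => rw [Y, Y, ih (fun i hi => h i (by omega)), h (n + 1) le_rfl]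

section

variable (P : Measure ℝ) [IsProbabilityMeasure P]

theorem meas_lab (hML : S_ML) (M n : ℕ) :
    Measurable (fun p : (ℝ × ℝ) × ℝ => lab M p.1.1 p.1.2 n p.2) :=
  (hML 0 M n).1.comp (show Measurable fun p : (ℝ × ℝ) × ℝ => (p.1.1, p.1.2, p.2) by fun_prop)

theorem meas_Y (hQ : S_QLAW) (hML : S_ML) (hR : S_MRS) (M n : ℕ) :
    Measurable (fun w : ℝ × ℝ × (ℕ → ℝ) => Y P M w.1 w.2.1 w.2.2 n) := by
  induction n with
  | zero =>
    simp only [Y]
    have h1 : Measurable (G P) := (hQ P (IsProbabilityMeasure.ne_zero P)).2.1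
    exact h1.comp (by fun_prop)
  | succ n ih =>
    simp only [Y]
    have h1 := hR (ℝ × ℝ) P (fun a x => lab M a.1 a.2 n x) (meas_lab hML M n)
    exact h1.comp (show Measurable fun w : ℝ × ℝ × (ℕ → ℝ) =>
      ((w.1, w.2.1), Y P M w.1 w.2.1 w.2.2 n, w.2.2 (n + 1)) by fun_prop)

theorem meas_Y' (hQ : S_QLAW) (hML : S_ML) (hR : S_MRS) (M n : ℕ) (t s : ℝ) :
    Measurable (fun U : ℕ → ℝ => Y P M t s U n) :=
  (meas_Y P hQ hML hR M n).comp (show Measurable fun U : ℕ → ℝ => (t, s, U) by fun_prop)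

theorem meas_rs (hML : S_ML) (hR : S_MRS) (M n : ℕ) (t s : ℝ) :
    Measurable (fun p : ℝ × ℝ => rs P (lab M t s n) p.1 p.2) :=
  (hR (ℝ × ℝ) P (fun a x => lab M a.1 a.2 n x) (meas_lab hML M n)).comp
    (show Measurable fun p : ℝ × ℝ => ((t, s), p.1, p.2) by fun_prop)

theorem map_eval (n : ℕ) : nu.map (fun U : ℕ → ℝ => U n) = leb :=
  (measurePreserving_eval_infinitePi (fun _ : ℕ => leb) n).map_eq

theorem law_Y (hQ : S_QLAW) (hML : S_ML) (hR : S_MRS) (hS : S_SPLIT) (hL : S_LAW) (M n : ℕ) (t s : ℝ) :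
    nu.map (fun U : ℕ → ℝ => Y P M t s U n) = P := by
  induction n with
  | zero =>
    simp only [Y]
    obtain ⟨-, h1, h2⟩ := hQ P (IsProbabilityMeasure.ne_zero P)
    have h3 : (fun U : ℕ → ℝ => G P (U 0)) = G P ∘ (fun U : ℕ → ℝ => U 0) := rfl
    rw [h3, ← Measure.map_map h1 (by fun_prop), map_eval, h2, measure_univ, inv_one, one_smul]
  | succ n ih =>
    simp only [Y]
    have hl : Measurable (lab M t s n) := (meas_lab hML M n).comp
      (show Measurable fun x : ℝ => ((t, s), x) by fun_prop)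
    have hm := meas_Y' P hQ hML hR M n t s
    have h1 := hS ℝ n (fun U => Y P M t s U n) hm (fun U U' h => Y_dep P M t s n U U' h)
    have h3 : (fun U : ℕ → ℝ => rs P (lab M t s n) (Y P M t s U n) (U (n + 1))) =
        (fun p : ℝ × ℝ => rs P (lab M t s n) p.1 p.2) ∘ (fun U : ℕ → ℝ => (Y P M t s U n, U (n + 1))) := rfl
    rw [h3, ← Measure.map_map (meas_rs P hML hR M n t s) (hm.prodMk (by fun_prop)), h1, ih]
    exact hL P (lab M t s n) hl ℝ P id measurable_id (fun i => rfl)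

end

theorem meas_lab1 (hML : S_ML) (M n : ℕ) (t s : ℝ) : Measurable (lab M t s n) :=
  (meas_lab hML M n).comp (show Measurable fun x : ℝ => ((t, s), x) by fun_prop)

theorem meas_w0 (hML : S_ML) (q t : ℝ) : Measurable (w0 q t) :=
  (hML q 0 0).2.1.comp (show Measurable fun x : ℝ => (t, (0 : ℝ), x) by fun_prop)

theorem meas_wn (hML : S_ML) (q : ℝ) (M n : ℕ) (t s : ℝ) : Measurable (wn q M t s n) :=
  (hML q M n).2.2.1.comp (show Measurable fun x : ℝ => (t, s, x) by fun_prop)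

theorem meas_on (hML : S_ML) (q : ℝ) (M n : ℕ) (t : ℝ) : Measurable (on q M t n) :=
  (hML q M n).2.2.2.comp (show Measurable fun x : ℝ => (t, (0 : ℝ), x) by fun_prop)

/-- the cost of level 0 -/
theorem cost0 (hQ : S_QLAW) (hML : S_ML) (h0 : S_STEP0) (hW : S_WPROP) {q : ℝ} {M : ℕ} (hM : HM q M)
    (P Q : Measure ℝ) [IsProbabilityMeasure P] [IsProbabilityMeasure Q] (π : Measure (ℝ × ℝ))
    (hπ : Cpl π P Q) (t s : ℝ) :
    ∫⁻ U, ENNReal.ofReal |w0 q t (Y P M t s U 0) - w0 q t (Y Q M t s U 0)| ∂nu ≤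
      ∫⁻ p, ENNReal.ofReal |w0 q t p.1 - w0 q t p.2| ∂π := by
  simp only [Y]
  have h1 : Measurable (G P) := (hQ P (IsProbabilityMeasure.ne_zero P)).2.1
  have h2 : Measurable (G Q) := (hQ Q (IsProbabilityMeasure.ne_zero Q)).2.1
  have h3 := meas_w0 hML q t
  have h4 : ∫⁻ U : ℕ → ℝ, ENNReal.ofReal |w0 q t (G P (U 0)) - w0 q t (G Q (U 0))| ∂nu =
      ∫⁻ u, ENNReal.ofReal |w0 q t (G P u) - w0 q t (G Q u)| ∂leb := by
    rw [← map_eval 0, lintegral_map _ (by fun_prop)]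
    exact (((h3.comp h1).sub (h3.comp h2)).norm).ennreal_ofReal
  rw [h4]
  exact h0 P Q (w0 q t) (hW q M hM t s).1 π hπ

/-- the cost of level `n + 1` -/
theorem costn (hQ : S_QLAW) (hML : S_ML) (hR : S_MRS) (hS : S_SPLIT) (hL : S_LAW) (hT : S_STEP)
    (hW : S_WPROP) {q : ℝ} {M : ℕ} (hM : HM q M)
    (P Q : Measure ℝ) [IsProbabilityMeasure P] [IsProbabilityMeasure Q] (π : Measure (ℝ × ℝ))
    (hπ : Cpl π P Q) (t s : ℝ) (n : ℕ) :
    ∫⁻ U, (if lab M t s n (Y P M t s U n) = lab M t s n (Y Q M t s U n) then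
        ENNReal.ofReal |wn q M t s (n + 1) (Y P M t s U (n + 1)) - wn q M t s (n + 1) (Y Q M t s U (n + 1))|
        else 0) ∂nu ≤
      ∫⁻ p, DD (lab M t s n) (wn q M t s (n + 1)) (on q M t (n + 1)) p.1 p.2 ∂π := by
  have hmP := meas_Y' P hQ hML hR M n t s
  have hmQ := meas_Y' Q hQ hML hR M n t s
  have hl := meas_lab1 hML M n t s
  have hw := meas_wn hML q M (n + 1) t s
  set Z : (ℕ → ℝ) → ℝ × ℝ := fun U => (Y P M t s U n, Y Q M t s U n) with hZ
  have hZm : Measurable Z := hmP.prodMk hmQ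
  have h1 := hS (ℝ × ℝ) n Z hZm (fun U U' h => by
    rw [hZ]
    simp only
    rw [Y_dep P M t s n U U' h, Y_dep Q M t s n U U' h])
  set F : (ℝ × ℝ) × ℝ → ℝ≥0∞ := fun w => if lab M t s n w.1.1 = lab M t s n w.1.2 then
    ENNReal.ofReal |wn q M t s (n + 1) (rs P (lab M t s n) w.1.1 w.2) -
      wn q M t s (n + 1) (rs Q (lab M t s n) w.1.2 w.2)| else 0 with hF
  have hFm : Measurable F := by
    refine Measurable.ite (measurableSet_eq_fun (by fun_prop) (by fun_prop)) ?_ measurable_const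
    have e1 : Measurable fun w : (ℝ × ℝ) × ℝ => wn q M t s (n + 1) (rs P (lab M t s n) w.1.1 w.2) :=
      hw.comp ((meas_rs P hML hR M n t s).comp
        (show Measurable fun w : (ℝ × ℝ) × ℝ => (w.1.1, w.2) by fun_prop))
    have e2 : Measurable fun w : (ℝ × ℝ) × ℝ => wn q M t s (n + 1) (rs Q (lab M t s n) w.1.2 w.2) :=
      hw.comp ((meas_rs Q hML hR M n t s).comp
        (show Measurable fun w : (ℝ × ℝ) × ℝ => (w.1.2, w.2) by fun_prop))
    exact ((e1.sub e2).norm).ennreal_ofReal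
  have h2 : ∫⁻ U, (if lab M t s n (Y P M t s U n) = lab M t s n (Y Q M t s U n) then
        ENNReal.ofReal |wn q M t s (n + 1) (Y P M t s U (n + 1)) - wn q M t s (n + 1) (Y Q M t s U (n + 1))|
        else 0) ∂nu = ∫⁻ U, F (Z U, U (n + 1)) ∂nu := by
    refine lintegral_congr fun U => ?_
    rw [hF, hZ]
    simp only [Y]
  rw [h2]
  have h3 : ∫⁻ U, F (Z U, U (n + 1)) ∂nu = ∫⁻ w, F w ∂((nu.map Z).prod leb) := by
    rw [← h1, lintegral_map hFm (hZm.prodMk (by fun_prop))]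
  rw [h3, lintegral_prod _ hFm.aemeasurable]
  have : IsProbabilityMeasure (nu.map Z) := Measure.isProbabilityMeasure_map hZm.aemeasurable
  have hA : ∀ i, (nu.map Z) {ω | lab M t s n ω.1 = i} ≤ P {x | lab M t s n x = i} := by
    intro i
    have hms : MeasurableSet {x | lab M t s n x = i} := hl (measurableSet_singleton i)
    have e1 : (nu.map Z) {ω | lab M t s n ω.1 = i} = (nu.map fun U => Y P M t s U n) {x | lab M t s n x = i} := by
      rw [show {ω : ℝ × ℝ | lab M t s n ω.1 = i} = Prod.fst ⁻¹' {x | lab M t s n x = i} from rfl,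
        Measure.map_apply hZm (measurable_fst hms), Measure.map_apply hmP hms]
      rfl
    rw [e1, law_Y P hQ hML hR hS hL M n t s]
  have hB : ∀ i, (nu.map Z) {ω | lab M t s n ω.2 = i} ≤ Q {x | lab M t s n x = i} := by
    intro i
    have hms : MeasurableSet {x | lab M t s n x = i} := hl (measurableSet_singleton i)
    have e1 : (nu.map Z) {ω | lab M t s n ω.2 = i} = (nu.map fun U => Y Q M t s U n) {x | lab M t s n x = i} := by
      rw [show {ω : ℝ × ℝ | lab M t s n ω.2 = i} = Prod.snd ⁻¹' {x | lab M t s n x = i} from rfl,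
        Measure.map_apply hZm (measurable_snd hms), Measure.map_apply hmQ hms]
      rfl
    rw [e1, law_Y Q hQ hML hR hS hL M n t s]
  obtain ⟨-, hWn⟩ := hW q M hM t s
  have h4 := hT P Q (lab M t s n) (wn q M t s (n + 1)) (on q M t (n + 1)) hl hw (meas_on hML q M (n + 1) t)
    (hWn n).1 (hWn n).2 π hπ (ℝ × ℝ) (nu.map Z) Prod.fst Prod.snd measurable_fst measurable_snd hA hB
  refine le_trans (le_of_eq ?_) h4
  refine lintegral_congr fun z => ?_
  rw [Set.indicator_apply]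
  by_cases hz : lab M t s n z.1 = lab M t s n z.2
  · rw [if_pos (show z ∈ {ω : ℝ × ℝ | lab M t s n ω.1 = lab M t s n ω.2} from hz)]
    refine lintegral_congr fun u => ?_
    rw [hF]
    simp only
    rw [if_pos hz]
  · rw [if_neg (show ¬ z ∈ {ω : ℝ × ℝ | lab M t s n ω.1 = lab M t s n ω.2} from hz)]
    have e1 : (fun u => F (z, u)) = fun _ => 0 := by
      funext u
      rw [hF]
      simp only
      rw [if_neg hz]
    rw [e1]
    simp

/-! ### The limit -/

noncomputable abbrev mu3 : Measure (ℝ × ℝ × (ℕ → ℝ)) := leb.prod (leb.prod nu)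

theorem conv_Y (hP : S_PATH) {q : ℝ} {M : ℕ} (hM : HM q M) (P : Measure ℝ) (w : ℝ × ℝ × (ℕ → ℝ)) :
    ∃ x : ℝ, Tendsto (fun n => Y P M w.1 w.2.1 w.2.2 n) atTop (𝓝 x) :=
  (hP q M hM w.1 w.2.1 _ _ (fun n => lab_Y P M w.1 w.2.1 w.2.2 n)
    (fun n => lab_Y P M w.1 w.2.1 w.2.2 n)).1

noncomputable def X (P : Measure ℝ) (M : ℕ) (w : ℝ × ℝ × (ℕ → ℝ)) : ℝ :=
  limUnder atTop (fun n => Y P M w.1 w.2.1 w.2.2 n)

theorem X_lim (hP : S_PATH) {q : ℝ} {M : ℕ} (hM : HM q M) (P : Measure ℝ) (w : ℝ × ℝ × (ℕ → ℝ)) :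
    Tendsto (fun n => Y P M w.1 w.2.1 w.2.2 n) atTop (𝓝 (X P M w)) :=
  tendsto_nhds_limUnder (conv_Y hP hM P w)

theorem X_meas (hQ : S_QLAW) (hML : S_ML) (hR : S_MRS) (hP : S_PATH) {q : ℝ} {M : ℕ} (hM : HM q M)
    (P : Measure ℝ) [IsProbabilityMeasure P] : Measurable (X P M) :=
  measurable_of_tendsto_metrizable (fun n => meas_Y P hQ hML hR M n)
    (tendsto_pi_nhds.2 fun w => X_lim hP hM P w)

theorem law_Y3 (hQ : S_QLAW) (hML : S_ML) (hR : S_MRS) (hS : S_SPLIT) (hL : S_LAW) (M n : ℕ)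
    (P : Measure ℝ) [IsProbabilityMeasure P] :
    mu3.map (fun w : ℝ × ℝ × (ℕ → ℝ) => Y P M w.1 w.2.1 w.2.2 n) = P := by
  have hm := meas_Y P hQ hML hR M n
  ext S hSm
  rw [Measure.map_apply hm hSm, Measure.prod_apply (hm hSm)]
  have h1 : ∀ t : ℝ, (leb.prod nu) (Prod.mk t ⁻¹' ((fun w : ℝ × ℝ × (ℕ → ℝ) =>
      Y P M w.1 w.2.1 w.2.2 n) ⁻¹' S)) = P S := by
    intro t
    rw [Measure.prod_apply (measurable_prodMk_left (hm hSm))]
    have h2 : ∀ s : ℝ, nu (Prod.mk s ⁻¹' (Prod.mk t ⁻¹' ((fun w : ℝ × ℝ × (ℕ → ℝ) =>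
        Y P M w.1 w.2.1 w.2.2 n) ⁻¹' S))) = P S := by
      intro s
      have h3 := law_Y P hQ hML hR hS hL M n t s
      have h4 : (nu.map (fun U : ℕ → ℝ => Y P M t s U n)) S = P S := by rw [h3]
      rw [Measure.map_apply (meas_Y' P hQ hML hR M n t s) hSm] at h4
      exact h4
    simp only [h2, lintegral_const, measure_univ, mul_one]
  simp only [h1, lintegral_const, measure_univ, mul_one]

theorem law_X (hQ : S_QLAW) (hML : S_ML) (hR : S_MRS) (hS : S_SPLIT) (hL : S_LAW) (hP : S_PATH)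
    {q : ℝ} {M : ℕ} (hM : HM q M) (P : Measure ℝ) [IsProbabilityMeasure P] :
    mu3.map (X P M) = P := by
  have hXm := X_meas hQ hML hR hP hM P
  have : IsProbabilityMeasure (mu3.map (X P M)) := Measure.isProbabilityMeasure_map hXm.aemeasurable
  refine ext_of_forall_integral_eq_of_IsFiniteMeasure fun f => ?_
  rw [integral_map hXm.aemeasurable f.continuous.aestronglyMeasurable]
  have h1 : Tendsto (fun n => ∫ w, f (Y P M w.1 w.2.1 w.2.2 n) ∂mu3) atTop
      (𝓝 (∫ w, f (X P M w) ∂mu3)) := by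
    refine tendsto_integral_of_dominated_convergence (fun _ => ‖f‖) ?_ (integrable_const _) ?_ ?_
    · exact fun n => (f.continuous.measurable.comp (meas_Y P hQ hML hR M n)).aestronglyMeasurable
    · exact fun n => Eventually.of_forall fun w => f.norm_coe_le_norm _
    · exact Eventually.of_forall fun w => (f.continuous.tendsto _).comp (X_lim hP hM P w)
  have h2 : ∀ n, ∫ w, f (Y P M w.1 w.2.1 w.2.2 n) ∂mu3 = ∫ x, f x ∂P := by
    intro n
    have hm := meas_Y P hQ hML hR M n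
    conv_rhs => rw [← law_Y3 hQ hML hR hS hL M n P]
    rw [integral_map hm.aemeasurable f.continuous.aestronglyMeasurable]
  simp only [h2] at h1
  exact tendsto_nhds_unique h1 tendsto_const_nhds |>.symm ▸ rfl

end Pool.Agent.H99Q
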