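import Pool.Agent.H99Q.Asm

/-!
Project PCR: assembly, part 2 (the cost).
-/

set_option autoImplicit false

open MeasureTheory Set Filter Topology Pool.Agent.R972.PC
open scoped NNReal ENNReal

namespace Pool.Agent.H99Q

/-- the total cost of a pair of points -/
noncomputable def tot (q : ℝ) (M : ℕ) (t s x y : ℝ) : ℝ≥0∞ :=
  ENNReal.ofReal |w0 q t x - w0 q t y| +
    ∑' n : ℕ, DD (lab M t s n) (wn q M t s (n + 1)) (on q M t (n + 1)) x y

theorem lab0_s (M : ℕ) (t s s' x : ℝ) : lab M t s 0 x = lab M t s' 0 x := rfl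

section meas

variable (hML : S_ML)
include hML

theorem m_lab (M n : ℕ) {α : Type} [MeasurableSpace α] {f g h : α → ℝ} (hf : Measurable f)
    (hg : Measurable g) (hh : Measurable h) : Measurable (fun a => lab M (f a) (g a) n (h a)) :=
  (hML 0 M n).1.comp (hf.prodMk (hg.prodMk hh))

theorem m_w0 (q : ℝ) {α : Type} [MeasurableSpace α] {f h : α → ℝ} (hf : Measurable f)
    (hh : Measurable h) : Measurable (fun a => w0 q (f a) (h a)) :=
  (hML q 0 0).2.1.comp (hf.prodMk ((measurable_const (a := (0 : ℝ))).prodMk hh))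

theorem m_wn (q : ℝ) (M n : ℕ) {α : Type} [MeasurableSpace α] {f g h : α → ℝ} (hf : Measurable f)
    (hg : Measurable g) (hh : Measurable h) : Measurable (fun a => wn q M (f a) (g a) n (h a)) :=
  (hML q M n).2.2.1.comp (hf.prodMk (hg.prodMk hh))

theorem m_on (q : ℝ) (M n : ℕ) {α : Type} [MeasurableSpace α] {f h : α → ℝ} (hf : Measurable f)
    (hh : Measurable h) : Measurable (fun a => on q M (f a) n (h a)) :=
  (hML q M n).2.2.2.comp (hf.prodMk ((measurable_const (a := (0 : ℝ))).prodMk hh))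

omit hML in
theorem m_abs {α : Type} [MeasurableSpace α] {f g : α → ℝ} (hf : Measurable f) (hg : Measurable g) :
    Measurable (fun a => ENNReal.ofReal |f a - g a|) :=
  ((hf.sub hg).norm).ennreal_ofReal

theorem m_DD (q : ℝ) (M n : ℕ) {α : Type} [MeasurableSpace α] {f g h k : α → ℝ} (hf : Measurable f)
    (hg : Measurable g) (hh : Measurable h) (hk : Measurable k) :
    Measurable (fun a => DD (lab M (f a) (g a) n) (wn q M (f a) (g a) (n + 1)) (on q M (f a) (n + 1))
      (h a) (k a)) := by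
  unfold DD
  refine Measurable.ite (measurableSet_eq_fun (m_lab hML M n hf hg hh) (m_lab hML M n hf hg hk))
    (m_abs (m_wn hML q M (n + 1) hf hg hh) (m_wn hML q M (n + 1) hf hg hk)) ?_
  exact (((m_on hML q M (n + 1) hf hh).add (m_on hML q M (n + 1) hf hk)).const_mul 2).ennreal_ofReal

theorem m_tot (q : ℝ) (M : ℕ) {α : Type} [MeasurableSpace α] {f g h k : α → ℝ} (hf : Measurable f)
    (hg : Measurable g) (hh : Measurable h) (hk : Measurable k) :
    Measurable (fun a => tot q M (f a) (g a) (h a) (k a)) :=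
  (m_abs (m_w0 hML q hf hh) (m_w0 hML q hf hk)).add
    (Measurable.tsum fun n => m_DD hML q M n hf hg hh hk)

end meas

/-- mean of the cost of a pair of points over the scales -/
theorem mean_tot (hML : S_ML) (hE : S_TOPE) (hN : S_TOPN) (hI : S_INN) {q : ℝ} {M : ℕ} (hM : HM q M)
    (x y : ℝ) :
    ∫⁻ t, ∫⁻ s, tot q M t s x y ∂leb ∂leb ≤ 5000 * ENNReal.ofReal (|x - y| ^ q) := by
  have h1 : ∀ t, ∫⁻ s, tot q M t s x y ∂leb ≤
      129 * ENNReal.ofReal |w0 q t x - w0 q t y| + ENNReal.ofReal (600 * |x - y| ^ q) := by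
    intro t
    unfold tot
    rw [lintegral_add_left measurable_const, lintegral_const, measure_univ, mul_one]
    by_cases h : lab M t 0 0 x = lab M t 0 0 y
    · have h2 := hI q M hM t x y (fun s => h)
      calc _ ≤ ENNReal.ofReal |w0 q t x - w0 q t y| + ENNReal.ofReal (600 * |x - y| ^ q) := by gcongr
        _ ≤ _ := by
          gcongr
          exact le_mul_of_one_le_left bot_le (by norm_num)
    · have h2 : ∫⁻ s, ∑' n : ℕ, DD (lab M t s n) (wn q M t s (n + 1)) (on q M t (n + 1)) x y ∂leb ≤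
          ∫⁻ _s, ENNReal.ofReal (128 * |w0 q t x - w0 q t y|) ∂leb :=
        lintegral_mono fun s => hN q M hM t s x y h
      rw [lintegral_const, measure_univ, mul_one, ENNReal.ofReal_mul (by norm_num)] at h2
      calc _ ≤ ENNReal.ofReal |w0 q t x - w0 q t y| +
            ENNReal.ofReal 128 * ENNReal.ofReal |w0 q t x - w0 q t y| := by gcongr
        _ = 129 * ENNReal.ofReal |w0 q t x - w0 q t y| := by
          rw [show ENNReal.ofReal 128 = 128 by norm_num]
          ring
        _ ≤ _ := le_self_add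
  have hm : Measurable fun t => ENNReal.ofReal |w0 q t x - w0 q t y| :=
    m_abs (m_w0 hML q measurable_id measurable_const) (m_w0 hML q measurable_id measurable_const)
  calc ∫⁻ t, ∫⁻ s, tot q M t s x y ∂leb ∂leb ≤
        ∫⁻ t, (129 * ENNReal.ofReal |w0 q t x - w0 q t y| + ENNReal.ofReal (600 * |x - y| ^ q)) ∂leb :=
        lintegral_mono h1
    _ = 129 * ∫⁻ t, ENNReal.ofReal |w0 q t x - w0 q t y| ∂leb + ENNReal.ofReal (600 * |x - y| ^ q) := by
        rw [lintegral_add_left (hm.const_mul _), lintegral_const_mul _ hm, lintegral_const, measure_univ,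
          mul_one]
    _ ≤ 129 * ENNReal.ofReal (32 * |x - y| ^ q) + ENNReal.ofReal (600 * |x - y| ^ q) := by
        gcongr
        exact hE q hM.q1 hM.q2 x y
    _ ≤ 5000 * ENNReal.ofReal (|x - y| ^ q) := by
        rw [ENNReal.ofReal_mul (by norm_num), ENNReal.ofReal_mul (by norm_num),
          show ENNReal.ofReal 32 = 32 by norm_num, show ENNReal.ofReal 600 = 600 by norm_num,
          ← mul_assoc, ← add_mul]
        gcongr
        norm_num

/-- the cost of the coupling is at most the mean of the total cost -/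
theorem cost_X (hQ : S_QLAW) (hML : S_ML) (hR : S_MRS) (hS : S_SPLIT) (hL : S_LAW) (h0 : S_STEP0)
    (hT : S_STEP) (hW : S_WPROP) (hP : S_PATH) {q : ℝ} {M : ℕ} (hM : HM q M)
    (P Q : Measure ℝ) [IsProbabilityMeasure P] [IsProbabilityMeasure Q] (π : Measure (ℝ × ℝ))
    (hπ : Cpl π P Q) :
    ∫⁻ w, ENNReal.ofReal (|X P M w - X Q M w| ^ q) ∂mu3 ≤
      ∫⁻ t, ∫⁻ s, ∫⁻ p, tot q M t s p.1 p.2 ∂π ∂leb ∂leb := by
  have hYm : ∀ (R : Measure ℝ) [IsProbabilityMeasure R] (n : ℕ) (t s : ℝ),
      Measurable fun U : ℕ → ℝ => Y R M t s U n := fun R _ n t s => meas_Y' R hQ hML hR M n t s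
  have hXP := X_meas hQ hML hR hP hM P
  have hXQ := X_meas hQ hML hR hP hM Q
  have hm1 : Measurable fun w => ENNReal.ofReal (|X P M w - X Q M w| ^ q) :=
    (((hXP.sub hXQ).norm).pow_const q).ennreal_ofReal
  rw [lintegral_prod _ hm1.aemeasurable]
  refine lintegral_mono fun t => ?_
  have hm1' : Measurable fun y : ℝ × (ℕ → ℝ) => ENNReal.ofReal (|X P M (t, y) - X Q M (t, y)| ^ q) :=
    hm1.comp measurable_prodMk_left
  rw [lintegral_prod _ hm1'.aemeasurable]
  refine lintegral_mono fun s => ?_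
  have hm0 : Measurable fun U : ℕ → ℝ =>
      ENNReal.ofReal |w0 q t (Y P M t s U 0) - w0 q t (Y Q M t s U 0)| :=
    m_abs (m_w0 hML q measurable_const (hYm P 0 t s)) (m_w0 hML q measurable_const (hYm Q 0 t s))
  have hmn : ∀ n : ℕ, Measurable fun U : ℕ → ℝ =>
      (if lab M t s n (Y P M t s U n) = lab M t s n (Y Q M t s U n) then
        ENNReal.ofReal |wn q M t s (n + 1) (Y P M t s U (n + 1)) - wn q M t s (n + 1) (Y Q M t s U (n + 1))|
        else 0) := fun n =>
    Measurable.ite (measurableSet_eq_fun (m_lab hML M n measurable_const measurable_const (hYm P n t s))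
      (m_lab hML M n measurable_const measurable_const (hYm Q n t s)))
      (m_abs (m_wn hML q M (n + 1) measurable_const measurable_const (hYm P (n + 1) t s))
        (m_wn hML q M (n + 1) measurable_const measurable_const (hYm Q (n + 1) t s))) measurable_const
  calc ∫⁻ U, ENNReal.ofReal (|X P M (t, s, U) - X Q M (t, s, U)| ^ q) ∂nu ≤
        ∫⁻ U, (ENNReal.ofReal |w0 q t (Y P M t s U 0) - w0 q t (Y Q M t s U 0)| +
          ∑' n : ℕ, (if lab M t s n (Y P M t s U n) = lab M t s n (Y Q M t s U n) then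
            ENNReal.ofReal |wn q M t s (n + 1) (Y P M t s U (n + 1)) -
              wn q M t s (n + 1) (Y Q M t s U (n + 1))| else 0)) ∂nu := by
        refine lintegral_mono fun U => ?_
        exact (hP q M hM t s (fun n => Y P M t s U n) (fun n => Y Q M t s U n)
          (fun n => lab_Y P M t s U n) (fun n => lab_Y Q M t s U n)).2 _ _
          (X_lim hP hM P (t, s, U)) (X_lim hP hM Q (t, s, U))
    _ = ∫⁻ U, ENNReal.ofReal |w0 q t (Y P M t s U 0) - w0 q t (Y Q M t s U 0)| ∂nu +
        ∑' n : ℕ, ∫⁻ U, (if lab M t s n (Y P M t s U n) = lab M t s n (Y Q M t s U n) then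
            ENNReal.ofReal |wn q M t s (n + 1) (Y P M t s U (n + 1)) -
              wn q M t s (n + 1) (Y Q M t s U (n + 1))| else 0) ∂nu := by
        rw [lintegral_add_left hm0, lintegral_tsum fun n => (hmn n).aemeasurable]
    _ ≤ ∫⁻ p, ENNReal.ofReal |w0 q t p.1 - w0 q t p.2| ∂π +
        ∑' n : ℕ, ∫⁻ p, DD (lab M t s n) (wn q M t s (n + 1)) (on q M t (n + 1)) p.1 p.2 ∂π := by
        refine add_le_add (cost0 hQ hML h0 hW hM P Q π hπ t s) (ENNReal.tsum_le_tsum fun n => ?_)
        exact costn hQ hML hR hS hL hT hW hM P Q π hπ t s n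
    _ = ∫⁻ p, tot q M t s p.1 p.2 ∂π := by
        unfold tot
        rw [lintegral_add_left (m_abs (m_w0 hML q measurable_const measurable_fst)
          (m_w0 hML q measurable_const measurable_snd)),
          lintegral_tsum fun n => (m_DD hML q M n measurable_const measurable_const measurable_fst
            measurable_snd).aemeasurable]

theorem main (hX : S_EXM) (hQ : S_QLAW) (hML : S_ML) (hR : S_MRS) (hS : S_SPLIT) (hL : S_LAW)
    (h0 : S_STEP0) (hT : S_STEP) (hW : S_WPROP) (hP : S_PATH) (hE : S_TOPE) (hN : S_TOPN) (hI : S_INN)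
    (hU : S_UNIF) (q : ℝ) (h1 : 1 / 2 ≤ q) (h2 : q < 1) : optRatio q ≤ 5000 := by
  obtain ⟨M, hM⟩ := hX q h1 h2
  obtain ⟨φ, hφ, hφl'⟩ := hU
  have hφl : leb.map φ = mu3 := hφl'
  set XX : ProbabilityMeasure ℝ → ℝ → ℝ := fun P u => X (P : Measure ℝ) M (φ u) with hXX
  have hcoup : IsCoupling XX := by
    refine ⟨fun P => ((X_meas hQ hML hR hP hM (P : Measure ℝ)).comp hφ).aemeasurable, fun P => ?_⟩
    have h3 := law_X hQ hML hR hS hL hP hM (P : Measure ℝ)
    rw [← hφl, Measure.map_map (X_meas hQ hML hR hP hM (P : Measure ℝ)) hφ] at h3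
    exact h3
  refine (iInf₂_le XX hcoup).trans ?_
  refine (iInf₂_le (5000 : ℝ≥0) ⟨by norm_num, fun P Q => ?_⟩).trans (by norm_num)
  have h4 : ∀ π : Measure (ℝ × ℝ), (π.map Prod.fst = (P : Measure ℝ) ∧ π.map Prod.snd = (Q : Measure ℝ)) →
      ∫⁻ u, ENNReal.ofReal (|XX P u - XX Q u| ^ q) ∂leb ≤
        5000 * ∫⁻ p, ENNReal.ofReal (|p.1 - p.2| ^ q) ∂π := by
    intro π hπ
    have hπp : IsProbabilityMeasure π := by
      constructor
      have h5 : (π.map Prod.fst) univ = 1 := by rw [hπ.1]; exact measure_univ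
      rwa [Measure.map_apply measurable_fst MeasurableSet.univ, preimage_univ] at h5
    have h5 : ∫⁻ u, ENNReal.ofReal (|XX P u - XX Q u| ^ q) ∂leb =
        ∫⁻ w, ENNReal.ofReal (|X (P : Measure ℝ) M w - X (Q : Measure ℝ) M w| ^ q) ∂mu3 := by
      have hm1 : Measurable fun w => ENNReal.ofReal (|X (P : Measure ℝ) M w - X (Q : Measure ℝ) M w| ^ q) :=
        ((((X_meas hQ hML hR hP hM (P : Measure ℝ)).sub
          (X_meas hQ hML hR hP hM (Q : Measure ℝ))).norm).pow_const q).ennreal_ofReal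
      rw [← hφl, lintegral_map hm1 hφ]
    rw [h5]
    refine (cost_X hQ hML hR hS hL h0 hT hW hP hM (P : Measure ℝ) (Q : Measure ℝ) π hπ).trans ?_
    have h6 : ∀ t : ℝ, ∫⁻ s, ∫⁻ p, tot q M t s p.1 p.2 ∂π ∂leb = ∫⁻ p, ∫⁻ s, tot q M t s p.1 p.2 ∂leb ∂π := by
      intro t
      refine lintegral_lintegral_swap (m_tot hML q M measurable_const measurable_fst
        (measurable_fst.comp measurable_snd) (measurable_snd.comp measurable_snd)).aemeasurable
    simp only [h6]
    have h7 : Measurable fun w : ℝ × (ℝ × ℝ) => ∫⁻ s, tot q M w.1 s w.2.1 w.2.2 ∂leb := by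
      refine Measurable.lintegral_prod_right' (f := fun v : (ℝ × (ℝ × ℝ)) × ℝ => tot q M v.1.1 v.2 v.1.2.1 v.1.2.2) ?_
      exact m_tot hML q M (by fun_prop) (by fun_prop) (by fun_prop) (by fun_prop)
    rw [lintegral_lintegral_swap h7.aemeasurable]
    have h8 : Measurable fun p : ℝ × ℝ => ENNReal.ofReal (|p.1 - p.2| ^ q) :=
      (((measurable_fst.sub measurable_snd).norm).pow_const q).ennreal_ofReal
    rw [← lintegral_const_mul _ h8]
    exact lintegral_mono fun p => mean_tot hML hE hN hI hM p.1 p.2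
  unfold Cstar
  rw [show ((5000 : ℝ≥0) : ℝ≥0∞) = 5000 by norm_num, ENNReal.mul_iInf_of_ne (by norm_num) (by norm_num)]
  refine le_iInf fun π => ?_
  rw [ENNReal.mul_iInf_of_ne (by norm_num) (by norm_num)]
  exact le_iInf fun hπ => h4 π hπ

end Pool.Agent.H99Q
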