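import Pool.Agent.H99Q.Stm2
import Pool.Agent.H99Q.Fin

/-!
Project PCR: assembly of part 2, `0 < q ≤ 1/2`.
-/

set_option autoImplicit false

open MeasureTheory Set Filter Topology Pool.Agent.R972.PC
open scoped NNReal ENNReal

namespace Pool.Agent.H99Q

noncomputable def Y2 (sel : (ℕ → ℝ) → ℝ → ℕ) (ψ : ℝ → ℝ × ℝ) (P : Measure ℝ) (M : ℕ) (t s : ℝ)
    (U : ℕ → ℝ) : ℕ → ℝ
  | 0 => G P (U 0)
  | n + 1 => rk sel P (lab2 M t s n) (rr M t s n) (Y2 sel ψ P M t s U n) (ψ (U (n + 1))).1 (ψ (U (n + 1))).2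

theorem lab_rk (sel : (ℕ → ℝ) → ℝ → ℕ) (P : Measure ℝ) (l r : ℝ → ℕ) (y u v : ℝ) :
    l (rk sel P l r y u v) = l y := by
  unfold rk
  split_ifs with h
  · exact h
  · rfl

theorem lab_Y2 (sel : (ℕ → ℝ) → ℝ → ℕ) (ψ : ℝ → ℝ × ℝ) (P : Measure ℝ) (M : ℕ) (t s : ℝ) (U : ℕ → ℝ)
    (n : ℕ) :
    lab2 M t s n (Y2 sel ψ P M t s U (n + 1)) = lab2 M t s n (Y2 sel ψ P M t s U n) := by
  rw [Y2]
  exact lab_rk _ _ _ _ _ _ _

theorem Y2_dep (sel : (ℕ → ℝ) → ℝ → ℕ) (ψ : ℝ → ℝ × ℝ) (P : Measure ℝ) (M : ℕ) (t s : ℝ) (n : ℕ)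
    (U U' : ℕ → ℝ) (h : ∀ i ≤ n, U i = U' i) :
    Y2 sel ψ P M t s U n = Y2 sel ψ P M t s U' n := by
  induction n with
  | zero => rw [Y2, Y2, h 0 le_rfl]
  | succ n ih => rw [Y2, Y2, ih (fun i hi => h i (by omega)), h (n + 1) le_rfl]

/-- the hypotheses which are used everywhere -/
structure Hy (sel : (ℕ → ℝ) → ℝ → ℕ) (ψ : ℝ → ℝ × ℝ) (q : ℝ) (M : ℕ) : Prop where
  hQ : S_QLAW
  hML : S_ML2
  hR : S_MRK
  hS : S_SPLIT
  hL : S_LAWK
  h0 : S_STEP0
  hT : S_STEPK
  hW : S_WP2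
  hP : S_PATH2
  sl : IsSel (2 * M + 2) sel
  ψm : Measurable ψ
  ψl : leb.map ψ = leb.prod leb
  hM : HK q M

variable {sel : (ℕ → ℝ) → ℝ → ℕ} {ψ : ℝ → ℝ × ℝ} {q : ℝ} {M : ℕ}

section meas

variable (hML : S_ML2)
include hML

theorem m2_lab (M n : ℕ) {α : Type} [MeasurableSpace α] {f g h : α → ℝ} (hf : Measurable f)
    (hg : Measurable g) (hh : Measurable h) : Measurable (fun a => lab2 M (f a) (g a) n (h a)) :=
  (hML 0 M n).1.comp (hf.prodMk (hg.prodMk hh))

theorem m2_rr (M n : ℕ) {α : Type} [MeasurableSpace α] {f g h : α → ℝ} (hf : Measurable f)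
    (hg : Measurable g) (hh : Measurable h) : Measurable (fun a => rr M (f a) (g a) n (h a)) := by
  have h1 : Measurable (fun p : ℝ × ℝ × ℝ => rr M p.1 p.2.1 n p.2.2) := (hML 0 M n).2.1
  have h2 : Measurable (fun a => (f a, g a, h a)) := hf.prodMk (hg.prodMk hh)
  have h3 := h1.comp h2
  simpa only [Function.comp_def] using h3

theorem m2_w0 (q : ℝ) (M : ℕ) {α : Type} [MeasurableSpace α] {f h : α → ℝ} (hf : Measurable f)
    (hh : Measurable h) : Measurable (fun a => w02 q M (f a) (h a)) :=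
  (hML q M 0).2.2.1.comp (hf.prodMk ((measurable_const (a := (0 : ℝ))).prodMk hh))

theorem m2_cc (q : ℝ) (M n : ℕ) {α : Type} [MeasurableSpace α] {f h : α → ℝ} (hf : Measurable f)
    (hh : Measurable h) : Measurable (fun a => cc q M (f a) n (h a)) :=
  (hML q M n).2.2.2.comp (hf.prodMk ((measurable_const (a := (0 : ℝ))).prodMk hh))

theorem m2_DD (q : ℝ) (M n : ℕ) {α : Type} [MeasurableSpace α] {f g h k : α → ℝ} (hf : Measurable f)
    (hg : Measurable g) (hh : Measurable h) (hk : Measurable k) :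
    Measurable (fun a => D2 (lab2 M (f a) (g a) (n + 1)) (cc q M (f a) n) (h a) (k a)) := by
  unfold D2
  refine Measurable.ite (measurableSet_eq_fun (m2_lab hML M (n + 1) hf hg hh)
    (m2_lab hML M (n + 1) hf hg hk)) measurable_const ?_
  exact (((m2_cc hML q M n hf hh).add (m2_cc hML q M n hf hk)).const_mul 2).ennreal_ofReal

end meas

theorem meas_rk (H : Hy sel ψ q M) (n : ℕ) (P : Measure ℝ) [IsProbabilityMeasure P]
    {α : Type} [MeasurableSpace α] {f g h u v : α → ℝ} (hf : Measurable f)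
    (hg : Measurable g) (hh : Measurable h) (hu : Measurable u) (hv : Measurable v) :
    Measurable (fun a => rk sel P (lab2 M (f a) (g a) n) (rr M (f a) (g a) n) (h a) (u a) (v a)) := by
  have h1 := H.hR (ℝ × ℝ) (2 * M + 2) sel H.sl P (fun a x => lab2 M a.1 a.2 n x)
    (fun a x => rr M a.1 a.2 n x)
    (m2_lab H.hML M n (measurable_fst.comp measurable_fst) (measurable_snd.comp measurable_fst) measurable_snd)
    (m2_rr H.hML M n (measurable_fst.comp measurable_fst) (measurable_snd.comp measurable_fst) measurable_snd)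
  exact h1.comp ((hf.prodMk hg).prodMk (hh.prodMk (hu.prodMk hv)))

theorem meas_Y2 (H : Hy sel ψ q M) (P : Measure ℝ) [IsProbabilityMeasure P] (n : ℕ) :
    Measurable (fun w : ℝ × ℝ × (ℕ → ℝ) => Y2 sel ψ P M w.1 w.2.1 w.2.2 n) := by
  induction n with
  | zero =>
    simp only [Y2]
    have h1 : Measurable (G P) := (H.hQ P (IsProbabilityMeasure.ne_zero P)).2.1
    exact h1.comp (by fun_prop)
  | succ n ih =>
    simp only [Y2]
    have h2 : Measurable fun w : ℝ × ℝ × (ℕ → ℝ) => ψ (w.2.2 (n + 1)) := H.ψm.comp (by fun_prop)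
    exact meas_rk H n P (by fun_prop) (by fun_prop) ih (measurable_fst.comp h2) (measurable_snd.comp h2)

theorem meas_Y2' (H : Hy sel ψ q M) (P : Measure ℝ) [IsProbabilityMeasure P] (n : ℕ) (t s : ℝ) :
    Measurable (fun U : ℕ → ℝ => Y2 sel ψ P M t s U n) :=
  (meas_Y2 H P n).comp (show Measurable fun U : ℕ → ℝ => (t, s, U) by fun_prop)

/-- split off one variable, in the form of two independent ones -/
theorem split2 (H : Hy sel ψ q M) (α : Type) [MeasurableSpace α] (n : ℕ) (Z : (ℕ → ℝ) → α)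
    (hZ : Measurable Z) (hd : ∀ U U' : ℕ → ℝ, (∀ i ≤ n, U i = U' i) → Z U = Z U') :
    nu.map (fun U => (Z U, ψ (U (n + 1)))) = (nu.map Z).prod (leb.prod leb) := by
  have h1 := H.hS α n Z hZ hd
  have : IsProbabilityMeasure (nu.map Z) := Measure.isProbabilityMeasure_map hZ.aemeasurable
  have h2 : (fun U : ℕ → ℝ => (Z U, ψ (U (n + 1)))) =
      Prod.map id ψ ∘ (fun U : ℕ → ℝ => (Z U, U (n + 1))) := rfl
  rw [h2, ← Measure.map_map (measurable_id.prodMap H.ψm) (hZ.prodMk (by fun_prop)), h1,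
    ← Measure.map_prod_map (nu.map Z) leb measurable_id H.ψm, Measure.map_id, H.ψl]

theorem law_Y2 (H : Hy sel ψ q M) (P : Measure ℝ) [IsProbabilityMeasure P] (n : ℕ) (t s : ℝ) :
    nu.map (fun U : ℕ → ℝ => Y2 sel ψ P M t s U n) = P := by
  induction n with
  | zero =>
    simp only [Y2]
    obtain ⟨-, h1, h2⟩ := H.hQ P (IsProbabilityMeasure.ne_zero P)
    have h3 : (fun U : ℕ → ℝ => G P (U 0)) = G P ∘ (fun U : ℕ → ℝ => U 0) := rfl
    rw [h3, ← Measure.map_map h1 (by fun_prop), map_eval, h2, measure_univ, inv_one, one_smul]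
  | succ n ih =>
    simp only [Y2]
    have hl : Measurable (lab2 M t s n) := m2_lab H.hML M n measurable_const measurable_const measurable_id
    have hr : Measurable (rr M t s n) := m2_rr H.hML M n measurable_const measurable_const measurable_id
    have hm := meas_Y2' H P n t s
    have h1 := split2 H ℝ n (fun U => Y2 sel ψ P M t s U n) hm (fun U U' h => Y2_dep sel ψ P M t s n U U' h)
    have h3 : (fun U : ℕ → ℝ => rk sel P (lab2 M t s n) (rr M t s n) (Y2 sel ψ P M t s U n)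
          (ψ (U (n + 1))).1 (ψ (U (n + 1))).2) =
        (fun p : ℝ × ℝ × ℝ => rk sel P (lab2 M t s n) (rr M t s n) p.1 p.2.1 p.2.2) ∘
          (fun U : ℕ → ℝ => (Y2 sel ψ P M t s U n, ψ (U (n + 1)))) := rfl
    have hm2 : Measurable (fun p : ℝ × ℝ × ℝ => rk sel P (lab2 M t s n) (rr M t s n) p.1 p.2.1 p.2.2) :=
      meas_rk H n P measurable_const measurable_const (by fun_prop) (by fun_prop) (by fun_prop)
    have hψ : Measurable fun U : ℕ → ℝ => ψ (U (n + 1)) := H.ψm.comp (by fun_prop)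
    rw [h3, ← Measure.map_map hm2 (hm.prodMk hψ), h1, ih]
    exact H.hL (2 * M + 2) sel H.sl P (lab2 M t s n) (rr M t s n) hl hr ((H.hW q M H.hM t s).2 n).1 ℝ P id
      measurable_id (fun i => rfl)

theorem cost02 (H : Hy sel ψ q M)
    (P Q : Measure ℝ) [IsProbabilityMeasure P] [IsProbabilityMeasure Q] (π : Measure (ℝ × ℝ))
    (hπ : Cpl π P Q) (t s : ℝ) :
    ∫⁻ U, ENNReal.ofReal |w02 q M t (Y2 sel ψ P M t s U 0) - w02 q M t (Y2 sel ψ Q M t s U 0)| ∂nu ≤
      ∫⁻ p, ENNReal.ofReal |w02 q M t p.1 - w02 q M t p.2| ∂π := by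
  simp only [Y2]
  have h1 : Measurable (G P) := (H.hQ P (IsProbabilityMeasure.ne_zero P)).2.1
  have h2 : Measurable (G Q) := (H.hQ Q (IsProbabilityMeasure.ne_zero Q)).2.1
  have h3 : Measurable (w02 q M t) := m2_w0 H.hML q M measurable_const measurable_id
  have h4 : ∫⁻ U : ℕ → ℝ, ENNReal.ofReal |w02 q M t (G P (U 0)) - w02 q M t (G Q (U 0))| ∂nu =
      ∫⁻ u, ENNReal.ofReal |w02 q M t (G P u) - w02 q M t (G Q u)| ∂leb := by
    rw [← map_eval 0, lintegral_map _ (by fun_prop)]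
    exact (((h3.comp h1).sub (h3.comp h2)).norm).ennreal_ofReal
  rw [h4]
  exact H.h0 P Q (w02 q M t) (H.hW q M H.hM t s).1 π hπ

theorem costn2 (H : Hy sel ψ q M)
    (P Q : Measure ℝ) [IsProbabilityMeasure P] [IsProbabilityMeasure Q] (π : Measure (ℝ × ℝ))
    (hπ : Cpl π P Q) (t s : ℝ) (n : ℕ) :
    ∫⁻ U, (if lab2 M t s n (Y2 sel ψ P M t s U n) = lab2 M t s n (Y2 sel ψ Q M t s U n) ∧
        lab2 M t s (n + 1) (Y2 sel ψ P M t s U (n + 1)) ≠ lab2 M t s (n + 1) (Y2 sel ψ Q M t s U (n + 1)) then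
        ENNReal.ofReal (cc q M t n (Y2 sel ψ P M t s U n)) else 0) ∂nu ≤
      ∫⁻ p, D2 (lab2 M t s (n + 1)) (cc q M t n) p.1 p.2 ∂π := by
  have hmP := meas_Y2' H P n t s
  have hmQ := meas_Y2' H Q n t s
  have hl : Measurable (lab2 M t s n) := m2_lab H.hML M n measurable_const measurable_const measurable_id
  have hl' : Measurable (lab2 M t s (n + 1)) :=
    m2_lab H.hML M (n + 1) measurable_const measurable_const measurable_id
  have hr : Measurable (rr M t s n) := m2_rr H.hML M n measurable_const measurable_const measurable_id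
  have hc : Measurable (cc q M t n) := m2_cc H.hML q M n measurable_const measurable_id
  set Z : (ℕ → ℝ) → ℝ × ℝ := fun U => (Y2 sel ψ P M t s U n, Y2 sel ψ Q M t s U n) with hZ
  have hZm : Measurable Z := hmP.prodMk hmQ
  have h1 := split2 H (ℝ × ℝ) n Z hZm (fun U U' h => by
    rw [hZ]
    simp only
    rw [Y2_dep sel ψ P M t s n U U' h, Y2_dep sel ψ Q M t s n U U' h])
  have hRP : Measurable fun w : (ℝ × ℝ) × (ℝ × ℝ) =>
      lab2 M t s (n + 1) (rk sel P (lab2 M t s n) (rr M t s n) w.1.1 w.2.1 w.2.2) :=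
    hl'.comp (meas_rk H n P measurable_const measurable_const (by fun_prop) (by fun_prop) (by fun_prop))
  have hRQ : Measurable fun w : (ℝ × ℝ) × (ℝ × ℝ) =>
      lab2 M t s (n + 1) (rk sel Q (lab2 M t s n) (rr M t s n) w.1.2 w.2.1 w.2.2) :=
    hl'.comp (meas_rk H n Q measurable_const measurable_const (by fun_prop) (by fun_prop) (by fun_prop))
  have hSm : MeasurableSet {w : (ℝ × ℝ) × (ℝ × ℝ) |
      lab2 M t s (n + 1) (rk sel P (lab2 M t s n) (rr M t s n) w.1.1 w.2.1 w.2.2) ≠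
        lab2 M t s (n + 1) (rk sel Q (lab2 M t s n) (rr M t s n) w.1.2 w.2.1 w.2.2)} :=
    (measurableSet_eq_fun hRP hRQ).compl
  have hEm : MeasurableSet {w : (ℝ × ℝ) × (ℝ × ℝ) | lab2 M t s n w.1.1 = lab2 M t s n w.1.2} :=
    measurableSet_eq_fun (hl.comp (by fun_prop)) (hl.comp (by fun_prop))
  set F : (ℝ × ℝ) × (ℝ × ℝ) → ℝ≥0∞ := fun w => if lab2 M t s n w.1.1 = lab2 M t s n w.1.2 ∧
      lab2 M t s (n + 1) (rk sel P (lab2 M t s n) (rr M t s n) w.1.1 w.2.1 w.2.2) ≠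
        lab2 M t s (n + 1) (rk sel Q (lab2 M t s n) (rr M t s n) w.1.2 w.2.1 w.2.2) then
    ENNReal.ofReal (cc q M t n w.1.1) else 0 with hF
  have hFm : Measurable F :=
    Measurable.ite (hEm.inter hSm) ((hc.comp (by fun_prop)).ennreal_ofReal) measurable_const
  have h2 : ∫⁻ U, (if lab2 M t s n (Y2 sel ψ P M t s U n) = lab2 M t s n (Y2 sel ψ Q M t s U n) ∧
        lab2 M t s (n + 1) (Y2 sel ψ P M t s U (n + 1)) ≠ lab2 M t s (n + 1) (Y2 sel ψ Q M t s U (n + 1)) then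
        ENNReal.ofReal (cc q M t n (Y2 sel ψ P M t s U n)) else 0) ∂nu =
      ∫⁻ U, F (Z U, ψ (U (n + 1))) ∂nu := by
    refine lintegral_congr fun U => ?_
    rw [hF, hZ]
    simp only [Y2]
    congr
  rw [h2]
  have hψ : Measurable fun U : ℕ → ℝ => ψ (U (n + 1)) := H.ψm.comp (by fun_prop)
  have h3 : ∫⁻ U, F (Z U, ψ (U (n + 1))) ∂nu = ∫⁻ w, F w ∂((nu.map Z).prod (leb.prod leb)) := by
    rw [← h1, lintegral_map hFm (hZm.prodMk hψ)]
  rw [h3, lintegral_prod _ hFm.aemeasurable]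
  have : IsProbabilityMeasure (nu.map Z) := Measure.isProbabilityMeasure_map hZm.aemeasurable
  have hA : ∀ i, (nu.map Z) {ω | lab2 M t s n ω.1 = i} ≤ P {x | lab2 M t s n x = i} := by
    intro i
    have hms : MeasurableSet {x | lab2 M t s n x = i} := hl (measurableSet_singleton i)
    have e1 : (nu.map Z) {ω | lab2 M t s n ω.1 = i} =
        (nu.map fun U => Y2 sel ψ P M t s U n) {x | lab2 M t s n x = i} := by
      rw [show {ω : ℝ × ℝ | lab2 M t s n ω.1 = i} = Prod.fst ⁻¹' {x | lab2 M t s n x = i} from rfl,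
        Measure.map_apply hZm (measurable_fst hms), Measure.map_apply hmP hms]
      rfl
    rw [e1, law_Y2 H P n t s]
  have hB : ∀ i, (nu.map Z) {ω | lab2 M t s n ω.2 = i} ≤ Q {x | lab2 M t s n x = i} := by
    intro i
    have hms : MeasurableSet {x | lab2 M t s n x = i} := hl (measurableSet_singleton i)
    have e1 : (nu.map Z) {ω | lab2 M t s n ω.2 = i} =
        (nu.map fun U => Y2 sel ψ Q M t s U n) {x | lab2 M t s n x = i} := by
      rw [show {ω : ℝ × ℝ | lab2 M t s n ω.2 = i} = Prod.snd ⁻¹' {x | lab2 M t s n x = i} from rfl,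
        Measure.map_apply hZm (measurable_snd hms), Measure.map_apply hmQ hms]
      rfl
    rw [e1, law_Y2 H Q n t s]
  obtain ⟨-, hWn⟩ := H.hW q M H.hM t s
  obtain ⟨hr1, hc0, hcl, hll⟩ := hWn n
  have h4 := H.hT (2 * M + 2) sel H.sl P Q (lab2 M t s n) (rr M t s n) (lab2 M t s (n + 1)) (cc q M t n)
    hl hr hl' hc hr1 hc0 hcl hll π hπ (ℝ × ℝ) (nu.map Z) Prod.fst Prod.snd measurable_fst measurable_snd hA hB
  refine le_trans (le_of_eq ?_) h4
  refine lintegral_congr fun z => ?_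
  rw [Set.indicator_apply]
  by_cases hz : lab2 M t s n z.1 = lab2 M t s n z.2
  · rw [if_pos (show z ∈ {ω : ℝ × ℝ | lab2 M t s n ω.1 = lab2 M t s n ω.2} from hz)]
    set S : Set (ℝ × ℝ) := {w | lab2 M t s (n + 1) (rk sel P (lab2 M t s n) (rr M t s n) z.1 w.1 w.2) ≠
        lab2 M t s (n + 1) (rk sel Q (lab2 M t s n) (rr M t s n) z.2 w.1 w.2)} with hS
    have hSm' : MeasurableSet S := measurable_prodMk_left hSm
    have e1 : (fun u => F (z, u)) = S.indicator fun _ => ENNReal.ofReal (cc q M t n z.1) := by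
      funext u
      rw [hF, Set.indicator_apply]
      simp only
      by_cases hu : u ∈ S
      · rw [if_pos hu, if_pos ⟨hz, hu⟩]
      · rw [if_neg hu, if_neg (fun h => hu h.2)]
    rw [e1, lintegral_indicator_const hSm']
  · rw [if_neg (show ¬ z ∈ {ω : ℝ × ℝ | lab2 M t s n ω.1 = lab2 M t s n ω.2} from hz)]
    have e1 : (fun u => F (z, u)) = fun _ => 0 := by
      funext u
      rw [hF]
      simp only
      rw [if_neg (fun h => hz h.1)]
    rw [e1]
    simp

/-! ### The limit -/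

theorem conv_Y2 (H : Hy sel ψ q M) (P : Measure ℝ) (w : ℝ × ℝ × (ℕ → ℝ)) :
    ∃ x : ℝ, Tendsto (fun n => Y2 sel ψ P M w.1 w.2.1 w.2.2 n) atTop (𝓝 x) :=
  (H.hP q M H.hM w.1 w.2.1 _ _ (fun n => lab_Y2 sel ψ P M w.1 w.2.1 w.2.2 n)
    (fun n => lab_Y2 sel ψ P M w.1 w.2.1 w.2.2 n)).1

noncomputable def X2 (sel : (ℕ → ℝ) → ℝ → ℕ) (ψ : ℝ → ℝ × ℝ) (P : Measure ℝ) (M : ℕ)
    (w : ℝ × ℝ × (ℕ → ℝ)) : ℝ :=
  limUnder atTop (fun n => Y2 sel ψ P M w.1 w.2.1 w.2.2 n)

theorem X2_lim (H : Hy sel ψ q M) (P : Measure ℝ) (w : ℝ × ℝ × (ℕ → ℝ)) :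
    Tendsto (fun n => Y2 sel ψ P M w.1 w.2.1 w.2.2 n) atTop (𝓝 (X2 sel ψ P M w)) :=
  tendsto_nhds_limUnder (conv_Y2 H P w)

theorem X2_meas (H : Hy sel ψ q M) (P : Measure ℝ) [IsProbabilityMeasure P] : Measurable (X2 sel ψ P M) :=
  measurable_of_tendsto_metrizable (fun n => meas_Y2 H P n)
    (tendsto_pi_nhds.2 fun w => X2_lim H P w)

theorem law_Y23 (H : Hy sel ψ q M) (n : ℕ) (P : Measure ℝ) [IsProbabilityMeasure P] :
    mu3.map (fun w : ℝ × ℝ × (ℕ → ℝ) => Y2 sel ψ P M w.1 w.2.1 w.2.2 n) = P := by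
  have hm := meas_Y2 H P n
  ext S hSm
  rw [Measure.map_apply hm hSm, Measure.prod_apply (hm hSm)]
  have h1 : ∀ t : ℝ, (leb.prod nu) (Prod.mk t ⁻¹' ((fun w : ℝ × ℝ × (ℕ → ℝ) =>
      Y2 sel ψ P M w.1 w.2.1 w.2.2 n) ⁻¹' S)) = P S := by
    intro t
    rw [Measure.prod_apply (measurable_prodMk_left (hm hSm))]
    have h2 : ∀ s : ℝ, nu (Prod.mk s ⁻¹' (Prod.mk t ⁻¹' ((fun w : ℝ × ℝ × (ℕ → ℝ) =>
        Y2 sel ψ P M w.1 w.2.1 w.2.2 n) ⁻¹' S))) = P S := by
      intro s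
      have h3 := law_Y2 H P n t s
      have h4 : (nu.map (fun U : ℕ → ℝ => Y2 sel ψ P M t s U n)) S = P S := by rw [h3]
      rw [Measure.map_apply (meas_Y2' H P n t s) hSm] at h4
      exact h4
    simp only [h2, lintegral_const, measure_univ, mul_one]
  simp only [h1, lintegral_const, measure_univ, mul_one]

theorem law_X2 (H : Hy sel ψ q M) (P : Measure ℝ) [IsProbabilityMeasure P] :
    mu3.map (X2 sel ψ P M) = P := by
  have hXm := X2_meas H P
  have : IsProbabilityMeasure (mu3.map (X2 sel ψ P M)) := Measure.isProbabilityMeasure_map hXm.aemeasurable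
  refine ext_of_forall_integral_eq_of_IsFiniteMeasure fun f => ?_
  rw [integral_map hXm.aemeasurable f.continuous.aestronglyMeasurable]
  have h1 : Tendsto (fun n => ∫ w, f (Y2 sel ψ P M w.1 w.2.1 w.2.2 n) ∂mu3) atTop
      (𝓝 (∫ w, f (X2 sel ψ P M w) ∂mu3)) := by
    refine tendsto_integral_of_dominated_convergence (fun _ => ‖f‖) ?_ (integrable_const _) ?_ ?_
    · exact fun n => (f.continuous.measurable.comp (meas_Y2 H P n)).aestronglyMeasurable
    · exact fun n => Eventually.of_forall fun w => f.norm_coe_le_norm _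
    · exact Eventually.of_forall fun w => (f.continuous.tendsto _).comp (X2_lim H P w)
  have h2 : ∀ n, ∫ w, f (Y2 sel ψ P M w.1 w.2.1 w.2.2 n) ∂mu3 = ∫ x, f x ∂P := by
    intro n
    have hm := meas_Y2 H P n
    conv_rhs => rw [← law_Y23 H n P]
    rw [integral_map hm.aemeasurable f.continuous.aestronglyMeasurable]
  simp only [h2] at h1
  exact tendsto_nhds_unique h1 tendsto_const_nhds |>.symm ▸ rfl

/-! ### The cost -/

noncomputable def tot2 (q : ℝ) (M : ℕ) (t s x y : ℝ) : ℝ≥0∞ :=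
  ENNReal.ofReal |w02 q M t x - w02 q M t y| + ∑' n : ℕ, D2 (lab2 M t s (n + 1)) (cc q M t n) x y

theorem m2_tot (hML : S_ML2) (q : ℝ) (M : ℕ) {α : Type} [MeasurableSpace α] {f g h k : α → ℝ}
    (hf : Measurable f) (hg : Measurable g) (hh : Measurable h) (hk : Measurable k) :
    Measurable (fun a => tot2 q M (f a) (g a) (h a) (k a)) :=
  (m_abs (m2_w0 hML q M hf hh) (m2_w0 hML q M hf hk)).add
    (Measurable.tsum fun n => m2_DD hML q M n hf hg hh hk)

theorem mean_tot2 (hML : S_ML2) (hE : S_TOPE2) (hN : S_TOPN2) (hI : S_INN2) (hM : HK q M)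
    (x y : ℝ) :
    ∫⁻ t, ∫⁻ s, tot2 q M t s x y ∂leb ∂leb ≤ 5000 * ENNReal.ofReal (|x - y| ^ q) := by
  have h1 : ∀ t, ∫⁻ s, tot2 q M t s x y ∂leb ≤
      9 * ENNReal.ofReal |w02 q M t x - w02 q M t y| + ENNReal.ofReal (200 * |x - y| ^ q) := by
    intro t
    unfold tot2
    rw [lintegral_add_left measurable_const, lintegral_const, measure_univ, mul_one]
    by_cases h : lab2 M t 0 0 x = lab2 M t 0 0 y
    · have h2 := hI q M hM t x y (fun s => h)
      calc _ ≤ ENNReal.ofReal |w02 q M t x - w02 q M t y| + ENNReal.ofReal (200 * |x - y| ^ q) := by gcongr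
        _ ≤ _ := by
          gcongr
          exact le_mul_of_one_le_left bot_le (by norm_num)
    · have h2 : ∫⁻ s, ∑' n : ℕ, D2 (lab2 M t s (n + 1)) (cc q M t n) x y ∂leb ≤
          ∫⁻ _s, ENNReal.ofReal (8 * |w02 q M t x - w02 q M t y|) ∂leb :=
        lintegral_mono fun s => hN q M hM t s x y h
      rw [lintegral_const, measure_univ, mul_one, ENNReal.ofReal_mul (by norm_num)] at h2
      calc _ ≤ ENNReal.ofReal |w02 q M t x - w02 q M t y| +
            ENNReal.ofReal 8 * ENNReal.ofReal |w02 q M t x - w02 q M t y| := by gcongr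
        _ = 9 * ENNReal.ofReal |w02 q M t x - w02 q M t y| := by
          rw [show ENNReal.ofReal 8 = 8 by norm_num]
          ring
        _ ≤ _ := le_self_add
  have hm : Measurable fun t => ENNReal.ofReal |w02 q M t x - w02 q M t y| :=
    m_abs (m2_w0 hML q M measurable_id measurable_const) (m2_w0 hML q M measurable_id measurable_const)
  calc ∫⁻ t, ∫⁻ s, tot2 q M t s x y ∂leb ∂leb ≤
        ∫⁻ t, (9 * ENNReal.ofReal |w02 q M t x - w02 q M t y| + ENNReal.ofReal (200 * |x - y| ^ q)) ∂leb :=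
        lintegral_mono h1
    _ = 9 * ∫⁻ t, ENNReal.ofReal |w02 q M t x - w02 q M t y| ∂leb + ENNReal.ofReal (200 * |x - y| ^ q) := by
        rw [lintegral_add_left (hm.const_mul _), lintegral_const_mul _ hm, lintegral_const, measure_univ,
          mul_one]
    _ ≤ 9 * ENNReal.ofReal (32 * |x - y| ^ q) + ENNReal.ofReal (200 * |x - y| ^ q) := by
        gcongr
        exact hE q M hM x y
    _ ≤ 5000 * ENNReal.ofReal (|x - y| ^ q) := by
        rw [ENNReal.ofReal_mul (by norm_num), ENNReal.ofReal_mul (by norm_num),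
          show ENNReal.ofReal 32 = 32 by norm_num, show ENNReal.ofReal 200 = 200 by norm_num,
          ← mul_assoc, ← add_mul]
        gcongr
        norm_num

theorem cost_X2 (H : Hy sel ψ q M)
    (P Q : Measure ℝ) [IsProbabilityMeasure P] [IsProbabilityMeasure Q] (π : Measure (ℝ × ℝ))
    (hπ : Cpl π P Q) :
    ∫⁻ w, ENNReal.ofReal (|X2 sel ψ P M w - X2 sel ψ Q M w| ^ q) ∂mu3 ≤
      ∫⁻ t, ∫⁻ s, ∫⁻ p, tot2 q M t s p.1 p.2 ∂π ∂leb ∂leb := by
  have hML := H.hML
  have hYm : ∀ (R : Measure ℝ) [IsProbabilityMeasure R] (n : ℕ) (t s : ℝ),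
      Measurable fun U : ℕ → ℝ => Y2 sel ψ R M t s U n := fun R _ n t s => meas_Y2' H R n t s
  have hXP := X2_meas H P
  have hXQ := X2_meas H Q
  have hm1 : Measurable fun w => ENNReal.ofReal (|X2 sel ψ P M w - X2 sel ψ Q M w| ^ q) :=
    (((hXP.sub hXQ).norm).pow_const q).ennreal_ofReal
  rw [lintegral_prod _ hm1.aemeasurable]
  refine lintegral_mono fun t => ?_
  have hm1' : Measurable fun y : ℝ × (ℕ → ℝ) =>
      ENNReal.ofReal (|X2 sel ψ P M (t, y) - X2 sel ψ Q M (t, y)| ^ q) := hm1.comp measurable_prodMk_left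
  rw [lintegral_prod _ hm1'.aemeasurable]
  refine lintegral_mono fun s => ?_
  have hm0 : Measurable fun U : ℕ → ℝ =>
      ENNReal.ofReal |w02 q M t (Y2 sel ψ P M t s U 0) - w02 q M t (Y2 sel ψ Q M t s U 0)| :=
    m_abs (m2_w0 hML q M measurable_const (hYm P 0 t s)) (m2_w0 hML q M measurable_const (hYm Q 0 t s))
  have hmn : ∀ n : ℕ, Measurable fun U : ℕ → ℝ =>
      (if lab2 M t s n (Y2 sel ψ P M t s U n) = lab2 M t s n (Y2 sel ψ Q M t s U n) ∧
        lab2 M t s (n + 1) (Y2 sel ψ P M t s U (n + 1)) ≠ lab2 M t s (n + 1) (Y2 sel ψ Q M t s U (n + 1)) then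
        ENNReal.ofReal (cc q M t n (Y2 sel ψ P M t s U n)) else 0) := fun n =>
    Measurable.ite ((measurableSet_eq_fun (m2_lab hML M n measurable_const measurable_const (hYm P n t s))
      (m2_lab hML M n measurable_const measurable_const (hYm Q n t s))).inter
      (measurableSet_eq_fun (m2_lab hML M (n + 1) measurable_const measurable_const (hYm P (n + 1) t s))
      (m2_lab hML M (n + 1) measurable_const measurable_const (hYm Q (n + 1) t s))).compl)
      ((m2_cc hML q M n measurable_const (hYm P n t s)).ennreal_ofReal) measurable_const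
  calc ∫⁻ U, ENNReal.ofReal (|X2 sel ψ P M (t, s, U) - X2 sel ψ Q M (t, s, U)| ^ q) ∂nu ≤
        ∫⁻ U, (ENNReal.ofReal |w02 q M t (Y2 sel ψ P M t s U 0) - w02 q M t (Y2 sel ψ Q M t s U 0)| +
          ∑' n : ℕ, (if lab2 M t s n (Y2 sel ψ P M t s U n) = lab2 M t s n (Y2 sel ψ Q M t s U n) ∧
        lab2 M t s (n + 1) (Y2 sel ψ P M t s U (n + 1)) ≠ lab2 M t s (n + 1) (Y2 sel ψ Q M t s U (n + 1)) then
        ENNReal.ofReal (cc q M t n (Y2 sel ψ P M t s U n)) else 0)) ∂nu := by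
        refine lintegral_mono fun U => ?_
        exact (H.hP q M H.hM t s (fun n => Y2 sel ψ P M t s U n) (fun n => Y2 sel ψ Q M t s U n)
          (fun n => lab_Y2 sel ψ P M t s U n) (fun n => lab_Y2 sel ψ Q M t s U n)).2 _ _
          (X2_lim H P (t, s, U)) (X2_lim H Q (t, s, U))
    _ = ∫⁻ U, ENNReal.ofReal |w02 q M t (Y2 sel ψ P M t s U 0) - w02 q M t (Y2 sel ψ Q M t s U 0)| ∂nu +
        ∑' n : ℕ, ∫⁻ U, (if lab2 M t s n (Y2 sel ψ P M t s U n) = lab2 M t s n (Y2 sel ψ Q M t s U n) ∧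
        lab2 M t s (n + 1) (Y2 sel ψ P M t s U (n + 1)) ≠ lab2 M t s (n + 1) (Y2 sel ψ Q M t s U (n + 1)) then
        ENNReal.ofReal (cc q M t n (Y2 sel ψ P M t s U n)) else 0) ∂nu := by
        rw [lintegral_add_left hm0, lintegral_tsum fun n => (hmn n).aemeasurable]
    _ ≤ ∫⁻ p, ENNReal.ofReal |w02 q M t p.1 - w02 q M t p.2| ∂π +
        ∑' n : ℕ, ∫⁻ p, D2 (lab2 M t s (n + 1)) (cc q M t n) p.1 p.2 ∂π := by
        refine add_le_add (cost02 H P Q π hπ t s) (ENNReal.tsum_le_tsum fun n => ?_)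
        exact costn2 H P Q π hπ t s n
    _ = ∫⁻ p, tot2 q M t s p.1 p.2 ∂π := by
        unfold tot2
        rw [lintegral_add_left (m_abs (m2_w0 hML q M measurable_const measurable_fst)
          (m2_w0 hML q M measurable_const measurable_snd)),
          lintegral_tsum fun n => (m2_DD hML q M n measurable_const measurable_const measurable_fst
            measurable_snd).aemeasurable]

theorem main2 (hX : S_EXM2) (hSel : S_SEL) (hPsi : S_PSI) (hQ : S_QLAW) (hML : S_ML2) (hR : S_MRK)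
    (hS : S_SPLIT) (hL : S_LAWK) (h0 : S_STEP0) (hT : S_STEPK) (hW : S_WP2) (hP : S_PATH2)
    (hE : S_TOPE2) (hN : S_TOPN2) (hI : S_INN2) (hU : S_UNIF) (q : ℝ) (h1 : 0 < q) (h2 : q ≤ 1 / 2) :
    optRatio q ≤ 5000 := by
  obtain ⟨M, hM⟩ := hX q h1 h2
  obtain ⟨sel, hsel⟩ := hSel (2 * M + 2) (by omega)
  obtain ⟨ψ, hψm, hψl⟩ := hPsi
  have H : Hy sel ψ q M := ⟨hQ, hML, hR, hS, hL, h0, hT, hW, hP, hsel, hψm, hψl, hM⟩
  obtain ⟨φ, hφ, hφl'⟩ := hU
  have hφl : leb.map φ = mu3 := hφl'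
  set XX : ProbabilityMeasure ℝ → ℝ → ℝ := fun P u => X2 sel ψ (P : Measure ℝ) M (φ u) with hXX
  have hcoup : IsCoupling XX := by
    refine ⟨fun P => ((X2_meas H (P : Measure ℝ)).comp hφ).aemeasurable, fun P => ?_⟩
    have h3 := law_X2 H (P : Measure ℝ)
    rw [← hφl, Measure.map_map (X2_meas H (P : Measure ℝ)) hφ] at h3
    exact h3
  refine (iInf₂_le XX hcoup).trans ?_
  refine (iInf₂_le (5000 : ℝ≥0) ⟨by norm_num, fun P Q => ?_⟩).trans (by norm_num)
  have h4 : ∀ π : Measure (ℝ × ℝ), (π.map Prod.fst = (P : Measure ℝ) ∧ π.map Prod.snd = (Q : Measure ℝ)) →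
      ∫⁻ u, ENNReal.ofReal (|XX P u - XX Q u| ^ q) ∂leb ≤
        5000 * ∫⁻ p, ENNReal.ofReal (|p.1 - p.2| ^ q) ∂π := by
    intro π hπ
    have hπp : IsProbabilityMeasure π := by
      constructor
      have h5 : (π.map Prod.fst) univ = 1 := by rw [hπ.1]; exact measure_univ
      rwa [Measure.map_apply measurable_fst MeasurableSet.univ, preimage_univ] at h5
    have h5 : ∫⁻ u, ENNReal.ofReal (|XX P u - XX Q u| ^ q) ∂leb =
        ∫⁻ w, ENNReal.ofReal (|X2 sel ψ (P : Measure ℝ) M w - X2 sel ψ (Q : Measure ℝ) M w| ^ q) ∂mu3 := by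
      have hm1 : Measurable fun w =>
          ENNReal.ofReal (|X2 sel ψ (P : Measure ℝ) M w - X2 sel ψ (Q : Measure ℝ) M w| ^ q) :=
        ((((X2_meas H (P : Measure ℝ)).sub (X2_meas H (Q : Measure ℝ))).norm).pow_const q).ennreal_ofReal
      rw [← hφl, lintegral_map hm1 hφ]
    rw [h5]
    refine (cost_X2 H (P : Measure ℝ) (Q : Measure ℝ) π hπ).trans ?_
    have h6 : ∀ t : ℝ, ∫⁻ s, ∫⁻ p, tot2 q M t s p.1 p.2 ∂π ∂leb =
        ∫⁻ p, ∫⁻ s, tot2 q M t s p.1 p.2 ∂leb ∂π := by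
      intro t
      refine lintegral_lintegral_swap (m2_tot hML q M measurable_const measurable_fst
        (measurable_fst.comp measurable_snd) (measurable_snd.comp measurable_snd)).aemeasurable
    simp only [h6]
    have h7 : Measurable fun w : ℝ × (ℝ × ℝ) => ∫⁻ s, tot2 q M w.1 s w.2.1 w.2.2 ∂leb := by
      refine Measurable.lintegral_prod_right'
        (f := fun v : (ℝ × (ℝ × ℝ)) × ℝ => tot2 q M v.1.1 v.2 v.1.2.1 v.1.2.2) ?_
      exact m2_tot hML q M (by fun_prop) (by fun_prop) (by fun_prop) (by fun_prop)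
    rw [lintegral_lintegral_swap h7.aemeasurable]
    have h8 : Measurable fun p : ℝ × ℝ => ENNReal.ofReal (|p.1 - p.2| ^ q) :=
      (((measurable_fst.sub measurable_snd).norm).pow_const q).ennreal_ofReal
    rw [← lintegral_const_mul _ h8]
    exact lintegral_mono fun p => mean_tot2 hML hE hN hI hM p.1 p.2
  unfold Cstar
  rw [show ((5000 : ℝ≥0) : ℝ≥0∞) = 5000 by norm_num, ENNReal.mul_iInf_of_ne (by norm_num) (by norm_num)]
  refine le_iInf fun π => ?_
  rw [ENNReal.mul_iInf_of_ne (by norm_num) (by norm_num)]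
  exact le_iInf fun hπ => h4 π hπ

end Pool.Agent.H99Q
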