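import Pool.Agent.H99Q.Stm

set_option autoImplicit false

namespace Pool.Agent.H99Q.EXM

theorem t : S_EXM := by
  intro q h1 h2
  have hq : 0 < 1 - q := by linarith
  set N := ⌈1 / (1 - q)⌉₊ with hN
  have hN1 : 1 / (1 - q) ≤ N := Nat.le_ceil _
  have hN2 : (N : ℝ) < 1 / (1 - q) + 1 := Nat.ceil_lt_add_one (by positivity)
  have hN0 : 1 ≤ N := by
    rw [Nat.one_le_iff_ne_zero]
    intro h0
    rw [h0, Nat.cast_zero] at hN1
    have : 0 < 1 / (1 - q) := by positivity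
    linarith
  have e1 : 1 ≤ (N : ℝ) * (1 - q) := by
    rw [div_le_iff₀ hq] at hN1
    exact hN1
  have e2 : (N : ℝ) * (1 - q) ≤ 2 := by
    have h3 : (N : ℝ) * (1 - q) ≤ (1 / (1 - q) + 1) * (1 - q) :=
      mul_le_mul_of_nonneg_right hN2.le hq.le
    have h4 : (1 / (1 - q) + 1) * (1 - q) = 1 + (1 - q) := by
      field_simp
    linarith
  have key : ((2 ^ N : ℕ) : ℝ) ^ (1 - q) = (2 : ℝ) ^ ((N : ℝ) * (1 - q)) := by
    rw [Nat.cast_pow, Nat.cast_ofNat, ← Real.rpow_natCast, ← Real.rpow_mul (by norm_num)]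
  refine ⟨2 ^ N, h1, h2, ?_, ?_, ?_⟩
  · calc 2 = 2 ^ 1 := by norm_num
      _ ≤ 2 ^ N := Nat.pow_le_pow_right (by norm_num) hN0
  · rw [key]
    calc (2 : ℝ) = 2 ^ (1 : ℝ) := by norm_num
      _ ≤ _ := Real.rpow_le_rpow_of_exponent_le (by norm_num) e1
  · rw [key]
    calc _ ≤ (2 : ℝ) ^ (2 : ℝ) := Real.rpow_le_rpow_of_exponent_le (by norm_num) e2
      _ = 4 := by norm_num

end Pool.Agent.H99Q.EXM
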