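import Pool.Agent.H99Q.Stm

set_option autoImplicit false

open MeasureTheory Set Filter Topology
open scoped NNReal ENNReal

namespace Pool.Agent.H99Q.FLOOR

open Pool.Agent.R972.PC

theorem flo (x s : ℝ) (h0 : 0 ≤ s) (h1 : s ≤ 1) :
    ((⌊x - s⌋ : ℤ) : ℝ) = ⌊x⌋ - (Ioi (Int.fract x)).indicator (fun _ => (1 : ℝ)) s := by
  have e := Int.floor_add_fract x
  have f0 := Int.fract_nonneg x
  have f1 := Int.fract_lt_one x
  by_cases hs : s ≤ Int.fract x
  · rw [indicator_of_notMem (by simpa using hs), sub_zero]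
    have : ⌊x - s⌋ = ⌊x⌋ := by
      rw [Int.floor_eq_iff]
      constructor <;> linarith
    rw [this]
  · have hs' : Int.fract x < s := not_le.1 hs
    rw [indicator_of_mem (by simpa using hs')]
    have : ⌊x - s⌋ = ⌊x⌋ - 1 := by
      rw [Int.floor_eq_iff]
      push_cast
      constructor <;> linarith
    rw [this]
    push_cast
    ring

theorem ind_int (f : ℝ) (h0 : 0 ≤ f) (h1 : f ≤ 1) :
    ∫ s, (Ioi f).indicator (fun _ => (1 : ℝ)) s ∂leb = 1 - f := by
  rw [integral_indicator measurableSet_Ioi, setIntegral_const, smul_eq_mul, mul_one]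
  unfold leb
  rw [measureReal_restrict_apply measurableSet_Ioi]
  have e : Ioi f ∩ Icc (0 : ℝ) 1 = Ioc f 1 := by
    ext s
    simp only [mem_inter_iff, mem_Ioi, mem_Icc, mem_Ioc]
    constructor
    · rintro ⟨h2, h3, h4⟩
      exact ⟨h2, h4⟩
    · rintro ⟨h2, h3⟩
      exact ⟨h2, by linarith, h3⟩
  rw [e, measureReal_def, Real.volume_Ioc, ENNReal.toReal_ofReal (by linarith)]

theorem ind_integrable (f : ℝ) :
    Integrable ((Ioi f).indicator (fun _ => (1 : ℝ))) leb :=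
  (integrable_const 1).indicator measurableSet_Ioi

theorem main (a b : ℝ) (hab : a ≤ b) :
    ∫⁻ s, ENNReal.ofReal |((⌊a - s⌋ : ℤ) : ℝ) - ((⌊b - s⌋ : ℤ) : ℝ)| ∂leb ≤
      ENNReal.ofReal |a - b| := by
  have hae : ∀ᵐ s ∂leb, s ∈ Icc (0 : ℝ) 1 := by
    unfold leb
    exact ae_restrict_mem measurableSet_Icc
  let g : ℝ → ℝ := fun s => ((⌊b⌋ : ℝ) - (Ioi (Int.fract b)).indicator (fun _ => (1 : ℝ)) s) -
    ((⌊a⌋ : ℝ) - (Ioi (Int.fract a)).indicator (fun _ => (1 : ℝ)) s)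
  have hg : ∀ s ∈ Icc (0 : ℝ) 1, |((⌊a - s⌋ : ℤ) : ℝ) - ((⌊b - s⌋ : ℤ) : ℝ)| = g s ∧ 0 ≤ g s := by
    intro s hs
    have h1 : ⌊a - s⌋ ≤ ⌊b - s⌋ := Int.floor_le_floor (by linarith)
    have h2 : ((⌊a - s⌋ : ℤ) : ℝ) ≤ ((⌊b - s⌋ : ℤ) : ℝ) := by exact_mod_cast h1
    have e : g s = ((⌊b - s⌋ : ℤ) : ℝ) - ((⌊a - s⌋ : ℤ) : ℝ) := by
      show _ - _ = _
      rw [flo a s hs.1 hs.2, flo b s hs.1 hs.2]
    constructor
    · rw [e, abs_of_nonpos (by linarith)]
      ring
    · rw [e]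
      linarith
  have i1 : Integrable (fun s => (⌊b⌋ : ℝ) - (Ioi (Int.fract b)).indicator (fun _ => (1 : ℝ)) s)
      leb := (integrable_const _).sub (ind_integrable _)
  have i2 : Integrable (fun s => (⌊a⌋ : ℝ) - (Ioi (Int.fract a)).indicator (fun _ => (1 : ℝ)) s)
      leb := (integrable_const _).sub (ind_integrable _)
  have e1 : ∫⁻ s, ENNReal.ofReal |((⌊a - s⌋ : ℤ) : ℝ) - ((⌊b - s⌋ : ℤ) : ℝ)| ∂leb =
      ∫⁻ s, ENNReal.ofReal (g s) ∂leb := by
    refine lintegral_congr_ae ?_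
    filter_upwards [hae] with s hs
    rw [(hg s hs).1]
  have e2 : ∫ s, g s ∂leb = b - a := by
    show ∫ s, (((⌊b⌋ : ℝ) - (Ioi (Int.fract b)).indicator (fun _ => (1 : ℝ)) s) -
      ((⌊a⌋ : ℝ) - (Ioi (Int.fract a)).indicator (fun _ => (1 : ℝ)) s)) ∂leb = b - a
    rw [integral_sub i1 i2, integral_sub (integrable_const _) (ind_integrable _),
      integral_sub (integrable_const _) (ind_integrable _),
      ind_int _ (Int.fract_nonneg b) (Int.fract_lt_one b).le,
      ind_int _ (Int.fract_nonneg a) (Int.fract_lt_one a).le, integral_const, integral_const]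
    have ea := Int.floor_add_fract a
    have eb := Int.floor_add_fract b
    simp only [probReal_univ, one_smul]
    linarith
  have i3 : Integrable g leb := i1.sub i2
  have h0 : 0 ≤ᵐ[leb] g := by
    filter_upwards [hae] with s hs
    exact (hg s hs).2
  rw [e1, ← ofReal_integral_eq_lintegral_ofReal i3 h0]
  refine ENNReal.ofReal_le_ofReal ?_
  refine (le_of_eq e2).trans ?_
  rw [abs_of_nonpos (by linarith)]
  linarith

theorem t : S_FLOOR := by
  intro a b
  rcases le_total a b with h | h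
  · exact main a b h
  · have h1 := main b a h
    rw [abs_sub_comm a b]
    refine le_trans (le_of_eq ?_) h1
    refine lintegral_congr fun s => ?_
    rw [abs_sub_comm]

end Pool.Agent.H99Q.FLOOR
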