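import Pool.Agent.H99Q.Stm

set_option autoImplicit false

open MeasureTheory Set Filter Topology Pool.Agent.R972.PC
open scoped NNReal ENNReal

namespace Pool.Agent.H99Q.GE1

theorem ae_Ioo : ∀ᵐ u ∂leb, u ∈ Ioo (0 : ℝ) 1 := by
  unfold leb
  rw [← restrict_Ioo_eq_restrict_Icc]
  exact ae_restrict_mem measurableSet_Ioo

/-- down-sets of the unit interval are nested -/
theorem nested {Ω : Type} [MeasurableSpace Ω] (π : Measure Ω) [IsFiniteMeasure π] (U V : Ω → ℝ)
    (hU : Measurable U) (hV : Measurable V) (X Y : ℝ → ℝ) (hX : MonotoneOn X (Ioo 0 1))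
    (hY : MonotoneOn Y (Ioo 0 1)) (hXm : Measurable X) (hYm : Measurable Y)
    (hXU : leb.map X = π.map U) (hYV : leb.map Y = π.map V) (z z' : ℝ) :
    leb {u | Y u ≤ z' ∧ z < X u} ≤ π {ω | V ω ≤ z' ∧ z < U ω} := by
  have hA : MeasurableSet {u | X u ≤ z} := hXm measurableSet_Iic
  by_cases hc : ∀ u ∈ Ioo (0 : ℝ) 1, Y u ≤ z' → X u ≤ z
  · have h0 : leb {u | Y u ≤ z' ∧ z < X u} = 0 := by
      rw [measure_eq_zero_iff_ae_notMem]
      filter_upwards [ae_Ioo] with u hu hh
      exact absurd (hc u hu hh.1) (not_le.mpr hh.2)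
    rw [h0]
    exact bot_le
  · push Not at hc
    obtain ⟨u0, hu0, hy0, hx0⟩ := hc
    have e1 : leb {u | Y u ≤ z' ∧ z < X u} + leb {u | X u ≤ z} ≤ leb {u | Y u ≤ z'} := by
      have e2 : leb {u | X u ≤ z} ≤ leb ({u | Y u ≤ z'} ∩ {u | X u ≤ z}) := by
        apply measure_mono_ae
        filter_upwards [ae_Ioo] with u hu hh
        refine ⟨?_, hh⟩
        have hh' : X u ≤ z := hh
        have hlt : u ≤ u0 := by
          by_contra hcon
          push Not at hcon
          have := hX hu0 hu hcon.le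
          linarith
        exact (hY hu hu0 hlt).trans hy0
      have e3 : {u | Y u ≤ z' ∧ z < X u} = {u | Y u ≤ z'} \ {u | X u ≤ z} := by
        ext u
        simp [not_le]
      rw [e3, ← measure_sdiff_add_inter {u | Y u ≤ z'} hA]
      gcongr
    have e4 : leb {u | X u ≤ z} = π {ω | U ω ≤ z} := by
      have := congrArg (fun m : Measure ℝ => m (Iic z)) hXU
      rw [Measure.map_apply hXm measurableSet_Iic, Measure.map_apply hU measurableSet_Iic] at this
      exact this
    have e5 : leb {u | Y u ≤ z'} = π {ω | V ω ≤ z'} := by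
      have := congrArg (fun m : Measure ℝ => m (Iic z')) hYV
      rw [Measure.map_apply hYm measurableSet_Iic, Measure.map_apply hV measurableSet_Iic] at this
      exact this
    have e6 : π {ω | V ω ≤ z'} ≤ π {ω | V ω ≤ z' ∧ z < U ω} + π {ω | U ω ≤ z} := by
      refine (measure_mono ?_).trans (measure_union_le _ _)
      intro ω hω
      by_cases h : U ω ≤ z
      · exact Or.inr h
      · exact Or.inl ⟨hω, not_le.mp h⟩
    rw [e4, e5] at e1
    exact (ENNReal.add_le_add_iff_right (measure_ne_top π _)).mp (e1.trans e6)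

theorem tonelli (ν : Measure ℝ) [SFinite ν] {Ω : Type} [MeasurableSpace Ω] (μ : Measure Ω) [SFinite μ]
    (X Y : Ω → ℝ) (hX : Measurable X) (hY : Measurable Y) :
    ∫⁻ ω, (ν.prod (volume : Measure ℝ)) {w : ℝ × ℝ | Y ω ≤ w.2 - w.1 ∧ w.2 < X ω} ∂μ =
      ∫⁻ w, μ {ω | Y ω ≤ w.2 - w.1 ∧ w.2 < X ω} ∂(ν.prod (volume : Measure ℝ)) := by
  have hS : MeasurableSet {p : Ω × (ℝ × ℝ) | Y p.1 ≤ p.2.2 - p.2.1 ∧ p.2.2 < X p.1} := by
    apply MeasurableSet.inter
    · exact measurableSet_le (hY.comp measurable_fst) (by fun_prop)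
    · exact measurableSet_lt (by fun_prop) (hX.comp measurable_fst)
  have h1 := Measure.prod_apply (μ := μ) (ν := ν.prod (volume : Measure ℝ)) hS
  have h2 := Measure.prod_apply_symm (μ := μ) (ν := ν.prod (volume : Measure ℝ)) hS
  exact h1.symm.trans h2

/-- the Stieltjes function `q s ^ (q - 1)`, `s ≥ 0` -/
noncomputable def st (q : ℝ) (hq : 1 ≤ q) : StieltjesFunction ℝ where
  toFun s := if s < 0 then 0 else q * s ^ (q - 1)
  mono' := by
    intro a b hab
    show (if a < 0 then (0 : ℝ) else q * a ^ (q - 1)) ≤ (if b < 0 then (0 : ℝ) else q * b ^ (q - 1))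
    split_ifs with h1 h2 h2
    · exact le_rfl
    · push Not at h2
      positivity
    · push Not at h1
      linarith
    · push Not at h1 h2
      have := Real.rpow_le_rpow h1 hab (by linarith : 0 ≤ q - 1)
      nlinarith
  right_continuous' := by
    intro x
    rcases lt_or_ge x 0 with h | h
    · have : (fun s : ℝ => if s < 0 then (0 : ℝ) else q * s ^ (q - 1)) =ᶠ[𝓝 x] fun _ => 0 := by
        filter_upwards [Iio_mem_nhds h] with s hs
        rw [if_pos (mem_Iio.mp hs)]
      exact (continuousAt_const.congr this.symm).continuousWithinAt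
    · have hc : Continuous (fun s : ℝ => q * s ^ (q - 1)) :=
        continuous_const.mul (Real.continuous_rpow_const (by linarith))
      show ContinuousWithinAt (fun s : ℝ => if s < 0 then (0 : ℝ) else q * s ^ (q - 1)) (Ici x) x
      refine hc.continuousWithinAt.congr ?_ ?_
      · intro s hs
        have hs' : x ≤ s := hs
        rw [if_neg (by linarith)]
      · rw [if_neg (by linarith)]

theorem st_Iic (q : ℝ) (hq : 1 ≤ q) (s : ℝ) :
    (st q hq).measure (Iic s) = ENNReal.ofReal (if s < 0 then 0 else q * s ^ (q - 1)) := by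
  have hl : Tendsto (st q hq) atBot (𝓝 0) := by
    apply tendsto_const_nhds.congr'
    filter_upwards [eventually_lt_atBot (0 : ℝ)] with x hx
    show (0 : ℝ) = if x < 0 then 0 else q * x ^ (q - 1)
    rw [if_pos hx]
  rw [StieltjesFunction.measure_Iic _ hl, sub_zero]
  rfl

theorem mass (q : ℝ) (hq : 1 ≤ q) (x y : ℝ) :
    ((st q hq).measure.prod (volume : Measure ℝ)) {w : ℝ × ℝ | y ≤ w.2 - w.1 ∧ w.2 < x} =
      ENNReal.ofReal ((max (x - y) 0) ^ q) := by
  have hS : MeasurableSet {w : ℝ × ℝ | y ≤ w.2 - w.1 ∧ w.2 < x} := by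
    exact (measurableSet_le measurable_const (measurable_snd.sub measurable_fst)).inter
      (measurableSet_lt measurable_snd measurable_const)
  rw [Measure.prod_apply_symm hS]
  have e1 : ∀ z : ℝ, (st q hq).measure ((fun a => (a, z)) ⁻¹' {w : ℝ × ℝ | y ≤ w.2 - w.1 ∧ w.2 < x}) =
      (Ico y x).indicator (fun z => ENNReal.ofReal (q * (z - y) ^ (q - 1))) z := by
    intro z
    by_cases hz : z < x
    · have : (fun a => (a, z)) ⁻¹' {w : ℝ × ℝ | y ≤ w.2 - w.1 ∧ w.2 < x} = Iic (z - y) := by
        ext a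
        simp only [mem_preimage, mem_ofPred_eq, mem_Iic]
        constructor
        · intro h
          linarith [h.1]
        · intro h
          exact ⟨by linarith, hz⟩
      rw [this, st_Iic]
      by_cases hy : y ≤ z
      · rw [if_neg (by linarith), indicator_of_mem (mem_Ico.mpr ⟨hy, hz⟩)]
      · push Not at hy
        rw [if_pos (by linarith), indicator_of_notMem (fun h => absurd (mem_Ico.mp h).1 (not_le.mpr hy)),
          ENNReal.ofReal_zero]
    · have : (fun a => (a, z)) ⁻¹' {w : ℝ × ℝ | y ≤ w.2 - w.1 ∧ w.2 < x} = ∅ := by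
        ext a
        simp only [mem_preimage, mem_ofPred_eq, mem_empty_iff_false, iff_false]
        intro h
        exact hz h.2
      rw [this, measure_empty, indicator_of_notMem (fun h => hz (mem_Ico.mp h).2)]
  simp only [e1]
  rw [lintegral_indicator measurableSet_Ico]
  rcases le_or_gt x y with hxy | hxy
  · rw [Ico_eq_empty (not_lt.mpr hxy), max_eq_right (by linarith), Real.zero_rpow (by linarith)]
    simp
  · have hint : IntervalIntegrable (fun z : ℝ => q * (z - y) ^ (q - 1)) volume y x := by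
      apply Continuous.intervalIntegrable
      exact continuous_const.mul ((Real.continuous_rpow_const (by linarith : 0 ≤ q - 1)).comp
        (continuous_id.sub continuous_const))
    have e2 : ∫ z in y..x, q * (z - y) ^ (q - 1) = (x - y) ^ q := by
      rw [intervalIntegral.integral_const_mul, intervalIntegral.integral_comp_sub_right (fun z => z ^ (q - 1)) y,
        integral_rpow (Or.inl (by linarith)), sub_self, sub_add_cancel, Real.zero_rpow (by linarith), sub_zero]
      field_simp
    rw [restrict_Ico_eq_restrict_Ioc, ← ofReal_integral_eq_lintegral_ofReal, ← intervalIntegral.integral_of_le hxy.le,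
      e2, max_eq_left (by linarith)]
    · exact (intervalIntegrable_iff_integrableOn_Ioc_of_le hxy.le).mp hint
    · filter_upwards [ae_restrict_mem measurableSet_Ioc] with z hz
      have : 0 ≤ z - y := by linarith [hz.1]
      positivity

theorem compare (q : ℝ) (hq : 1 ≤ q) {Ω : Type} [MeasurableSpace Ω] (π : Measure Ω) [IsFiniteMeasure π]
    (U V : Ω → ℝ) (hU : Measurable U) (hV : Measurable V) (X Y : ℝ → ℝ) (hX : MonotoneOn X (Ioo 0 1))
    (hY : MonotoneOn Y (Ioo 0 1)) (hXm : Measurable X) (hYm : Measurable Y)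
    (hXU : leb.map X = π.map U) (hYV : leb.map Y = π.map V) :
    ∫⁻ u, ENNReal.ofReal ((max (X u - Y u) 0) ^ q) ∂leb ≤
      ∫⁻ ω, ENNReal.ofReal ((max (U ω - V ω) 0) ^ q) ∂π := by
  simp only [← mass q hq]
  rw [tonelli _ leb X Y hXm hYm, tonelli _ π U V hU hV]
  apply lintegral_mono
  intro w
  exact nested π U V hU hV X Y hX hY hXm hYm hXU hYV w.2 (w.2 - w.1)

theorem split (q : ℝ) (hq : 1 ≤ q) (r : ℝ) :
    ENNReal.ofReal (|r| ^ q) = ENNReal.ofReal ((max r 0) ^ q) + ENNReal.ofReal ((max (-r) 0) ^ q) := by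
  have h0 : (0 : ℝ) ^ q = 0 := Real.zero_rpow (by linarith)
  rcases le_total 0 r with h | h
  · rw [abs_of_nonneg h, max_eq_left h, max_eq_right (by linarith), h0, ENNReal.ofReal_zero, add_zero]
  · rw [abs_of_nonpos h, max_eq_right h, max_eq_left (by linarith), h0, ENNReal.ofReal_zero, zero_add]

theorem t (h : S_QLAW) : S_GE1 := by
  intro q hq
  set X0 : ProbabilityMeasure ℝ → ℝ → ℝ := fun P u => G (P : Measure ℝ) u with hX0
  have hne : ∀ P : ProbabilityMeasure ℝ, (P : Measure ℝ) ≠ 0 := fun P => IsProbabilityMeasure.ne_zero _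
  have hlaw : ∀ P : ProbabilityMeasure ℝ, leb.map (X0 P) = (P : Measure ℝ) := by
    intro P
    have := (h (P : Measure ℝ) (hne P)).2.2
    rw [measure_univ, inv_one, one_smul] at this
    exact this
  have hmeas : ∀ P : ProbabilityMeasure ℝ, Measurable (X0 P) := fun P => (h (P : Measure ℝ) (hne P)).2.1
  have hmono : ∀ P : ProbabilityMeasure ℝ, MonotoneOn (X0 P) (Ioo 0 1) := fun P => (h (P : Measure ℝ) (hne P)).1
  have hC : IsCoupling X0 := ⟨fun P => (hmeas P).aemeasurable, hlaw⟩
  refine (iInf₂_le X0 hC).trans ?_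
  have key : ∀ P Q : ProbabilityMeasure ℝ,
      ∫⁻ u, ENNReal.ofReal (|X0 P u - X0 Q u| ^ q) ∂leb ≤ ((1 : ℝ≥0) : ℝ≥0∞) * Cstar q P Q := by
    intro P Q
    rw [ENNReal.coe_one, one_mul]
    refine le_iInf₂ (fun π hπ => ?_)
    have : IsFiniteMeasure π := by
      refine ⟨?_⟩
      have h1 : π univ = (P : Measure ℝ) univ := by
        rw [← hπ.1, Measure.map_apply measurable_fst MeasurableSet.univ, preimage_univ]
      rw [h1]
      exact measure_lt_top _ _
    have c1 := compare q hq π Prod.fst Prod.snd measurable_fst measurable_snd (X0 P) (X0 Q) (hmono P) (hmono Q)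
      (hmeas P) (hmeas Q) ((hlaw P).trans hπ.1.symm) ((hlaw Q).trans hπ.2.symm)
    have c2 := compare q hq π Prod.snd Prod.fst measurable_snd measurable_fst (X0 Q) (X0 P) (hmono Q) (hmono P)
      (hmeas Q) (hmeas P) ((hlaw Q).trans hπ.2.symm) ((hlaw P).trans hπ.1.symm)
    have m1 : Measurable (fun u => ENNReal.ofReal ((max (X0 P u - X0 Q u) 0) ^ q)) :=
      (((((hmeas P).sub (hmeas Q)).max measurable_const).pow_const q)).ennreal_ofReal
    have m2 : Measurable (fun p : ℝ × ℝ => ENNReal.ofReal ((max (p.1 - p.2) 0) ^ q)) :=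
      ((((measurable_fst.sub measurable_snd).max measurable_const).pow_const q)).ennreal_ofReal
    simp only [split q hq, neg_sub]
    rw [lintegral_add_left m1, lintegral_add_left m2]
    exact add_le_add c1 c2
  have := iInf₂_le (f := fun (r : ℝ≥0) (_ : 1 ≤ r ∧ ∀ P Q : ProbabilityMeasure ℝ,
    ∫⁻ u, ENNReal.ofReal (|X0 P u - X0 Q u| ^ q) ∂leb ≤ r * Cstar q P Q) => (r : ℝ≥0∞)) 1 ⟨le_rfl, key⟩
  exact this.trans (le_of_eq ENNReal.coe_one)

end Pool.Agent.H99Q.GE1
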