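import Pool.Agent.H99Q.Stm

/-!
# Stub INN: points in the same block of level 0
-/

set_option autoImplicit false

open MeasureTheory Set Filter Topology Pool.Agent.R972.PC
open scoped NNReal ENNReal

namespace Pool.Agent.H99Q.INN

/-- a geometric sum up to `X` -/
lemma geo_up (a X : ℝ) (ha : 2 ≤ a) (hX : 0 < X) :
    ∑' n : ℕ, (if a ^ n < X then ENNReal.ofReal (a ^ n) else 0) ≤ ENNReal.ofReal (2 * X) := by
  have key : ∀ N : ℕ, (∑ n ∈ Finset.range N, (if a ^ n < X then a ^ n else 0)) ≤ 2 * X ∧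
      (∑ n ∈ Finset.range N, (if a ^ n < X then a ^ n else 0)) ≤ a ^ N := by
    intro N
    induction N with
    | zero => simp; linarith
    | succ N ih =>
      rw [Finset.sum_range_succ]
      have h1 : 0 < a ^ N := pow_pos (by linarith) N
      have h2 : a ^ (N + 1) = a * a ^ N := by ring
      have h3 : 2 * a ^ N ≤ a * a ^ N := mul_le_mul_of_nonneg_right ha h1.le
      split_ifs with h
      · constructor
        · linarith [ih.2]
        · rw [h2]; linarith [ih.2]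
      · constructor
        · linarith [ih.1]
        · rw [h2]; linarith [ih.2]
  apply ENNReal.tsum_le_of_sum_range_le
  intro N
  have h1 : ∑ n ∈ Finset.range N, (if a ^ n < X then ENNReal.ofReal (a ^ n) else 0) =
      ENNReal.ofReal (∑ n ∈ Finset.range N, (if a ^ n < X then a ^ n else 0)) := by
    rw [ENNReal.ofReal_sum_of_nonneg]
    · refine Finset.sum_congr rfl fun n _ => ?_
      split_ifs
      · rfl
      · rw [ENNReal.ofReal_zero]
    · intro n _
      split_ifs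
      · exact pow_nonneg (by linarith) n
      · exact le_rfl
  rw [h1]
  exact ENNReal.ofReal_le_ofReal (key N).1

/-- a geometric sum from `Y` down -/
lemma geo_down (b Y : ℝ) (hb : 0 < b) (hb2 : 2 * b ≤ 1) (hY : 0 < Y) :
    ∑' n : ℕ, (if b ^ n ≤ Y then ENNReal.ofReal (b ^ n) else 0) ≤ ENNReal.ofReal (2 * Y) := by
  have key : ∀ N : ℕ, (∑ n ∈ Finset.range N, (if b ^ n ≤ Y then b ^ n else 0)) ≤ max 0 (2 * Y - 2 * b ^ N) := by
    intro N
    induction N with
    | zero => simp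
    | succ N ih =>
      rw [Finset.sum_range_succ]
      have h1 : 0 < b ^ N := pow_pos hb N
      have h2 : b ^ (N + 1) = b * b ^ N := by ring
      have h3 : 2 * b * b ^ N ≤ 1 * b ^ N := mul_le_mul_of_nonneg_right hb2 h1.le
      split_ifs with h
      · rw [max_eq_right (by linarith)] at ih
        refine le_trans ?_ (le_max_right _ _)
        rw [h2]
        linarith
      · rw [max_eq_left (by linarith)] at ih
        refine le_trans ?_ (le_max_left _ _)
        linarith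
  apply ENNReal.tsum_le_of_sum_range_le
  intro N
  have h1 : ∑ n ∈ Finset.range N, (if b ^ n ≤ Y then ENNReal.ofReal (b ^ n) else 0) =
      ENNReal.ofReal (∑ n ∈ Finset.range N, (if b ^ n ≤ Y then b ^ n else 0)) := by
    rw [ENNReal.ofReal_sum_of_nonneg]
    · refine Finset.sum_congr rfl fun n _ => ?_
      split_ifs
      · rfl
      · rw [ENNReal.ofReal_zero]
    · intro n _
      split_ifs
      · exact pow_nonneg hb.le n
      · exact le_rfl
  rw [h1]
  refine ENNReal.ofReal_le_ofReal ((key N).trans (max_le (by linarith) ?_))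
  linarith [pow_pos hb N]

lemma lab_succ (M : ℕ) (t s : ℝ) (n : ℕ) (x y : ℝ) : lab M t s (n + 1) x = lab M t s (n + 1) y ↔
    lab M t s n x = lab M t s n y ∧ kk M t s (n + 1) x = kk M t s (n + 1) y := by
  have h1 : ∀ z, lab M t s (n + 1) z = Encodable.encode (lab M t s n z, kk M t s (n + 1) z) := fun z => rfl
  rw [h1, h1, Encodable.encode_inj, Prod.mk.injEq]

lemma lab_zero (M : ℕ) (t s x y : ℝ) : lab M t s 0 x = lab M t s 0 y ↔
    SignType.sign x = SignType.sign y ∧ sc t x = sc t y := by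
  have h1 : ∀ z, lab M t s 0 z = Encodable.encode ((((SignType.sign z : SignType) : ℤ)), sc t z) := fun z => rfl
  rw [h1, h1, Encodable.encode_inj, Prod.mk.injEq]
  constructor
  · rintro ⟨h2, h3⟩
    refine ⟨?_, h3⟩
    generalize SignType.sign x = a at h2 ⊢
    generalize SignType.sign y = b at h2 ⊢
    revert a b
    decide
  · rintro ⟨h2, h3⟩
    rw [h2, h3]
    exact ⟨rfl, rfl⟩

lemma lab_of (M : ℕ) (t s x y : ℝ) (h0 : lab M t s 0 x = lab M t s 0 y) (n : ℕ)
    (h : ∀ i < n, kk M t s (i + 1) x = kk M t s (i + 1) y) : lab M t s n x = lab M t s n y := by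
  induction n with
  | zero => exact h0
  | succ n ih =>
    rw [lab_succ]
    exact ⟨ih fun i hi => h i (by omega), h n (by omega)⟩

lemma lab_kk (M : ℕ) (t s x y : ℝ) (n : ℕ) (h : lab M t s n x = lab M t s n y) (i : ℕ) (hi : i < n) :
    kk M t s (i + 1) x = kk M t s (i + 1) y := by
  induction n with
  | zero => omega
  | succ n ih =>
    rw [lab_succ] at h
    rcases Nat.lt_succ_iff_lt_or_eq.mp hi with h1 | h1
    · exact ih h.1 h1
    · rw [h1]; exact h.2

/-- `|x| < T` -/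
lemma abs_lt_T (t x : ℝ) (hx : x ≠ 0) : |x| < T t x := by
  unfold T
  rw [if_neg hx]
  have h1 : Real.logb 2 |x| < (sc t x : ℝ) + 1 + t := by
    have h2 := Int.lt_floor_add_one (Real.logb 2 |x| - t)
    unfold sc
    linarith
  have h3 : |x| = 2 ^ Real.logb 2 |x| :=
    (Real.rpow_logb (by norm_num) (by norm_num) (abs_pos.mpr hx)).symm
  rw [h3]
  exact Real.rpow_lt_rpow_of_exponent_lt (by norm_num) h1

lemma kk_meas (M : ℕ) (t x : ℝ) (n : ℕ) : Measurable fun s : ℝ => ((kk M t s n x : ℤ) : ℝ) := by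
  unfold kk
  have h1 : Measurable fun s : ℝ => ⌊(M : ℝ) ^ n * x / T t x - s⌋ :=
    Int.measurable_floor.comp (measurable_const.sub measurable_id)
  exact (measurable_from_top (f := fun z : ℤ => (z : ℝ))).comp h1

lemma sumB (K b : ℝ) (hK : 0 ≤ K) (hb : 0 < b) (hb2 : 2 * b ≤ 1) (P : ℕ → ℝ≥0∞) :
    ∑' n : ℕ, ∑ i ∈ Finset.range n, ENNReal.ofReal (K * b ^ n) * P (i + 1) ≤
      ENNReal.ofReal (2 * K) * ∑' j : ℕ, P j * ENNReal.ofReal (b ^ j) := by
  have h1 : ∀ n : ℕ, ∑ i ∈ Finset.range n, ENNReal.ofReal (K * b ^ n) * P (i + 1) =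
      ∑' i : ℕ, (if i < n then ENNReal.ofReal (K * b ^ n) * P (i + 1) else 0) := by
    intro n
    rw [tsum_eq_sum (s := Finset.range n)]
    · refine Finset.sum_congr rfl fun i hi => ?_
      rw [if_pos (Finset.mem_range.mp hi)]
    · intro i hi
      rw [if_neg (by simpa using hi)]
  rw [tsum_congr h1, ENNReal.tsum_comm]
  have h2 : ∀ i : ℕ, ∑' n : ℕ, (if i < n then ENNReal.ofReal (K * b ^ n) * P (i + 1) else 0) ≤
      (fun j : ℕ => ENNReal.ofReal (2 * K) * (P j * ENNReal.ofReal (b ^ j))) (i + 1) := by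
    intro i
    have h3 : ∀ n : ℕ, (if i < n then ENNReal.ofReal (K * b ^ n) * P (i + 1) else 0) ≤
        (ENNReal.ofReal K * P (i + 1)) * (if b ^ n ≤ b ^ (i + 1) then ENNReal.ofReal (b ^ n) else 0) := by
      intro n
      by_cases h : i < n
      · have h4 : b ^ n ≤ b ^ (i + 1) := pow_le_pow_of_le_one hb.le (by linarith) (by omega)
        rw [if_pos h, if_pos h4, ENNReal.ofReal_mul hK]
        apply le_of_eq
        ring
      · rw [if_neg h]
        exact zero_le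
    refine (ENNReal.tsum_le_tsum h3).trans ?_
    rw [ENNReal.tsum_mul_left]
    refine (mul_le_mul_right (geo_down b (b ^ (i + 1)) hb hb2 (pow_pos hb _)) _).trans (le_of_eq ?_)
    show ENNReal.ofReal K * P (i + 1) * ENNReal.ofReal (2 * b ^ (i + 1)) =
      ENNReal.ofReal (2 * K) * (P (i + 1) * ENNReal.ofReal (b ^ (i + 1)))
    rw [ENNReal.ofReal_mul (by norm_num : (0:ℝ) ≤ 2), ENNReal.ofReal_mul (by norm_num : (0:ℝ) ≤ 2)]
    ring
  refine (ENNReal.tsum_le_tsum h2).trans ?_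
  refine (ENNReal.tsum_comp_le_tsum_of_injective (add_left_injective 1)
    (fun j : ℕ => ENNReal.ofReal (2 * K) * (P j * ENNReal.ofReal (b ^ j)))).trans (le_of_eq ?_)
  rw [ENNReal.tsum_mul_left]

/-- the sum of the probabilities -/
lemma sumP (ρ b X Y z : ℝ) (hρ : 2 ≤ ρ) (hb : 0 < b) (hb2 : 2 * b ≤ 1) (hX : 0 < X) (hY : 0 < Y) (hz : 0 ≤ z)
    (P : ℕ → ℝ≥0∞) (h : ∀ j, (ρ ^ j < X ∧ P j * ENNReal.ofReal (b ^ j) ≤ ENNReal.ofReal (z * ρ ^ j)) ∨
      (b ^ j ≤ Y ∧ P j ≤ 1)) :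
    ∑' j : ℕ, P j * ENNReal.ofReal (b ^ j) ≤ ENNReal.ofReal (z * (2 * X) + 2 * Y) := by
  have h1 : ∀ j, P j * ENNReal.ofReal (b ^ j) ≤
      ENNReal.ofReal z * (if ρ ^ j < X then ENNReal.ofReal (ρ ^ j) else 0) +
        (if b ^ j ≤ Y then ENNReal.ofReal (b ^ j) else 0) := by
    intro j
    rcases h j with ⟨h2, h3⟩ | ⟨h2, h3⟩
    · rw [if_pos h2, ← ENNReal.ofReal_mul hz]
      exact h3.trans le_self_add
    · rw [if_pos h2]
      refine le_trans ?_ le_add_self
      calc P j * ENNReal.ofReal (b ^ j) ≤ 1 * ENNReal.ofReal (b ^ j) := mul_le_mul_left h3 _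
        _ = _ := one_mul _
  refine (ENNReal.tsum_le_tsum h1).trans ?_
  rw [ENNReal.tsum_add, ENNReal.tsum_mul_left, ENNReal.ofReal_add (by positivity) (by positivity),
    ENNReal.ofReal_mul hz]
  exact add_le_add (mul_le_mul_right (geo_up ρ X hρ hX) _) (geo_down b Y hb hb2 hY)

lemma key_id (q τ r : ℝ) (hτ : 0 < τ) (hr : 0 < r) : τ ^ q * (r / τ * (τ / r) ^ (1 - q)) = r ^ q := by
  have h1 : (τ / r) ^ (1 - q) = (r / τ) ^ (q - 1) := by
    rw [← inv_div, Real.inv_rpow (by positivity), ← Real.rpow_neg (by positivity)]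
    congr 1
    ring
  have h2 : r / τ * (r / τ) ^ (q - 1) = (r / τ) ^ q := by
    nth_rewrite 1 [← Real.rpow_one (r / τ)]
    rw [← Real.rpow_add (by positivity)]
    congr 1
    ring
  rw [h1, h2, ← Real.mul_rpow hτ.le (by positivity)]
  congr 1
  field_simp

lemma key_id2 (q τ r : ℝ) (hτ : 0 < τ) (hr : 0 < r) : τ ^ q * (r / τ) ^ q = r ^ q := by
  rw [← Real.mul_rpow hτ.le (by positivity)]
  congr 1
  field_simp

theorem t (hF : S_FLOOR) : S_INN := by
  intro q M hM t x y hlab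
  have hlab0 := hlab 0
  rw [lab_zero] at hlab0
  obtain ⟨hsign, hsc⟩ := hlab0
  by_cases hxy : x = y
  · subst hxy
    have h1 : ∀ s : ℝ, ∀ n : ℕ, DD (lab M t s n) (wn q M t s (n + 1)) (on q M t (n + 1)) x x = 0 := by
      intro s n
      unfold DD
      rw [if_pos rfl, sub_self, abs_zero, ENNReal.ofReal_zero]
    simp only [h1, tsum_zero, lintegral_zero]
    exact zero_le
  have hx : x ≠ 0 := by
    intro h
    rw [h, sign_zero] at hsign
    exact hxy (h.trans (sign_eq_zero_iff.mp hsign.symm).symm)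
  have hy : y ≠ 0 := by
    intro h
    rw [h, sign_zero] at hsign
    exact hxy ((sign_eq_zero_iff.mp hsign).trans h.symm)
  obtain ⟨τ, hτx⟩ : ∃ τ, T t x = τ := ⟨_, rfl⟩
  have hτy : T t y = τ := by
    rw [← hτx]
    unfold T
    rw [if_neg hx, if_neg hy, hsc]
  have hxT := abs_lt_T t x hx
  have hyT := abs_lt_T t y hy
  rw [hτx] at hxT
  rw [hτy] at hyT
  have hτ : 0 < τ := lt_of_le_of_lt (abs_nonneg x) hxT
  obtain ⟨r, hr⟩ : ∃ r, r = |x - y| := ⟨_, rfl⟩
  rw [← hr]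
  have hr0 : 0 < r := by rw [hr]; exact abs_pos.mpr (sub_ne_zero.mpr hxy)
  have hrT : r < τ := by
    rw [hr, abs_lt]
    rcases lt_or_gt_of_ne hx with h | h
    · have hy' : y < 0 := by
        rw [sign_neg h] at hsign
        exact sign_eq_neg_one_iff.mp hsign.symm
      rw [abs_of_neg h] at hxT
      rw [abs_of_neg hy'] at hyT
      constructor <;> linarith
    · have hy' : 0 < y := by
        rw [sign_pos h] at hsign
        exact sign_eq_one_iff.mp hsign.symm
      rw [abs_of_pos h] at hxT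
      rw [abs_of_pos hy'] at hyT
      constructor <;> linarith
  have hM1 : (1:ℝ) ≤ M := by
    have h1 : (2:ℝ) ≤ M := by exact_mod_cast hM.M2
    linarith
  have hM0 : (0:ℝ) < M := by linarith
  have hq0 : 0 < q := by linarith [hM.q1]
  obtain ⟨ρ, hρ⟩ : ∃ ρ, ρ = (M:ℝ) ^ (1 - q) := ⟨_, rfl⟩
  obtain ⟨b, hb⟩ : ∃ b, b = (M:ℝ) ^ (-q) := ⟨_, rfl⟩
  have hρ2 : 2 ≤ ρ := by rw [hρ]; exact hM.lo
  have hρ4 : ρ ≤ 4 := by rw [hρ]; exact hM.hi
  have hb0 : 0 < b := by rw [hb]; positivity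
  have hbM : b * M = ρ := by
    rw [hb, hρ]
    nth_rewrite 2 [← Real.rpow_one (M:ℝ)]
    rw [← Real.rpow_add hM0]
    congr 1
    ring
  have hb2 : 2 * b ≤ 1 := by
    have h1 : (2:ℝ) ≤ (M:ℝ) ^ q := hM.lo.trans (Real.rpow_le_rpow_of_exponent_le hM1 (by linarith [hM.q1]))
    rw [hb, Real.rpow_neg hM0.le]
    have h2 : (0:ℝ) < (M:ℝ) ^ q := by positivity
    rw [← div_eq_mul_inv, div_le_one h2]
    exact h1
  have hpow : ∀ n : ℕ, (M:ℝ) ^ (-((n:ℕ):ℝ) * q) = b ^ n := by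
    intro n
    rw [hb, ← Real.rpow_natCast, ← Real.rpow_mul hM0.le]
    congr 1
    ring
  have hbMn : ∀ n : ℕ, b ^ n * (M:ℝ) ^ n = ρ ^ n := by
    intro n
    rw [← mul_pow, hbM]
  -- the differences
  obtain ⟨Δ, hΔ⟩ : ∃ Δ : ℕ → ℝ → ℝ, ∀ n s, Δ n s = ((kk M t s n x : ℤ) : ℝ) - ((kk M t s n y : ℤ) : ℝ) :=
    ⟨fun n s => ((kk M t s n x : ℤ) : ℝ) - ((kk M t s n y : ℤ) : ℝ), fun _ _ => rfl⟩
  have hΔm : ∀ n, Measurable (Δ n) := by
    intro n
    have h1 : Δ n = fun s => ((kk M t s n x : ℤ) : ℝ) - ((kk M t s n y : ℤ) : ℝ) := by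
      funext s
      exact hΔ n s
    rw [h1]
    exact (kk_meas M t x n).sub (kk_meas M t y n)
  have hdist : ∀ n : ℕ, |(M:ℝ) ^ n * x / τ - (M:ℝ) ^ n * y / τ| = (M:ℝ) ^ n * (r / τ) := by
    intro n
    have h1 : (M:ℝ) ^ n * x / τ - (M:ℝ) ^ n * y / τ = ((M:ℝ) ^ n / τ) * (x - y) := by ring
    rw [h1, abs_mul, abs_of_pos (by positivity), ← hr]
    ring
  have hmean : ∀ n, ∫⁻ s, ENNReal.ofReal |Δ n s| ∂leb ≤ ENNReal.ofReal ((M:ℝ) ^ n * (r / τ)) := by
    intro n
    have h1 := hF ((M:ℝ) ^ n * x / τ) ((M:ℝ) ^ n * y / τ)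
    rw [hdist] at h1
    refine le_trans (le_of_eq ?_) h1
    refine lintegral_congr fun s => ?_
    rw [hΔ]
    unfold kk
    rw [hτx, hτy]
  -- the probabilities
  obtain ⟨P, hP⟩ : ∃ P : ℕ → ℝ≥0∞, ∀ n, P n = ∫⁻ s, (if Δ n s = 0 then 0 else 1) ∂leb := ⟨_, fun _ => rfl⟩
  have hPm : ∀ n, Measurable fun s : ℝ => (if Δ n s = 0 then (0 : ℝ≥0∞) else 1) := by
    intro n
    exact Measurable.ite (hΔm n (measurableSet_singleton 0)) measurable_const measurable_const
  have hP1 : ∀ n, P n ≤ 1 := by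
    intro n
    rw [hP]
    calc ∫⁻ s, (if Δ n s = 0 then (0 : ℝ≥0∞) else 1) ∂leb ≤ ∫⁻ _, 1 ∂leb := by
          refine lintegral_mono fun s => ?_
          show (if Δ n s = 0 then (0 : ℝ≥0∞) else 1) ≤ 1
          split_ifs
          · exact zero_le
          · exact le_rfl
      _ = 1 := by rw [lintegral_one]; exact measure_univ
  have hP2 : ∀ n, P n ≤ ENNReal.ofReal ((M:ℝ) ^ n * (r / τ)) := by
    intro n
    rw [hP]
    refine le_trans (lintegral_mono fun s => ?_) (hmean n)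
    show (if Δ n s = 0 then (0 : ℝ≥0∞) else 1) ≤ ENNReal.ofReal |Δ n s|
    split_ifs with h
    · exact zero_le
    · rw [hΔ] at h ⊢
      rw [← ENNReal.ofReal_one]
      apply ENNReal.ofReal_le_ofReal
      rw [← Int.cast_sub] at h ⊢
      rw [← Int.cast_abs]
      have h1 : kk M t s n x - kk M t s n y ≠ 0 := by exact_mod_cast h
      exact_mod_cast Int.one_le_abs h1
  -- equal labels
  have hclose : ∀ (s : ℝ) (n : ℕ), lab M t s n x = lab M t s n y → (M:ℝ) ^ n * r < τ := by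
    intro s n h
    cases n with
    | zero => rw [pow_zero, one_mul]; exact hrT
    | succ m =>
      have h1 := lab_kk M t s x y (m + 1) h m (Nat.lt_succ_self m)
      unfold kk at h1
      have h2 := Int.abs_sub_lt_one_of_floor_eq_floor h1
      rw [hτx, hτy, show (M:ℝ) ^ (m + 1) * x / τ - s - ((M:ℝ) ^ (m + 1) * y / τ - s) =
        (M:ℝ) ^ (m + 1) * x / τ - (M:ℝ) ^ (m + 1) * y / τ by ring, hdist] at h2
      rw [← mul_div_assoc, div_lt_one hτ] at h2
      exact h2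
  have hDD : ∀ (n : ℕ) (s : ℝ), DD (lab M t s n) (wn q M t s (n + 1)) (on q M t (n + 1)) x y ≤
      (if (M:ℝ) ^ n * r < τ then ENNReal.ofReal (2 * τ ^ q * b ^ (n + 1)) * ENNReal.ofReal |Δ (n + 1) s| else 0) +
      ∑ i ∈ Finset.range n, ENNReal.ofReal (16 * M * τ ^ q * b ^ (n + 1)) *
        (if Δ (i + 1) s = 0 then (0 : ℝ≥0∞) else 1) := by
    intro n s
    unfold DD
    split_ifs with h1 h2 h2
    · refine le_trans (le_of_eq ?_) le_self_add
      rw [← ENNReal.ofReal_mul (by positivity)]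
      congr 1
      unfold wn
      rw [hτx, hτy, hpow (n + 1), hΔ]
      have h3 : 2 * τ ^ q * b ^ (n + 1) * ((kk M t s (n + 1) x : ℤ) : ℝ) -
          2 * τ ^ q * b ^ (n + 1) * ((kk M t s (n + 1) y : ℤ) : ℝ) =
          (2 * τ ^ q * b ^ (n + 1)) * (((kk M t s (n + 1) x : ℤ) : ℝ) - ((kk M t s (n + 1) y : ℤ) : ℝ)) := by ring
      rw [h3, abs_mul, abs_of_pos (by positivity)]
    · exact absurd (hclose s n h1) h2
    all_goals
      have h3 : ∃ i < n, kk M t s (i + 1) x ≠ kk M t s (i + 1) y := by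
        by_contra hcon
        push Not at hcon
        exact h1 (lab_of M t s x y (hlab s) n hcon)
      obtain ⟨i, hi, hik⟩ := h3
      refine le_trans ?_ le_add_self
      refine le_trans ?_ (Finset.single_le_sum (fun _ _ => zero_le) (Finset.mem_range.mpr hi))
      have h4 : Δ (i + 1) s ≠ 0 := by
        rw [hΔ, sub_ne_zero]
        exact_mod_cast hik
      rw [if_neg h4, mul_one]
      apply ENNReal.ofReal_le_ofReal
      unfold on
      rw [hτx, hτy, hpow (n + 1)]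
      apply le_of_eq
      ring
  -- integrate
  have hAm : ∀ n, Measurable fun s : ℝ => ENNReal.ofReal |Δ n s| :=
    fun n => (measurable_norm.comp (hΔm n)).ennreal_ofReal
  have hBm : ∀ (c : ℝ≥0∞) (n : ℕ), Measurable fun s : ℝ => c * (if Δ n s = 0 then (0 : ℝ≥0∞) else 1) :=
    fun c n => measurable_const.mul (hPm n)
  have hA : ∀ n, Measurable fun s : ℝ => (if (M:ℝ) ^ n * r < τ then
      ENNReal.ofReal (2 * τ ^ q * b ^ (n + 1)) * ENNReal.ofReal |Δ (n + 1) s| else 0) := by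
    intro n
    split_ifs
    · exact measurable_const.mul ((measurable_norm.comp (hΔm (n + 1))).ennreal_ofReal)
    · exact measurable_const
  have hB : ∀ n, Measurable fun s : ℝ => ∑ i ∈ Finset.range n, ENNReal.ofReal (16 * M * τ ^ q * b ^ (n + 1)) *
        (if Δ (i + 1) s = 0 then (0 : ℝ≥0∞) else 1) := by
    intro n
    exact Finset.measurable_sum _ fun i _ => measurable_const.mul (hPm (i + 1))
  obtain ⟨X, hX⟩ : ∃ X, X = (τ / r) ^ (1 - q) := ⟨_, rfl⟩
  obtain ⟨Y, hY⟩ : ∃ Y, Y = (r / τ) ^ q := ⟨_, rfl⟩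
  have hX0 : 0 < X := by rw [hX]; positivity
  have hY0 : 0 < Y := by rw [hY]; positivity
  have hXn : ∀ n : ℕ, (M:ℝ) ^ n * r < τ → ρ ^ n < X := by
    intro n h
    have h1 : ρ ^ n = ((M:ℝ) ^ n) ^ (1 - q) := by
      rw [hρ, ← Real.rpow_natCast, ← Real.rpow_natCast, ← Real.rpow_mul hM0.le, ← Real.rpow_mul hM0.le, mul_comm]
    rw [h1, hX]
    apply Real.rpow_lt_rpow (by positivity) _ (by linarith [hM.q2])
    rw [lt_div_iff₀ hr0]
    exact h
  have hYn : ∀ n : ℕ, ¬ (M:ℝ) ^ n * r < τ → b ^ n ≤ Y := by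
    intro n h
    rw [not_lt] at h
    have h1 : b ^ n = (((M:ℝ) ^ n)⁻¹) ^ q := by
      rw [← hpow n, Real.inv_rpow (by positivity), ← Real.rpow_neg (by positivity), ← Real.rpow_natCast,
        ← Real.rpow_mul hM0.le]
      congr 1
      ring
    rw [h1, hY]
    apply Real.rpow_le_rpow (by positivity) _ hq0.le
    rw [inv_eq_one_div, div_le_div_iff₀ (by positivity) hτ]
    linarith
  have hIA : ∀ n : ℕ, ∫⁻ s, (if (M:ℝ) ^ n * r < τ then
      ENNReal.ofReal (2 * τ ^ q * b ^ (n + 1)) * ENNReal.ofReal |Δ (n + 1) s| else 0) ∂leb ≤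
      ENNReal.ofReal (8 * τ ^ q * (r / τ)) * (if ρ ^ n < X then ENNReal.ofReal (ρ ^ n) else 0) := by
    intro n
    by_cases h : (M:ℝ) ^ n * r < τ
    · simp only [if_pos h]
      rw [lintegral_const_mul _ (hAm (n + 1)), if_pos (hXn n h)]
      refine (mul_le_mul_right (hmean (n + 1)) _).trans ?_
      rw [← ENNReal.ofReal_mul (by positivity), ← ENNReal.ofReal_mul (by positivity)]
      apply ENNReal.ofReal_le_ofReal
      have h1 : 2 * τ ^ q * b ^ (n + 1) * ((M:ℝ) ^ (n + 1) * (r / τ)) =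
          (2 * τ ^ q * (r / τ) * ρ ^ n) * ρ := by
        rw [show 2 * τ ^ q * b ^ (n + 1) * ((M:ℝ) ^ (n + 1) * (r / τ)) =
          2 * τ ^ q * (r / τ) * (b ^ (n + 1) * (M:ℝ) ^ (n + 1)) by ring, hbMn]
        ring
      rw [h1]
      have h2 : 0 ≤ 2 * τ ^ q * (r / τ) * ρ ^ n := by positivity
      have h3 := mul_le_mul_of_nonneg_left hρ4 h2
      linarith
    · simp only [if_neg h, lintegral_zero]
      exact zero_le
  have hIB : ∀ n : ℕ, ∫⁻ s, (∑ i ∈ Finset.range n, ENNReal.ofReal (16 * M * τ ^ q * b ^ (n + 1)) *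
        (if Δ (i + 1) s = 0 then (0 : ℝ≥0∞) else 1)) ∂leb ≤
      ∑ i ∈ Finset.range n, ENNReal.ofReal (64 * τ ^ q * b ^ n) * P (i + 1) := by
    intro n
    rw [lintegral_finsetSum (Finset.range n) (fun i _ => hBm (ENNReal.ofReal (16 * M * τ ^ q * b ^ (n + 1))) (i + 1))]
    refine Finset.sum_le_sum fun i _ => ?_
    rw [lintegral_const_mul _ (hPm (i + 1)), ← hP]
    refine mul_le_mul_left (ENNReal.ofReal_le_ofReal ?_) _
    have h1 : 16 * M * τ ^ q * b ^ (n + 1) = (16 * τ ^ q * b ^ n) * (b * M) := by ring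
    rw [h1, hbM]
    have h2 : 0 ≤ 16 * τ ^ q * b ^ n := by positivity
    have h3 := mul_le_mul_of_nonneg_left hρ4 h2
    linarith
  have hsumA : ∑' n : ℕ, ENNReal.ofReal (8 * τ ^ q * (r / τ)) * (if ρ ^ n < X then ENNReal.ofReal (ρ ^ n) else 0) ≤
      ENNReal.ofReal (16 * r ^ q) := by
    rw [ENNReal.tsum_mul_left]
    refine (mul_le_mul_right (geo_up ρ X hρ2 hX0) _).trans ?_
    rw [← ENNReal.ofReal_mul (by positivity)]
    apply ENNReal.ofReal_le_ofReal
    rw [← key_id q τ r hτ hr0, ← hX]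
    apply le_of_eq
    ring
  have hsumB : ∑' n : ℕ, ∑ i ∈ Finset.range n, ENNReal.ofReal (64 * τ ^ q * b ^ n) * P (i + 1) ≤
      ENNReal.ofReal (512 * r ^ q) := by
    refine (sumB (64 * τ ^ q) b (by positivity) hb0 hb2 P).trans ?_
    have h1 := sumP ρ b X Y (r / τ) hρ2 hb0 hb2 hX0 hY0 (by positivity) P (by
      intro j
      by_cases h : (M:ℝ) ^ j * r < τ
      · left
        refine ⟨hXn j h, ?_⟩
        refine (mul_le_mul_left (hP2 j) _).trans ?_
        rw [← ENNReal.ofReal_mul (by positivity)]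
        apply ENNReal.ofReal_le_ofReal
        rw [← hbMn j]
        apply le_of_eq
        ring
      · right
        exact ⟨hYn j h, hP1 j⟩)
    refine (mul_le_mul_right h1 _).trans ?_
    rw [← ENNReal.ofReal_mul (by positivity)]
    apply ENNReal.ofReal_le_ofReal
    have h2 : 2 * (64 * τ ^ q) * (r / τ * (2 * X) + 2 * Y) =
        256 * (τ ^ q * (r / τ * X)) + 256 * (τ ^ q * Y) := by ring
    rw [h2, hX, hY, key_id q τ r hτ hr0, key_id2 q τ r hτ hr0]
    apply le_of_eq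
    ring
  calc ∫⁻ s, ∑' n : ℕ, DD (lab M t s n) (wn q M t s (n + 1)) (on q M t (n + 1)) x y ∂leb
      ≤ ∫⁻ s, ∑' n : ℕ, ((if (M:ℝ) ^ n * r < τ then
          ENNReal.ofReal (2 * τ ^ q * b ^ (n + 1)) * ENNReal.ofReal |Δ (n + 1) s| else 0) +
          ∑ i ∈ Finset.range n, ENNReal.ofReal (16 * M * τ ^ q * b ^ (n + 1)) *
            (if Δ (i + 1) s = 0 then (0 : ℝ≥0∞) else 1)) ∂leb :=
        lintegral_mono fun s => ENNReal.tsum_le_tsum fun n => hDD n s
    _ = ∑' n : ℕ, ∫⁻ s, ((if (M:ℝ) ^ n * r < τ then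
          ENNReal.ofReal (2 * τ ^ q * b ^ (n + 1)) * ENNReal.ofReal |Δ (n + 1) s| else 0) +
          ∑ i ∈ Finset.range n, ENNReal.ofReal (16 * M * τ ^ q * b ^ (n + 1)) *
            (if Δ (i + 1) s = 0 then (0 : ℝ≥0∞) else 1)) ∂leb :=
        lintegral_tsum fun n => ((hA n).add (hB n)).aemeasurable
    _ ≤ ∑' n : ℕ, (ENNReal.ofReal (8 * τ ^ q * (r / τ)) * (if ρ ^ n < X then ENNReal.ofReal (ρ ^ n) else 0) +
          ∑ i ∈ Finset.range n, ENNReal.ofReal (64 * τ ^ q * b ^ n) * P (i + 1)) := by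
        refine ENNReal.tsum_le_tsum fun n => ?_
        rw [lintegral_add_left (hA n)]
        exact add_le_add (hIA n) (hIB n)
    _ ≤ ENNReal.ofReal (16 * r ^ q) + ENNReal.ofReal (512 * r ^ q) := by
        rw [ENNReal.tsum_add]
        exact add_le_add hsumA hsumB
    _ ≤ ENNReal.ofReal (600 * r ^ q) := by
        rw [← ENNReal.ofReal_add (by positivity) (by positivity)]
        apply ENNReal.ofReal_le_ofReal
        have : 0 < r ^ q := by positivity
        linarith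

end Pool.Agent.H99Q.INN
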