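import Pool.Agent.H99Q.Stm2

/-!
Project PCR, part 2, stub INN2 (adapted from the file `INN2` of part 1).
-/

set_option autoImplicit false

open MeasureTheory Set Filter Topology Pool.Agent.R972.PC
open scoped NNReal ENNReal

namespace Pool.Agent.H99Q.INNB

theorem Mpos {q : ℝ} {M : ℕ} (h : HK q M) : (0 : ℝ) < M := by
  have := h.M2
  exact_mod_cast (by omega : 0 < M)

theorem Mone {q : ℝ} {M : ℕ} (h : HK q M) : (1 : ℝ) ≤ M := by
  have := h.M2
  exact_mod_cast (by omega : 1 ≤ M)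

theorem F1 {q : ℝ} {M : ℕ} (h : HK q M) {R : ℝ} (hR : 0 < R) (j : ℕ) (hj : (M : ℝ) ^ j * R ≤ 1) :
    ((M : ℝ) ^ (1 - q)) ^ j * R ≤ R ^ q := by
  have hM := Mpos h
  have e1 : ((M : ℝ) ^ (1 - q)) ^ j = ((M : ℝ) ^ j) ^ (1 - q) := by
    rw [← Real.rpow_natCast, ← Real.rpow_mul hM.le, mul_comm, Real.rpow_mul hM.le, Real.rpow_natCast]
  have e2 : R ^ (1 - q) * R ^ q = R := by
    rw [← Real.rpow_add hR]; norm_num
  calc ((M : ℝ) ^ (1 - q)) ^ j * R = ((M : ℝ) ^ j) ^ (1 - q) * (R ^ (1 - q) * R ^ q) := by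
        rw [e1, e2]
    _ = ((M : ℝ) ^ j * R) ^ (1 - q) * R ^ q := by
        rw [Real.mul_rpow (by positivity) hR.le]; ring
    _ ≤ 1 * R ^ q := by
        gcongr
        exact Real.rpow_le_one (by positivity) hj (by linarith [h.q1])
    _ = R ^ q := one_mul _

theorem F2 {q : ℝ} {M : ℕ} (h : HK q M) {R : ℝ} (hR : 0 < R) (j : ℕ) (hj : 1 ≤ (M : ℝ) ^ j * R) :
    ((M : ℝ) ^ (-q)) ^ j ≤ R ^ q := by
  have hM := Mpos h
  have e1 : ((M : ℝ) ^ (-q)) ^ j = ((M : ℝ) ^ j) ^ (-q) := by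
    rw [← Real.rpow_natCast, ← Real.rpow_mul hM.le, mul_comm, Real.rpow_mul hM.le, Real.rpow_natCast]
  have e2 : R ^ (-q) * R ^ q = 1 := by
    rw [← Real.rpow_add hR]; norm_num
  calc ((M : ℝ) ^ (-q)) ^ j = ((M : ℝ) ^ j) ^ (-q) * (R ^ (-q) * R ^ q) := by
        rw [e1, e2, mul_one]
    _ = ((M : ℝ) ^ j * R) ^ (-q) * R ^ q := by
        rw [Real.mul_rpow (by positivity) hR.le]; ring
    _ ≤ 1 * R ^ q := by
        gcongr
        exact Real.rpow_le_one_of_one_le_of_nonpos hj (by linarith [h.q0])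
    _ = R ^ q := one_mul _

theorem half {q : ℝ} {M : ℕ} (h : HK q M) : (M : ℝ) ^ (-q) ≤ 1 / 2 := by
  have hM := Mpos h
  rw [Real.rpow_neg hM.le, one_div]
  exact inv_anti₀ (by norm_num) h.lo

theorem two_le {q : ℝ} {M : ℕ} (h : HK q M) : 2 ≤ (M : ℝ) ^ (1 - q) :=
  h.lo.trans (Real.rpow_le_rpow_of_exponent_le (Mone h) (by linarith [h.q1]))

theorem Mmul {q : ℝ} {M : ℕ} (h : HK q M) : (M : ℝ) * (M : ℝ) ^ (-q) = (M : ℝ) ^ (1 - q) := by
  have hM := Mpos h
  rw [sub_eq_add_neg, Real.rpow_add hM, Real.rpow_one]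

theorem sumr {q : ℝ} {M : ℕ} (h : HK q M) {R : ℝ} (hR : 0 < R) (n : ℕ) :
    ∑ i ∈ Finset.range n, min 1 ((M : ℝ) ^ (i + 1) * R) * ((M : ℝ) ^ (-q)) ^ (i + 1) ≤ 4 * R ^ q := by
  have hM := Mpos h
  have hM1 := Mone h
  set a : ℝ := (M : ℝ) ^ (-q) with ha
  set ρ : ℝ := (M : ℝ) ^ (1 - q) with hρ
  have ha0 : 0 < a := Real.rpow_pos_of_pos hM _
  have hρ0 : 0 < ρ := Real.rpow_pos_of_pos hM _
  have ha2 : a ≤ 1 / 2 := half h
  have hρ2 : 2 ≤ ρ := two_le h
  have hMa : (M : ℝ) * a = ρ := Mmul h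
  have hRq : 0 < R ^ q := Real.rpow_pos_of_pos hR _
  have key : ∀ n : ℕ, ∑ i ∈ Finset.range n, min 1 ((M : ℝ) ^ (i + 1) * R) * a ^ (i + 1) ≤
      if (M : ℝ) ^ (n + 1) * R < 1 then ρ ^ (n + 1) * R else 4 * R ^ q - 2 * a ^ (n + 1) := by
    intro n
    induction n with
    | zero =>
      rw [Finset.sum_range_zero]
      split_ifs with h1
      · positivity
      · have := F2 h hR 1 (by simpa using not_lt.1 h1)
        simp only [zero_add] at *
        rw [← ha] at this
        linarith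
    | succ n ih =>
      rw [Finset.sum_range_succ]
      have hmon : (M : ℝ) ^ (n + 1) * R ≤ (M : ℝ) ^ (n + 1 + 1) * R :=
        mul_le_mul_of_nonneg_right (pow_le_pow_right₀ hM1 (by omega)) hR.le
      have hap : 0 < a ^ (n + 1) := by positivity
      have hρp : 0 < ρ ^ (n + 1) * R := by positivity
      have ea : a ^ (n + 1 + 1) = a ^ (n + 1) * a := pow_succ _ _
      have eρ : ρ ^ (n + 1 + 1) = ρ ^ (n + 1) * ρ := pow_succ _ _
      have eMa : (M : ℝ) ^ (n + 1) * R * a ^ (n + 1) = ρ ^ (n + 1) * R := by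
        rw [← hMa, mul_pow]; ring
      by_cases h1 : (M : ℝ) ^ (n + 1) * R < 1
      · rw [if_pos h1] at ih
        have hu : min 1 ((M : ℝ) ^ (n + 1) * R) * a ^ (n + 1) ≤ ρ ^ (n + 1) * R := by
          rw [← eMa]
          gcongr
          exact min_le_right _ _
        by_cases h2 : (M : ℝ) ^ (n + 1 + 1) * R < 1
        · rw [if_pos h2, eρ]
          nlinarith
        · rw [if_neg h2]
          have h3 := F1 h hR (n + 1) h1.le
          have h4 := F2 h hR (n + 1 + 1) (not_lt.1 h2)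
          rw [← hρ] at h3
          rw [← ha] at h4
          linarith
      · rw [if_neg h1] at ih
        rw [if_neg (not_lt.2 ((not_lt.1 h1).trans hmon))]
        have hu : min 1 ((M : ℝ) ^ (n + 1) * R) * a ^ (n + 1) ≤ 1 * a ^ (n + 1) := by
          gcongr
          exact min_le_left _ _
        rw [ea]
        nlinarith
  refine (key n).trans ?_
  split_ifs with h1
  · have h3 := F1 h hR (n + 1) h1.le
    rw [← hρ] at h3
    linarith
  · have : 0 < a ^ (n + 1) := by positivity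
    linarith

/-- Abel summation -/
theorem abel (c μ : ℕ → ℝ) (hc : ∀ n, 0 ≤ c n) (hc2 : ∀ n, 2 * c (n + 1) ≤ c n) (hμ : ∀ n, 0 ≤ μ n)
    (N : ℕ) : ∑ n ∈ Finset.range N, c n * ∑ i ∈ Finset.range (n + 1), μ i ≤
      ∑ i ∈ Finset.range N, 2 * c i * μ i := by
  have key : ∑ n ∈ Finset.range N, c n * ∑ i ∈ Finset.range (n + 1), μ i ≤
      ∑ i ∈ Finset.range N, 2 * c i * μ i - 2 * c N * ∑ i ∈ Finset.range N, μ i := by
    induction N with
    | zero => simp
    | succ N ih =>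
      rw [Finset.sum_range_succ, Finset.sum_range_succ (fun i => 2 * c i * μ i),
        Finset.sum_range_succ μ]
      have hP : 0 ≤ ∑ i ∈ Finset.range N, μ i := Finset.sum_nonneg fun i _ => hμ i
      have hP2 : 0 ≤ ∑ i ∈ Finset.range N, μ i + μ N := add_nonneg hP (hμ N)
      have := mul_le_mul_of_nonneg_right (hc2 N) hP2
      nlinarith
  have hP : 0 ≤ ∑ i ∈ Finset.range N, μ i := Finset.sum_nonneg fun i _ => hμ i
  have := mul_nonneg (hc N) hP
  linarith

theorem tsum_le (f : ℕ → ℝ) (hf : ∀ n, 0 ≤ f n) (B : ℝ) (h : ∀ N, ∑ n ∈ Finset.range N, f n ≤ B) :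
    ∑' n, ENNReal.ofReal (f n) ≤ ENNReal.ofReal B := by
  rw [ENNReal.tsum_eq_iSup_nat]
  refine iSup_le fun N => ?_
  rw [← ENNReal.ofReal_sum_of_nonneg fun i _ => hf i]
  exact ENNReal.ofReal_le_ofReal (h N)

theorem lab_ne {M : ℕ} {t s x y : ℝ} (h0 : lab2 M t s 0 x = lab2 M t s 0 y) (n : ℕ)
    (h : lab2 M t s n x ≠ lab2 M t s n y) :
    ∃ i ∈ Finset.range n, kk2 M t s (i + 1) x ≠ kk2 M t s (i + 1) y := by
  induction n with
  | zero => exact absurd h0 h
  | succ n ih =>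
    by_cases h1 : lab2 M t s n x = lab2 M t s n y
    · refine ⟨n, Finset.mem_range.2 (Nat.lt_succ_self n), fun h2 => h ?_⟩
      show Encodable.encode (lab2 M t s n x, kk2 M t s (n + 1) x) =
        Encodable.encode (lab2 M t s n y, kk2 M t s (n + 1) y)
      rw [h1, h2]
    · obtain ⟨i, hi, h2⟩ := ih h1
      exact ⟨i, Finset.mem_range.2 ((Finset.mem_range.1 hi).trans (Nat.lt_succ_self n)), h2⟩

theorem T_eq {M : ℕ} (hM : (0 : ℝ) < M) {t s x y : ℝ} (hxy : x ≠ y)
    (h0 : lab2 M t s 0 x = lab2 M t s 0 y) : T2 M t x = T2 M t y ∧ 0 < T2 M t x := by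
  have h1 : ((((SignType.sign x : SignType) : ℤ)), sc2 M t x) =
      ((((SignType.sign y : SignType) : ℤ)), sc2 M t y) := Encodable.encode_injective h0
  obtain ⟨h2, h3⟩ := Prod.mk.inj h1
  have h4 : SignType.sign x = SignType.sign y := by
    revert h2
    generalize SignType.sign x = a
    generalize SignType.sign y = b
    revert a b
    decide
  by_cases hx : x = 0
  · subst hx
    rw [sign_zero] at h4
    exact absurd (sign_eq_zero_iff.1 h4.symm).symm hxy
  · have hy : y ≠ 0 := by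
      rintro rfl
      rw [sign_zero] at h4
      exact hx (sign_eq_zero_iff.1 h4)
    unfold T2
    rw [if_neg hx, if_neg hy, h3]
    exact ⟨rfl, Real.rpow_pos_of_pos hM _⟩

/-- indicator of different integers -/
noncomputable def J (M : ℕ) (t x y : ℝ) (i : ℕ) (s : ℝ) : ℝ≥0∞ :=
  if kk2 M t s (i + 1) x = kk2 M t s (i + 1) y then 0 else 1

theorem kk_meas (M : ℕ) (t x : ℝ) (n : ℕ) : Measurable (fun s => kk2 M t s n x) := by
  unfold kk2
  exact Int.measurable_floor.comp (measurable_const.sub measurable_fract)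

theorem J_meas (M : ℕ) (t x y : ℝ) (i : ℕ) : Measurable (J M t x y i) := by
  unfold J
  exact Measurable.ite (measurableSet_eq_fun (kk_meas M t x (i + 1)) (kk_meas M t y (i + 1)))
    measurable_const measurable_const

theorem fract_ae : ∀ᵐ s ∂leb, Int.fract s = s := by
  have h1 : ∀ᵐ s ∂leb, s ∈ Icc (0 : ℝ) 1 := by
    unfold leb
    exact ae_restrict_mem measurableSet_Icc
  have h2 : ∀ᵐ s ∂leb, s ≠ (1 : ℝ) := by
    unfold leb
    exact ae_restrict_of_ae (Measure.ae_ne volume 1)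
  filter_upwards [h1, h2] with s hs hs1
  exact Int.fract_eq_self.2 ⟨hs.1, lt_of_le_of_ne hs.2 hs1⟩

theorem J_le (h : S_FLOOR) {M : ℕ} {t x y : ℝ} (hT : T2 M t x = T2 M t y) (hT0 : 0 < T2 M t x) (i : ℕ) :
    ∫⁻ s, J M t x y i s ∂leb ≤ ENNReal.ofReal (min 1 ((M : ℝ) ^ (i + 1) * (|x - y| / T2 M t x))) := by
  rw [ENNReal.ofReal_min]
  refine le_min ?_ ?_
  · refine (lintegral_mono (g := fun _ => 1) fun s => ?_).trans ?_
    · unfold J
      split_ifs <;> simp
    · simp
  · refine (lintegral_mono_ae ?_).trans ((h ((M : ℝ) ^ (i + 1) * x / T2 M t x)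
      ((M : ℝ) ^ (i + 1) * y / T2 M t x)).trans ?_)
    · filter_upwards [fract_ae] with s hs
      show J M t x y i s ≤ ENNReal.ofReal |((⌊(M : ℝ) ^ (i + 1) * x / T2 M t x - s⌋ : ℤ) : ℝ) -
        ((⌊(M : ℝ) ^ (i + 1) * y / T2 M t x - s⌋ : ℤ) : ℝ)|
      unfold J
      split_ifs with h1
      · exact zero_le
      · unfold kk2 at h1
        rw [← hT, hs] at h1
        rw [← ENNReal.ofReal_one]
        refine ENNReal.ofReal_le_ofReal ?_
        have h2 := Int.one_le_abs (sub_ne_zero.2 h1)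
        exact_mod_cast h2
    · refine ENNReal.ofReal_le_ofReal (le_of_eq ?_)
      rw [← sub_div, ← mul_sub, abs_div, abs_mul, abs_of_pos hT0, abs_of_nonneg (by positivity)]
      ring

theorem t (h : S_FLOOR) : S_INN2 := by
  intro q M hM t x y h0
  by_cases hxy : x = y
  · subst hxy
    simp [D2]
  have hMp := Mpos hM
  obtain ⟨hT, hT0⟩ := T_eq hMp hxy (h0 0)
  set τ : ℝ := T2 M t x with hτ
  set a : ℝ := (M : ℝ) ^ (-q) with ha
  have ha0 : 0 < a := Real.rpow_pos_of_pos hMp _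
  have ha2 : a ≤ 1 / 2 := half hM
  have hr : 0 < |x - y| := abs_pos.2 (sub_ne_zero.2 hxy)
  set R : ℝ := |x - y| / τ with hR
  have hR0 : 0 < R := div_pos hr hT0
  have hon : ∀ n : ℕ, 2 * (cc q M t n x + cc q M t n y) = 4 * τ ^ q * a ^ n := by
    intro n
    unfold cc
    rw [← hT, ← hτ]
    have : (M : ℝ) ^ (-(n : ℝ) * q) = a ^ n := by
      rw [ha, ← Real.rpow_natCast, ← Real.rpow_mul hMp.le]
      congr 1
      ring
    rw [this]
    ring
  set c : ℕ → ℝ := fun n => 4 * τ ^ q * a ^ n with hc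
  have hτq : 0 < τ ^ q := Real.rpow_pos_of_pos hT0 _
  have hc0 : ∀ n, 0 ≤ c n := fun n => by positivity
  have hc2 : ∀ n, 2 * c (n + 1) ≤ c n := by
    intro n
    show 2 * (4 * τ ^ q * a ^ (n + 1)) ≤ 4 * τ ^ q * a ^ n
    have : 2 * a ^ (n + 1) ≤ a ^ n := by
      rw [pow_succ a n]
      nlinarith [pow_pos ha0 n]
    have h3 : 0 ≤ 4 * τ ^ q := by positivity
    nlinarith
  set μ : ℕ → ℝ := fun i => min 1 ((M : ℝ) ^ (i + 1) * R) with hμ
  have hμ0 : ∀ i, 0 ≤ μ i := fun i => le_min zero_le_one (by positivity)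
  -- pointwise
  have hpt : ∀ s, ∑' n : ℕ, D2 (lab2 M t s (n + 1)) (cc q M t n) x y ≤
      ∑' n : ℕ, ENNReal.ofReal (c n) * ∑ i ∈ Finset.range (n + 1), J M t x y i s := by
    intro s
    refine ENNReal.tsum_le_tsum fun n => ?_
    unfold D2
    split_ifs with h1
    · exact zero_le
    · obtain ⟨i, hi, h2⟩ := lab_ne (h0 s) (n + 1) h1
      have h3 : (1 : ℝ≥0∞) ≤ ∑ i ∈ Finset.range (n + 1), J M t x y i s := by
        refine le_trans ?_ (Finset.single_le_sum (f := fun i => J M t x y i s)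
          (fun i _ => zero_le) hi)
        unfold J
        rw [if_neg h2]
      rw [hon n]
      calc ENNReal.ofReal (4 * τ ^ q * a ^ n) = ENNReal.ofReal (c n) * 1 := by
            rw [mul_one]
        _ ≤ _ := by gcongr
  calc ∫⁻ s, ∑' n : ℕ, D2 (lab2 M t s (n + 1)) (cc q M t n) x y ∂leb
      ≤ ∫⁻ s, ∑' n : ℕ, ENNReal.ofReal (c n) * ∑ i ∈ Finset.range (n + 1), J M t x y i s ∂leb :=
        lintegral_mono hpt
    _ = ∑' n : ℕ, ∫⁻ s, ENNReal.ofReal (c n) * ∑ i ∈ Finset.range (n + 1), J M t x y i s ∂leb := by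
        refine lintegral_tsum fun n => ?_
        refine Measurable.aemeasurable ?_
        refine Measurable.const_mul ?_ _
        exact Finset.measurable_fun_sum _ fun i _ => J_meas M t x y i
    _ ≤ ∑' n : ℕ, ENNReal.ofReal (c n * ∑ i ∈ Finset.range (n + 1), μ i) := by
        refine ENNReal.tsum_le_tsum fun n => ?_
        rw [lintegral_const_mul _ (Finset.measurable_fun_sum _ fun i _ => J_meas M t x y i),
          lintegral_finsetSum _ fun i _ => J_meas M t x y i,
          ENNReal.ofReal_mul (hc0 n), ENNReal.ofReal_sum_of_nonneg fun i _ => hμ0 i]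
        gcongr with i hi
        exact J_le h hT hT0 i
    _ ≤ ENNReal.ofReal (200 * |x - y| ^ q) := by
        refine tsum_le _ (fun n => mul_nonneg (hc0 n) (Finset.sum_nonneg fun i _ => hμ0 i)) _
          fun N => ?_
        refine (abel c μ hc0 hc2 hμ0 N).trans ?_
        have h4 : ∀ i, 2 * c i * μ i ≤ 32 * τ ^ q * (μ i * a ^ (i + 1)) := by
          intro i
          have h6 : (M : ℝ) ^ q * a = 1 := by
            rw [ha, ← Real.rpow_add hMp]
            simp
          have h5 : 2 * c i = 8 * (M : ℝ) ^ q * (τ ^ q * a ^ (i + 1)) := by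
            show 2 * (4 * τ ^ q * a ^ i) = _
            rw [pow_succ a i]
            linear_combination (-8 * τ ^ q * a ^ i) * h6
          rw [h5]
          have h7 : 0 ≤ τ ^ q * a ^ (i + 1) * μ i := by
            have := hμ0 i
            positivity
          have h8 := hM.hi
          nlinarith
        have hRq : 0 < |x - y| ^ q := Real.rpow_pos_of_pos hr _
        calc ∑ i ∈ Finset.range N, 2 * c i * μ i
            ≤ ∑ i ∈ Finset.range N, 32 * τ ^ q * (μ i * a ^ (i + 1)) :=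
              Finset.sum_le_sum fun i _ => h4 i
          _ = 32 * τ ^ q * ∑ i ∈ Finset.range N, μ i * a ^ (i + 1) := by
              rw [Finset.mul_sum]
          _ ≤ 32 * τ ^ q * (4 * R ^ q) := by
              gcongr
              exact sumr hM hR0 N
          _ = 128 * |x - y| ^ q := by
              rw [hR, Real.div_rpow hr.le hT0.le]
              field_simp
              ring
          _ ≤ 200 * |x - y| ^ q := by linarith

end Pool.Agent.H99Q.INNB
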