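import Pool.Agent.H99Q.Stm

/-! PCR, stub INN: the two geometric sums. -/

set_option autoImplicit false

open MeasureTheory Set Filter Topology Pool.Agent.R972.PC
open scoped NNReal ENNReal

namespace Pool.Agent.H99Q.INNs

theorem Mge {q : ℝ} {M : ℕ} (h : HM q M) : (2 : ℝ) ≤ M := by exact_mod_cast h.M2

theorem Mpos {q : ℝ} {M : ℕ} (h : HM q M) : (0 : ℝ) < M := by linarith [Mge h]

theorem kap2 {q : ℝ} {M : ℕ} (h : HM q M) : 2 ≤ (M : ℝ) ^ q :=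
  h.lo.trans (Real.rpow_le_rpow_of_exponent_le (by linarith [Mge h]) (by linarith [h.q1]))

theorem prd {q : ℝ} {M : ℕ} (h : HM q M) : (M : ℝ) ^ (1 - q) * (M : ℝ) ^ q = M := by
  rw [← Real.rpow_add (Mpos h)]
  simp

theorem kpow {q : ℝ} {M : ℕ} (h : HM q M) (n : ℕ) :
    (M : ℝ) ^ (-((n : ℕ) : ℝ) * q) = (((M : ℝ) ^ q) ^ n)⁻¹ := by
  rw [show -((n : ℕ) : ℝ) * q = -(q * n) by ring, Real.rpow_neg (Mpos h).le,
    Real.rpow_mul (Mpos h).le, Real.rpow_natCast]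

theorem exK {q : ℝ} {M : ℕ} (h : HM q M) {u : ℝ} (hu0 : 0 < u) (hu1 : u < 1) :
    ∃ K : ℕ, (M : ℝ) ^ K * u < 1 ∧ 1 ≤ (M : ℝ) ^ (K + 1) * u := by
  classical
  have hex : ∃ n : ℕ, 1 ≤ (M : ℝ) ^ n * u := by
    obtain ⟨n, hn⟩ := pow_unbounded_of_one_lt (1 / u) (show (1 : ℝ) < M by linarith [Mge h])
    refine ⟨n, ?_⟩
    rw [div_lt_iff₀ hu0] at hn
    exact hn.le
  have h1 := Nat.find_spec hex
  have h0 : Nat.find hex ≠ 0 := by
    intro h2
    rw [h2] at h1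
    simp at h1
    linarith
  obtain ⟨K, hK⟩ := Nat.exists_eq_succ_of_ne_zero h0
  refine ⟨K, ?_, ?_⟩
  · have := Nat.find_min hex (m := K) (by omega)
    exact not_le.1 this
  · rw [hK] at h1
    exact h1

theorem low {q : ℝ} {M : ℕ} (h : HM q M) {u : ℝ} (hu0 : 0 < u) {K : ℕ}
    (hK : (M : ℝ) ^ K * u < 1) (n : ℕ) (hn : n ≤ K) :
    u * ((M : ℝ) ^ (1 - q)) ^ n ≤ u ^ q * (1 / 2) ^ (K - n) := by
  have hM := Mpos h
  have hρ : (0 : ℝ) < (M : ℝ) ^ (1 - q) := Real.rpow_pos_of_pos hM _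
  have e1 : ((M : ℝ) ^ (1 - q)) ^ K * u ^ (1 - q) ≤ 1 := by
    have e2 : ((M : ℝ) ^ (1 - q)) ^ K = ((M : ℝ) ^ K) ^ (1 - q) := by
      rw [← Real.rpow_natCast, ← Real.rpow_natCast, ← Real.rpow_mul hM.le, ← Real.rpow_mul hM.le,
        mul_comm]
    rw [e2, ← Real.mul_rpow (by positivity) hu0.le]
    exact Real.rpow_le_one (by positivity) hK.le (by linarith [h.q2])
  have e3 : u = u ^ q * u ^ (1 - q) := by
    rw [← Real.rpow_add hu0]
    simp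
  have e4 : u * ((M : ℝ) ^ (1 - q)) ^ K ≤ u ^ q := by
    calc u * ((M : ℝ) ^ (1 - q)) ^ K = u ^ q * (((M : ℝ) ^ (1 - q)) ^ K * u ^ (1 - q)) := by
          nth_rewrite 1 [e3]
          ring
      _ ≤ u ^ q * 1 := mul_le_mul_of_nonneg_left e1 (by positivity)
      _ = u ^ q := mul_one _
  have e5 : ((M : ℝ) ^ (1 - q)) ^ n ≤ ((M : ℝ) ^ (1 - q)) ^ K * (1 / 2) ^ (K - n) := by
    have e6 : (1 : ℝ) ≤ ((M : ℝ) ^ (1 - q)) ^ (K - n) * (1 / 2) ^ (K - n) := by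
      rw [← mul_pow]
      exact one_le_pow₀ (by linarith [h.lo])
    have e7 : ((M : ℝ) ^ (1 - q)) ^ K = ((M : ℝ) ^ (1 - q)) ^ n * ((M : ℝ) ^ (1 - q)) ^ (K - n) := by
      rw [← pow_add]
      congr 1
      omega
    rw [e7, mul_assoc]
    exact le_mul_of_one_le_right (by positivity) e6
  calc u * ((M : ℝ) ^ (1 - q)) ^ n ≤ u * (((M : ℝ) ^ (1 - q)) ^ K * (1 / 2) ^ (K - n)) :=
        mul_le_mul_of_nonneg_left e5 hu0.le
    _ = (u * ((M : ℝ) ^ (1 - q)) ^ K) * (1 / 2) ^ (K - n) := by ring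
    _ ≤ _ := mul_le_mul_of_nonneg_right e4 (by positivity)

theorem high {q : ℝ} {M : ℕ} (h : HM q M) {u : ℝ} (hu0 : 0 < u) {K : ℕ}
    (hK : 1 ≤ (M : ℝ) ^ (K + 1) * u) (j : ℕ) :
    (((M : ℝ) ^ q) ^ (j + (K + 1)))⁻¹ ≤ u ^ q * (1 / 2) ^ j := by
  have hM := Mpos h
  have hκ : (0 : ℝ) < (M : ℝ) ^ q := Real.rpow_pos_of_pos hM _
  have e1 : 1 ≤ ((M : ℝ) ^ q) ^ (K + 1) * u ^ q := by
    have e2 : ((M : ℝ) ^ q) ^ (K + 1) = ((M : ℝ) ^ (K + 1)) ^ q := by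
      rw [← Real.rpow_natCast, ← Real.rpow_natCast, ← Real.rpow_mul hM.le, ← Real.rpow_mul hM.le,
        mul_comm]
    rw [e2, ← Real.mul_rpow (by positivity) hu0.le]
    exact Real.one_le_rpow hK (by linarith [h.q1])
  have e3 : (1 : ℝ) ≤ ((M : ℝ) ^ q) ^ j * (1 / 2) ^ j := by
    rw [← mul_pow]
    exact one_le_pow₀ (by linarith [kap2 h])
  rw [inv_le_iff_one_le_mul₀ (by positivity), pow_add]
  calc (1 : ℝ) ≤ (((M : ℝ) ^ q) ^ (K + 1) * u ^ q) * (((M : ℝ) ^ q) ^ j * (1 / 2) ^ j) := by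
        nlinarith
    _ = _ := by ring

theorem rev2 (K : ℕ) : ∑ n ∈ Finset.range (K + 1), (1 / 2 : ℝ) ^ (K - n) ≤ 2 := by
  have := Finset.sum_range_reflect (fun n => (1 / 2 : ℝ) ^ n) (K + 1)
  simp only [Nat.add_sub_cancel] at this
  rw [this]
  exact sum_geometric_two_le _

theorem sumA {q : ℝ} {M : ℕ} (h : HM q M) {u : ℝ} (hu0 : 0 < u) (hu1 : u < 1) :
    ∑' n : ℕ, (if (M : ℝ) ^ n * u < 1 then
      ENNReal.ofReal (2 * (M : ℝ) ^ (-((n + 1 : ℕ) : ℝ) * q) * ((M : ℝ) ^ (n + 1) * u)) else 0) ≤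
      ENNReal.ofReal (16 * u ^ q) := by
  obtain ⟨K, hK1, hK2⟩ := exK h hu0 hu1
  have hM := Mpos h
  have hκ : (0 : ℝ) < (M : ℝ) ^ q := Real.rpow_pos_of_pos hM _
  have hρ : (0 : ℝ) < (M : ℝ) ^ (1 - q) := Real.rpow_pos_of_pos hM _
  have huq : 0 < u ^ q := Real.rpow_pos_of_pos hu0 _
  have hle : ∀ n : ℕ, (M : ℝ) ^ n * u < 1 → n ≤ K := by
    intro n hn
    by_contra hc
    have h1 : (M : ℝ) ^ (K + 1) ≤ (M : ℝ) ^ n :=
      pow_le_pow_right₀ (by linarith [Mge h]) (by omega)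
    nlinarith
  rw [tsum_eq_sum (s := Finset.range (K + 1)) (fun n hn => by
    rw [if_neg]
    intro hc
    exact hn (Finset.mem_range.2 (by have := hle n hc; omega)))]
  have hterm : ∀ n ∈ Finset.range (K + 1), (if (M : ℝ) ^ n * u < 1 then
      ENNReal.ofReal (2 * (M : ℝ) ^ (-((n + 1 : ℕ) : ℝ) * q) * ((M : ℝ) ^ (n + 1) * u)) else 0) ≤
      ENNReal.ofReal (8 * u ^ q * (1 / 2) ^ (K - n)) := by
    intro n hn
    have hn' : n ≤ K := by have := Finset.mem_range.1 hn; omega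
    split_ifs
    · apply ENNReal.ofReal_le_ofReal
      rw [kpow h (n + 1)]
      have e1 : 2 * (((M : ℝ) ^ q) ^ (n + 1))⁻¹ * ((M : ℝ) ^ (n + 1) * u) =
          2 * (M : ℝ) ^ (1 - q) * (u * ((M : ℝ) ^ (1 - q)) ^ n) := by
        nth_rewrite 2 [← prd h]
        rw [mul_pow]
        field_simp
        ring
      rw [e1]
      have e2 := low h hu0 hK1 n hn'
      have e3 := h.hi
      have e4 : 0 ≤ u * ((M : ℝ) ^ (1 - q)) ^ n := by positivity
      calc 2 * (M : ℝ) ^ (1 - q) * (u * ((M : ℝ) ^ (1 - q)) ^ n) ≤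
            8 * (u * ((M : ℝ) ^ (1 - q)) ^ n) :=
            mul_le_mul_of_nonneg_right (by linarith) e4
        _ ≤ 8 * (u ^ q * (1 / 2) ^ (K - n)) := mul_le_mul_of_nonneg_left e2 (by norm_num)
        _ = _ := by ring
    · exact zero_le
  refine (Finset.sum_le_sum hterm).trans ?_
  rw [← ENNReal.ofReal_sum_of_nonneg (fun _ _ => by positivity), ← Finset.mul_sum]
  apply ENNReal.ofReal_le_ofReal
  nlinarith [rev2 K]

theorem tail {q : ℝ} {M : ℕ} (h : HM q M) (i : ℕ) :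
    ∑' n : ℕ, (if i < n then ENNReal.ofReal (16 * M * (M : ℝ) ^ (-((n + 1 : ℕ) : ℝ) * q)) else 0) ≤
      ENNReal.ofReal (128 * (((M : ℝ) ^ q) ^ (i + 1))⁻¹) := by
  have hM := Mpos h
  have hκ : (0 : ℝ) < (M : ℝ) ^ q := Real.rpow_pos_of_pos hM _
  have hρ : (0 : ℝ) < (M : ℝ) ^ (1 - q) := Real.rpow_pos_of_pos hM _
  rw [← Summable.sum_add_tsum_nat_add' (f := fun n : ℕ => (if i < n then
    ENNReal.ofReal (16 * M * (M : ℝ) ^ (-((n + 1 : ℕ) : ℝ) * q)) else 0)) (k := i + 1)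
    ENNReal.summable]
  have h0 : ∑ n ∈ Finset.range (i + 1), (if i < n then
      ENNReal.ofReal (16 * M * (M : ℝ) ^ (-((n + 1 : ℕ) : ℝ) * q)) else 0) = 0 := by
    apply Finset.sum_eq_zero
    intro n hn
    rw [if_neg]
    have := Finset.mem_range.1 hn
    omega
  rw [h0, zero_add]
  have hterm : ∀ j : ℕ, (if i < j + (i + 1) then
      ENNReal.ofReal (16 * M * (M : ℝ) ^ (-((j + (i + 1) + 1 : ℕ) : ℝ) * q)) else 0) ≤
      ENNReal.ofReal (64 * (((M : ℝ) ^ q) ^ (i + 1))⁻¹ * (1 / 2) ^ j) := by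
    intro j
    rw [if_pos (by omega)]
    apply ENNReal.ofReal_le_ofReal
    rw [kpow h (j + (i + 1) + 1)]
    have e1 : 16 * (M : ℝ) * (((M : ℝ) ^ q) ^ (j + (i + 1) + 1))⁻¹ =
        16 * (M : ℝ) ^ (1 - q) * (((M : ℝ) ^ q) ^ (i + 1))⁻¹ * (((M : ℝ) ^ q) ^ j)⁻¹ := by
      nth_rewrite 1 [← prd h]
      rw [pow_succ, pow_add]
      field_simp
    rw [e1]
    have e2 : (((M : ℝ) ^ q) ^ j)⁻¹ ≤ (1 / 2) ^ j := by
      rw [← inv_pow]
      apply pow_le_pow_left₀ (by positivity)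
      rw [one_div]
      exact inv_anti₀ (by norm_num) (kap2 h)
    have e3 : 16 * (M : ℝ) ^ (1 - q) * (((M : ℝ) ^ q) ^ (i + 1))⁻¹ ≤
        64 * (((M : ℝ) ^ q) ^ (i + 1))⁻¹ :=
      mul_le_mul_of_nonneg_right (by linarith [h.hi]) (by positivity)
    exact mul_le_mul e3 e2 (by positivity) (by positivity)
  refine (ENNReal.tsum_le_tsum hterm).trans ?_
  have hs : Summable (fun j : ℕ => 64 * (((M : ℝ) ^ q) ^ (i + 1))⁻¹ * (1 / 2 : ℝ) ^ j) :=
    summable_geometric_two.mul_left _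
  rw [← ENNReal.ofReal_tsum_of_nonneg (fun _ => by positivity) hs, tsum_mul_left,
    tsum_geometric_two]
  apply ENNReal.ofReal_le_ofReal
  apply le_of_eq
  ring

theorem sumB {q : ℝ} {M : ℕ} (h : HM q M) {u : ℝ} (hu0 : 0 < u) (hu1 : u < 1) :
    ∑' n : ℕ, ∑ i ∈ Finset.range n,
      ENNReal.ofReal (16 * M * (M : ℝ) ^ (-((n + 1 : ℕ) : ℝ) * q)) *
        min 1 (ENNReal.ofReal ((M : ℝ) ^ (i + 1) * u)) ≤ ENNReal.ofReal (512 * u ^ q) := by
  obtain ⟨K, hK1, hK2⟩ := exK h hu0 hu1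
  have hM := Mpos h
  have hκ : (0 : ℝ) < (M : ℝ) ^ q := Real.rpow_pos_of_pos hM _
  have hρ : (0 : ℝ) < (M : ℝ) ^ (1 - q) := Real.rpow_pos_of_pos hM _
  have huq : 0 < u ^ q := Real.rpow_pos_of_pos hu0 _
  set c : ℕ → ℝ≥0∞ := fun n => ENNReal.ofReal (16 * M * (M : ℝ) ^ (-((n + 1 : ℕ) : ℝ) * q)) with hc
  set m : ℕ → ℝ≥0∞ := fun i => min 1 (ENNReal.ofReal ((M : ℝ) ^ (i + 1) * u)) with hm
  have e1 : ∀ n : ℕ, ∑ i ∈ Finset.range n, c n * m i = ∑' i : ℕ, (if i < n then c n else 0) * m i := by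
    intro n
    rw [tsum_eq_sum (s := Finset.range n) (fun i hi => by
      rw [if_neg (fun hlt => hi (Finset.mem_range.2 hlt)), zero_mul])]
    refine Finset.sum_congr rfl fun i hi => ?_
    rw [if_pos (Finset.mem_range.1 hi)]
  calc ∑' n : ℕ, ∑ i ∈ Finset.range n, c n * m i
      = ∑' n : ℕ, ∑' i : ℕ, (if i < n then c n else 0) * m i := by simp only [e1]
    _ = ∑' i : ℕ, ∑' n : ℕ, (if i < n then c n else 0) * m i := ENNReal.tsum_comm
    _ = ∑' i : ℕ, (∑' n : ℕ, (if i < n then c n else 0)) * m i := by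
        simp only [ENNReal.tsum_mul_right]
    _ ≤ ∑' i : ℕ, ENNReal.ofReal (128 * (((M : ℝ) ^ q) ^ (i + 1))⁻¹) * m i :=
        ENNReal.tsum_le_tsum fun i => mul_le_mul_left (tail h i) _
    _ ≤ ENNReal.ofReal (512 * u ^ q) := ?_
  rw [← Summable.sum_add_tsum_nat_add' (f := fun i : ℕ =>
    ENNReal.ofReal (128 * (((M : ℝ) ^ q) ^ (i + 1))⁻¹) * m i) (k := K) ENNReal.summable]
  have h1 : ∑ i ∈ Finset.range K, ENNReal.ofReal (128 * (((M : ℝ) ^ q) ^ (i + 1))⁻¹) * m i ≤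
      ENNReal.ofReal (256 * u ^ q) := by
    have hterm : ∀ i ∈ Finset.range K, ENNReal.ofReal (128 * (((M : ℝ) ^ q) ^ (i + 1))⁻¹) * m i ≤
        ENNReal.ofReal (128 * u ^ q * (1 / 2) ^ (K - (i + 1))) := by
      intro i hi
      have hi' := Finset.mem_range.1 hi
      refine (mul_le_mul_right (min_le_right _ _) _).trans ?_
      rw [← ENNReal.ofReal_mul (by positivity)]
      apply ENNReal.ofReal_le_ofReal
      have e2 : 128 * (((M : ℝ) ^ q) ^ (i + 1))⁻¹ * ((M : ℝ) ^ (i + 1) * u) =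
          128 * (u * ((M : ℝ) ^ (1 - q)) ^ (i + 1)) := by
        nth_rewrite 2 [← prd h]
        rw [mul_pow]
        field_simp
      rw [e2]
      have e3 := low h hu0 hK1 (i + 1) (by omega)
      nlinarith
    refine (Finset.sum_le_sum hterm).trans ?_
    rw [← ENNReal.ofReal_sum_of_nonneg (fun _ _ => by positivity), ← Finset.mul_sum]
    apply ENNReal.ofReal_le_ofReal
    have e4 : ∑ i ∈ Finset.range K, (1 / 2 : ℝ) ^ (K - (i + 1)) ≤ 2 := by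
      rcases Nat.eq_zero_or_pos K with h0 | h0
      · subst h0
        simp
      · obtain ⟨L, rfl⟩ : ∃ L, K = L + 1 := ⟨K - 1, by omega⟩
        have := rev2 L
        simpa only [Nat.add_sub_add_right] using this
    nlinarith
  have h2 : ∑' j : ℕ, ENNReal.ofReal (128 * (((M : ℝ) ^ q) ^ (j + K + 1))⁻¹) * m (j + K) ≤
      ENNReal.ofReal (256 * u ^ q) := by
    have hterm : ∀ j : ℕ, ENNReal.ofReal (128 * (((M : ℝ) ^ q) ^ (j + K + 1))⁻¹) * m (j + K) ≤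
        ENNReal.ofReal (128 * u ^ q * (1 / 2) ^ j) := by
      intro j
      refine (mul_le_mul_right (min_le_left _ _) _).trans ?_
      rw [mul_one]
      apply ENNReal.ofReal_le_ofReal
      have e3 := high h hu0 hK2 j
      rw [show j + K + 1 = j + (K + 1) by ring]
      nlinarith
    refine (ENNReal.tsum_le_tsum hterm).trans ?_
    have hs : Summable (fun j : ℕ => 128 * u ^ q * (1 / 2 : ℝ) ^ j) :=
      summable_geometric_two.mul_left _
    rw [← ENNReal.ofReal_tsum_of_nonneg (fun _ => by positivity) hs, tsum_mul_left,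
      tsum_geometric_two]
    apply ENNReal.ofReal_le_ofReal
    apply le_of_eq
    ring
  refine (add_le_add h1 h2).trans ?_
  rw [← ENNReal.ofReal_add (by positivity) (by positivity)]
  apply ENNReal.ofReal_le_ofReal
  apply le_of_eq
  ring

end Pool.Agent.H99Q.INNs
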