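import Pool.Agent.H99Q.Stm

set_option autoImplicit false

/-! Stub LAW of project PCR (helper74): resampling inside the blocks preserves the law. -/

open MeasureTheory Set Filter Topology Pool.Agent.R972.PC
open scoped NNReal ENNReal

namespace Pool.Agent.H99Q.LAW

lemma G_zero (u : ℝ) : G (0 : Measure ℝ) u = 0 := by
  unfold G
  split_ifs
  · simp
  · rfl

lemma G_meas (h : S_QLAW) (ν : Measure ℝ) [IsFiniteMeasure ν] : Measurable (G ν) := by
  by_cases h0 : ν = 0
  · subst h0
    rw [show G (0 : Measure ℝ) = fun _ => 0 from funext G_zero]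
    exact measurable_const
  · exact (h ν h0).2.1

lemma rs_meas (h : S_QLAW) (P : Measure ℝ) [IsProbabilityMeasure P] (l : ℝ → ℕ) (hl : Measurable l)
    {Ω : Type} [MeasurableSpace Ω] (A : Ω → ℝ) (hA : Measurable A) :
    Measurable (fun w : Ω × ℝ => rs P l (A w.1) w.2) := by
  have hF : ∀ i : ℕ, Measurable (G (P.restrict {x | l x = i})) := fun i => G_meas h _
  have hg : Measurable (fun p : ℕ × (Ω × ℝ) => if l (G (P.restrict {x | l x = p.1}) p.2.2) = p.1 then
      G (P.restrict {x | l x = p.1}) p.2.2 else A p.2.1) := by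
    apply measurable_from_prod_countable_right
    intro i
    refine Measurable.ite ?_ ((hF i).comp measurable_snd) (hA.comp measurable_fst)
    exact (hl.comp ((hF i).comp measurable_snd)) (measurableSet_singleton i)
  exact hg.comp (((hl.comp (hA.comp measurable_fst))).prodMk measurable_id)

lemma fibre (h : S_QLAW) (P : Measure ℝ) [IsProbabilityMeasure P] (l : ℝ → ℕ) (hl : Measurable l) (y : ℝ)
    (hy : P {x | l x = l y} ≠ 0) (S : Set ℝ) (hS : MeasurableSet S) :
    leb {u | rs P l y u ∈ S} = (P {x | l x = l y})⁻¹ * P ({x | l x = l y} ∩ S) := by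
  have hB : MeasurableSet {x | l x = l y} := hl (measurableSet_singleton (l y))
  obtain ⟨ν, hν⟩ : ∃ ν, ν = P.restrict {x | l x = l y} := ⟨_, rfl⟩
  have hu : ν univ = P {x | l x = l y} := by rw [hν, Measure.restrict_apply_univ]
  have hν0 : ν ≠ 0 := by
    intro h0
    apply hy
    rw [← hu, h0]
    rfl
  have : IsFiniteMeasure ν := by rw [hν]; infer_instance
  obtain ⟨-, hm, hlaw⟩ := h ν hν0
  have hBc : MeasurableSet {x | l x = l y}ᶜ := hB.compl
  have h1 : leb ((G ν) ⁻¹' {x | l x = l y}ᶜ) = 0 := by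
    rw [← Measure.map_apply hm hBc, hlaw, Measure.smul_apply, hν, Measure.restrict_apply hBc, compl_inter_self,
      measure_empty, smul_zero]
  have h2 : ∀ᵐ u ∂leb, l (G ν u) = l y := by
    rw [ae_iff]
    exact h1
  have h3 : leb {u | rs P l y u ∈ S} = leb ((G ν) ⁻¹' S) := by
    apply measure_congr
    filter_upwards [h2] with u hu2
    have e : rs P l y u = G ν u := by
      unfold rs
      rw [← hν, if_pos hu2]
    exact congrArg (· ∈ S) e
  rw [h3, ← Measure.map_apply hm hS, hlaw, Measure.smul_apply, hu, smul_eq_mul, hν, Measure.restrict_apply hS,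
    inter_comm]

theorem t (h : S_QLAW) : S_LAW := by
  intro P _ l hl Ω _ μ _ A hA hlaw
  have hmeas := rs_meas h P l hl A hA
  have hB : ∀ i : ℕ, MeasurableSet {x | l x = i} := fun i => hl (measurableSet_singleton i)
  apply Measure.ext
  intro S hS
  rw [Measure.map_apply hmeas hS, Measure.prod_apply (hmeas hS)]
  obtain ⟨c, hc⟩ : ∃ c : ℕ → ℝ≥0∞, ∀ i, c i = (P {x | l x = i})⁻¹ * P ({x | l x = i} ∩ S) := ⟨_, fun i => rfl⟩
  have h1 : ∀ᵐ ω ∂μ, P {x | l x = l (A ω)} ≠ 0 := by
    have h2 : ∀ i : ℕ, ∀ᵐ ω ∂μ, P {x | l x = i} = 0 → l (A ω) ≠ i := by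
      intro i
      by_cases h0 : P {x | l x = i} = 0
      · have h3 : μ {ω | l (A ω) = i} = 0 := by rw [hlaw, h0]
        rw [ae_iff]
        refine measure_mono_null ?_ h3
        intro ω hω
        by_contra hne
        exact hω fun _ => hne
      · exact Eventually.of_forall fun ω h4 => absurd h4 h0
    filter_upwards [ae_all_iff.2 h2] with ω hω h0
    exact hω (l (A ω)) h0 rfl
  have h2 : ∫⁻ ω, leb (Prod.mk ω ⁻¹' ((fun w : Ω × ℝ => rs P l (A w.1) w.2) ⁻¹' S)) ∂μ =
      ∫⁻ ω, c (l (A ω)) ∂μ := by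
    apply lintegral_congr_ae
    filter_upwards [h1] with ω hω
    rw [hc]
    exact fibre h P l hl (A ω) hω S hS
  rw [h2]
  have hlA : Measurable (fun ω => l (A ω)) := hl.comp hA
  have h3 : ∫⁻ ω, c (l (A ω)) ∂μ = ∑' i, c i * μ {ω | l (A ω) = i} := by
    rw [← lintegral_map (f := c) (measurable_of_countable c) hlA, lintegral_countable']
    congr 1
    ext i
    rw [Measure.map_apply hlA (measurableSet_singleton i)]
    rfl
  rw [h3]
  have h4 : ∀ i, c i * μ {ω | l (A ω) = i} = P ({x | l x = i} ∩ S) := by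
    intro i
    rw [hlaw, hc]
    by_cases h0 : P {x | l x = i} = 0
    · rw [h0, mul_zero]
      exact (measure_mono_null inter_subset_left h0).symm
    · rw [mul_comm, ← mul_assoc, ENNReal.mul_inv_cancel h0 (measure_ne_top _ _), one_mul]
  rw [tsum_congr h4, ← measure_iUnion]
  · congr 1
    ext x
    simp
  · intro i j hij
    refine Set.disjoint_left.2 ?_
    rintro x ⟨h5, -⟩ ⟨h6, -⟩
    exact hij (h5.symm.trans h6)
  · intro i
    exact (hB i).inter hS

end Pool.Agent.H99Q.LAW
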