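import Pool.Agent.H99Q.Stm2

set_option autoImplicit false

/-! Stub LAWK of project PCR, part 2 (helper90): resampling with a selection rule preserves the law. -/

open MeasureTheory Set Filter Topology Pool.Agent.R972.PC
open scoped NNReal ENNReal

namespace Pool.Agent.H99Q.LAWK

lemma cp_law {L : ℕ} {sel : (ℕ → ℝ) → ℝ → ℕ} (hs : IsSel L sel) (P : Measure ℝ) [IsProbabilityMeasure P]
    (l r : ℝ → ℕ) (hl : Measurable l) (hr : Measurable r) (hrL : ∀ x, r x < L) (y : ℝ)
    (hy : P {x | l x = l y} ≠ 0) (j : ℕ) :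
    leb {u | sel (cp P l r y) u = j} = P {x | l x = l y ∧ r x = j} * (P {x | l x = l y})⁻¹ := by
  have hB : MeasurableSet {x | l x = l y} := hl (measurableSet_singleton (l y))
  have hBj : ∀ i, MeasurableSet {x | l x = l y ∧ r x = i} := fun i =>
    hB.inter (hr (measurableSet_singleton i))
  have htop : ∀ i, P {x | l x = l y ∧ r x = i} / P {x | l x = l y} ≠ ⊤ := fun i =>
    (ENNReal.div_lt_top (measure_ne_top _ _) hy).ne
  have e := hs.law (cp P l r y) (fun i => ENNReal.toReal_nonneg) ?_ ?_ j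
  · rw [e]
    unfold cp
    rw [ENNReal.ofReal_toReal (htop j), div_eq_mul_inv]
  · intro i hi
    unfold cp
    have : {x | l x = l y ∧ r x = i} = ∅ := by
      ext x
      simp only [mem_ofPred_eq, mem_empty_iff_false, iff_false, not_and]
      intro _ h3
      have := hrL x
      omega
    rw [this, measure_empty, ENNReal.zero_div]
    rfl
  · unfold cp
    rw [← ENNReal.toReal_sum (fun i _ => htop i)]
    simp_rw [div_eq_mul_inv]
    rw [← Finset.sum_mul]
    have : ∑ i ∈ Finset.range L, P {x | l x = l y ∧ r x = i} = P {x | l x = l y} := by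
      rw [← measure_biUnion_finset ?_ (fun i _ => hBj i)]
      · congr 1
        ext x
        simp only [Finset.mem_range, mem_iUnion, mem_ofPred_eq, exists_prop]
        constructor
        · rintro ⟨i, _, h3, _⟩
          exact h3
        · intro h3
          exact ⟨r x, hrL x, h3, rfl⟩
      · intro i _ k _ hik
        refine Set.disjoint_left.2 ?_
        rintro x ⟨_, h5⟩ ⟨_, h6⟩
        exact hik (h5.symm.trans h6)
    rw [this, ENNReal.mul_inv_cancel hy (measure_ne_top _ _)]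
    rfl

lemma fibre1 (h : S_QLAW) (P : Measure ℝ) [IsProbabilityMeasure P] (l : ℝ → ℕ) (y : ℝ)
    (C : Set ℝ) (hC : MeasurableSet C) (hCB : ∀ x ∈ C, l x = l y) (hC0 : P C ≠ 0) (S : Set ℝ)
    (hS : MeasurableSet S) :
    leb {v | (if l (G (P.restrict C) v) = l y then G (P.restrict C) v else y) ∈ S} =
      (P C)⁻¹ * P (C ∩ S) := by
  obtain ⟨ν, hν⟩ : ∃ ν, ν = P.restrict C := ⟨_, rfl⟩
  have hu : ν univ = P C := by rw [hν, Measure.restrict_apply_univ]
  have hν0 : ν ≠ 0 := by
    intro h0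
    apply hC0
    rw [← hu, h0]
    rfl
  have : IsFiniteMeasure ν := by rw [hν]; infer_instance
  obtain ⟨-, hm, hlaw⟩ := h ν hν0
  have hBc : MeasurableSet Cᶜ := hC.compl
  have h1 : leb ((G ν) ⁻¹' Cᶜ) = 0 := by
    rw [← Measure.map_apply hm hBc, hlaw, Measure.smul_apply, hν, Measure.restrict_apply hBc,
      compl_inter_self, measure_empty, smul_zero]
  have h2 : ∀ᵐ u ∂leb, G ν u ∈ C := by
    rw [ae_iff]
    exact h1
  rw [← hν]
  have h3 : leb {v | (if l (G ν v) = l y then G ν v else y) ∈ S} = leb ((G ν) ⁻¹' S) := by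
    apply measure_congr
    filter_upwards [h2] with u hu2
    have e : (if l (G ν u) = l y then G ν u else y) = G ν u := by
      rw [if_pos (hCB _ hu2)]
    exact congrArg (· ∈ S) e
  rw [h3, ← Measure.map_apply hm hS, hlaw, Measure.smul_apply, hu, smul_eq_mul, hν,
    Measure.restrict_apply hS, inter_comm]

lemma fibre2 (h : S_QLAW) (h2 : S_MRK) {L : ℕ} {sel : (ℕ → ℝ) → ℝ → ℕ} (hs : IsSel L sel)
    (P : Measure ℝ) [IsProbabilityMeasure P] (l r : ℝ → ℕ) (hl : Measurable l) (hr : Measurable r)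
    (hrL : ∀ x, r x < L) (y : ℝ) (hy : P {x | l x = l y} ≠ 0) (S : Set ℝ) (hS : MeasurableSet S) :
    (leb.prod leb) {w : ℝ × ℝ | rk sel P l r y w.1 w.2 ∈ S} =
      (P {x | l x = l y})⁻¹ * P ({x | l x = l y} ∩ S) := by
  have hB : MeasurableSet {x | l x = l y} := hl (measurableSet_singleton (l y))
  have hBj : ∀ i, MeasurableSet {x | l x = l y ∧ r x = i} := fun i =>
    hB.inter (hr (measurableSet_singleton i))
  have hmk := h2 Unit L sel hs P (fun _ => l) (fun _ => r) (hl.comp measurable_snd)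
    (hr.comp measurable_snd)
  have hm : Measurable (fun w : ℝ × ℝ => rk sel P l r y w.1 w.2) :=
    hmk.comp ((measurable_const (a := ())).prodMk (measurable_const.prodMk
      (measurable_fst.prodMk measurable_snd)))
  change (leb.prod leb) ((fun w : ℝ × ℝ => rk sel P l r y w.1 w.2) ⁻¹' S) = _
  rw [Measure.prod_apply (hm hS)]
  obtain ⟨d, hd⟩ : ∃ d : ℕ → ℝ≥0∞, ∀ j, d j = (P {x | l x = l y ∧ r x = j})⁻¹ *
    P ({x | l x = l y ∧ r x = j} ∩ S) := ⟨_, fun i => rfl⟩
  obtain ⟨s, hsd⟩ : ∃ s : ℝ → ℕ, s = fun u => sel (cp P l r y) u := ⟨_, rfl⟩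
  have hsm : Measurable s := by
    rw [hsd]
    exact hs.meas.comp (measurable_const.prodMk measurable_id)
  have hlaw : ∀ j, leb {u | s u = j} = P {x | l x = l y ∧ r x = j} * (P {x | l x = l y})⁻¹ := by
    intro j
    rw [hsd]
    exact cp_law hs P l r hl hr hrL y hy j
  have h1 : ∀ᵐ u ∂leb, P {x | l x = l y ∧ r x = s u} ≠ 0 := by
    have h3 : ∀ j : ℕ, ∀ᵐ u ∂leb, P {x | l x = l y ∧ r x = j} = 0 → s u ≠ j := by
      intro j
      by_cases h0 : P {x | l x = l y ∧ r x = j} = 0
      · have h4 : leb {u | s u = j} = 0 := by rw [hlaw, h0, zero_mul]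
        rw [ae_iff]
        refine measure_mono_null ?_ h4
        intro u hu
        by_contra hne
        exact hu fun _ => hne
      · exact Eventually.of_forall fun u h4 => absurd h4 h0
    filter_upwards [ae_all_iff.2 h3] with u hu h0
    exact hu (s u) h0 rfl
  have h3 : ∫⁻ u, leb (Prod.mk u ⁻¹' {w : ℝ × ℝ | rk sel P l r y w.1 w.2 ∈ S}) ∂leb =
      ∫⁻ u, d (s u) ∂leb := by
    apply lintegral_congr_ae
    filter_upwards [h1] with u hu
    rw [hd]
    have e := fibre1 h P l y {x | l x = l y ∧ r x = s u} (hBj _) (fun x hx => hx.1) hu S hS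
    rw [← e, hsd]
    rfl
  have h3' : ∫⁻ u, leb (Prod.mk u ⁻¹' ((fun w : ℝ × ℝ => rk sel P l r y w.1 w.2) ⁻¹' S)) ∂leb =
      ∫⁻ u, d (s u) ∂leb := h3
  rw [h3']
  have h4 : ∫⁻ u, d (s u) ∂leb = ∑' i, d i * leb {u | s u = i} := by
    rw [← lintegral_map (f := d) (measurable_of_countable d) hsm, lintegral_countable']
    congr 1
    ext i
    rw [Measure.map_apply hsm (measurableSet_singleton i)]
    rfl
  rw [h4]
  have h5 : ∀ i, d i * leb {u | s u = i} = (P {x | l x = l y})⁻¹ * P ({x | l x = l y ∧ r x = i} ∩ S) := by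
    intro i
    rw [hlaw, hd]
    by_cases h0 : P {x | l x = l y ∧ r x = i} = 0
    · rw [h0, zero_mul, mul_zero, measure_mono_null inter_subset_left h0, mul_zero]
    · calc (P {x | l x = l y ∧ r x = i})⁻¹ * P ({x | l x = l y ∧ r x = i} ∩ S) *
          (P {x | l x = l y ∧ r x = i} * (P {x | l x = l y})⁻¹)
          = (P {x | l x = l y ∧ r x = i} * (P {x | l x = l y ∧ r x = i})⁻¹) *
            ((P {x | l x = l y})⁻¹ * P ({x | l x = l y ∧ r x = i} ∩ S)) := by ring
        _ = _ := by rw [ENNReal.mul_inv_cancel h0 (measure_ne_top _ _), one_mul]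
  rw [tsum_congr h5, ENNReal.tsum_mul_left, ← measure_iUnion]
  · congr 2
    ext x
    simp
  · intro i j hij
    refine Set.disjoint_left.2 ?_
    rintro x ⟨⟨_, h5⟩, -⟩ ⟨⟨_, h6⟩, -⟩
    exact hij (h5.symm.trans h6)
  · intro i
    exact (hBj i).inter hS

theorem t (h : S_QLAW) (hK : S_MRK) : S_LAWK := by
  intro L sel hs P _ l r hl hr hrL Ω _ μ _ A hA hlaw
  have hmk := hK Unit L sel hs P (fun _ => l) (fun _ => r) (hl.comp measurable_snd)
    (hr.comp measurable_snd)
  have hmeas : Measurable (fun w : Ω × ℝ × ℝ => rk sel P l r (A w.1) w.2.1 w.2.2) :=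
    hmk.comp ((measurable_const (a := ())).prodMk ((hA.comp measurable_fst).prodMk
      ((measurable_fst.comp measurable_snd).prodMk (measurable_snd.comp measurable_snd))))
  have hB : ∀ i : ℕ, MeasurableSet {x | l x = i} := fun i => hl (measurableSet_singleton i)
  apply Measure.ext
  intro S hS
  rw [Measure.map_apply hmeas hS, Measure.prod_apply (hmeas hS)]
  obtain ⟨c, hc⟩ : ∃ c : ℕ → ℝ≥0∞, ∀ i, c i = (P {x | l x = i})⁻¹ * P ({x | l x = i} ∩ S) :=
    ⟨_, fun i => rfl⟩
  have h1 : ∀ᵐ ω ∂μ, P {x | l x = l (A ω)} ≠ 0 := by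
    have h2 : ∀ i : ℕ, ∀ᵐ ω ∂μ, P {x | l x = i} = 0 → l (A ω) ≠ i := by
      intro i
      by_cases h0 : P {x | l x = i} = 0
      · have h3 : μ {ω | l (A ω) = i} = 0 := by rw [hlaw, h0]
        rw [ae_iff]
        refine measure_mono_null ?_ h3
        intro ω hω
        by_contra hne
        exact hω fun _ => hne
      · exact Eventually.of_forall fun ω h4 => absurd h4 h0
    filter_upwards [ae_all_iff.2 h2] with ω hω h0
    exact hω (l (A ω)) h0 rfl
  have h2 : ∫⁻ ω, (leb.prod leb) (Prod.mk ω ⁻¹'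
      ((fun w : Ω × ℝ × ℝ => rk sel P l r (A w.1) w.2.1 w.2.2) ⁻¹' S)) ∂μ =
      ∫⁻ ω, c (l (A ω)) ∂μ := by
    apply lintegral_congr_ae
    filter_upwards [h1] with ω hω
    rw [hc]
    exact fibre2 h hK hs P l r hl hr hrL (A ω) hω S hS
  rw [h2]
  have hlA : Measurable (fun ω => l (A ω)) := hl.comp hA
  have h3 : ∫⁻ ω, c (l (A ω)) ∂μ = ∑' i, c i * μ {ω | l (A ω) = i} := by
    rw [← lintegral_map (f := c) (measurable_of_countable c) hlA, lintegral_countable']
    congr 1
    ext i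
    rw [Measure.map_apply hlA (measurableSet_singleton i)]
    rfl
  rw [h3]
  have h4 : ∀ i, c i * μ {ω | l (A ω) = i} = P ({x | l x = i} ∩ S) := by
    intro i
    rw [hlaw, hc]
    by_cases h0 : P {x | l x = i} = 0
    · rw [h0, mul_zero]
      exact (measure_mono_null inter_subset_left h0).symm
    · rw [mul_comm, ← mul_assoc, ENNReal.mul_inv_cancel h0 (measure_ne_top _ _), one_mul]
  rw [tsum_congr h4, ← measure_iUnion]
  · congr 1
    ext x
    simp
  · intro i j hij
    refine Set.disjoint_left.2 ?_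
    rintro x ⟨h5, -⟩ ⟨h6, -⟩
    exact hij (h5.symm.trans h6)
  · intro i
    exact (hB i).inter hS

end Pool.Agent.H99Q.LAWK
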