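import Pool.Agent.H99Q.Stm

set_option autoImplicit false

/-! Project PCR: stub ML. -/

open MeasureTheory Set Filter Topology Pool.Agent.R972.PC
open scoped NNReal ENNReal

namespace Pool.Agent.H99Q.ML

open Pool.Agent.H99Q

lemma m_signZ : Measurable (fun x : ℝ => ((SignType.sign x : SignType) : ℤ)) := by
  have h : (fun x : ℝ => ((SignType.sign x : SignType) : ℤ)) =
      fun x : ℝ => if 0 < x then (1 : ℤ) else if x < 0 then -1 else 0 := by
    funext x
    rw [sign_apply]
    split_ifs <;> rfl
  rw [h]
  refine Measurable.ite (measurableSet_lt measurable_const measurable_id) measurable_const ?_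
  exact Measurable.ite (measurableSet_lt measurable_id measurable_const) measurable_const measurable_const

lemma m_signR : Measurable (fun x : ℝ => ((SignType.sign x : SignType) : ℝ)) := by
  have h : (fun x : ℝ => ((SignType.sign x : SignType) : ℝ)) =
      fun x : ℝ => if 0 < x then (1 : ℝ) else if x < 0 then -1 else 0 := by
    funext x
    rw [sign_apply]
    split_ifs <;> simp
  rw [h]
  refine Measurable.ite (measurableSet_lt measurable_const measurable_id) measurable_const ?_
  exact Measurable.ite (measurableSet_lt measurable_id measurable_const) measurable_const measurable_const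

lemma m_sc : Measurable (fun p : ℝ × ℝ × ℝ => sc p.1 p.2.2) := by
  unfold sc
  apply Int.measurable_floor.comp
  apply Measurable.sub _ measurable_fst
  unfold Real.logb
  apply Measurable.div_const
  apply Real.measurable_log.comp
  exact (measurable_snd.comp measurable_snd).abs

lemma m_T : Measurable (fun p : ℝ × ℝ × ℝ => T p.1 p.2.2) := by
  unfold T
  refine Measurable.ite ?_ measurable_const ?_
  · exact measurableSet_eq_fun (measurable_snd.comp measurable_snd) measurable_const
  · apply Measurable.pow measurable_const
    apply Measurable.add _ measurable_fst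
    apply Measurable.add_const
    exact (measurable_of_countable (fun a : ℤ => (a : ℝ))).comp m_sc

lemma m_kk (M n : ℕ) : Measurable (fun p : ℝ × ℝ × ℝ => kk M p.1 p.2.1 n p.2.2) := by
  unfold kk
  apply Int.measurable_floor.comp
  apply Measurable.sub _ (measurable_fst.comp measurable_snd)
  apply Measurable.div _ m_T
  exact (measurable_snd.comp measurable_snd).const_mul _

lemma m_lab (M n : ℕ) : Measurable (fun p : ℝ × ℝ × ℝ => lab M p.1 p.2.1 n p.2.2) := by
  induction n with
  | zero =>
    exact (measurable_of_countable (fun a : ℤ × ℤ => Encodable.encode a)).comp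
      ((m_signZ.comp (measurable_snd.comp measurable_snd)).prodMk m_sc)
  | succ n ih =>
    exact (measurable_of_countable (fun a : ℕ × ℤ => Encodable.encode a)).comp
      (ih.prodMk (m_kk M (n + 1)))

theorem t : S_ML := by
  intro q M n
  refine ⟨m_lab M n, ?_, ?_, ?_⟩
  · unfold w0
    apply Measurable.mul _ (m_T.pow_const q)
    exact (m_signR.comp (measurable_snd.comp measurable_snd)).const_mul _
  · unfold wn
    apply Measurable.mul
    · apply Measurable.mul_const
      exact (m_T.pow_const q).const_mul _
    · exact (measurable_of_countable (fun a : ℤ => (a : ℝ))).comp (m_kk M n)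
  · unfold on
    apply Measurable.mul_const
    exact (m_T.pow_const q).const_mul _

end Pool.Agent.H99Q.ML
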