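import Pool.Agent.H99Q.Stm2
import Pool.Agent.H99Q.ML

set_option autoImplicit false

/-! Project PCR: stub ML2. -/

open MeasureTheory Set Filter Topology Pool.Agent.R972.PC
open scoped NNReal ENNReal

namespace Pool.Agent.H99Q.ML2

open Pool.Agent.H99Q

lemma m_sc (M : ℕ) : Measurable (fun p : ℝ × ℝ × ℝ => sc2 M p.1 p.2.2) := by
  unfold sc2
  apply Int.measurable_floor.comp
  apply Measurable.sub _ measurable_fst
  unfold Real.logb
  apply Measurable.div_const
  apply Real.measurable_log.comp
  exact (measurable_snd.comp measurable_snd).abs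

lemma m_T (M : ℕ) : Measurable (fun p : ℝ × ℝ × ℝ => T2 M p.1 p.2.2) := by
  unfold T2
  refine Measurable.ite ?_ measurable_const ?_
  · exact measurableSet_eq_fun (measurable_snd.comp measurable_snd) measurable_const
  · apply Measurable.pow measurable_const
    apply Measurable.add _ measurable_fst
    apply Measurable.add_const
    exact (measurable_of_countable (fun a : ℤ => (a : ℝ))).comp (m_sc M)

lemma m_kk (M n : ℕ) : Measurable (fun p : ℝ × ℝ × ℝ => kk2 M p.1 p.2.1 n p.2.2) := by
  unfold kk2
  apply Int.measurable_floor.comp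
  apply Measurable.sub _ (measurable_fract.comp (measurable_fst.comp measurable_snd))
  apply Measurable.div _ (m_T M)
  exact (measurable_snd.comp measurable_snd).const_mul _

lemma m_lab (M n : ℕ) : Measurable (fun p : ℝ × ℝ × ℝ => lab2 M p.1 p.2.1 n p.2.2) := by
  induction n with
  | zero =>
    exact (measurable_of_countable (fun a : ℤ × ℤ => Encodable.encode a)).comp
      ((ML.m_signZ.comp (measurable_snd.comp measurable_snd)).prodMk (m_sc M))
  | succ n ih =>
    exact (measurable_of_countable (fun a : ℕ × ℤ => Encodable.encode a)).comp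
      (ih.prodMk (m_kk M (n + 1)))

theorem t : S_ML2 := by
  intro q M n
  refine ⟨m_lab M n, ?_, ?_, ?_⟩
  · exact (measurable_of_countable (fun a : ℤ × ℤ =>
      (a.1 - (if n = 0 then -((M : ℤ) + 1) else M * a.2)).toNat)).comp
      ((m_kk M (n + 1)).prodMk (m_kk M n))
  · unfold w02
    apply Measurable.mul _ ((m_T M).pow_const q)
    exact (ML.m_signR.comp (measurable_snd.comp measurable_snd)).const_mul _
  · unfold cc
    apply Measurable.mul_const
    exact (m_T M).pow_const q

end Pool.Agent.H99Q.ML2
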