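import Pool.Agent.H99Q.Stm

/-!
# Project PCR, stub MRS: joint measurability of the resampling
-/

set_option autoImplicit false

open MeasureTheory Set Filter Topology Pool.Agent.R972.PC
open scoped NNReal ENNReal

namespace Pool.Agent.H99Q.MRS

theorem bdd (μ : Measure ℝ) [IsFiniteMeasure μ] (r : ℝ≥0∞) (hr : 0 < r) :
    BddBelow {x : ℝ | r ≤ μ (Iic x)} := by
  have h : Tendsto (μ ∘ (Iic : ℝ → Set ℝ)) atBot (𝓝 (μ (⋂ x : ℝ, Iic x))) :=
    tendsto_measure_iInter_atBot (fun i => measurableSet_Iic.nullMeasurableSet) monotone_Iic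
      ⟨0, measure_ne_top _ _⟩
  have he : (⋂ x : ℝ, Iic x) = (∅ : Set ℝ) := by
    rw [Set.eq_empty_iff_forall_notMem]
    intro y hy
    have := Set.mem_iInter.1 hy (y - 1)
    rw [Set.mem_Iic] at this
    linarith
  rw [he, measure_empty] at h
  have h2 : ∀ᶠ x in atBot, (μ ∘ (Iic : ℝ → Set ℝ)) x < r := h.eventually_lt_const hr
  obtain ⟨N, hN⟩ := h2.exists
  refine ⟨N, fun x hx => ?_⟩
  by_contra hlt
  have hlt' : x ≤ N := (not_le.1 hlt).le
  have h3 : r ≤ μ (Iic N) := le_trans hx (measure_mono (Iic_subset_Iic.2 hlt'))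
  exact absurd h3 (not_le.2 hN)

theorem sInf_iff (μ : Measure ℝ) [IsFiniteMeasure μ] (r : ℝ≥0∞) (hr : 0 < r) (hr2 : r < μ univ)
    (c : ℝ) : sInf {x : ℝ | r ≤ μ (Iic x)} ≤ c ↔ r ≤ μ (Iic c) := by
  constructor
  · intro h
    have hne : {x : ℝ | r ≤ μ (Iic x)}.Nonempty := by
      have h2 : ∀ᶠ x in atTop, r < μ (Iic x) := (tendsto_measure_Iic_atTop μ).eventually_const_lt hr2
      obtain ⟨N, hN⟩ := h2.exists
      exact ⟨N, hN.le⟩
    have h3 : ∀ c' : ℝ, c < c' → r ≤ μ (Iic c') := by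
      intro c' hc
      obtain ⟨x, hx, hxc⟩ := exists_lt_of_csInf_lt hne (lt_of_le_of_lt h hc)
      exact le_trans hx (measure_mono (Iic_subset_Iic.2 hxc.le))
    have h4 : Tendsto (μ ∘ (Iic : ℝ → Set ℝ)) (𝓝[>] c) (𝓝 (μ (⋂ r > c, Iic r))) :=
      tendsto_measure_biInter_gt (fun r _ => measurableSet_Iic.nullMeasurableSet)
        (fun i j _ hij => Iic_subset_Iic.2 hij) ⟨c + 1, by simp, measure_ne_top _ _⟩
    have he : (⋂ r > c, Iic r) = Iic c := by
      ext y
      simp only [Set.mem_iInter, Set.mem_Iic]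
      constructor
      · intro hy
        exact le_of_forall_gt_imp_ge_of_dense hy
      · intro hy r hr
        exact hy.trans (le_of_lt hr)
    rw [he] at h4
    refine ge_of_tendsto h4 ?_
    filter_upwards [self_mem_nhdsWithin] with x hx
    exact h3 x hx
  · intro h
    exact csInf_le (bdd μ r hr) h

theorem G_le (μ : Measure ℝ) [IsFiniteMeasure μ] (u c : ℝ) :
    G μ u ≤ c ↔ ((¬ (0 < u ∧ u < 1) ∨ μ univ = 0) ∧ 0 ≤ c) ∨
      ((0 < u ∧ u < 1) ∧ μ univ ≠ 0 ∧ ENNReal.ofReal u * μ univ ≤ μ (Iic c)) := by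
  unfold G
  by_cases hu : 0 < u ∧ u < 1
  · rw [if_pos hu]
    by_cases hm : μ univ = 0
    · have : {x : ℝ | ENNReal.ofReal u * μ univ ≤ μ (Iic x)} = univ := by
        ext x
        simp [hm]
      rw [this, Real.sInf_univ]
      simp [hm]
    · have h1 : 0 < ENNReal.ofReal u * μ univ :=
        ENNReal.mul_pos (by simpa using hu.1) hm
      have h2 : ENNReal.ofReal u * μ univ < μ univ := by
        have h3 : ENNReal.ofReal u < 1 := by
          rw [ENNReal.ofReal_lt_one]; exact hu.2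
        calc ENNReal.ofReal u * μ univ < 1 * μ univ :=
              ENNReal.mul_lt_mul_left hm (measure_ne_top _ _) h3
          _ = μ univ := one_mul _
      rw [sInf_iff μ _ h1 h2 c]
      constructor
      · intro h
        exact Or.inr ⟨hu, hm, h⟩
      · rintro (⟨h | h, _⟩ | ⟨_, _, h⟩)
        · exact absurd hu h
        · exact absurd h hm
        · exact h
  · rw [if_neg hu]
    constructor
    · intro h
      exact Or.inl ⟨Or.inl hu, h⟩
    · rintro (⟨_, h⟩ | ⟨h, _⟩)
      · exact h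
      · exact absurd h hu

theorem t : S_MRS := by
  intro α _ P _ l hl
  have hlx : ∀ a, Measurable (l a) := fun a => hl.comp measurable_prodMk_left
  have hB : ∀ a y, MeasurableSet {x | l a x = l a y} := fun a y =>
    hlx a (measurableSet_singleton (l a y))
  -- the sets in the product
  have hs : MeasurableSet {p : (α × ℝ × ℝ) × ℝ | l p.1.1 p.2 = l p.1.1 p.1.2.1} := by
    refine measurableSet_eq_fun ?_ ?_
    · exact hl.comp ((measurable_fst.comp measurable_fst).prodMk measurable_snd)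
    · exact hl.comp ((measurable_fst.comp measurable_fst).prodMk
        ((measurable_fst.comp measurable_snd).comp measurable_fst))
  have hm1 : Measurable fun p : α × ℝ × ℝ => P {x | l p.1 x = l p.1 p.2.1} :=
    measurable_measure_prodMk_left hs
  have hm2 : ∀ c : ℝ, Measurable fun p : α × ℝ × ℝ => P ({x | l p.1 x = l p.1 p.2.1} ∩ Iic c) := by
    intro c
    exact measurable_measure_prodMk_left (hs.inter (measurable_snd measurableSet_Iic))
  have hu0 : Measurable fun p : α × ℝ × ℝ => p.2.2 := measurable_snd.comp measurable_snd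
  have hU : MeasurableSet {p : α × ℝ × ℝ | 0 < p.2.2 ∧ p.2.2 < 1} :=
    (measurableSet_lt measurable_const hu0).inter (measurableSet_lt hu0 measurable_const)
  have hG : Measurable fun p : α × ℝ × ℝ => G (P.restrict {x | l p.1 x = l p.1 p.2.1}) p.2.2 := by
    refine measurable_of_Iic fun c => ?_
    have he : (fun p : α × ℝ × ℝ => G (P.restrict {x | l p.1 x = l p.1 p.2.1}) p.2.2) ⁻¹' (Iic c) =
        (({p : α × ℝ × ℝ | 0 < p.2.2 ∧ p.2.2 < 1}ᶜ ∪
            {p : α × ℝ × ℝ | P {x | l p.1 x = l p.1 p.2.1} = 0}) ∩ {p : α × ℝ × ℝ | 0 ≤ c}) ∪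
          ({p : α × ℝ × ℝ | 0 < p.2.2 ∧ p.2.2 < 1} ∩
            ({p : α × ℝ × ℝ | P {x | l p.1 x = l p.1 p.2.1} = 0}ᶜ ∩
              {p : α × ℝ × ℝ | ENNReal.ofReal p.2.2 * P {x | l p.1 x = l p.1 p.2.1} ≤
                P ({x | l p.1 x = l p.1 p.2.1} ∩ Iic c)})) := by
      ext p
      rw [Set.mem_preimage, Set.mem_Iic, G_le, Measure.restrict_apply_univ,
        Measure.restrict_apply measurableSet_Iic, Set.inter_comm (Iic c)]
      rfl
    rw [he]
    have hz : MeasurableSet {p : α × ℝ × ℝ | P {x | l p.1 x = l p.1 p.2.1} = 0} :=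
      hm1 (measurableSet_singleton 0)
    refine ((hU.compl.union hz).inter (MeasurableSet.const _)).union (hU.inter (hz.compl.inter ?_))
    exact measurableSet_le ((ENNReal.measurable_ofReal.comp hu0).mul hm1) (hm2 c)
  have h1 : Measurable fun p : α × ℝ × ℝ =>
      l p.1 (G (P.restrict {x | l p.1 x = l p.1 p.2.1}) p.2.2) :=
    hl.comp (measurable_fst.prodMk hG)
  have h2 : Measurable fun p : α × ℝ × ℝ => l p.1 p.2.1 :=
    hl.comp (measurable_fst.prodMk (measurable_fst.comp measurable_snd))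
  unfold rs
  exact Measurable.ite (measurableSet_eq_fun h1 h2) hG (measurable_fst.comp measurable_snd)

end Pool.Agent.H99Q.MRS
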