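import Pool.Agent.H99Q.Stm2
import Pool.Agent.H99Q.MRS

/-!
# Project PCR, stub MRK: joint measurability of the resampling with a selection rule
-/

set_option autoImplicit false

open MeasureTheory Set Filter Topology Pool.Agent.R972.PC
open scoped NNReal ENNReal

namespace Pool.Agent.H99Q.MRK

theorem G_meas {β : Type} [MeasurableSpace β] (P : Measure ℝ) [IsProbabilityMeasure P] (D : β → Set ℝ)
    (hD : MeasurableSet {p : β × ℝ | p.2 ∈ D p.1}) (v : β → ℝ) (hv : Measurable v) :
    Measurable fun p : β => G (P.restrict (D p)) (v p) := by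
  have hm1 : Measurable fun p : β => P (D p) := measurable_measure_prodMk_left hD
  have hm2 : ∀ c : ℝ, Measurable fun p : β => P (D p ∩ Iic c) := by
    intro c
    exact measurable_measure_prodMk_left (hD.inter (measurable_snd measurableSet_Iic))
  have hU : MeasurableSet {p : β | 0 < v p ∧ v p < 1} :=
    (measurableSet_lt measurable_const hv).inter (measurableSet_lt hv measurable_const)
  refine measurable_of_Iic fun c => ?_
  have he : (fun p : β => G (P.restrict (D p)) (v p)) ⁻¹' (Iic c) =
      (({p : β | 0 < v p ∧ v p < 1}ᶜ ∪ {p : β | P (D p) = 0}) ∩ {p : β | 0 ≤ c}) ∪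
        ({p : β | 0 < v p ∧ v p < 1} ∩ ({p : β | P (D p) = 0}ᶜ ∩
            {p : β | ENNReal.ofReal (v p) * P (D p) ≤ P (D p ∩ Iic c)})) := by
    ext p
    rw [Set.mem_preimage, Set.mem_Iic, MRS.G_le, Measure.restrict_apply_univ,
      Measure.restrict_apply measurableSet_Iic, Set.inter_comm (Iic c)]
    rfl
  rw [he]
  have hz : MeasurableSet {p : β | P (D p) = 0} := hm1 (measurableSet_singleton 0)
  refine ((hU.compl.union hz).inter (MeasurableSet.const _)).union (hU.inter (hz.compl.inter ?_))
  exact measurableSet_le ((ENNReal.measurable_ofReal.comp hv).mul hm1) (hm2 c)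

theorem t : S_MRK := by
  intro α _ L sel hsel P _ l r hl hr
  -- the block and the sub-block
  have hy : Measurable fun p : α × ℝ × ℝ × ℝ => l p.1 p.2.1 :=
    hl.comp (measurable_fst.prodMk (measurable_fst.comp measurable_snd))
  have hB : MeasurableSet {p : (α × ℝ × ℝ × ℝ) × ℝ | l p.1.1 p.2 = l p.1.1 p.1.2.1} := by
    refine measurableSet_eq_fun ?_ (hy.comp measurable_fst)
    exact hl.comp ((measurable_fst.comp measurable_fst).prodMk measurable_snd)
  have hr2 : Measurable fun p : (α × ℝ × ℝ × ℝ) × ℝ => r p.1.1 p.2 :=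
    hr.comp ((measurable_fst.comp measurable_fst).prodMk measurable_snd)
  have hBm : Measurable fun p : α × ℝ × ℝ × ℝ => P {x | l p.1 x = l p.1 p.2.1} :=
    measurable_measure_prodMk_left hB
  have hBj : ∀ j : ℕ, Measurable fun p : α × ℝ × ℝ × ℝ =>
      P {x | l p.1 x = l p.1 p.2.1 ∧ r p.1 x = j} := by
    intro j
    exact measurable_measure_prodMk_left (hB.inter (hr2 (measurableSet_singleton j)))
  have hcp : Measurable fun p : α × ℝ × ℝ × ℝ => cp P (l p.1) (r p.1) p.2.1 := by
    refine measurable_pi_lambda _ fun j => ?_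
    exact ((hBj j).div hBm).ennreal_toReal
  have hs : Measurable fun p : α × ℝ × ℝ × ℝ => sel (cp P (l p.1) (r p.1) p.2.1) p.2.2.1 :=
    hsel.meas.comp (hcp.prodMk (measurable_fst.comp (measurable_snd.comp measurable_snd)))
  have hG : Measurable fun p : α × ℝ × ℝ × ℝ =>
      G (P.restrict {x | l p.1 x = l p.1 p.2.1 ∧ r p.1 x = sel (cp P (l p.1) (r p.1) p.2.1) p.2.2.1})
        p.2.2.2 := by
    refine G_meas P (fun p : α × ℝ × ℝ × ℝ => {x | l p.1 x = l p.1 p.2.1 ∧
      r p.1 x = sel (cp P (l p.1) (r p.1) p.2.1) p.2.2.1}) ?_ (fun p => p.2.2.2)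
      (measurable_snd.comp (measurable_snd.comp measurable_snd))
    exact hB.inter (measurableSet_eq_fun hr2 (hs.comp measurable_fst))
  have h1 : Measurable fun p : α × ℝ × ℝ × ℝ =>
      l p.1 (G (P.restrict {x | l p.1 x = l p.1 p.2.1 ∧
        r p.1 x = sel (cp P (l p.1) (r p.1) p.2.1) p.2.2.1}) p.2.2.2) :=
    hl.comp (measurable_fst.prodMk hG)
  unfold rk
  exact Measurable.ite (measurableSet_eq_fun h1 hy) hG (measurable_fst.comp measurable_snd)

end Pool.Agent.H99Q.MRK
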