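import Pool.Agent.H99Q.Stm

/-!
# Project PCR, stub QLAW (helper21): the quantile function
-/

set_option autoImplicit false

open MeasureTheory Set Filter Topology ProbabilityTheory Pool.Agent.R972.PC
open scoped NNReal ENNReal

namespace Pool.Agent.H99Q.QLAW

variable (μ : Measure ℝ) [IsFiniteMeasure μ]

/-- the normalised measure -/
noncomputable def nu : Measure ℝ := (μ univ)⁻¹ • μ

variable {μ}

lemma nu_prob (h0 : μ ≠ 0) : IsProbabilityMeasure (nu μ) := by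
  refine ⟨?_⟩
  unfold nu
  rw [Measure.smul_apply, smul_eq_mul]
  exact ENNReal.inv_mul_cancel (fun h => h0 (Measure.measure_univ_eq_zero.1 h)) (measure_ne_top _ _)

lemma iff_cdf (h0 : μ ≠ 0) (u x : ℝ) (hu : 0 < u) :
    ENNReal.ofReal u * μ univ ≤ μ (Iic x) ↔ u ≤ cdf (nu μ) x := by
  have : IsProbabilityMeasure (nu μ) := nu_prob h0
  have hm : μ univ ≠ 0 := fun h => h0 (Measure.measure_univ_eq_zero.1 h)
  rw [← ENNReal.ofReal_le_ofReal_iff (cdf_nonneg (nu μ) x), ofReal_cdf]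
  have e : nu μ (Iic x) = μ (Iic x) / μ univ := by
    unfold nu
    rw [Measure.smul_apply, smul_eq_mul, ENNReal.div_eq_inv_mul]
  rw [e, ENNReal.le_div_iff_mul_le (Or.inl hm) (Or.inl (measure_ne_top _ _))]

lemma G_le_iff (h0 : μ ≠ 0) {u : ℝ} (hu : u ∈ Ioo (0 : ℝ) 1) (x : ℝ) :
    G μ u ≤ x ↔ u ≤ cdf (nu μ) x := by
  have : IsProbabilityMeasure (nu μ) := nu_prob h0
  have e : {x : ℝ | ENNReal.ofReal u * μ univ ≤ μ (Iic x)} = {x : ℝ | u ≤ cdf (nu μ) x} := by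
    ext x
    exact iff_cdf h0 u x hu.1
  have hne : {x : ℝ | u ≤ cdf (nu μ) x}.Nonempty := by
    obtain ⟨x, hx⟩ := ((tendsto_cdf_atTop (nu μ)).eventually (lt_mem_nhds hu.2)).exists
    exact ⟨x, le_of_lt hx⟩
  have hbdd : BddBelow {x : ℝ | u ≤ cdf (nu μ) x} := by
    obtain ⟨x, hx⟩ := ((tendsto_cdf_atBot (nu μ)).eventually (gt_mem_nhds hu.1)).exists
    refine ⟨x, fun y hy => ?_⟩
    by_contra hlt
    push Not at hlt
    exact absurd (lt_of_le_of_lt (le_trans hy (monotone_cdf (nu μ) hlt.le)) hx) (lt_irrefl _)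
  have hq : G μ u = sInf {x : ℝ | u ≤ cdf (nu μ) x} := by
    unfold G
    rw [if_pos ⟨hu.1, hu.2⟩, e]
  rw [hq]
  constructor
  · intro h
    have hmem : u ≤ cdf (nu μ) (sInf {x : ℝ | u ≤ cdf (nu μ) x}) := by
      have hr := (cdf (nu μ)).right_continuous (sInf {x : ℝ | u ≤ cdf (nu μ) x})
      have hr' : Tendsto (cdf (nu μ)) (𝓝[>] (sInf {x : ℝ | u ≤ cdf (nu μ) x}))
          (𝓝 (cdf (nu μ) (sInf {x : ℝ | u ≤ cdf (nu μ) x}))) :=
        hr.mono_left (nhdsWithin_mono _ Ioi_subset_Ici_self)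
      refine ge_of_tendsto hr' ?_
      filter_upwards [self_mem_nhdsWithin] with y hy
      obtain ⟨z, hz, hzy⟩ := exists_lt_of_csInf_lt hne hy
      exact le_trans hz (monotone_cdf (nu μ) hzy.le)
    exact hmem.trans (monotone_cdf (nu μ) h)
  · intro h
    exact csInf_le hbdd h

lemma G_out {u : ℝ} (hu : u ∉ Ioo (0 : ℝ) 1) : G μ u = 0 := by
  unfold G
  rw [if_neg]
  exact fun h => hu ⟨h.1, h.2⟩

lemma mono (h0 : μ ≠ 0) : MonotoneOn (G μ) (Ioo 0 1) := by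
  intro u hu v hv huv
  rw [G_le_iff h0 hu]
  exact huv.trans ((G_le_iff h0 hv _).1 le_rfl)

lemma meas (h0 : μ ≠ 0) : Measurable (G μ) := by
  refine measurable_of_Iic fun x => ?_
  have : G μ ⁻¹' (Iic x) = (Ioo 0 1 ∩ Iic (cdf (nu μ) x)) ∪ ((Ioo (0 : ℝ) 1)ᶜ ∩ {_u : ℝ | (0 : ℝ) ≤ x}) := by
    ext u
    simp only [mem_preimage, mem_Iic, mem_union, mem_inter_iff, mem_compl_iff]
    by_cases h : u ∈ Ioo (0 : ℝ) 1
    · rw [G_le_iff h0 h]
      simp [h]
    · rw [G_out h]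
      simp only [h, false_and, not_false_eq_true, true_and, false_or]
      rfl
  rw [this]
  exact (measurableSet_Ioo.inter measurableSet_Iic).union (measurableSet_Ioo.compl.inter (MeasurableSet.const _))

lemma law (h0 : μ ≠ 0) : leb.map (G μ) = (μ univ)⁻¹ • μ := by
  have hp : IsProbabilityMeasure (nu μ) := nu_prob h0
  have hG := meas h0
  have : IsProbabilityMeasure (leb.map (G μ)) := Measure.isProbabilityMeasure_map hG.aemeasurable
  change leb.map (G μ) = nu μ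
  refine Measure.ext_of_Iic _ _ fun x => ?_
  rw [Measure.map_apply hG measurableSet_Iic, ← ofReal_cdf]
  have hae : ∀ᵐ u ∂leb, u ∈ Ioo (0 : ℝ) 1 := by
    unfold leb
    rw [← restrict_Ioo_eq_restrict_Icc]
    exact ae_restrict_mem measurableSet_Ioo
  have h1 : G μ ⁻¹' (Iic x) =ᵐ[leb] Icc 0 (cdf (nu μ) x) := by
    filter_upwards [hae] with u hu
    refine propext ?_
    show G μ u ≤ x ↔ u ∈ Icc 0 (cdf (nu μ) x)
    rw [G_le_iff h0 hu]
    exact ⟨fun h => ⟨hu.1.le, h⟩, fun h => h.2⟩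
  rw [measure_congr h1]
  unfold leb
  rw [Measure.restrict_apply measurableSet_Icc]
  have h2 : Icc 0 (cdf (nu μ) x) ∩ Icc 0 1 = Icc 0 (cdf (nu μ) x) := by
    rw [Icc_inter_Icc]
    simp [cdf_le_one]
  rw [h2, Real.volume_Icc, sub_zero]

theorem t : S_QLAW := fun _ _ h0 => ⟨mono h0, meas h0, law h0⟩

end Pool.Agent.H99Q.QLAW
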