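import Pool.Agent.H99Q.Stm
import Mathlib.Probability.Independence.InfinitePi

/-!
SPLIT of project PCR: the coordinate `n + 1` is independent of the earlier ones (helper18).
-/

set_option autoImplicit false
set_option linter.all false

open MeasureTheory ProbabilityTheory Set Filter Topology Pool.Agent.R972.PC
open scoped NNReal ENNReal

namespace Pool.Agent.H99Q.SPLIT

theorem t : S_SPLIT := by
  intro α _ n Z hZ hdep
  obtain ⟨P, hP⟩ : ∃ P : Measure (ℕ → ℝ), P = Measure.infinitePi (fun _ : ℕ => leb) := ⟨_, rfl⟩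
  rw [← hP]
  haveI : IsProbabilityMeasure P := by rw [hP]; infer_instance
  have hind : iIndepFun (fun (i : ℕ) (U : ℕ → ℝ) => U i) P := by
    rw [hP]
    exact iIndepFun_infinitePi (P := fun _ : ℕ => leb) (X := fun _ x => x) (fun _ => measurable_id)
  have hmeas : ∀ i : ℕ, Measurable (fun U : ℕ → ℝ => U i) := fun i => measurable_pi_apply i
  have h1 := hind.indepFun_finset (Finset.range (n + 1)) {n + 1}
    (by rw [Finset.disjoint_singleton_right, Finset.mem_range]; omega) hmeas
  -- the extension by zero
  obtain ⟨ex, hex⟩ : ∃ ex : ((Finset.range (n + 1) : Finset ℕ) → ℝ) → (ℕ → ℝ),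
      ex = fun V i => if h : i ∈ Finset.range (n + 1) then V ⟨i, h⟩ else 0 := ⟨_, rfl⟩
  have hexm : Measurable ex := by
    rw [measurable_pi_iff]
    intro i
    by_cases h : i ∈ Finset.range (n + 1)
    · have : (fun V : ((Finset.range (n + 1) : Finset ℕ) → ℝ) => ex V i) = fun V => V ⟨i, h⟩ := by
        funext V
        rw [hex]
        simp only [h, dif_pos]
      rw [this]
      exact measurable_pi_apply _
    · have : (fun V : ((Finset.range (n + 1) : Finset ℕ) → ℝ) => ex V i) = fun V => 0 := by
        funext V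
        rw [hex]
        simp only [h, dif_neg, not_false_eq_true]
      rw [this]
      exact measurable_const
  have hZ' : ∀ U : ℕ → ℝ, Z (ex (fun i : (Finset.range (n + 1) : Finset ℕ) => U i)) = Z U := by
    intro U
    apply hdep
    intro i hi
    rw [hex]
    have h : i ∈ Finset.range (n + 1) := Finset.mem_range.2 (by omega)
    simp only [h, dif_pos]
  have h2 : IndepFun (fun U : ℕ → ℝ => Z U) (fun U : ℕ → ℝ => U (n + 1)) P := by
    have hψ : Measurable (fun V : (({n + 1} : Finset ℕ) → ℝ) =>
        V ⟨n + 1, Finset.mem_singleton_self _⟩) := measurable_pi_apply _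
    have h3 := h1.comp (φ := fun V => Z (ex V))
      (ψ := fun V : (({n + 1} : Finset ℕ) → ℝ) => V ⟨n + 1, Finset.mem_singleton_self _⟩)
      (hZ.comp hexm) hψ
    have e1 : ((fun V => Z (ex V)) ∘ fun (U : ℕ → ℝ) (i : (Finset.range (n + 1) : Finset ℕ)) => U i) =
        fun U => Z U := by
      funext U
      exact hZ' U
    rw [e1] at h3
    exact h3
  rw [indepFun_iff_map_prod_eq_prod_map_map hZ.aemeasurable (hmeas _).aemeasurable] at h2
  rw [h2]
  congr 1
  rw [hP]
  exact (measurePreserving_eval_infinitePi (fun _ : ℕ => leb) (n + 1)).map_eq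

end Pool.Agent.H99Q.SPLIT
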