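import Pool.Agent.H99Q.Stm

/-!
# Stub STEP: one level of the transport cost
-/

set_option autoImplicit false

open MeasureTheory Set Filter Topology Pool.Agent.R972.PC
open scoped NNReal ENNReal

namespace Pool.Agent.H99Q.STEP

/-- the right side of STEPB -/
noncomputable def Rf (g : ℝ → ℝ) (Bs : Set ℝ) (o : ℝ) (p : ℝ × ℝ) : ℝ≥0∞ :=
  (Bs ×ˢ Bs).indicator (fun p => ENNReal.ofReal |g p.1 - g p.2|) p +
    (Bs ×ˢ Bsᶜ).indicator (fun _ => ENNReal.ofReal (2 * o)) p +
    (Bsᶜ ×ˢ Bs).indicator (fun _ => ENNReal.ofReal (2 * o)) p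

theorem Rf_meas {g : ℝ → ℝ} (hg : Monotone g) {Bs : Set ℝ} (hB : MeasurableSet Bs) (o : ℝ) :
    Measurable (Rf g Bs o) := by
  unfold Rf
  have h1 : Measurable (fun p : ℝ × ℝ => ENNReal.ofReal |g p.1 - g p.2|) := by
    apply ENNReal.measurable_ofReal.comp
    exact measurable_norm.comp ((hg.measurable.comp measurable_fst).sub (hg.measurable.comp measurable_snd))
  exact ((h1.indicator (hB.prod hB)).add (measurable_const.indicator (hB.prod hB.compl))).add
    (measurable_const.indicator (hB.compl.prod hB))

theorem ae_label (h1 : S_QLAW) (P : Measure ℝ) [IsProbabilityMeasure P] (l : ℝ → ℕ) (hl : Measurable l)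
    (i : ℕ) (hi : P {x | l x = i} ≠ 0) :
    ∀ᵐ u ∂leb, l (G (P.restrict {x | l x = i}) u) = i := by
  have hB : MeasurableSet {x | l x = i} := hl (measurableSet_singleton i)
  obtain ⟨_, hm, hlaw⟩ := h1 (P.restrict {x | l x = i}) (by
    intro h
    apply hi
    rw [← Measure.restrict_apply_univ, h]
    rfl)
  have h2 : leb.map (G (P.restrict {x | l x = i})) {x | l x = i}ᶜ = 0 := by
    rw [hlaw, Measure.smul_apply, Measure.restrict_apply hB.compl, compl_inter_self, measure_empty, smul_zero]
  rw [Measure.map_apply hm hB.compl] at h2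
  rw [ae_iff]
  exact h2

theorem t (h1 : S_QLAW) (h2 : S_STEPB) : S_STEP := by
  classical
  intro P Q _ _ l W o hl hW ho hmono hosc π hπ Ω _ μ _ A B hA hB hAP hBQ
  choose g hg1 hg2 using hmono
  obtain ⟨S, hS⟩ : ∃ S : ℕ → Set ℝ, ∀ i, S i = {x | l x = i} := ⟨fun i => {x | l x = i}, fun i => rfl⟩
  have hSm : ∀ i, MeasurableSet (S i) := fun i => by
    rw [hS]
    exact hl (measurableSet_singleton i)
  obtain ⟨good, hgood⟩ : ∃ good : ℕ → Prop, ∀ i, good i ↔ (P (S i) ≠ 0 ∧ Q (S i) ≠ 0) :=
    ⟨fun i => P (S i) ≠ 0 ∧ Q (S i) ≠ 0, fun i => Iff.rfl⟩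
  have ho0 : ∀ x, 0 ≤ o x := fun x => by
    have := (hosc x x rfl).1
    rwa [sub_self, abs_zero] at this
  -- the oscillation on a block
  have hoi : ∀ i, ∃ oi : ℝ, ∀ x, l x = i → o x = oi := by
    intro i
    by_cases h : ∃ x, l x = i
    · obtain ⟨x, hx⟩ := h
      exact ⟨o x, fun y hy => (hosc y x (by rw [hx, hy])).2⟩
    · push Not at h
      exact ⟨0, fun x hx => absurd hx (h x)⟩
  choose oi hoi using hoi
  obtain ⟨F, hF⟩ : ∃ F : ℕ → ℝ≥0∞, ∀ i, F i = if good i then
      ∫⁻ u, ENNReal.ofReal |g i (G (P.restrict (S i)) u) - g i (G (Q.restrict (S i)) u)| ∂leb else 0 :=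
    ⟨_, fun i => rfl⟩
  obtain ⟨R, hR⟩ : ∃ R : ℕ → ℝ × ℝ → ℝ≥0∞, ∀ i, R i = if good i then Rf (g i) (S i) (oi i) else 0 :=
    ⟨_, fun i => rfl⟩
  -- almost all blocks are good
  have haeA : ∀ᵐ ω ∂μ, ∀ i, l (A ω) = i → P (S i) ≠ 0 := by
    rw [ae_all_iff]
    intro i
    by_cases h : P (S i) = 0
    · have h3 : μ {ω | l (A ω) = i} = 0 := by
        have := hAP i
        rw [← hS, h] at this
        exact nonpos_iff_eq_zero.1 this
      rw [ae_iff]
      refine measure_mono_null (fun ω hω => ?_) h3
      simp only [mem_ofPred_eq, not_forall] at hω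
      obtain ⟨hω1, _⟩ := hω
      exact hω1
    · exact Eventually.of_forall fun _ _ => h
  have haeB : ∀ᵐ ω ∂μ, ∀ i, l (B ω) = i → Q (S i) ≠ 0 := by
    rw [ae_all_iff]
    intro i
    by_cases h : Q (S i) = 0
    · have h3 : μ {ω | l (B ω) = i} = 0 := by
        have := hBQ i
        rw [← hS, h] at this
        exact nonpos_iff_eq_zero.1 this
      rw [ae_iff]
      refine measure_mono_null (fun ω hω => ?_) h3
      simp only [mem_ofPred_eq, not_forall] at hω
      obtain ⟨hω1, _⟩ := hω
      exact hω1
    · exact Eventually.of_forall fun _ _ => h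
  -- the inner integral
  have hin : ∀ i, good i → ∀ ω, l (A ω) = i → l (B ω) = i →
      ∫⁻ u, ENNReal.ofReal |W (rs P l (A ω) u) - W (rs Q l (B ω) u)| ∂leb = F i := by
    intro i hi ω hAi hBi
    rw [hF, if_pos hi]
    obtain ⟨hi1, hi2⟩ := (hgood i).1 hi
    rw [hS] at hi1 hi2
    apply lintegral_congr_ae
    filter_upwards [ae_label h1 P l hl i hi1, ae_label h1 Q l hl i hi2] with u hu1 hu2
    have e1 : rs P l (A ω) u = G (P.restrict {x | l x = i}) u := by
      unfold rs
      rw [hAi, if_pos hu1]
    have e2 : rs Q l (B ω) u = G (Q.restrict {x | l x = i}) u := by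
      unfold rs
      rw [hBi, if_pos hu2]
    rw [e1, e2, hg2 i _ hu1, hg2 i _ hu2, hS]
  have hmeasE : ∀ i, MeasurableSet {ω | l (A ω) = i ∧ l (B ω) = i} := fun i =>
    ((hl.comp hA) (measurableSet_singleton i)).inter ((hl.comp hB) (measurableSet_singleton i))
  calc ∫⁻ ω, ({ω | l (A ω) = l (B ω)}.indicator (fun ω =>
        ∫⁻ u, ENNReal.ofReal |W (rs P l (A ω) u) - W (rs Q l (B ω) u)| ∂leb) ω) ∂μ ≤
        ∫⁻ ω, ∑' i : ℕ, ({ω | l (A ω) = i ∧ l (B ω) = i}.indicator (fun _ => F i) ω) ∂μ := by
        apply lintegral_mono_ae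
        filter_upwards [haeA, haeB] with ω hω1 hω2
        by_cases h : l (A ω) = l (B ω)
        · rw [indicator_of_mem (show ω ∈ {ω | l (A ω) = l (B ω)} from h)]
          have hgi : good (l (A ω)) := (hgood _).2 ⟨hω1 _ rfl, hω2 _ h.symm⟩
          rw [hin (l (A ω)) hgi ω rfl h.symm]
          refine le_trans (le_of_eq ?_) (ENNReal.le_tsum (l (A ω)))
          rw [indicator_of_mem]
          exact ⟨rfl, h.symm⟩
        · rw [indicator_of_notMem (show ω ∉ {ω | l (A ω) = l (B ω)} from h)]
          exact zero_le
    _ = ∑' i : ℕ, ∫⁻ ω, ({ω | l (A ω) = i ∧ l (B ω) = i}.indicator (fun _ => F i) ω) ∂μ := by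
        apply lintegral_tsum
        intro i
        exact (measurable_const.indicator (hmeasE i)).aemeasurable
    _ ≤ ∑' i : ℕ, ∫⁻ p, R i p ∂π := by
        apply ENNReal.tsum_le_tsum
        intro i
        rw [lintegral_indicator_const (hmeasE i)]
        by_cases hi : good i
        · obtain ⟨hi1, hi2⟩ := (hgood i).1 hi
          have h3 : μ {ω | l (A ω) = i ∧ l (B ω) = i} ≤ min (P (S i)) (Q (S i)) := by
            apply le_min
            · rw [hS]
              exact (measure_mono fun ω hω => hω.1).trans (hAP i)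
            · rw [hS]
              exact (measure_mono fun ω hω => hω.2).trans (hBQ i)
          -- the constants of the block
          obtain ⟨x0, hx0⟩ : (S i).Nonempty := by
            rw [Set.nonempty_iff_ne_empty]
            intro h
            apply hi1
            rw [h, measure_empty]
          have hx0' : l x0 = i := by rw [hS] at hx0; exact hx0
          have hbd : ∀ x ∈ S i, ∀ y ∈ S i, W x ≤ W y + oi i := by
            intro x hx y hy
            rw [hS] at hx hy
            have h4 := (hosc x y (by rw [show l x = i from hx, show l y = i from hy])).1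
            have h5 := (abs_le.1 h4).2
            rw [hoi i x hx] at h5
            linarith
          have hbelow : BddBelow (W '' (S i)) := by
            refine ⟨W x0 - oi i, ?_⟩
            rintro _ ⟨y, hy, rfl⟩
            have := hbd x0 hx0 y hy
            linarith
          have h6 := h2 P Q (S i) (hSm i) hi1 hi2 (g i) (sInf (W '' (S i))) (oi i) (hg1 i) (by
            intro x hx
            have hx' : l x = i := by rw [hS] at hx; exact hx
            rw [← hg2 i x hx']
            constructor
            · exact csInf_le hbelow ⟨x, hx, rfl⟩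
            · have : W x - oi i ≤ sInf (W '' (S i)) := by
                apply le_csInf (⟨W x0, x0, hx0, rfl⟩ : (W '' (S i)).Nonempty)
                rintro _ ⟨y, hy, rfl⟩
                have := hbd x hx y hy
                linarith
              linarith) π hπ
          rw [hR, if_pos hi, hF, if_pos hi, mul_comm]
          exact (mul_le_mul_left h3 _).trans h6
        · rw [hF, if_neg hi, zero_mul]
          exact zero_le
    _ = ∫⁻ p, ∑' i : ℕ, R i p ∂π := by
        rw [lintegral_tsum]
        intro i
        rw [hR]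
        split_ifs
        · exact (Rf_meas (hg1 i) (hSm i) _).aemeasurable
        · exact aemeasurable_const
    _ ≤ ∫⁻ p, DD l W o p.1 p.2 ∂π := by
        apply lintegral_mono
        rintro ⟨x, y⟩
        simp only
        have hmem : ∀ i z, z ∈ S i ↔ l z = i := fun i z => by rw [hS]; exact Iff.rfl
        unfold DD
        split_ifs with hxy
        · rw [tsum_eq_single (l x)]
          · rw [hR]
            split_ifs with hg
            · unfold Rf
              have m1 : (x, y) ∈ S (l x) ×ˢ S (l x) := ⟨(hmem _ _).2 rfl, (hmem _ _).2 hxy.symm⟩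
              have m2 : (x, y) ∉ S (l x) ×ˢ (S (l x))ᶜ := fun h => h.2 ((hmem _ _).2 hxy.symm)
              have m3 : (x, y) ∉ (S (l x))ᶜ ×ˢ S (l x) := fun h => h.1 ((hmem _ _).2 rfl)
              rw [indicator_of_mem m1, indicator_of_notMem m2, indicator_of_notMem m3, add_zero, add_zero]
              simp only
              rw [← hg2 (l x) x rfl, ← hg2 (l x) y hxy.symm]
            · exact zero_le
          · intro i hi
            rw [hR]
            split_ifs with hg
            · unfold Rf
              have m1 : (x, y) ∉ S i ×ˢ S i := fun h => hi ((hmem _ _).1 h.1).symm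
              have m2 : (x, y) ∉ S i ×ˢ (S i)ᶜ := fun h => hi ((hmem _ _).1 h.1).symm
              have m3 : (x, y) ∉ (S i)ᶜ ×ˢ S i := fun h => hi (by
                rw [hxy]
                exact ((hmem _ _).1 h.2).symm)
              rw [indicator_of_notMem m1, indicator_of_notMem m2, indicator_of_notMem m3, add_zero, add_zero]
            · rfl
        · have hpt : ∀ i, R i (x, y) ≤ (if i = l x then ENNReal.ofReal (2 * o x) else 0) +
              (if i = l y then ENNReal.ofReal (2 * o y) else 0) := by
            intro i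
            rw [hR]
            split_ifs with hg h3 h4 h4 h4 h5 h5
            · exact absurd (h3.symm.trans h4) hxy
            · unfold Rf
              subst h3
              have m1 : (x, y) ∉ S (l x) ×ˢ S (l x) := fun h => hxy ((hmem _ _).1 h.2).symm
              have m2 : (x, y) ∈ S (l x) ×ˢ (S (l x))ᶜ := ⟨(hmem _ _).2 rfl, fun h => hxy ((hmem _ _).1 h).symm⟩
              have m3 : (x, y) ∉ (S (l x))ᶜ ×ˢ S (l x) := fun h => h.1 ((hmem _ _).2 rfl)
              rw [indicator_of_notMem m1, indicator_of_mem m2, indicator_of_notMem m3, ← hoi (l x) x rfl,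
                zero_add]
            · unfold Rf
              subst h4
              have m1 : (x, y) ∉ S (l y) ×ˢ S (l y) := fun h => hxy ((hmem _ _).1 h.1)
              have m2 : (x, y) ∉ S (l y) ×ˢ (S (l y))ᶜ := fun h => h.2 ((hmem _ _).2 rfl)
              have m3 : (x, y) ∈ (S (l y))ᶜ ×ˢ S (l y) := ⟨fun h => hxy ((hmem _ _).1 h), (hmem _ _).2 rfl⟩
              rw [indicator_of_notMem m1, indicator_of_notMem m2, indicator_of_mem m3, ← hoi (l y) y rfl,
                zero_add]
            · unfold Rf
              have m1 : (x, y) ∉ S i ×ˢ S i := fun h => h3 ((hmem _ _).1 h.1).symm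
              have m2 : (x, y) ∉ S i ×ˢ (S i)ᶜ := fun h => h3 ((hmem _ _).1 h.1).symm
              have m3 : (x, y) ∉ (S i)ᶜ ×ˢ S i := fun h => h4 ((hmem _ _).1 h.2).symm
              rw [indicator_of_notMem m1, indicator_of_notMem m2, indicator_of_notMem m3]
              simp
            all_goals exact zero_le
          refine (ENNReal.tsum_le_tsum hpt).trans (le_of_eq ?_)
          rw [ENNReal.tsum_add, tsum_ite_eq, tsum_ite_eq, mul_add, ENNReal.ofReal_add]
          · exact mul_nonneg (by norm_num) (ho0 x)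
          · exact mul_nonneg (by norm_num) (ho0 y)

end Pool.Agent.H99Q.STEP
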