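import Pool.Agent.H99Q.Stm

/-! Stub STEP0 of project PCR (helper99). Written by helper79. -/

set_option autoImplicit false

open MeasureTheory Set Filter Topology Pool.Agent.R972.PC
open scoped NNReal ENNReal

namespace Pool.Agent.H99Q.STEP0

open Pool.Agent.H99Q

/-- exactly one of the two numbers is above `w` -/
def One (w a b : ℝ) : Prop := (w < a ∧ ¬ w < b) ∨ (w < b ∧ ¬ w < a)

lemma vol_one (a b : ℝ) : volume {w : ℝ | One w a b} = ENNReal.ofReal |a - b| := by
  rcases le_total a b with h | h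
  · have e : {w : ℝ | One w a b} = Ico a b := by
      ext w
      simp only [One, Set.mem_ofPred_eq, Set.mem_Ico, not_lt]
      constructor
      · rintro (⟨h1, h2⟩ | ⟨h1, h2⟩)
        · exact absurd (h1.trans_le (h.trans h2)) (lt_irrefl _)
        · exact ⟨h2, h1⟩
      · rintro ⟨h1, h2⟩
        exact Or.inr ⟨h2, h1⟩
    rw [e, Real.volume_Ico, abs_of_nonpos (by linarith)]
    congr 1
    ring
  · have e : {w : ℝ | One w a b} = Ico b a := by
      ext w
      simp only [One, Set.mem_ofPred_eq, Set.mem_Ico, not_lt]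
      constructor
      · rintro (⟨h1, h2⟩ | ⟨h1, h2⟩)
        · exact ⟨h2, h1⟩
        · exact absurd (h1.trans_le (h.trans h2)) (lt_irrefl _)
      · rintro ⟨h1, h2⟩
        exact Or.inl ⟨h2, h1⟩
    rw [e, Real.volume_Ico, abs_of_nonneg (by linarith)]

lemma tonelli {Ω : Type} [MeasurableSpace Ω] (ν : Measure Ω) [SFinite ν] (X Y : Ω → ℝ)
    (hX : Measurable X) (hY : Measurable Y) :
    ∫⁻ u, ENNReal.ofReal |X u - Y u| ∂ν = ∫⁻ w : ℝ, ν {u | One w (X u) (Y u)} := by
  have hS : MeasurableSet {z : Ω × ℝ | One z.2 (X z.1) (Y z.1)} := by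
    have h1 : MeasurableSet {z : Ω × ℝ | z.2 < X z.1} :=
      measurableSet_lt measurable_snd (hX.comp measurable_fst)
    have h2 : MeasurableSet {z : Ω × ℝ | z.2 < Y z.1} :=
      measurableSet_lt measurable_snd (hY.comp measurable_fst)
    exact (h1.inter h2.compl).union (h2.inter h1.compl)
  have e1 := Measure.prod_apply (μ := ν) (ν := (volume : Measure ℝ)) hS
  have e2 := Measure.prod_apply_symm (μ := ν) (ν := (volume : Measure ℝ)) hS
  rw [e1] at e2
  calc ∫⁻ u, ENNReal.ofReal |X u - Y u| ∂ν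
      = ∫⁻ u, volume (Prod.mk u ⁻¹' {z : Ω × ℝ | One z.2 (X z.1) (Y z.1)}) ∂ν := by
        refine lintegral_congr fun u => ?_
        rw [← vol_one]
        rfl
    _ = _ := e2

lemma leb_apply (S : Set ℝ) (hS : MeasurableSet S) : leb S = volume (S ∩ Ioo 0 1) := by
  unfold leb
  rw [← Measure.restrict_congr_set (Ioo_ae_eq_Icc (μ := volume) (a := (0:ℝ)) (b := 1)),
    Measure.restrict_apply hS]

lemma nested (U V : Set ℝ) (hU : ∀ u ∈ U, ∀ v, u ≤ v → v < 1 → v ∈ U) (hV : ∀ u ∈ V, ∀ v, u ≤ v → v < 1 → v ∈ V)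
    (hU1 : U ⊆ Ioo 0 1) (hV1 : V ⊆ Ioo 0 1) : U ⊆ V ∨ V ⊆ U := by
  by_contra h
  push Not at h
  obtain ⟨h1, h2⟩ := h
  obtain ⟨u, hu, hu'⟩ := Set.not_subset.1 h1
  obtain ⟨v, hv, hv'⟩ := Set.not_subset.1 h2
  rcases le_total u v with h3 | h3
  · exact hv' (hU u hu v h3 (hV1 hv).2)
  · exact hu' (hV v hv u h3 (hU1 hu).2)

lemma one_side (P Q : Measure ℝ) [IsProbabilityMeasure P] [IsProbabilityMeasure Q] (g : ℝ → ℝ)
    (hg : Monotone g) (π : Measure (ℝ × ℝ)) (hπ : Cpl π P Q)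
    (hP1 : Measurable (G P)) (hP2 : leb.map (G P) = P)
    (hQ1 : Measurable (G Q)) (hQ2 : leb.map (G Q) = Q) (w : ℝ)
    (hsub : {u | w < g (G P u)} ∩ Ioo 0 1 ⊆ {u | w < g (G Q u)} ∩ Ioo 0 1) :
    leb {u | One w (g (G P u)) (g (G Q u))} ≤ π {p | One w (g p.1) (g p.2)} := by
  have hgm : Measurable g := hg.measurable
  have hA : MeasurableSet {x | w < g x} := measurableSet_lt measurable_const hgm
  have hU : MeasurableSet {u | w < g (G P u)} := hP1 hA
  have hV : MeasurableSet {u | w < g (G Q u)} := hQ1 hA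
  have hS : MeasurableSet {u | One w (g (G P u)) (g (G Q u))} :=
    (hU.inter hV.compl).union (hV.inter hU.compl)
  have hPA : P {x | w < g x} = volume ({u | w < g (G P u)} ∩ Ioo 0 1) := by
    rw [← leb_apply _ hU]
    conv_lhs => rw [← hP2]
    rw [Measure.map_apply hP1 hA]
    rfl
  have hQA : Q {x | w < g x} = volume ({u | w < g (G Q u)} ∩ Ioo 0 1) := by
    rw [← leb_apply _ hV]
    conv_lhs => rw [← hQ2]
    rw [Measure.map_apply hQ1 hA]
    rfl
  have hpP : P {x | w < g x} = π (Prod.fst ⁻¹' {x | w < g x}) := by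
    conv_lhs => rw [← hπ.1]
    rw [Measure.map_apply measurable_fst hA]
  have hpQ : Q {x | w < g x} = π (Prod.snd ⁻¹' {x | w < g x}) := by
    conv_lhs => rw [← hπ.2]
    rw [Measure.map_apply measurable_snd hA]
  have e1 : leb {u | One w (g (G P u)) (g (G Q u))} = Q {x | w < g x} - P {x | w < g x} := by
    rw [leb_apply _ hS, hPA, hQA, ← measure_sdiff hsub (hU.inter measurableSet_Ioo).nullMeasurableSet]
    · congr 1
      ext u
      simp only [One, Set.mem_inter_iff, Set.mem_ofPred_eq, Set.mem_sdiff]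
      constructor
      · rintro ⟨⟨h1, h2⟩ | ⟨h1, h2⟩, h3⟩
        · exact absurd (hsub ⟨h1, h3⟩).1 h2
        · exact ⟨⟨h1, h3⟩, fun h => h2 h.1⟩
      · rintro ⟨⟨h1, h3⟩, h2⟩
        exact ⟨Or.inr ⟨h1, fun h => h2 ⟨h, h3⟩⟩, h3⟩
    · rw [← hPA]
      exact measure_ne_top _ _
  rw [e1, hpP, hpQ]
  refine (le_measure_sdiff).trans (measure_mono ?_)
  rintro p ⟨h1, h2⟩
  exact Or.inr ⟨h1, h2⟩

lemma cpl_swap (P Q : Measure ℝ) (π : Measure (ℝ × ℝ)) (hπ : Cpl π P Q) : Cpl (π.map Prod.swap) Q P := by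
  refine ⟨?_, ?_⟩
  · rw [Measure.map_map measurable_fst measurable_swap]
    exact hπ.2
  · rw [Measure.map_map measurable_snd measurable_swap]
    exact hπ.1

lemma one_comm (w a b : ℝ) : One w a b ↔ One w b a := by
  unfold One
  tauto

theorem t (h : S_QLAW) : S_STEP0 := by
  intro P Q _ _ g hg π hπ
  obtain ⟨hPm, hP1, hP2⟩ := h P (IsProbabilityMeasure.ne_zero P)
  obtain ⟨hQm, hQ1, hQ2⟩ := h Q (IsProbabilityMeasure.ne_zero Q)
  rw [measure_univ, inv_one, one_smul] at hP2 hQ2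
  have hgm : Measurable g := hg.measurable
  have hprob : IsProbabilityMeasure π := by
    refine ⟨?_⟩
    have h1 : (π.map Prod.fst) univ = P univ := by rw [hπ.1]
    rw [Measure.map_apply measurable_fst MeasurableSet.univ, preimage_univ] at h1
    rw [h1]
    exact measure_univ
  rw [tonelli leb (fun u => g (G P u)) (fun u => g (G Q u)) (hgm.comp hP1) (hgm.comp hQ1),
    tonelli π (fun p => g p.1) (fun p => g p.2) (hgm.comp measurable_fst) (hgm.comp measurable_snd)]
  refine lintegral_mono fun w => ?_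
  have hup : ∀ R : Measure ℝ, MonotoneOn (G R) (Ioo 0 1) →
      ∀ u ∈ {u | w < g (G R u)} ∩ Ioo 0 1, ∀ v, u ≤ v → v < 1 → v ∈ {u | w < g (G R u)} ∩ Ioo 0 1 := by
    intro R hR u hu v huv hv
    have hv' : v ∈ Ioo (0:ℝ) 1 := ⟨hu.2.1.trans_le huv, hv⟩
    exact ⟨lt_of_lt_of_le hu.1 (hg (hR hu.2 hv' huv)), hv'⟩
  rcases nested _ _ (hup P hPm) (hup Q hQm) Set.inter_subset_right Set.inter_subset_right with hs | hs
  · exact one_side P Q g hg π hπ hP1 hP2 hQ1 hQ2 w hs
  · have h1 := one_side Q P g hg (π.map Prod.swap) (cpl_swap P Q π hπ) hQ1 hQ2 hP1 hP2 w hs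
    have hA : MeasurableSet {x | w < g x} := measurableSet_lt measurable_const hgm
    have h2 : MeasurableSet {p : ℝ × ℝ | w < g p.1} := measurable_fst hA
    have h3 : MeasurableSet {p : ℝ × ℝ | w < g p.2} := measurable_snd hA
    have h4 : MeasurableSet {p : ℝ × ℝ | One w (g p.1) (g p.2)} :=
      (h2.inter h3.compl).union (h3.inter h2.compl)
    rw [Measure.map_apply measurable_swap h4] at h1
    have e1 : {u | One w (g (G P u)) (g (G Q u))} = {u | One w (g (G Q u)) (g (G P u))} := by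
      ext u; exact one_comm _ _ _
    have e2 : Prod.swap ⁻¹' {p : ℝ × ℝ | One w (g p.1) (g p.2)} = {p : ℝ × ℝ | One w (g p.1) (g p.2)} := by
      ext p
      exact one_comm _ _ _
    rw [e1]
    rw [e2] at h1
    exact h1

end Pool.Agent.H99Q.STEP0
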