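import Pool.Agent.H99Q.Stm

/-! Stub STEPB: one block. -/

set_option autoImplicit false

open MeasureTheory Set Filter Topology Pool.Agent.R972.PC
open scoped NNReal ENNReal

namespace Pool.Agent.H99Q.STEPB

theorem ofReal_abs_sub (x y : ℝ) :
    ENNReal.ofReal |x - y| = ENNReal.ofReal (x - y) + ENNReal.ofReal (y - x) := by
  rcases le_total x y with h | h
  · rw [abs_of_nonpos (by linarith), ENNReal.ofReal_of_nonpos (by linarith : x - y ≤ 0), zero_add,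
      neg_sub]
  · rw [abs_of_nonneg (by linarith), ENNReal.ofReal_of_nonpos (by linarith : y - x ≤ 0), add_zero]

theorem num_real {a b x y : ℝ} (ha : 0 < a) (hb : 0 < b) (hx0 : 0 ≤ x) (hy0 : 0 ≤ y) (hx : x ≤ a)
    (hy : y ≤ b) : min a b * |a⁻¹ * x - b⁻¹ * y| ≤ |x - y| + |a - b| := by
  wlog hab : a ≤ b generalizing a b x y
  · have h1 := this hb ha hy0 hx0 hy hx (le_of_not_ge hab)
    rw [min_comm, abs_sub_comm (a⁻¹ * x), abs_sub_comm x, abs_sub_comm a]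
    exact h1
  rw [min_eq_left hab]
  have e1 : a * |a⁻¹ * x - b⁻¹ * y| = |x - a * b⁻¹ * y| := by
    rw [← abs_of_pos ha, ← abs_mul, abs_of_pos ha]
    congr 1
    field_simp
  rw [e1]
  have e2 : x - a * b⁻¹ * y = (x - y) + y * b⁻¹ * (b - a) := by
    field_simp
    ring
  rw [e2]
  refine (abs_add_le _ _).trans ?_
  have h3 : y * b⁻¹ ≤ 1 := by
    rw [← div_eq_mul_inv, div_le_one hb]
    exact hy
  have h4 : 0 ≤ y * b⁻¹ := by positivity
  have h5 : |y * b⁻¹ * (b - a)| ≤ |a - b| := by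
    rw [abs_mul, abs_of_nonneg h4, abs_sub_comm b a]
    exact mul_le_of_le_one_left (abs_nonneg _) h3
  linarith

/-- distance of two extended numbers -/
noncomputable def dd (x y : ℝ≥0∞) : ℝ≥0∞ := (x - y) + (y - x)

theorem dd_ofReal {x y : ℝ} (hx : 0 ≤ x) (hy : 0 ≤ y) :
    dd (ENNReal.ofReal x) (ENNReal.ofReal y) = ENNReal.ofReal |x - y| := by
  unfold dd
  rw [← ENNReal.ofReal_sub _ hy, ← ENNReal.ofReal_sub _ hx, ofReal_abs_sub]

theorem num {a b x y : ℝ≥0∞} (ha : a ≠ 0) (hb : b ≠ 0) (ha' : a ≠ ⊤) (hb' : b ≠ ⊤) (hx : x ≤ a)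
    (hy : y ≤ b) : min a b * dd (a⁻¹ * x) (b⁻¹ * y) ≤ dd x y + dd a b := by
  obtain ⟨ar, har, rfl⟩ : ∃ ar : ℝ, 0 < ar ∧ a = ENNReal.ofReal ar :=
    ⟨a.toReal, ENNReal.toReal_pos ha ha', (ENNReal.ofReal_toReal ha').symm⟩
  obtain ⟨br, hbr, rfl⟩ : ∃ br : ℝ, 0 < br ∧ b = ENNReal.ofReal br :=
    ⟨b.toReal, ENNReal.toReal_pos hb hb', (ENNReal.ofReal_toReal hb').symm⟩
  have hx' : x ≠ ⊤ := ne_top_of_le_ne_top ha' hx
  have hy' : y ≠ ⊤ := ne_top_of_le_ne_top hb' hy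
  obtain ⟨xr, hxr, rfl⟩ : ∃ xr : ℝ, 0 ≤ xr ∧ x = ENNReal.ofReal xr :=
    ⟨x.toReal, ENNReal.toReal_nonneg, (ENNReal.ofReal_toReal hx').symm⟩
  obtain ⟨yr, hyr, rfl⟩ : ∃ yr : ℝ, 0 ≤ yr ∧ y = ENNReal.ofReal yr :=
    ⟨y.toReal, ENNReal.toReal_nonneg, (ENNReal.ofReal_toReal hy').symm⟩
  have hx1 : xr ≤ ar := (ENNReal.ofReal_le_ofReal_iff har.le).1 hx
  have hy1 : yr ≤ br := (ENNReal.ofReal_le_ofReal_iff hbr.le).1 hy
  have hmin : min (ENNReal.ofReal ar) (ENNReal.ofReal br) = ENNReal.ofReal (min ar br) :=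
    (ENNReal.ofReal_mono.map_min).symm
  rw [hmin, ← ENNReal.ofReal_inv_of_pos har, ← ENNReal.ofReal_inv_of_pos hbr,
    ← ENNReal.ofReal_mul (inv_nonneg.2 har.le), ← ENNReal.ofReal_mul (inv_nonneg.2 hbr.le),
    dd_ofReal (by positivity) (by positivity), dd_ofReal hxr hyr, dd_ofReal har.le hbr.le,
    ← ENNReal.ofReal_mul (le_min har.le hbr.le), ← ENNReal.ofReal_add (abs_nonneg _) (abs_nonneg _)]
  exact ENNReal.ofReal_le_ofReal (num_real har hbr hxr hyr hx1 hy1)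

theorem leb_compl : leb (Ioo 0 1)ᶜ = 0 := by
  unfold leb
  rw [Measure.restrict_apply measurableSet_Ioo.compl]
  have h : (Ioo (0 : ℝ) 1)ᶜ ∩ Icc 0 1 ⊆ {0, 1} := by
    rintro x ⟨h1, h2⟩
    simp only [mem_compl_iff, mem_Ioo, not_and, not_lt] at h1
    simp only [mem_insert_iff, mem_singleton_iff]
    rcases eq_or_lt_of_le h2.1 with h | h
    · exact Or.inl h.symm
    · exact Or.inr (le_antisymm h2.2 (h1 h))
  refine measure_mono_null h ?_
  exact (Set.Finite.measure_zero (by simp) _)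

/-- one inclusion is enough -/
theorem dd_of_sub {S₁ S₂ : Set ℝ} (h1 : MeasurableSet S₁) (h2 : MeasurableSet S₂)
    (h : S₁ ∩ Ioo 0 1 ⊆ S₂) : leb (S₁ \ S₂) + leb (S₂ \ S₁) ≤ dd (leb S₁) (leb S₂) := by
  have h0 : leb (S₁ \ S₂) = 0 := by
    refine measure_mono_null ?_ leb_compl
    rintro x ⟨hx1, hx2⟩ hx3
    exact hx2 (h ⟨hx1, hx3⟩)
  have e1 : leb S₁ = leb (S₁ ∩ S₂) := by
    rw [← measure_inter_add_sdiff S₁ h2, h0, add_zero]
  have e2 : leb (S₂ \ S₁) = leb S₂ - leb S₁ := by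
    rw [e1]
    refine ENNReal.eq_sub_of_add_eq (measure_ne_top _ _) ?_
    rw [add_comm, inter_comm]
    exact measure_inter_add_sdiff S₂ h1
  rw [h0, zero_add, e2]
  unfold dd
  exact le_add_self

/-- the preimages of an upper set under two quantile functions -/
theorem dd_up {G₁ G₂ : ℝ → ℝ} (m1 : MonotoneOn G₁ (Ioo 0 1)) (m2 : MonotoneOn G₂ (Ioo 0 1))
    (h1 : Measurable G₁) (h2 : Measurable G₂) {A : Set ℝ} (hA : MeasurableSet A)
    (hup : ∀ x y, x ≤ y → x ∈ A → y ∈ A) :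
    leb (G₁ ⁻¹' A \ G₂ ⁻¹' A) + leb (G₂ ⁻¹' A \ G₁ ⁻¹' A) ≤ dd (leb (G₁ ⁻¹' A)) (leb (G₂ ⁻¹' A)) := by
  by_cases h : G₁ ⁻¹' A ∩ Ioo 0 1 ⊆ G₂ ⁻¹' A
  · exact dd_of_sub (h1 hA) (h2 hA) h
  · have h' : G₂ ⁻¹' A ∩ Ioo 0 1 ⊆ G₁ ⁻¹' A := by
      rw [Set.not_subset] at h
      obtain ⟨u, ⟨hu1, hu2⟩, hu3⟩ := h
      rintro v ⟨hv1, hv2⟩
      rcases le_total v u with hvu | hvu
      · exact absurd (hup _ _ (m2 hv2 hu2 hvu) hv1) hu3
      · exact hup _ _ (m1 hu2 hv2 hvu) hu1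
    have h3 := dd_of_sub (h2 hA) (h1 hA) h'
    rw [add_comm]
    refine h3.trans (le_of_eq ?_)
    unfold dd
    rw [add_comm]

theorem layer (a b : ℝ → ℝ) (ha : Measurable a) (hb : Measurable b) (μ : Measure ℝ) [SFinite μ] :
    ∫⁻ u, ENNReal.ofReal (a u - b u) ∂μ = ∫⁻ w, μ {u | b u ≤ w ∧ w < a u} := by
  have hm : MeasurableSet {p : ℝ × ℝ | b p.1 ≤ p.2 ∧ p.2 < a p.1} :=
    (measurableSet_le (hb.comp measurable_fst) measurable_snd).inter
      (measurableSet_lt measurable_snd (ha.comp measurable_fst))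
  have h1 := Measure.prod_apply (μ := μ) (ν := (volume : Measure ℝ)) hm
  have h2 := Measure.prod_apply_symm (μ := μ) (ν := (volume : Measure ℝ)) hm
  rw [h1] at h2
  refine Eq.trans (lintegral_congr fun u => ?_) h2
  have : Prod.mk u ⁻¹' {p : ℝ × ℝ | b p.1 ≤ p.2 ∧ p.2 < a p.1} = Ico (b u) (a u) := rfl
  rw [this, Real.volume_Ico]

theorem t (h : S_QLAW) : S_STEPB := by
  intro P Q _ _ B hB hPB hQB g c o hg hco π hπ
  have hgm : Measurable g := hg.measurable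
  -- the restrictions
  have hP0 : P.restrict B ≠ 0 := by
    intro h0
    apply hPB
    rw [← Measure.restrict_apply_univ B, h0]
    rfl
  have hQ0 : Q.restrict B ≠ 0 := by
    intro h0
    apply hQB
    rw [← Measure.restrict_apply_univ B, h0]
    rfl
  obtain ⟨m1, n1, l1⟩ := h (P.restrict B) hP0
  obtain ⟨m2, n2, l2⟩ := h (Q.restrict B) hQ0
  set G₁ := G (P.restrict B) with hG₁
  set G₂ := G (Q.restrict B) with hG₂
  have hS : ∀ w : ℝ, MeasurableSet {x | w < g x} := fun w => measurableSet_lt measurable_const hgm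
  have r1 : ∀ w : ℝ, leb (G₁ ⁻¹' {x | w < g x}) = (P B)⁻¹ * P ({x | w < g x} ∩ B) := by
    intro w
    rw [← Measure.map_apply n1 (hS w), l1, Measure.smul_apply, Measure.restrict_apply (hS w),
      Measure.restrict_apply_univ, smul_eq_mul]
  have r2 : ∀ w : ℝ, leb (G₂ ⁻¹' {x | w < g x}) = (Q B)⁻¹ * Q ({x | w < g x} ∩ B) := by
    intro w
    rw [← Measure.map_apply n2 (hS w), l2, Measure.smul_apply, Measure.restrict_apply (hS w),
      Measure.restrict_apply_univ, smul_eq_mul]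
  -- the left side
  have hL : ∫⁻ u, ENNReal.ofReal |g (G₁ u) - g (G₂ u)| ∂leb ≤
      ∫⁻ w, dd ((P B)⁻¹ * P ({x | w < g x} ∩ B)) ((Q B)⁻¹ * Q ({x | w < g x} ∩ B)) := by
    have ma : Measurable fun u => g (G₁ u) := hgm.comp n1
    have mb : Measurable fun u => g (G₂ u) := hgm.comp n2
    have e1 : ∫⁻ u, ENNReal.ofReal |g (G₁ u) - g (G₂ u)| ∂leb =
        ∫⁻ u, ENNReal.ofReal (g (G₁ u) - g (G₂ u)) ∂leb +
          ∫⁻ u, ENNReal.ofReal (g (G₂ u) - g (G₁ u)) ∂leb := by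
      have hmm : Measurable fun u => ENNReal.ofReal (g (G₁ u) - g (G₂ u)) :=
        (ma.sub mb).ennreal_ofReal
      rw [← lintegral_add_left hmm]
      exact lintegral_congr fun u => ofReal_abs_sub _ _
    rw [e1, layer _ _ ma mb leb, layer _ _ mb ma leb]
    have hm : MeasurableSet {p : ℝ × ℝ | g (G₂ p.1) ≤ p.2 ∧ p.2 < g (G₁ p.1)} :=
      (measurableSet_le (mb.comp measurable_fst) measurable_snd).inter
        (measurableSet_lt measurable_snd (ma.comp measurable_fst))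
    have hm' : Measurable fun w : ℝ => leb {u | g (G₂ u) ≤ w ∧ w < g (G₁ u)} :=
      measurable_measure_prodMk_right (μ := leb) hm
    rw [← lintegral_add_left hm']
    refine lintegral_mono fun w => ?_
    rw [← r1, ← r2]
    have s1 : {u | g (G₂ u) ≤ w ∧ w < g (G₁ u)} =
        G₁ ⁻¹' {x | w < g x} \ G₂ ⁻¹' {x | w < g x} := by
      ext u
      simp only [mem_ofPred_eq, Set.mem_sdiff, mem_preimage, not_lt]
      exact and_comm
    have s2 : {u | g (G₁ u) ≤ w ∧ w < g (G₂ u)} =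
        G₂ ⁻¹' {x | w < g x} \ G₁ ⁻¹' {x | w < g x} := by
      ext u
      simp only [mem_ofPred_eq, Set.mem_sdiff, mem_preimage, not_lt]
      exact and_comm
    simp only [s1, s2]
    exact dd_up m1 m2 n1 n2 (hS w) fun x y hxy hx => lt_of_lt_of_le hx (hg hxy)
  -- marginals
  have hP : ∀ C : Set ℝ, MeasurableSet C → P C = π (Prod.fst ⁻¹' C) := fun C hC => by
    rw [← Measure.map_apply measurable_fst hC, hπ.1]
  have hQ : ∀ C : Set ℝ, MeasurableSet C → Q C = π (Prod.snd ⁻¹' C) := fun C hC => by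
    rw [← Measure.map_apply measurable_snd hC, hπ.2]
  have : IsProbabilityMeasure π := by
    refine ⟨?_⟩
    have h1 := hP univ MeasurableSet.univ
    rw [measure_univ, preimage_univ] at h1
    exact h1.symm
  have hdd : ∀ C : Set ℝ, MeasurableSet C → dd (P C) (Q C) ≤
      π (Prod.fst ⁻¹' C \ Prod.snd ⁻¹' C) + π (Prod.snd ⁻¹' C \ Prod.fst ⁻¹' C) := by
    intro C hC
    unfold dd
    rw [hP C hC, hQ C hC]
    exact add_le_add (le_measure_sdiff) (le_measure_sdiff)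
  -- the sets in the product
  let Z1 : Set (ℝ × ℝ × ℝ) := {q | (c ≤ q.1 ∧ q.1 < c + o) ∧ (q.1 < g q.2.1 ∧ q.2.1 ∈ B) ∧
    ¬ (q.1 < g q.2.2 ∧ q.2.2 ∈ B)}
  let Z2 : Set (ℝ × ℝ × ℝ) := {q | (c ≤ q.1 ∧ q.1 < c + o) ∧ (q.1 < g q.2.2 ∧ q.2.2 ∈ B) ∧
    ¬ (q.1 < g q.2.1 ∧ q.2.1 ∈ B)}
  let Z3 : Set (ℝ × ℝ × ℝ) := {q | (c ≤ q.1 ∧ q.1 < c + o) ∧ q.2.1 ∈ B ∧ q.2.2 ∉ B}
  let Z4 : Set (ℝ × ℝ × ℝ) := {q | (c ≤ q.1 ∧ q.1 < c + o) ∧ q.2.2 ∈ B ∧ q.2.1 ∉ B}
  have k0 : MeasurableSet {q : ℝ × ℝ × ℝ | c ≤ q.1 ∧ q.1 < c + o} :=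
    (measurableSet_le measurable_const measurable_fst).inter
      (measurableSet_lt measurable_fst measurable_const)
  have b1 : MeasurableSet {q : ℝ × ℝ × ℝ | q.2.1 ∈ B} :=
    (measurable_fst.comp measurable_snd) hB
  have b2 : MeasurableSet {q : ℝ × ℝ × ℝ | q.2.2 ∈ B} :=
    (measurable_snd.comp measurable_snd) hB
  have a1 : MeasurableSet {q : ℝ × ℝ × ℝ | q.1 < g q.2.1} :=
    measurableSet_lt measurable_fst (hgm.comp (measurable_fst.comp measurable_snd))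
  have a2 : MeasurableSet {q : ℝ × ℝ × ℝ | q.1 < g q.2.2} :=
    measurableSet_lt measurable_fst (hgm.comp (measurable_snd.comp measurable_snd))
  have z1 : MeasurableSet Z1 := k0.inter ((a1.inter b1).inter (a2.inter b2).compl)
  have z2 : MeasurableSet Z2 := k0.inter ((a2.inter b2).inter (a1.inter b1).compl)
  have z3 : MeasurableSet Z3 := k0.inter (b1.inter b2.compl)
  have z4 : MeasurableSet Z4 := k0.inter (b2.inter b1.compl)
  have hZ : ∀ Z : Set (ℝ × ℝ × ℝ), MeasurableSet Z → ∫⁻ w, π (Prod.mk w ⁻¹' Z) =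
      ∫⁻ p, volume ((fun w : ℝ => (w, p)) ⁻¹' Z) ∂π := by
    intro Z hZ
    rw [← Measure.prod_apply hZ, Measure.prod_apply_symm hZ]
  have hZm : ∀ Z : Set (ℝ × ℝ × ℝ), MeasurableSet Z → Measurable fun w => π (Prod.mk w ⁻¹' Z) :=
    fun Z hZ => measurable_measure_prodMk_left hZ
  have hZm' : ∀ Z : Set (ℝ × ℝ × ℝ), MeasurableSet Z →
      Measurable fun p => (volume : Measure ℝ) ((fun w : ℝ => (w, p)) ⁻¹' Z) :=
    fun Z hZ => measurable_measure_prodMk_right hZ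
  -- the level sets
  have hlev : ∀ w : ℝ, min (P B) (Q B) *
      dd ((P B)⁻¹ * P ({x | w < g x} ∩ B)) ((Q B)⁻¹ * Q ({x | w < g x} ∩ B)) ≤
      π (Prod.mk w ⁻¹' Z1) + (π (Prod.mk w ⁻¹' Z2) +
        (π (Prod.mk w ⁻¹' Z3) + π (Prod.mk w ⁻¹' Z4))) := by
    intro w
    by_cases h1 : w < c
    · have e : {x | w < g x} ∩ B = B := by
        ext x
        simp only [mem_inter_iff, mem_ofPred_eq, and_iff_right_iff_imp]
        exact fun hx => lt_of_lt_of_le h1 (hco x hx).1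
      rw [e, ENNReal.inv_mul_cancel hPB (measure_ne_top _ _),
        ENNReal.inv_mul_cancel hQB (measure_ne_top _ _)]
      unfold dd
      rw [tsub_self, add_zero, mul_zero]
      exact zero_le
    push Not at h1
    by_cases h2 : c + o ≤ w
    · have e : {x | w < g x} ∩ B = ∅ := by
        ext x
        simp only [mem_inter_iff, mem_ofPred_eq, mem_empty_iff_false, iff_false, not_and]
        intro h3 hx
        have := (hco x hx).2
        linarith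
      rw [e, measure_empty, measure_empty, mul_zero, mul_zero]
      unfold dd
      rw [tsub_self, add_zero, mul_zero]
      exact zero_le
    push Not at h2
    have hC : MeasurableSet ({x | w < g x} ∩ B) := (hS w).inter hB
    have h3 := num hPB hQB (measure_ne_top P B) (measure_ne_top Q B)
      (measure_mono (μ := P) (inter_subset_right (s := {x | w < g x}) (t := B)))
      (measure_mono (μ := Q) (inter_subset_right (s := {x | w < g x}) (t := B)))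
    refine h3.trans ?_
    refine (add_le_add (hdd _ hC) (hdd B hB)).trans (le_of_eq ?_)
    have f1 : Prod.fst ⁻¹' ({x | w < g x} ∩ B) \ Prod.snd ⁻¹' ({x | w < g x} ∩ B) =
        Prod.mk w ⁻¹' Z1 := by
      ext p
      simp only [Set.mem_sdiff, mem_preimage, mem_inter_iff, mem_ofPred_eq, Z1]
      exact ⟨fun h => ⟨⟨h1, h2⟩, h.1, h.2⟩, fun h => ⟨h.2.1, h.2.2⟩⟩
    have f2 : Prod.snd ⁻¹' ({x | w < g x} ∩ B) \ Prod.fst ⁻¹' ({x | w < g x} ∩ B) =
        Prod.mk w ⁻¹' Z2 := by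
      ext p
      simp only [Set.mem_sdiff, mem_preimage, mem_inter_iff, mem_ofPred_eq, Z2]
      exact ⟨fun h => ⟨⟨h1, h2⟩, h.1, h.2⟩, fun h => ⟨h.2.1, h.2.2⟩⟩
    have f3 : Prod.fst ⁻¹' B \ Prod.snd ⁻¹' B = Prod.mk w ⁻¹' Z3 := by
      ext p
      simp only [Set.mem_sdiff, mem_preimage, mem_ofPred_eq, Z3]
      exact ⟨fun h => ⟨⟨h1, h2⟩, h.1, h.2⟩, fun h => ⟨h.2.1, h.2.2⟩⟩
    have f4 : Prod.snd ⁻¹' B \ Prod.fst ⁻¹' B = Prod.mk w ⁻¹' Z4 := by
      ext p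
      simp only [Set.mem_sdiff, mem_preimage, mem_ofPred_eq, Z4]
      exact ⟨fun h => ⟨⟨h1, h2⟩, h.1, h.2⟩, fun h => ⟨h.2.1, h.2.2⟩⟩
    rw [f1, f2, f3, f4]
    ring
  -- assembly
  have hne : min (P B) (Q B) ≠ ⊤ := ne_top_of_le_ne_top (measure_ne_top P B) (min_le_left _ _)
  calc min (P B) (Q B) * ∫⁻ u, ENNReal.ofReal |g (G₁ u) - g (G₂ u)| ∂leb
      ≤ min (P B) (Q B) * ∫⁻ w, dd ((P B)⁻¹ * P ({x | w < g x} ∩ B))
          ((Q B)⁻¹ * Q ({x | w < g x} ∩ B)) := mul_le_mul_right hL _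
    _ = ∫⁻ w, min (P B) (Q B) * dd ((P B)⁻¹ * P ({x | w < g x} ∩ B))
          ((Q B)⁻¹ * Q ({x | w < g x} ∩ B)) := (lintegral_const_mul' _ _ hne).symm
    _ ≤ ∫⁻ w, (π (Prod.mk w ⁻¹' Z1) + (π (Prod.mk w ⁻¹' Z2) +
        (π (Prod.mk w ⁻¹' Z3) + π (Prod.mk w ⁻¹' Z4)))) := lintegral_mono hlev
    _ = ∫⁻ p, (volume ((fun w : ℝ => (w, p)) ⁻¹' Z1) + (volume ((fun w : ℝ => (w, p)) ⁻¹' Z2) +
        (volume ((fun w : ℝ => (w, p)) ⁻¹' Z3) + volume ((fun w : ℝ => (w, p)) ⁻¹' Z4)))) ∂π := by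
        rw [lintegral_add_left (hZm Z1 z1), lintegral_add_left (hZm Z2 z2),
          lintegral_add_left (hZm Z3 z3), lintegral_add_left (hZm' Z1 z1),
          lintegral_add_left (hZm' Z2 z2), lintegral_add_left (hZm' Z3 z3), hZ Z1 z1, hZ Z2 z2,
          hZ Z3 z3, hZ Z4 z4]
    _ ≤ _ := lintegral_mono fun p => ?_
  obtain ⟨x, y⟩ := p
  have hvol : volume (Ico c (c + o)) = ENNReal.ofReal o := by
    rw [Real.volume_Ico]
    congr 1
    ring
  have hbd : ∀ Z : Set (ℝ × ℝ × ℝ), (∀ q ∈ Z, c ≤ q.1 ∧ q.1 < c + o) →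
      volume ((fun w : ℝ => (w, (x, y))) ⁻¹' Z) ≤ ENNReal.ofReal o := by
    intro Z hZ'
    rw [← hvol]
    exact measure_mono fun w hw => hZ' _ hw
  have v1 := hbd Z1 fun q hq => hq.1
  have v2 := hbd Z2 fun q hq => hq.1
  have v3 := hbd Z3 fun q hq => hq.1
  have v4 := hbd Z4 fun q hq => hq.1
  by_cases hx : x ∈ B <;> by_cases hy : y ∈ B
  · have w1 : volume ((fun w : ℝ => (w, (x, y))) ⁻¹' Z1) ≤ ENNReal.ofReal (g x - g y) := by
      rw [← Real.volume_Ico]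
      refine measure_mono fun w hw => ?_
      obtain ⟨-, ⟨h3, -⟩, h4⟩ := hw
      exact ⟨not_lt.1 fun h5 => h4 ⟨h5, hy⟩, h3⟩
    have w2 : volume ((fun w : ℝ => (w, (x, y))) ⁻¹' Z2) ≤ ENNReal.ofReal (g y - g x) := by
      rw [← Real.volume_Ico]
      refine measure_mono fun w hw => ?_
      obtain ⟨-, ⟨h3, -⟩, h4⟩ := hw
      exact ⟨not_lt.1 fun h5 => h4 ⟨h5, hx⟩, h3⟩
    have w3 : volume ((fun w : ℝ => (w, (x, y))) ⁻¹' Z3) = 0 := by
      have : (fun w : ℝ => (w, (x, y))) ⁻¹' Z3 = ∅ :=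
        eq_empty_of_forall_notMem fun w hw => hw.2.2 hy
      rw [this, measure_empty]
    have w4 : volume ((fun w : ℝ => (w, (x, y))) ⁻¹' Z4) = 0 := by
      have : (fun w : ℝ => (w, (x, y))) ⁻¹' Z4 = ∅ :=
        eq_empty_of_forall_notMem fun w hw => hw.2.2 hx
      rw [this, measure_empty]
    have i1 : ((x, y) : ℝ × ℝ) ∈ B ×ˢ B := ⟨hx, hy⟩
    have i2 : ((x, y) : ℝ × ℝ) ∉ B ×ˢ Bᶜ := fun h => h.2 hy
    have i3 : ((x, y) : ℝ × ℝ) ∉ Bᶜ ×ˢ B := fun h => h.1 hx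
    rw [indicator_of_mem i1, indicator_of_notMem i2, indicator_of_notMem i3, w3, w4, add_zero,
      add_zero, add_zero, add_zero, ofReal_abs_sub]
    exact add_le_add w1 w2
  · have w2 : volume ((fun w : ℝ => (w, (x, y))) ⁻¹' Z2) = 0 := by
      have : (fun w : ℝ => (w, (x, y))) ⁻¹' Z2 = ∅ :=
        eq_empty_of_forall_notMem fun w hw => hy hw.2.1.2
      rw [this, measure_empty]
    have w4 : volume ((fun w : ℝ => (w, (x, y))) ⁻¹' Z4) = 0 := by
      have : (fun w : ℝ => (w, (x, y))) ⁻¹' Z4 = ∅ :=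
        eq_empty_of_forall_notMem fun w hw => hy hw.2.1
      rw [this, measure_empty]
    have ho : 0 ≤ o := by
      have := hco x hx
      linarith
    have i1 : ((x, y) : ℝ × ℝ) ∉ B ×ˢ B := fun h => hy h.2
    have i2 : ((x, y) : ℝ × ℝ) ∈ B ×ˢ Bᶜ := ⟨hx, hy⟩
    have i3 : ((x, y) : ℝ × ℝ) ∉ Bᶜ ×ˢ B := fun h => h.1 hx
    rw [indicator_of_notMem i1, indicator_of_mem i2, indicator_of_notMem i3, w2, w4, add_zero,
      zero_add, zero_add, add_zero, two_mul, ENNReal.ofReal_add ho ho]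
    exact add_le_add v1 v3
  · have w1 : volume ((fun w : ℝ => (w, (x, y))) ⁻¹' Z1) = 0 := by
      have : (fun w : ℝ => (w, (x, y))) ⁻¹' Z1 = ∅ :=
        eq_empty_of_forall_notMem fun w hw => hx hw.2.1.2
      rw [this, measure_empty]
    have w3 : volume ((fun w : ℝ => (w, (x, y))) ⁻¹' Z3) = 0 := by
      have : (fun w : ℝ => (w, (x, y))) ⁻¹' Z3 = ∅ :=
        eq_empty_of_forall_notMem fun w hw => hx hw.2.1
      rw [this, measure_empty]
    have ho : 0 ≤ o := by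
      have := hco y hy
      linarith
    have i1 : ((x, y) : ℝ × ℝ) ∉ B ×ˢ B := fun h => hx h.1
    have i2 : ((x, y) : ℝ × ℝ) ∉ B ×ˢ Bᶜ := fun h => hx h.1
    have i3 : ((x, y) : ℝ × ℝ) ∈ Bᶜ ×ˢ B := ⟨hx, hy⟩
    rw [indicator_of_notMem i1, indicator_of_notMem i2, indicator_of_mem i3, w1, w3, zero_add,
      zero_add, zero_add, zero_add, two_mul, ENNReal.ofReal_add ho ho]
    exact add_le_add v2 v4
  · have w1 : volume ((fun w : ℝ => (w, (x, y))) ⁻¹' Z1) = 0 := by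
      have : (fun w : ℝ => (w, (x, y))) ⁻¹' Z1 = ∅ :=
        eq_empty_of_forall_notMem fun w hw => hx hw.2.1.2
      rw [this, measure_empty]
    have w2 : volume ((fun w : ℝ => (w, (x, y))) ⁻¹' Z2) = 0 := by
      have : (fun w : ℝ => (w, (x, y))) ⁻¹' Z2 = ∅ :=
        eq_empty_of_forall_notMem fun w hw => hy hw.2.1.2
      rw [this, measure_empty]
    have w3 : volume ((fun w : ℝ => (w, (x, y))) ⁻¹' Z3) = 0 := by
      have : (fun w : ℝ => (w, (x, y))) ⁻¹' Z3 = ∅ :=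
        eq_empty_of_forall_notMem fun w hw => hx hw.2.1
      rw [this, measure_empty]
    have w4 : volume ((fun w : ℝ => (w, (x, y))) ⁻¹' Z4) = 0 := by
      have : (fun w : ℝ => (w, (x, y))) ⁻¹' Z4 = ∅ :=
        eq_empty_of_forall_notMem fun w hw => hy hw.2.1
      rw [this, measure_empty]
    rw [w1, w2, w3, w4]
    simp

end Pool.Agent.H99Q.STEPB
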