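import Pool.Agent.H99Q.Stm

/-! Stub UNIF of the project PCR (helper99). -/

set_option autoImplicit false

open MeasureTheory Set Filter Topology Pool.Agent.R972.PC
open scoped NNReal ENNReal unitInterval

namespace Pool.Agent.H99Q.UNIF

theorem map_proj : leb.map (projIcc (0 : ℝ) 1 zero_le_one) = (volume : Measure I) := by
  have h1 : (volume : Measure I).map ((↑) : I → ℝ) = leb := by
    unfold leb
    have h2 : (volume : Measure I) = Measure.comap ((↑) : I → ℝ) volume := rfl
    rw [h2]
    exact map_comap_subtype_coe measurableSet_Icc volume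
  have hm : Measurable (projIcc (0 : ℝ) 1 zero_le_one) := continuous_projIcc.measurable
  rw [← h1, Measure.map_map hm measurable_subtype_coe]
  have h3 : projIcc (0 : ℝ) 1 zero_le_one ∘ ((↑) : I → ℝ) = id := by
    funext x
    exact projIcc_val zero_le_one x
  rw [h3, Measure.map_id]

theorem t : S_UNIF := by
  obtain ⟨f, hf, hf2⟩ := Measure.exists_measurable_map_eq
    (leb.prod (leb.prod (Measure.infinitePi (fun _ : ℕ => leb))))
  have hm : Measurable (projIcc (0 : ℝ) 1 zero_le_one) := continuous_projIcc.measurable
  refine ⟨fun x => f (projIcc (0 : ℝ) 1 zero_le_one x), hf.comp hm, ?_⟩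
  have h1 : leb.map (fun x => f (projIcc (0 : ℝ) 1 zero_le_one x)) =
      (leb.map (projIcc (0 : ℝ) 1 zero_le_one)).map f := by
    rw [Measure.map_map hf hm]
    rfl
  rw [h1, map_proj, hf2]

end Pool.Agent.H99Q.UNIF
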