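import Pool.Agent.H99Q.Stm

set_option autoImplicit false

open MeasureTheory Set Filter Topology Pool.Agent.R972.PC
open scoped NNReal ENNReal

namespace Pool.Agent.H99Q.WPROP

theorem lab_base (M : ℕ) (t s : ℝ) : ∀ (n : ℕ) (x y : ℝ), lab M t s n x = lab M t s n y →
    ((SignType.sign x : SignType) : ℤ) = ((SignType.sign y : SignType) : ℤ) ∧ sc t x = sc t y := by
  intro n
  induction n with
  | zero =>
    intro x y h
    simp only [lab] at h
    have h' := Encodable.encode_injective h
    rw [Prod.mk.injEq] at h'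
    exact h'
  | succ n ih =>
    intro x y h
    simp only [lab] at h
    have h' := Encodable.encode_injective h
    rw [Prod.mk.injEq] at h'
    exact ih x y h'.1

theorem lab_succ (M : ℕ) (t s : ℝ) (n : ℕ) (x y : ℝ) (h : lab M t s (n + 1) x = lab M t s (n + 1) y) :
    kk M t s (n + 1) x = kk M t s (n + 1) y := by
  simp only [lab] at h
  have h' := Encodable.encode_injective h
  rw [Prod.mk.injEq] at h'
  exact h'.2

theorem sign_eq {x y : ℝ}
    (h : ((SignType.sign x : SignType) : ℤ) = ((SignType.sign y : SignType) : ℤ)) :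
    (SignType.sign x : SignType) = SignType.sign y := by
  revert h
  generalize (SignType.sign x : SignType) = a
  generalize (SignType.sign y : SignType) = b
  cases a <;> cases b <;> simp

theorem T_eq {M : ℕ} {t s : ℝ} {n : ℕ} {x y : ℝ} (h : lab M t s n x = lab M t s n y) :
    T t x = T t y := by
  obtain ⟨h1, h2⟩ := lab_base M t s n x y h
  have h3 := sign_eq h1
  have h4 : x = 0 ↔ y = 0 := by
    rw [← sign_eq_zero_iff, h3, sign_eq_zero_iff]
  unfold T
  by_cases hx : x = 0
  · rw [if_pos hx, if_pos (h4.1 hx)]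
  · rw [if_neg hx, if_neg (fun hy => hx (h4.2 hy)), h2]

theorem T_nonneg (t x : ℝ) : 0 ≤ T t x := by
  unfold T
  split_ifs
  · exact le_refl _
  · positivity

theorem T_lt (t x : ℝ) (hx : x ≠ 0) : |x| < T t x := by
  unfold T
  rw [if_neg hx]
  have hpos : 0 < |x| := abs_pos.2 hx
  have h1 : Real.logb 2 |x| - t < (sc t x : ℝ) + 1 := Int.lt_floor_add_one _
  have h2 : Real.logb 2 |x| < (sc t x : ℝ) + 1 + t := by linarith
  exact (Real.logb_lt_iff_lt_rpow (by norm_num) hpos).1 h2

theorem sc_mono (t : ℝ) {x y : ℝ} (hx : x ≠ 0) (h : |x| ≤ |y|) : sc t x ≤ sc t y := by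
  unfold sc
  apply Int.floor_le_floor
  have hpos : 0 < |x| := abs_pos.2 hx
  have := Real.logb_le_logb_of_le (b := 2) (by norm_num) hpos h
  linarith

theorem T_mono (t : ℝ) {x y : ℝ} (h : |x| ≤ |y|) : T t x ≤ T t y := by
  by_cases hx : x = 0
  · have : T t x = 0 := by unfold T; rw [if_pos hx]
    rw [this]
    exact T_nonneg t y
  · have hy : y ≠ 0 := by
      intro hy
      rw [hy, abs_zero] at h
      exact hx (abs_nonpos_iff.1 h)
    unfold T
    rw [if_neg hx, if_neg hy]
    have h1 : (sc t x : ℝ) ≤ sc t y := by exact_mod_cast sc_mono t hx h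
    exact Real.rpow_le_rpow_of_exponent_le (by norm_num) (by linarith)

theorem w0_mono (q t : ℝ) (hq : 0 ≤ q) : Monotone (w0 q t) := by
  intro x y hxy
  unfold w0
  have hTx : 0 ≤ T t x ^ q := Real.rpow_nonneg (T_nonneg t x) q
  have hTy : 0 ≤ T t y ^ q := Real.rpow_nonneg (T_nonneg t y) q
  rcases lt_trichotomy x 0 with hx | hx | hx
  · rcases lt_trichotomy y 0 with hy | hy | hy
    · have h1 : T t y ^ q ≤ T t x ^ q := by
        apply Real.rpow_le_rpow (T_nonneg t y) _ hq
        apply T_mono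
        rw [abs_of_neg hx, abs_of_neg hy]
        linarith
      rw [sign_neg hx, sign_neg hy]
      simp only [SignType.coe_neg_one]
      linarith
    · rw [sign_neg hx, hy]
      simp
      linarith
    · rw [sign_neg hx, sign_pos hy]
      simp
      linarith
  · rw [hx]
    have hy : 0 ≤ y := by linarith
    rcases hy.eq_or_lt with hy | hy
    · rw [← hy]
    · rw [sign_pos hy]
      simp
      linarith
  · have hy : 0 < y := by linarith
    have h1 : T t x ^ q ≤ T t y ^ q := by
      apply Real.rpow_le_rpow (T_nonneg t x) _ hq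
      apply T_mono
      rw [abs_of_pos hx, abs_of_pos hy]
      linarith
    rw [sign_pos hx, sign_pos hy]
    simp only [SignType.coe_one]
    linarith

theorem floor_diff {a b : ℝ} : |((⌊a⌋ : ℤ) : ℝ) - ((⌊b⌋ : ℤ) : ℝ)| ≤ |a - b| + 1 := by
  have h1 := Int.floor_le a
  have h2 := Int.lt_floor_add_one a
  have h3 := Int.floor_le b
  have h4 := Int.lt_floor_add_one b
  rw [abs_le]
  have h5 := le_abs_self (a - b)
  have h6 := neg_abs_le (a - b)
  constructor <;> linarith

theorem floor_close {a b : ℝ} (h : ⌊a⌋ = ⌊b⌋) : |a - b| ≤ 1 := by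
  have h1 := Int.floor_le a
  have h2 := Int.lt_floor_add_one a
  have h3 := Int.floor_le b
  have h4 := Int.lt_floor_add_one b
  rw [h] at h1 h2
  rw [abs_le]
  constructor <;> linarith

theorem close {M : ℕ} {t s : ℝ} {n : ℕ} {x y : ℝ} (h : lab M t s n x = lab M t s n y) :
    |(M : ℝ) ^ n * x / T t x - (M : ℝ) ^ n * y / T t y| ≤ 1 := by
  cases n with
  | zero =>
    obtain ⟨h1, -⟩ := lab_base M t s 0 x y h
    have h3 := sign_eq h1
    have hT := T_eq h
    rw [← hT, pow_zero, one_mul, one_mul]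
    by_cases hx : x = 0
    · have hy : y = 0 := by
        rw [← sign_eq_zero_iff, ← h3, sign_eq_zero_iff]; exact hx
      rw [hx, hy]; simp
    · have hy : y ≠ 0 := by
        intro hy
        apply hx
        rw [← sign_eq_zero_iff, h3, sign_eq_zero_iff]; exact hy
      have hx1 := T_lt t x hx
      have hy1 := T_lt t y hy
      rw [← hT] at hy1
      have hpos : 0 < T t x := lt_of_le_of_lt (abs_nonneg x) hx1
      rw [← sub_div, abs_div, abs_of_pos hpos, div_le_one hpos]
      rcases lt_or_gt_of_ne hx with hx0 | hx0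
      · have hy0 : y < 0 := by
          rw [sign_neg hx0] at h3
          exact sign_eq_neg_one_iff.1 h3.symm
        rw [abs_of_neg hx0] at hx1
        rw [abs_of_neg hy0] at hy1
        rw [abs_le]
        constructor <;> linarith
      · have hy0 : 0 < y := by
          rw [sign_pos hx0] at h3
          exact sign_eq_one_iff.1 h3.symm
        rw [abs_of_pos hx0] at hx1
        rw [abs_of_pos hy0] at hy1
        rw [abs_le]
        constructor <;> linarith
  | succ n =>
    have h1 := lab_succ M t s n x y h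
    unfold kk at h1
    have h2 := floor_close h1
    have h3 : (M : ℝ) ^ (n + 1) * x / T t x - s - ((M : ℝ) ^ (n + 1) * y / T t y - s) =
      (M : ℝ) ^ (n + 1) * x / T t x - (M : ℝ) ^ (n + 1) * y / T t y := by ring
    rw [h3] at h2
    exact h2

theorem kk_diff {M : ℕ} (hM : 2 ≤ M) {t s : ℝ} {n : ℕ} {x y : ℝ} (h : lab M t s n x = lab M t s n y) :
    |(kk M t s (n + 1) x : ℝ) - kk M t s (n + 1) y| ≤ 2 * M := by
  unfold kk
  refine le_trans floor_diff ?_
  have h1 := close h
  have h2 : (M : ℝ) ^ (n + 1) * x / T t x - s - ((M : ℝ) ^ (n + 1) * y / T t y - s) =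
      M * ((M : ℝ) ^ n * x / T t x - (M : ℝ) ^ n * y / T t y) := by
    rw [pow_succ]; ring
  have hM' : (2 : ℝ) ≤ M := by exact_mod_cast hM
  rw [h2, abs_mul, Nat.abs_cast]
  nlinarith

theorem t : S_WPROP := by
  intro q M hM t s
  have hq : 0 ≤ q := by linarith [hM.q1]
  refine ⟨w0_mono q t hq, fun n => ⟨?_, ?_⟩⟩
  · intro i
    by_cases hi : ∃ x0, lab M t s n x0 = i
    · obtain ⟨x0, hx0⟩ := hi
      refine ⟨fun x => 2 * T t x0 ^ q * (M : ℝ) ^ (-((n + 1 : ℕ) : ℝ) * q) *
        (⌊(M : ℝ) ^ (n + 1) * x / T t x0 - s⌋ : ℤ), ?_, ?_⟩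
      · intro x y hxy
        have hc : 0 ≤ 2 * T t x0 ^ q * (M : ℝ) ^ (-((n + 1 : ℕ) : ℝ) * q) := by
          have := Real.rpow_nonneg (T_nonneg t x0) q
          positivity
        apply mul_le_mul_of_nonneg_left _ hc
        have h1 : ⌊(M : ℝ) ^ (n + 1) * x / T t x0 - s⌋ ≤ ⌊(M : ℝ) ^ (n + 1) * y / T t x0 - s⌋ := by
          apply Int.floor_le_floor
          have h2 : (M : ℝ) ^ (n + 1) * x / T t x0 ≤ (M : ℝ) ^ (n + 1) * y / T t x0 := by
            apply div_le_div_of_nonneg_right _ (T_nonneg t x0)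
            apply mul_le_mul_of_nonneg_left hxy
            positivity
          linarith
        exact_mod_cast h1
      · intro x hx
        have hT : T t x = T t x0 := T_eq (hx.trans hx0.symm)
        unfold wn kk
        rw [hT]
    · refine ⟨fun _ => 0, fun _ _ _ => le_refl _, fun x hx => (hi ⟨x, hx⟩).elim⟩
  · intro x y h
    have hT : T t x = T t y := T_eq h
    refine ⟨?_, ?_⟩
    · have hk := kk_diff hM.M2 h
      unfold wn on
      rw [← hT, ← mul_sub, abs_mul]
      have hc : 0 ≤ T t x ^ q * (M : ℝ) ^ (-((n + 1 : ℕ) : ℝ) * q) := by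
        have := Real.rpow_nonneg (T_nonneg t x) q
        positivity
      have hc2 : |2 * T t x ^ q * (M : ℝ) ^ (-((n + 1 : ℕ) : ℝ) * q)| =
          2 * (T t x ^ q * (M : ℝ) ^ (-((n + 1 : ℕ) : ℝ) * q)) := by
        rw [mul_assoc, abs_mul, abs_of_nonneg hc, abs_of_pos (by norm_num : (0:ℝ) < 2)]
      rw [hc2]
      calc 2 * (T t x ^ q * (M : ℝ) ^ (-((n + 1 : ℕ) : ℝ) * q)) *
            |(kk M t s (n + 1) x : ℝ) - kk M t s (n + 1) y|
          ≤ 2 * (T t x ^ q * (M : ℝ) ^ (-((n + 1 : ℕ) : ℝ) * q)) * (2 * M) :=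
            mul_le_mul_of_nonneg_left hk (by positivity)
        _ = 4 * M * T t x ^ q * (M : ℝ) ^ (-((n + 1 : ℕ) : ℝ) * q) := by ring
    · unfold on
      rw [hT]

end Pool.Agent.H99Q.WPROP
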