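import Pool.Agent.H99Q.Fin
import Pool.Agent.H99Q.EXM
import Pool.Agent.H99Q.QLAW
import Pool.Agent.H99Q.ML
import Pool.Agent.H99Q.MRS
import Pool.Agent.H99Q.SPLIT
import Pool.Agent.H99Q.LAW
import Pool.Agent.H99Q.STEP0
import Pool.Agent.H99Q.STEPB
import Pool.Agent.H99Q.STEP
import Pool.Agent.H99Q.WPROP
import Pool.Agent.H99Q.PATH
import Pool.Agent.H99Q.TOPE
import Pool.Agent.H99Q.TOPN
import Pool.Agent.H99Q.FLOOR
import Pool.Agent.H99Q.INN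
import Pool.Agent.H99Q.UNIF
import Pool.Agent.H99Q.GE1

/-! The powers `q ≥ 1 / 2`. -/

open scoped ENNReal NNReal

namespace Pool.Agent.H99Q

open Pool.Agent.R972.PC

theorem ge_half (q : ℝ) (h : 1 / 2 ≤ q) : optRatio q ≤ 5000 := by
  rcases lt_or_ge q 1 with h1 | h1
  · exact main EXM.t QLAW.t ML.t MRS.t SPLIT.t (LAW.t QLAW.t) (STEP0.t QLAW.t)
      (STEP.t QLAW.t (STEPB.t QLAW.t)) WPROP.t PATH.t TOPE.t TOPN.t (INN.t FLOOR.t) UNIF.t q h h1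
  · exact (GE1.t QLAW.t q h1).trans (by norm_num)

end Pool.Agent.H99Q
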