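import Pool.Agent.H99Q.Stm2

/-!
# PATH2: convergence of the label sequences and the transport cost along the levels
-/

set_option autoImplicit false

open MeasureTheory Set Filter Topology Pool.Agent.R972.PC
open scoped NNReal ENNReal

namespace Pool.Agent.H99Q.PATH2

open Pool.Agent.H99Q

lemma sign_inj : ∀ a b : SignType, ((a : ℤ) = (b : ℤ)) → a = b := by decide

lemma lab0 {M : ℕ} {t s x y : ℝ} (h : lab2 M t s 0 x = lab2 M t s 0 y) :
    SignType.sign x = SignType.sign y ∧ sc2 M t x = sc2 M t y := by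
  rw [lab2, lab2] at h
  have h1 := Encodable.encode_injective h
  rw [Prod.mk.injEq] at h1
  exact ⟨sign_inj _ _ h1.1, h1.2⟩

lemma lab0' {M : ℕ} {t s x y : ℝ} (h1 : SignType.sign x = SignType.sign y) (h2 : sc2 M t x = sc2 M t y) :
    lab2 M t s 0 x = lab2 M t s 0 y := by
  rw [lab2, lab2, h1, h2]

lemma labs {M n : ℕ} {t s x y : ℝ} (h : lab2 M t s (n + 1) x = lab2 M t s (n + 1) y) :
    lab2 M t s n x = lab2 M t s n y ∧ kk2 M t s (n + 1) x = kk2 M t s (n + 1) y := by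
  rw [lab2, lab2] at h
  have h1 := Encodable.encode_injective h
  rw [Prod.mk.injEq] at h1
  exact h1

lemma labs' {M n : ℕ} {t s x y : ℝ} (h1 : lab2 M t s n x = lab2 M t s n y)
    (h2 : kk2 M t s (n + 1) x = kk2 M t s (n + 1) y) : lab2 M t s (n + 1) x = lab2 M t s (n + 1) y := by
  rw [lab2, lab2, h1, h2]

lemma lab_mono {M : ℕ} {t s x y : ℝ} {m n : ℕ} (hmn : m ≤ n) (h : lab2 M t s n x = lab2 M t s n y) :
    lab2 M t s m x = lab2 M t s m y := by
  induction n, hmn using Nat.le_induction with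
  | base => exact h
  | succ n _ ih => exact ih (labs h).1

lemma T_pos {M : ℕ} (hM : 2 ≤ M) {t x : ℝ} (hx : x ≠ 0) : 0 < T2 M t x := by
  have hM' : (0 : ℝ) < M := by exact_mod_cast (by omega : 0 < M)
  rw [T2, if_neg hx]
  positivity

lemma T_zero (M : ℕ) (t : ℝ) : T2 M t 0 = 0 := by rw [T2, if_pos rfl]

lemma T_nonneg {M : ℕ} (hM : 2 ≤ M) (t x : ℝ) : 0 ≤ T2 M t x := by
  by_cases hx : x = 0
  · rw [hx, T_zero]
  · exact (T_pos hM hx).le

lemma abs_le_T {M : ℕ} (hM : 2 ≤ M) (t x : ℝ) : |x| ≤ T2 M t x := by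
  have hM1 : (1 : ℝ) < M := by exact_mod_cast (by omega : 1 < M)
  by_cases hx : x = 0
  · rw [hx, T_zero, abs_zero]
  · have h0 : 0 < |x| := abs_pos.2 hx
    have h1 : Real.logb M |x| - t < (sc2 M t x : ℝ) + 1 := Int.lt_floor_add_one _
    rw [T2, if_neg hx]
    have h2 : |x| = (M : ℝ) ^ (Real.logb M |x|) :=
      (Real.rpow_logb (by linarith) (by linarith) h0).symm
    calc |x| = (M : ℝ) ^ (Real.logb M |x|) := h2
      _ ≤ _ := Real.rpow_le_rpow_of_exponent_le hM1.le (by linarith)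

lemma T_eq {M : ℕ} {t s x y : ℝ} (h : lab2 M t s 0 x = lab2 M t s 0 y) : T2 M t x = T2 M t y := by
  obtain ⟨h1, h2⟩ := lab0 h
  by_cases hx : x = 0
  · subst hx
    rw [sign_zero] at h1
    rw [sign_eq_zero_iff.1 h1.symm]
  · have hy : y ≠ 0 := by
      rintro rfl
      rw [sign_zero] at h1
      exact hx (sign_eq_zero_iff.1 h1)
    rw [T2, T2, if_neg hx, if_neg hy, h2]

/-- the interval of a point -/
lemma kk_le {M n : ℕ} {t s x : ℝ} :
    (kk2 M t s n x : ℝ) + Int.fract s ≤ (M : ℝ) ^ n * x / T2 M t x ∧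
      (M : ℝ) ^ n * x / T2 M t x ≤ (kk2 M t s n x : ℝ) + 1 + Int.fract s := by
  have h1 : (kk2 M t s n x : ℝ) ≤ (M : ℝ) ^ n * x / T2 M t x - Int.fract s := Int.floor_le _
  have h2 : (M : ℝ) ^ n * x / T2 M t x - Int.fract s < (kk2 M t s n x : ℝ) + 1 := Int.lt_floor_add_one _
  constructor <;> linarith

lemma seq_lab {M : ℕ} {t s : ℝ} {a : ℕ → ℝ} (ha : ∀ n, lab2 M t s n (a (n + 1)) = lab2 M t s n (a n))
    (n m : ℕ) (hnm : n ≤ m) : lab2 M t s n (a m) = lab2 M t s n (a n) := by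
  induction m, hnm using Nat.le_induction with
  | base => rfl
  | succ m hm ih => rw [lab_mono hm (ha m), ih]

/-- two points of a block of level `0` -/
lemma close0 {M : ℕ} {t s x y : ℝ} (hM : 2 ≤ M) (h : lab2 M t s 0 x = lab2 M t s 0 y) :
    |x - y| ≤ T2 M t x := by
  have hT : T2 M t x = T2 M t y := T_eq h
  have h1 := abs_le_T hM t x
  have h2 := abs_le_T hM t y
  rw [← hT] at h2
  have hs := (lab0 h).1
  rcases lt_trichotomy x 0 with h0 | h0 | h0
  · rw [sign_neg h0] at hs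
    have hy : y < 0 := sign_eq_neg_one_iff.1 hs.symm
    rw [abs_of_neg h0] at h1
    rw [abs_of_neg hy] at h2
    rw [abs_le]
    constructor <;> linarith
  · rw [h0, sign_zero] at hs
    have hy : y = 0 := sign_eq_zero_iff.1 hs.symm
    rw [h0, hy, sub_zero, abs_zero, T_zero]
  · rw [sign_pos h0] at hs
    have hy : 0 < y := sign_eq_one_iff.1 hs.symm
    rw [abs_of_pos h0] at h1
    rw [abs_of_pos hy] at h2
    rw [abs_le]
    constructor <;> linarith

/-- two points of a block of level `n` -/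
lemma close {M n : ℕ} {t s x y : ℝ} (hM : 2 ≤ M) (h : lab2 M t s n x = lab2 M t s n y) :
    |x - y| ≤ T2 M t x * ((M : ℝ)⁻¹) ^ n := by
  rcases n with _ | n
  · rw [pow_zero, mul_one]
    exact close0 hM h
  have hT : T2 M t x = T2 M t y := T_eq (lab_mono (Nat.zero_le _) h)
  have hk := (labs h).2
  have hM' : (0 : ℝ) < M := by exact_mod_cast (by omega : 0 < M)
  by_cases hx : x = 0
  · have hy : y = 0 := by
      by_contra hy
      have := T_pos hM (t := t) hy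
      rw [← hT, hx, T_zero] at this
      exact lt_irrefl _ this
    rw [hx, hy, T_zero]
    simp
  · have hTp := T_pos hM (t := t) hx
    obtain ⟨h1, h2⟩ := kk_le (M := M) (n := n + 1) (t := t) (s := s) (x := x)
    obtain ⟨h3, h4⟩ := kk_le (M := M) (n := n + 1) (t := t) (s := s) (x := y)
    rw [← hk, ← hT] at h3 h4
    have h5 : |(M : ℝ) ^ (n + 1) * x / T2 M t x - (M : ℝ) ^ (n + 1) * y / T2 M t x| ≤ 1 := by
      rw [abs_le]
      constructor <;> linarith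
    have h6 : (M : ℝ) ^ (n + 1) * x / T2 M t x - (M : ℝ) ^ (n + 1) * y / T2 M t x =
        (M : ℝ) ^ (n + 1) / T2 M t x * (x - y) := by ring
    have h7 : 0 < (M : ℝ) ^ (n + 1) / T2 M t x := by positivity
    rw [h6, abs_mul, abs_of_pos h7, mul_comm, ← le_div_iff₀ h7] at h5
    calc |x - y| ≤ 1 / ((M : ℝ) ^ (n + 1) / T2 M t x) := h5
      _ = T2 M t x * ((M : ℝ)⁻¹) ^ (n + 1) := by
        rw [inv_pow, one_div_div, div_eq_mul_inv]

/-- the limit of a sequence -/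
lemma conv {M : ℕ} {t s : ℝ} {a : ℕ → ℝ} (hM : 2 ≤ M)
    (ha : ∀ n, lab2 M t s n (a (n + 1)) = lab2 M t s n (a n)) : ∃ x : ℝ, Tendsto a atTop (𝓝 x) := by
  have hM' : (2 : ℝ) ≤ M := by exact_mod_cast hM
  have hT : ∀ n, T2 M t (a n) = T2 M t (a 0) := fun n => T_eq (seq_lab ha 0 n (Nat.zero_le _))
  apply cauchySeq_tendsto_of_complete
  apply cauchySeq_of_le_geometric ((M : ℝ)⁻¹) (T2 M t (a 0))
  · exact inv_lt_one_of_one_lt₀ (by linarith)
  · intro n
    rw [Real.dist_eq]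
    have h1 := close hM (ha n).symm
    rw [hT] at h1
    exact h1

/-- the position of the limit -/
lemma pos0 {M : ℕ} {t s : ℝ} {a : ℕ → ℝ} (ha : ∀ n, lab2 M t s n (a (n + 1)) = lab2 M t s n (a n))
    (hM : 2 ≤ M) {x : ℝ} (hx : Tendsto a atTop (𝓝 x)) :
    ∃ ξ : ℝ, 0 ≤ ξ ∧ ξ ≤ T2 M t (a 0) ∧ x = ((SignType.sign (a 0) : SignType) : ℝ) * ξ := by
  have hT : ∀ n, T2 M t (a n) = T2 M t (a 0) := fun n => T_eq (seq_lab ha 0 n (Nat.zero_le _))
  have hs : ∀ n, SignType.sign (a n) = SignType.sign (a 0) := fun n =>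
    (lab0 (seq_lab ha 0 n (Nat.zero_le _))).1
  have hb : |x| ≤ T2 M t (a 0) := by
    refine le_of_tendsto hx.abs (Eventually.of_forall fun n => ?_)
    rw [← hT n]
    exact abs_le_T hM _ _
  rcases lt_trichotomy (a 0) 0 with h0 | h0 | h0
  · have h1 : SignType.sign (a 0) = -1 := sign_neg h0
    have h2 : x ≤ 0 := by
      refine le_of_tendsto hx (Eventually.of_forall fun n => ?_)
      have := hs n
      rw [h1, sign_eq_neg_one_iff] at this
      exact this.le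
    refine ⟨|x|, abs_nonneg _, hb, ?_⟩
    rw [h1, abs_of_nonpos h2]
    simp
  · have h1 : SignType.sign (a 0) = 0 := by rw [h0, sign_zero]
    have h2 : x = 0 := by
      rw [h0, T_zero] at hb
      exact abs_eq_zero.1 (le_antisymm hb (abs_nonneg _))
    refine ⟨|x|, abs_nonneg _, hb, ?_⟩
    rw [h1, h2]
    simp
  · have h1 : SignType.sign (a 0) = 1 := sign_pos h0
    have h2 : 0 ≤ x := by
      refine ge_of_tendsto hx (Eventually.of_forall fun n => ?_)
      have := hs n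
      rw [h1, sign_eq_one_iff] at this
      exact this.le
    refine ⟨|x|, abs_nonneg _, hb, ?_⟩
    rw [h1, abs_of_nonneg h2]
    simp

/-- the numerical inequality -/
lemma num {q T T' M : ℝ} (q0 : 0 < q) (hM0 : 0 ≤ M) (hM : 2 ≤ M ^ q) (hT : 0 ≤ T) (h : M * T ≤ T') :
    T' ^ q ≤ 4 * (T' ^ q - T ^ q) := by
  have h6 : (M * T) ^ q ≤ T' ^ q := Real.rpow_le_rpow (by positivity) h q0.le
  rw [Real.mul_rpow hM0 hT] at h6
  have h7 : 0 ≤ T ^ q := Real.rpow_nonneg hT q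
  have h8 := mul_le_mul_of_nonneg_right hM h7
  linarith

lemma same {q T T' M ξ η : ℝ} (q0 : 0 < q) (hM1 : 1 ≤ M) (hM : 2 ≤ M ^ q) (hT : 0 ≤ T) (hT' : 0 ≤ T')
    (h : M * T ≤ T' ∨ M * T' ≤ T) (hξ0 : 0 ≤ ξ) (hξ : ξ ≤ T) (hη0 : 0 ≤ η) (hη : η ≤ T') :
    |ξ - η| ^ q ≤ |4 * T ^ q - 4 * T' ^ q| := by
  rcases h with h | h
  · have h0 : T ≤ M * T := le_mul_of_one_le_left hT hM1
    have h1 : |ξ - η| ≤ T' := by
      rw [abs_le]
      constructor <;> linarith
    calc |ξ - η| ^ q ≤ T' ^ q := Real.rpow_le_rpow (abs_nonneg _) h1 q0.le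
      _ ≤ 4 * (T' ^ q - T ^ q) := num q0 (by linarith) hM hT h
      _ = -(4 * T ^ q - 4 * T' ^ q) := by ring
      _ ≤ _ := neg_le_abs _
  · have h0 : T' ≤ M * T' := le_mul_of_one_le_left hT' hM1
    have h1 : |ξ - η| ≤ T := by
      rw [abs_le]
      constructor <;> linarith
    calc |ξ - η| ^ q ≤ T ^ q := Real.rpow_le_rpow (abs_nonneg _) h1 q0.le
      _ ≤ 4 * (T ^ q - T' ^ q) := num q0 (by linarith) hM hT' h
      _ = 4 * T ^ q - 4 * T' ^ q := by ring
      _ ≤ _ := le_abs_self _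

lemma diff {q T T' ξ η : ℝ} (q0 : 0 < q) (q2 : q < 1) (hT : 0 ≤ T) (hT' : 0 ≤ T')
    (hξ0 : 0 ≤ ξ) (hξ : ξ ≤ T) (hη0 : 0 ≤ η) (hη : η ≤ T') :
    (ξ + η) ^ q ≤ 4 * (T ^ q + T' ^ q) := by
  have hm : 0 ≤ max T T' := le_max_of_le_left hT
  have h1 : ξ + η ≤ 2 * max T T' := by
    have := le_max_left T T'
    have := le_max_right T T'
    linarith
  have h2 : (ξ + η) ^ q ≤ 2 ^ q * (max T T') ^ q := by
    rw [← Real.mul_rpow (by norm_num) hm]
    exact Real.rpow_le_rpow (by positivity) h1 (by linarith)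
  have h3 : (2 : ℝ) ^ q ≤ 2 := by
    calc (2 : ℝ) ^ q ≤ 2 ^ (1 : ℝ) := Real.rpow_le_rpow_of_exponent_le (by norm_num) q2.le
      _ = 2 := Real.rpow_one 2
  have h4 : 0 ≤ T ^ q := Real.rpow_nonneg hT q
  have h5 : 0 ≤ T' ^ q := Real.rpow_nonneg hT' q
  have h6 : (max T T') ^ q ≤ T ^ q + T' ^ q := by
    rcases max_cases T T' with ⟨h, _⟩ | ⟨h, _⟩ <;> rw [h] <;> linarith
  have h7 : 0 ≤ (max T T') ^ q := Real.rpow_nonneg hm q
  nlinarith

lemma sc_lt {M : ℕ} (hM : 2 ≤ M) {t u v : ℝ} (hu : u ≠ 0) (hv : v ≠ 0) (h : sc2 M t u < sc2 M t v) :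
    (M : ℝ) * T2 M t u ≤ T2 M t v := by
  have hM0 : (0 : ℝ) < M := by exact_mod_cast (by omega : 0 < M)
  have hM1 : (1 : ℝ) ≤ M := by exact_mod_cast (by omega : 1 ≤ M)
  rw [T2, T2, if_neg hu, if_neg hv]
  have h1 : ((sc2 M t u : ℤ) : ℝ) + 1 ≤ sc2 M t v := by exact_mod_cast h
  calc (M : ℝ) * (M : ℝ) ^ ((sc2 M t u : ℝ) + 1 + t) = (M : ℝ) ^ ((1 : ℝ) + ((sc2 M t u : ℝ) + 1 + t)) := by
        rw [Real.rpow_add hM0 1, Real.rpow_one]
    _ ≤ _ := Real.rpow_le_rpow_of_exponent_le hM1 (by linarith)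

lemma main0 {q : ℝ} {M : ℕ} (h : HK q M) {t s : ℝ} {a b : ℕ → ℝ}
    (ha : ∀ n, lab2 M t s n (a (n + 1)) = lab2 M t s n (a n))
    (hb : ∀ n, lab2 M t s n (b (n + 1)) = lab2 M t s n (b n)) {x y : ℝ}
    (hx : Tendsto a atTop (𝓝 x)) (hy : Tendsto b atTop (𝓝 y))
    (hne : lab2 M t s 0 (a 0) ≠ lab2 M t s 0 (b 0)) :
    |x - y| ^ q ≤ |w02 q M t (a 0) - w02 q M t (b 0)| := by
  obtain ⟨ξ, hξ0, hξ, rfl⟩ := pos0 ha h.M2 hx
  obtain ⟨η, hη0, hη, rfl⟩ := pos0 hb h.M2 hy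
  have q0 := h.q0
  have q2 : q < 1 := by linarith [h.q1]
  have hM1 : (1 : ℝ) ≤ M := by exact_mod_cast (by have := h.M2; omega : 1 ≤ M)
  have hT := T_nonneg h.M2 t (a 0)
  have hT' := T_nonneg h.M2 t (b 0)
  have hq0 : q ≠ 0 := q0.ne'
  have hz : (0 : ℝ) ^ q = 0 := Real.zero_rpow hq0
  have hTq : 0 ≤ T2 M t (a 0) ^ q := Real.rpow_nonneg hT q
  have hTq' : 0 ≤ T2 M t (b 0) ^ q := Real.rpow_nonneg hT' q
  have hd := diff q0 q2 hT hT' hξ0 hξ hη0 hη
  have hsame : SignType.sign (a 0) = SignType.sign (b 0) → a 0 ≠ 0 → b 0 ≠ 0 →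
      |ξ - η| ^ q ≤ |4 * T2 M t (a 0) ^ q - 4 * T2 M t (b 0) ^ q| := by
    intro h1 h2 h3
    apply same q0 hM1 h.lo hT hT' _ hξ0 hξ hη0 hη
    have h4 : sc2 M t (a 0) ≠ sc2 M t (b 0) := fun h5 => hne (lab0' h1 h5)
    rcases lt_or_gt_of_ne h4 with h5 | h5
    · exact Or.inl (sc_lt h.M2 h2 h3 h5)
    · exact Or.inr (sc_lt h.M2 h3 h2 h5)
  rw [w02, w02]
  rcases lt_trichotomy (a 0) 0 with h0 | h0 | h0 <;> rcases lt_trichotomy (b 0) 0 with h1 | h1 | h1
  · have h2 := hsame (by rw [sign_neg h0, sign_neg h1]) h0.ne h1.ne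
    rw [sign_neg h0, sign_neg h1]
    simp only [SignType.coe_neg_one]
    rw [show (-1 : ℝ) * ξ - -1 * η = -(ξ - η) by ring, abs_neg,
      show 4 * (-1 : ℝ) * T2 M t (a 0) ^ q - 4 * -1 * T2 M t (b 0) ^ q =
        -(4 * T2 M t (a 0) ^ q - 4 * T2 M t (b 0) ^ q) by ring, abs_neg]
    exact h2
  · rw [sign_neg h0, h1, sign_zero, T_zero, hz]
    rw [h1, T_zero, hz] at hd
    have h5 : η = 0 := le_antisymm (by rwa [h1, T_zero] at hη) hη0
    simp only [SignType.coe_neg_one, SignType.coe_zero]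
    rw [h5, add_zero] at hd
    rw [show (-1 : ℝ) * ξ - 0 * η = -ξ by ring, abs_neg, abs_of_nonneg hξ0,
      show 4 * (-1 : ℝ) * T2 M t (a 0) ^ q - 4 * 0 * 0 = -(4 * (T2 M t (a 0) ^ q + 0)) by ring, abs_neg,
      abs_of_nonneg (by linarith)]
    exact hd
  · rw [sign_neg h0, sign_pos h1]
    simp only [SignType.coe_neg_one, SignType.coe_one]
    rw [show (-1 : ℝ) * ξ - 1 * η = -(ξ + η) by ring, abs_neg, abs_of_nonneg (by linarith),
      show 4 * (-1 : ℝ) * T2 M t (a 0) ^ q - 4 * 1 * T2 M t (b 0) ^ q =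
        -(4 * (T2 M t (a 0) ^ q + T2 M t (b 0) ^ q)) by ring, abs_neg, abs_of_nonneg (by linarith)]
    exact hd
  · rw [sign_neg h1, h0, sign_zero, T_zero, hz]
    rw [h0, T_zero, hz] at hd
    have h5 : ξ = 0 := le_antisymm (by rwa [h0, T_zero] at hξ) hξ0
    simp only [SignType.coe_neg_one, SignType.coe_zero]
    rw [h5, zero_add] at hd
    rw [show (0 : ℝ) * ξ - -1 * η = η by ring, abs_of_nonneg hη0,
      show 4 * (0 : ℝ) * 0 - 4 * -1 * T2 M t (b 0) ^ q = 4 * (0 + T2 M t (b 0) ^ q) by ring,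
      abs_of_nonneg (by linarith)]
    exact hd
  · exfalso
    exact hne (by rw [h0, h1])
  · rw [sign_pos h1, h0, sign_zero, T_zero, hz]
    rw [h0, T_zero, hz] at hd
    have h5 : ξ = 0 := le_antisymm (by rwa [h0, T_zero] at hξ) hξ0
    simp only [SignType.coe_one, SignType.coe_zero]
    rw [h5, zero_add] at hd
    rw [show (0 : ℝ) * ξ - 1 * η = -η by ring, abs_neg, abs_of_nonneg hη0,
      show 4 * (0 : ℝ) * 0 - 4 * 1 * T2 M t (b 0) ^ q = -(4 * (0 + T2 M t (b 0) ^ q)) by ring, abs_neg,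
      abs_of_nonneg (by linarith)]
    exact hd
  · rw [sign_pos h0, sign_neg h1]
    simp only [SignType.coe_neg_one, SignType.coe_one]
    rw [show (1 : ℝ) * ξ - -1 * η = ξ + η by ring, abs_of_nonneg (by linarith),
      show 4 * (1 : ℝ) * T2 M t (a 0) ^ q - 4 * -1 * T2 M t (b 0) ^ q =
        4 * (T2 M t (a 0) ^ q + T2 M t (b 0) ^ q) by ring, abs_of_nonneg (by linarith)]
    exact hd
  · rw [sign_pos h0, h1, sign_zero, T_zero, hz]
    rw [h1, T_zero, hz] at hd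
    have h5 : η = 0 := le_antisymm (by rwa [h1, T_zero] at hη) hη0
    simp only [SignType.coe_one, SignType.coe_zero]
    rw [h5, add_zero] at hd
    rw [show (1 : ℝ) * ξ - 0 * η = ξ by ring, abs_of_nonneg hξ0,
      show 4 * (1 : ℝ) * T2 M t (a 0) ^ q - 4 * 0 * 0 = 4 * (T2 M t (a 0) ^ q + 0) by ring,
      abs_of_nonneg (by linarith)]
    exact hd
  · have h2 := hsame (by rw [sign_pos h0, sign_pos h1]) h0.ne' h1.ne'
    rw [sign_pos h0, sign_pos h1]
    simp only [SignType.coe_one]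
    rw [show (1 : ℝ) * ξ - 1 * η = ξ - η by ring,
      show 4 * (1 : ℝ) * T2 M t (a 0) ^ q - 4 * 1 * T2 M t (b 0) ^ q =
        4 * T2 M t (a 0) ^ q - 4 * T2 M t (b 0) ^ q by ring]
    exact h2

lemma mainS {q : ℝ} {M : ℕ} (h : HK q M) {t s : ℝ} {a b : ℕ → ℝ}
    (ha : ∀ n, lab2 M t s n (a (n + 1)) = lab2 M t s n (a n))
    (hb : ∀ n, lab2 M t s n (b (n + 1)) = lab2 M t s n (b n)) {x y : ℝ}
    (hx : Tendsto a atTop (𝓝 x)) (hy : Tendsto b atTop (𝓝 y)) {n : ℕ}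
    (h1 : lab2 M t s n (a n) = lab2 M t s n (b n)) :
    |x - y| ^ q ≤ cc q M t n (a n) := by
  have hM0 : (0 : ℝ) < M := by exact_mod_cast (by have := h.M2; omega : 0 < M)
  have hT0 := T_nonneg h.M2 t (a n)
  have h2 : |x - y| ≤ T2 M t (a n) * ((M : ℝ)⁻¹) ^ n := by
    refine le_of_tendsto (hx.sub hy).abs (eventually_atTop.2 ⟨n, fun m hm => ?_⟩)
    have h3 := seq_lab ha n m hm
    have h4 := seq_lab hb n m hm
    have h5 := close h.M2 (h3.trans (h1.trans h4.symm))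
    rw [T_eq (lab_mono (Nat.zero_le _) h3)] at h5
    exact h5
  have hMq : (((M : ℝ)⁻¹) ^ n) ^ q = (M : ℝ) ^ (-(n : ℝ) * q) := by
    rw [Real.rpow_mul (by positivity), Real.rpow_neg (by positivity), Real.rpow_natCast, inv_pow]
  calc |x - y| ^ q ≤ (T2 M t (a n) * ((M : ℝ)⁻¹) ^ n) ^ q := Real.rpow_le_rpow (abs_nonneg _) h2 h.q0.le
    _ = cc q M t n (a n) := by
        rw [Real.mul_rpow hT0 (by positivity), hMq, cc]

theorem t : S_PATH2 := by
  intro q M h t s a b ha hb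
  refine ⟨conv h.M2 ha, ?_⟩
  intro x y hx hy
  by_cases hall : ∀ n, lab2 M t s n (a n) = lab2 M t s n (b n)
  · -- the limits agree
    have hM : (2 : ℝ) ≤ M := by exact_mod_cast h.M2
    have hT : ∀ n, T2 M t (a n) = T2 M t (a 0) := fun n => T_eq (seq_lab ha 0 n (Nat.zero_le _))
    have h1 : Tendsto (fun n => a n - b n) atTop (𝓝 (x - y)) := hx.sub hy
    have h2 : Tendsto (fun n => a n - b n) atTop (𝓝 0) := by
      refine squeeze_zero_norm (a := fun n => T2 M t (a 0) * ((M : ℝ)⁻¹) ^ n) (fun n => ?_) ?_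
      · rw [Real.norm_eq_abs, ← hT n]
        exact close h.M2 (hall n)
      · have h3 : Tendsto (fun n : ℕ => ((M : ℝ)⁻¹) ^ n) atTop (𝓝 0) :=
          tendsto_pow_atTop_nhds_zero_of_lt_one (by positivity)
            (inv_lt_one_of_one_lt₀ (by linarith))
        have h4 := h3.const_mul (T2 M t (a 0))
        rwa [mul_zero] at h4
    have h3 : x - y = 0 := tendsto_nhds_unique h1 h2
    rw [h3, abs_zero, Real.zero_rpow h.q0.ne', ENNReal.ofReal_zero]
    exact zero_le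
  · push Not at hall
    classical
    have hN := Nat.find_spec hall
    have hmin := fun m => Nat.find_min hall (m := m)
    rcases hNe : Nat.find hall with _ | n
    · rw [hNe] at hN
      exact (ENNReal.ofReal_le_ofReal (main0 h ha hb hx hy hN)).trans le_self_add
    · rw [hNe] at hN hmin
      have h1 : lab2 M t s n (a n) = lab2 M t s n (b n) := by
        have := hmin n (Nat.lt_succ_self n)
        exact not_not.1 this
      have h2 := ENNReal.ofReal_le_ofReal (mainS h ha hb hx hy h1)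
      refine (h2.trans ?_).trans le_add_self
      refine le_trans (le_of_eq ?_) (ENNReal.le_tsum n)
      rw [if_pos ⟨h1, hN⟩]

end Pool.Agent.H99Q.PATH2
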