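import Pool.Agent.H99Q.Stm2
import Pool.Agent.H99Q.UNIF

set_option autoImplicit false

open MeasureTheory Set Filter Topology Pool.Agent.R972.PC
open scoped NNReal ENNReal unitInterval

namespace Pool.Agent.H99Q.PSI

theorem t : S_PSI := by
  obtain ⟨f, hf, hf2⟩ := Measure.exists_measurable_map_eq (leb.prod leb)
  have hm : Measurable (projIcc (0 : ℝ) 1 zero_le_one) := continuous_projIcc.measurable
  refine ⟨fun x => f (projIcc (0 : ℝ) 1 zero_le_one x), hf.comp hm, ?_⟩
  have h1 : leb.map (fun x => f (projIcc (0 : ℝ) 1 zero_le_one x)) =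
      (leb.map (projIcc (0 : ℝ) 1 zero_le_one)).map f := by
    rw [Measure.map_map hf hm]
    rfl
  rw [h1, Pool.Agent.H99Q.UNIF.map_proj, hf2]

end Pool.Agent.H99Q.PSI
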