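import Pool.Agent.H99Q.Stm2
import Pool.Agent.H99Q.UNIF

/-! Stub SEL of the project PCR (helper99): rejection sampling. -/

set_option autoImplicit false

open MeasureTheory Set Filter Topology Pool.Agent.R972.PC
open scoped NNReal ENNReal

namespace Pool.Agent.H99Q.SEL

/-- the trial value -/
noncomputable def jj (L : ℕ) (a : ℝ) : ℕ := ⌊(L : ℝ) * a⌋₊

/-- the trial is accepted -/
def acc (L : ℕ) (p : ℕ → ℝ) (a : ℝ) : Prop := (L : ℝ) * a - jj L a < p (jj L a)

open Classical in
/-- the value of the first accepted trial -/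
noncomputable def ch (L : ℕ) (p : ℕ → ℝ) (a : ℕ → ℝ) : ℕ :=
  if h : ∃ k, acc L p (a k) then jj L (a (Nat.find h)) else 0

theorem ch_of_first {L : ℕ} {p : ℕ → ℝ} {a : ℕ → ℝ} {k : ℕ} (h1 : ∀ m < k, ¬ acc L p (a m))
    (h2 : acc L p (a k)) : ch L p a = jj L (a k) := by
  classical
  have h : ∃ k, acc L p (a k) := ⟨k, h2⟩
  unfold ch
  rw [dif_pos h]
  have e : Nat.find h = k := by
    rw [Nat.find_eq_iff]
    exact ⟨h2, h1⟩
  rw [e]

theorem ch_eq_iff {L : ℕ} {p : ℕ → ℝ} {a : ℕ → ℝ} {i : ℕ} : ch L p a = i ↔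
    (∃ k, (∀ m < k, ¬ acc L p (a m)) ∧ acc L p (a k) ∧ jj L (a k) = i) ∨
      ((∀ k, ¬ acc L p (a k)) ∧ i = 0) := by
  classical
  constructor
  · intro h
    by_cases hex : ∃ k, acc L p (a k)
    · left
      refine ⟨Nat.find hex, fun m hm => Nat.find_min hex hm, Nat.find_spec hex, ?_⟩
      rw [← h]
      unfold ch
      rw [dif_pos hex]
    · right
      push Not at hex
      refine ⟨hex, ?_⟩
      rw [← h]
      unfold ch
      rw [dif_neg (by push Not; exact hex)]
  · rintro (⟨k, h1, h2, h3⟩ | ⟨h1, h2⟩)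
    · rw [ch_of_first h1 h2, h3]
    · unfold ch
      rw [dif_neg (by push Not; exact h1), h2]

theorem exists_psi : ∃ ψ : ℝ → ℕ → ℝ, Measurable ψ ∧
    leb.map ψ = Measure.infinitePi (fun _ : ℕ => leb) := by
  obtain ⟨f, hf, hf2⟩ := Measure.exists_measurable_map_eq (Measure.infinitePi (fun _ : ℕ => leb))
  have hm : Measurable (projIcc (0 : ℝ) 1 zero_le_one) := continuous_projIcc.measurable
  refine ⟨fun x => f (projIcc (0 : ℝ) 1 zero_le_one x), hf.comp hm, ?_⟩
  have h1 : leb.map (fun x => f (projIcc (0 : ℝ) 1 zero_le_one x)) =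
      (leb.map (projIcc (0 : ℝ) 1 zero_le_one)).map f := by
    rw [Measure.map_map hf hm]
    rfl
  rw [h1, UNIF.map_proj, hf2]

theorem meas_jj (L : ℕ) : Measurable (jj L) := by
  unfold jj
  exact Nat.measurable_floor.comp (measurable_const.mul measurable_id)

theorem meas_acc (L : ℕ) {β : Type} [MeasurableSpace β] {P : β → ℕ → ℝ} {a : β → ℝ}
    (hP : Measurable P) (ha : Measurable a) : MeasurableSet {x | acc L (P x) (a x)} := by
  have e : {x | acc L (P x) (a x)} =
      ⋃ i : ℕ, ({x | jj L (a x) = i} ∩ {x | (L : ℝ) * a x - i < P x i}) := by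
    ext x
    simp only [mem_setOf_eq, mem_iUnion, mem_inter_iff]
    constructor
    · intro h
      exact ⟨jj L (a x), rfl, h⟩
    · rintro ⟨i, hi, h⟩
      unfold acc
      rw [hi]
      exact h
  rw [e]
  refine MeasurableSet.iUnion fun i => MeasurableSet.inter ?_ ?_
  · exact ((meas_jj L).comp ha) (measurableSet_singleton i)
  · exact measurableSet_lt ((measurable_const.mul ha).sub measurable_const)
      ((measurable_pi_apply i).comp hP)

theorem meas_ch (L : ℕ) {β : Type} [MeasurableSpace β] {P : β → ℕ → ℝ} {a : β → ℕ → ℝ}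
    (hP : Measurable P) (ha : Measurable a) : Measurable fun x => ch L (P x) (a x) := by
  refine measurable_to_countable' fun i => ?_
  have e : (fun x => ch L (P x) (a x)) ⁻¹' {i} =
      (⋃ k : ℕ, ((⋂ m : ℕ, ⋂ _ : m < k, {x | acc L (P x) (a x m)}ᶜ) ∩
        ({x | acc L (P x) (a x k)} ∩ {x | jj L (a x k) = i}))) ∪
      ((⋂ k : ℕ, {x | acc L (P x) (a x k)}ᶜ) ∩ {_x | i = 0}) := by
    ext x
    simp only [mem_preimage, mem_singleton_iff, mem_union, mem_iUnion, mem_inter_iff, mem_iInter,
      mem_compl_iff, mem_setOf_eq]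
    exact ch_eq_iff
  rw [e]
  have hacc : ∀ k : ℕ, MeasurableSet {x | acc L (P x) (a x k)} := fun k =>
    meas_acc L hP ((measurable_pi_apply k).comp ha)
  refine MeasurableSet.union (MeasurableSet.iUnion fun k => MeasurableSet.inter ?_
    ((hacc k).inter ?_)) (MeasurableSet.inter ?_ ?_)
  · exact MeasurableSet.iInter fun m => MeasurableSet.iInter fun _ => (hacc m).compl
  · exact ((meas_jj L).comp ((measurable_pi_apply k).comp ha)) (measurableSet_singleton i)
  · exact MeasurableSet.iInter fun k => (hacc k).compl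
  · exact MeasurableSet.const _

/-- cylinders -/
theorem cyl {R A : Set ℝ} (hR : MeasurableSet R) (hA : MeasurableSet A) (k : ℕ) :
    Measure.infinitePi (fun _ : ℕ => leb) {a | (∀ m < k, a m ∈ R) ∧ a k ∈ A} =
      leb R ^ k * leb A := by
  have e : {a : ℕ → ℝ | (∀ m < k, a m ∈ R) ∧ a k ∈ A} =
      Set.pi (Finset.range (k + 1)) fun m => if m < k then R else A := by
    ext a
    simp only [mem_setOf_eq, Set.mem_pi, Finset.coe_range, mem_Iio]
    constructor
    · rintro ⟨h1, h2⟩ m hm
      split_ifs with h3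
      · exact h1 m h3
      · rw [show m = k by omega]
        exact h2
    · intro h
      refine ⟨fun m hm => ?_, ?_⟩
      · have := h m (by omega)
        rwa [if_pos hm] at this
      · have := h k (by omega)
        rwa [if_neg (lt_irrefl k)] at this
  rw [e, Measure.infinitePi_pi]
  · rw [Finset.prod_range_succ, if_neg (lt_irrefl k)]
    congr 1
    rw [Finset.prod_congr rfl fun m hm => by rw [if_pos (Finset.mem_range.1 hm)], Finset.prod_const,
      Finset.card_range]
  · intro m _
    split_ifs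
    · exact hR
    · exact hA

theorem cyl' {R : Set ℝ} (hR : MeasurableSet R) (k : ℕ) :
    Measure.infinitePi (fun _ : ℕ => leb) {a | ∀ m < k, a m ∈ R} = leb R ^ k := by
  have h := cyl hR MeasurableSet.univ k
  rw [measure_univ, mul_one] at h
  rw [← h]
  congr 1
  ext a
  simp

section prob

variable {L : ℕ} {p : ℕ → ℝ}

theorem leb_A (hL : 1 ≤ L) (h0 : ∀ i, 0 ≤ p i) (hz : ∀ i, L ≤ i → p i = 0)
    (h1 : ∀ i, p i ≤ 1) (i : ℕ) :
    leb {a | acc L p a ∧ jj L a = i} = ENNReal.ofReal (p i / L) := by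
  have hL0 : (0 : ℝ) < L := by exact_mod_cast hL
  have hm : MeasurableSet {a | acc L p a ∧ jj L a = i} :=
    (meas_acc L measurable_const measurable_id).inter ((meas_jj L) (measurableSet_singleton i))
  unfold leb
  rw [Measure.restrict_apply hm]
  have e : {a | acc L p a ∧ jj L a = i} ∩ Icc 0 1 = Ico ((i : ℝ) / L) ((i + p i) / L) := by
    ext a
    simp only [mem_inter_iff, mem_setOf_eq, mem_Icc, mem_Ico]
    constructor
    · rintro ⟨⟨h2, h3⟩, h4, h5⟩
      unfold acc at h2
      rw [h3] at h2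
      have h6 : 0 ≤ (L : ℝ) * a := by positivity
      unfold jj at h3
      rw [Nat.floor_eq_iff h6] at h3
      rw [div_le_iff₀ hL0, lt_div_iff₀ hL0]
      constructor <;> linarith
    · rintro ⟨h2, h3⟩
      rw [div_le_iff₀ hL0] at h2
      rw [lt_div_iff₀ hL0] at h3
      have hpi : 0 < p i := by linarith
      have hiL : i < L := by
        by_contra hcon
        push Not at hcon
        rw [hz i hcon] at hpi
        exact lt_irrefl _ hpi
      have hiL' : (i : ℝ) + 1 ≤ L := by exact_mod_cast hiL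
      have h4 := h1 i
      have h5 : 0 ≤ a := by
        by_contra hcon
        push Not at hcon
        have : (0 : ℝ) ≤ i := by positivity
        nlinarith
      have h6 : jj L a = i := by
        unfold jj
        rw [Nat.floor_eq_iff (by positivity)]
        constructor <;> linarith
      refine ⟨⟨?_, h6⟩, h5, ?_⟩
      · unfold acc
        rw [h6]
        linarith
      · by_contra hcon
        push Not at hcon
        nlinarith
  rw [e, Real.volume_Ico]
  congr 1
  ring

theorem meas_R : MeasurableSet {a | ¬ acc L p a} :=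
  (meas_acc L measurable_const measurable_id).compl

theorem leb_R (hL : 1 ≤ L) (h0 : ∀ i, 0 ≤ p i) (hz : ∀ i, L ≤ i → p i = 0)
    (h1 : ∀ i, p i ≤ 1) (hs : ∑ i ∈ Finset.range L, p i = 1) :
    leb {a | ¬ acc L p a} = 1 - ENNReal.ofReal (1 / L) := by
  have hL0 : (0 : ℝ) < L := by exact_mod_cast hL
  have hm : MeasurableSet {a | acc L p a} := meas_acc L measurable_const measurable_id
  have h2 : leb {a | acc L p a} = ENNReal.ofReal (1 / L) := by
    have e : {a | acc L p a} = ⋃ i : ℕ, {a | acc L p a ∧ jj L a = i} := by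
      ext a
      simp
    rw [e, measure_iUnion]
    · rw [tsum_congr fun i => leb_A hL h0 hz h1 i, tsum_eq_sum (s := Finset.range L)]
      · rw [← ENNReal.ofReal_sum_of_nonneg fun i _ => div_nonneg (h0 i) hL0.le,
          ← Finset.sum_div, hs]
      · intro i hi
        rw [Finset.mem_range, not_lt] at hi
        rw [hz i hi, zero_div, ENNReal.ofReal_zero]
    · intro i j hij
      refine Set.disjoint_left.2 fun a ha hb => hij ?_
      exact ha.2.symm.trans hb.2
    · intro i
      exact hm.inter ((meas_jj L) (measurableSet_singleton i))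
  have h3 : {a | ¬ acc L p a} = {a | acc L p a}ᶜ := rfl
  rw [h3, prob_compl_eq_one_sub hm, h2]

theorem geo (hL : 1 ≤ L) : ∑' k : ℕ, (1 - ENNReal.ofReal (1 / (L : ℝ))) ^ k =
    (ENNReal.ofReal (1 / (L : ℝ)))⁻¹ := by
  have hL1 : (1 : ℝ) ≤ L := by exact_mod_cast hL
  rw [ENNReal.tsum_geometric, ENNReal.sub_sub_cancel ENNReal.one_ne_top]
  rw [← ENNReal.ofReal_one]
  refine ENNReal.ofReal_le_ofReal ?_
  rw [div_le_one (by linarith)]
  exact hL1

theorem never (hL : 1 ≤ L) (h0 : ∀ i, 0 ≤ p i) (hz : ∀ i, L ≤ i → p i = 0)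
    (h1 : ∀ i, p i ≤ 1) (hs : ∑ i ∈ Finset.range L, p i = 1) :
    Measure.infinitePi (fun _ : ℕ => leb) {a | ∀ k, ¬ acc L p (a k)} = 0 := by
  have hL0 : (0 : ℝ) < L := by exact_mod_cast hL
  have h2 : ∀ k : ℕ, Measure.infinitePi (fun _ : ℕ => leb) {a | ∀ k, ¬ acc L p (a k)} ≤
      (1 - ENNReal.ofReal (1 / (L : ℝ))) ^ k := by
    intro k
    rw [← leb_R hL h0 hz h1 hs, ← cyl' meas_R k]
    exact measure_mono fun a ha m _ => ha m
  have h3 : Tendsto (fun k : ℕ => (1 - ENNReal.ofReal (1 / (L : ℝ))) ^ k) atTop (𝓝 0) := by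
    refine ENNReal.tendsto_pow_atTop_nhds_zero_of_lt_one ?_
    refine ENNReal.sub_lt_self ENNReal.one_ne_top one_ne_zero ?_
    exact (ENNReal.ofReal_pos.2 (by positivity)).ne'
  exact le_antisymm (ge_of_tendsto' h3 h2) bot_le

theorem law (hL : 1 ≤ L) (h0 : ∀ i, 0 ≤ p i) (hz : ∀ i, L ≤ i → p i = 0)
    (h1 : ∀ i, p i ≤ 1) (hs : ∑ i ∈ Finset.range L, p i = 1) (i : ℕ) :
    Measure.infinitePi (fun _ : ℕ => leb) {a | ch L p a = i} = ENNReal.ofReal (p i) := by
  have hL0 : (0 : ℝ) < L := by exact_mod_cast hL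
  have hA : MeasurableSet {a | acc L p a ∧ jj L a = i} :=
    (meas_acc L measurable_const measurable_id).inter ((meas_jj L) (measurableSet_singleton i))
  have hC : Measure.infinitePi (fun _ : ℕ => leb)
      (⋃ k : ℕ, {a | (∀ m < k, a m ∈ {a | ¬ acc L p a}) ∧ a k ∈ {a | acc L p a ∧ jj L a = i}}) =
      ENNReal.ofReal (p i) := by
    rw [measure_iUnion]
    · rw [tsum_congr fun k => cyl meas_R hA k, ENNReal.tsum_mul_right, leb_R hL h0 hz h1 hs,
        geo hL, leb_A hL h0 hz h1]
      rw [← ENNReal.ofReal_inv_of_pos (by positivity), ← ENNReal.ofReal_mul (by positivity)]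
      congr 1
      field_simp
    · intro k l hkl
      refine Set.disjoint_left.2 fun a ha hb => ?_
      rcases lt_or_gt_of_ne hkl with h2 | h2
      · exact hb.1 k h2 ha.2.1
      · exact ha.1 l h2 hb.2.1
    · intro k
      have e : {a : ℕ → ℝ | (∀ m < k, a m ∈ {a | ¬ acc L p a}) ∧
          a k ∈ {a | acc L p a ∧ jj L a = i}} =
          (⋂ m : ℕ, ⋂ _ : m < k, (fun a : ℕ → ℝ => a m) ⁻¹' {a | ¬ acc L p a}) ∩
            (fun a : ℕ → ℝ => a k) ⁻¹' {a | acc L p a ∧ jj L a = i} := by
        ext a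
        simp
      rw [e]
      exact (MeasurableSet.iInter fun m => MeasurableSet.iInter fun _ =>
        (measurable_pi_apply m) meas_R).inter ((measurable_pi_apply k) hA)
  refine le_antisymm ?_ ?_
  · rw [← hC, ← add_zero (Measure.infinitePi (fun _ : ℕ => leb) (⋃ k : ℕ, _)),
      ← never hL h0 hz h1 hs]
    refine (measure_mono fun a ha => ?_).trans (measure_union_le _ _)
    rcases ch_eq_iff.1 ha with ⟨k, h2, h3, h4⟩ | ⟨h2, -⟩
    · exact Or.inl (mem_iUnion.2 ⟨k, h2, h3, h4⟩)
    · exact Or.inr h2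
  · rw [← hC]
    refine measure_mono fun a ha => ?_
    obtain ⟨k, h2, h3, h4⟩ := mem_iUnion.1 ha
    exact ch_eq_iff.2 (Or.inl ⟨k, h2, h3, h4⟩)

theorem diff (hL : 1 ≤ L) {p' : ℕ → ℝ} (h0 : ∀ i, 0 ≤ p i) (hz : ∀ i, L ≤ i → p i = 0)
    (h1 : ∀ i, p i ≤ 1) (hs : ∑ i ∈ Finset.range L, p i = 1) (h0' : ∀ i, 0 ≤ p' i)
    (hz' : ∀ i, L ≤ i → p' i = 0) (h1' : ∀ i, p' i ≤ 1) (hs' : ∑ i ∈ Finset.range L, p' i = 1) :
    Measure.infinitePi (fun _ : ℕ => leb) {a | ch L p a ≠ ch L p' a} ≤
      ENNReal.ofReal (∑ i ∈ Finset.range L, |p i - p' i|) := by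
  have hL0 : (0 : ℝ) < L := by exact_mod_cast hL
  set E : Set ℝ := {a | ¬ (acc L p a ↔ acc L p' a)} with hE
  have hmE : MeasurableSet E := by
    have e : E = ({a | acc L p a} ∩ {a | acc L p' a}ᶜ) ∪ ({a | acc L p' a} ∩ {a | acc L p a}ᶜ) := by
      ext a
      simp only [hE, mem_setOf_eq, mem_union, mem_inter_iff, mem_compl_iff]
      tauto
    have m1 : MeasurableSet {a | acc L p a} := meas_acc L measurable_const measurable_id
    have m2 : MeasurableSet {a | acc L p' a} := meas_acc L measurable_const measurable_id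
    rw [e]
    exact (m1.inter m2.compl).union (m2.inter m1.compl)
  have hEle : leb E ≤ ENNReal.ofReal (1 / L) *
      ENNReal.ofReal (∑ i ∈ Finset.range L, |p i - p' i|) := by
    have hsub : E ⊆ ⋃ i ∈ Finset.range L, Ico ((i + min (p i) (p' i)) / L)
        ((i + max (p i) (p' i)) / L) := by
      intro a ha
      have hj : jj L a < L := by
        by_contra hcon
        push Not at hcon
        refine ha ?_
        unfold acc
        rw [hz _ hcon, hz' _ hcon]
      rw [mem_iUnion₂]
      refine ⟨jj L a, Finset.mem_range.2 hj, ?_⟩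
      rw [mem_Ico, div_le_iff₀ hL0, lt_div_iff₀ hL0]
      have ha' : ¬ ((L : ℝ) * a - jj L a < p (jj L a) ↔ (L : ℝ) * a - jj L a < p' (jj L a)) := ha
      rcases le_total (p (jj L a)) (p' (jj L a)) with h2 | h2
      · rw [min_eq_left h2, max_eq_right h2]
        constructor
        · by_contra hcon
          push Not at hcon
          exact ha' ⟨fun _ => by linarith, fun _ => by linarith⟩
        · by_contra hcon
          push Not at hcon
          exact ha' ⟨fun _ => by linarith, fun _ => by linarith⟩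
      · rw [min_eq_right h2, max_eq_left h2]
        constructor
        · by_contra hcon
          push Not at hcon
          exact ha' ⟨fun _ => by linarith, fun _ => by linarith⟩
        · by_contra hcon
          push Not at hcon
          exact ha' ⟨fun _ => by linarith, fun _ => by linarith⟩
    calc leb E ≤ leb (⋃ i ∈ Finset.range L, Ico ((i + min (p i) (p' i)) / L)
          ((i + max (p i) (p' i)) / L)) := measure_mono hsub
      _ ≤ ∑ i ∈ Finset.range L, leb (Ico ((i + min (p i) (p' i)) / L)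
          ((i + max (p i) (p' i)) / L)) := measure_biUnion_finset_le _ _
      _ ≤ ∑ i ∈ Finset.range L, ENNReal.ofReal (1 / L * |p i - p' i|) := by
        refine Finset.sum_le_sum fun i _ => ?_
        refine (Measure.restrict_apply_le _ _).trans ?_
        rw [Real.volume_Ico]
        refine ENNReal.ofReal_le_ofReal (le_of_eq ?_)
        rw [← max_sub_min_eq_abs']
        ring
      _ = ENNReal.ofReal (1 / L) * ENNReal.ofReal (∑ i ∈ Finset.range L, |p i - p' i|) := by
        rw [← ENNReal.ofReal_sum_of_nonneg fun i _ => by positivity, ← Finset.mul_sum,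
          ENNReal.ofReal_mul (by positivity)]
  have hsub : {a | ch L p a ≠ ch L p' a} ⊆
      ({a | ∀ k, ¬ acc L p (a k)} ∪ {a | ∀ k, ¬ acc L p' (a k)}) ∪
        ⋃ k : ℕ, {a | (∀ m < k, a m ∈ {a | ¬ acc L p a}) ∧ a k ∈ E} := by
    classical
    intro a ha
    by_cases hex : ∃ k, acc L p (a k)
    · by_cases hex' : ∃ k, acc L p' (a k)
      · right
        have hf1 := Nat.find_spec hex
        have hf2 : ∀ m < Nat.find hex, ¬ acc L p (a m) := fun m hm => Nat.find_min hex hm
        have hg1 := Nat.find_spec hex'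
        have hg2 : ∀ m < Nat.find hex', ¬ acc L p' (a m) := fun m hm => Nat.find_min hex' hm
        have e1 := ch_of_first hf2 hf1
        have e2 := ch_of_first hg2 hg1
        rcases lt_trichotomy (Nat.find hex) (Nat.find hex') with h2 | h2 | h2
        · refine mem_iUnion.2 ⟨Nat.find hex, hf2, ?_⟩
          exact fun hiff => hg2 _ h2 (hiff.1 hf1)
        · exact absurd (by rw [e1, e2, h2]) ha
        · refine mem_iUnion.2 ⟨Nat.find hex', fun m hm => hf2 m (hm.trans h2), ?_⟩
          exact fun hiff => hf2 _ h2 (hiff.2 hg1)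
      · push Not at hex'
        exact Or.inl (Or.inr hex')
    · push Not at hex
      exact Or.inl (Or.inl hex)
  calc Measure.infinitePi (fun _ : ℕ => leb) {a | ch L p a ≠ ch L p' a}
      ≤ Measure.infinitePi (fun _ : ℕ => leb) {a | ∀ k, ¬ acc L p (a k)} +
        Measure.infinitePi (fun _ : ℕ => leb) {a | ∀ k, ¬ acc L p' (a k)} +
        ∑' k : ℕ, Measure.infinitePi (fun _ : ℕ => leb)
          {a | (∀ m < k, a m ∈ {a | ¬ acc L p a}) ∧ a k ∈ E} :=
        (measure_mono hsub).trans ((measure_union_le _ _).trans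
          (add_le_add (measure_union_le _ _) (measure_iUnion_le _)))
    _ = (ENNReal.ofReal (1 / (L : ℝ)))⁻¹ * leb E := by
        rw [never hL h0 hz h1 hs, never hL h0' hz' h1' hs', zero_add, zero_add,
          tsum_congr fun k => cyl meas_R hmE k, ENNReal.tsum_mul_right, leb_R hL h0 hz h1 hs,
          geo hL]
    _ ≤ (ENNReal.ofReal (1 / (L : ℝ)))⁻¹ * (ENNReal.ofReal (1 / L) *
        ENNReal.ofReal (∑ i ∈ Finset.range L, |p i - p' i|)) := by gcongr
    _ = ENNReal.ofReal (∑ i ∈ Finset.range L, |p i - p' i|) := by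
        rw [← mul_assoc, ENNReal.inv_mul_cancel, one_mul]
        · exact (ENNReal.ofReal_pos.2 (by positivity)).ne'
        · exact ENNReal.ofReal_ne_top

end prob

theorem le_one {L : ℕ} {p : ℕ → ℝ} (h0 : ∀ i, 0 ≤ p i) (hz : ∀ i, L ≤ i → p i = 0)
    (hs : ∑ i ∈ Finset.range L, p i = 1) (i : ℕ) : p i ≤ 1 := by
  by_cases hi : i < L
  · rw [← hs]
    exact Finset.single_le_sum (f := p) (fun j _ => h0 j) (Finset.mem_range.2 hi)
  · rw [hz i (not_lt.1 hi)]
    exact zero_le_one

theorem t : S_SEL := by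
  intro L hL
  obtain ⟨ψ, hψ, hlaw⟩ := exists_psi
  have key : ∀ S : Set (ℕ → ℝ), MeasurableSet S →
      leb {u | ψ u ∈ S} = Measure.infinitePi (fun _ : ℕ => leb) S := by
    intro S hS
    rw [← hlaw, Measure.map_apply hψ hS]
    rfl
  refine ⟨fun p u => ch L p (ψ u), ⟨?_, ?_, ?_⟩⟩
  · exact meas_ch L measurable_fst (hψ.comp measurable_snd)
  · intro p h0 hz hs i
    have hm : MeasurableSet {a | ch L p a = i} :=
      (meas_ch L (measurable_const (a := p)) measurable_id) (measurableSet_singleton i)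
    rw [← law hL h0 hz (le_one h0 hz hs) hs i, ← key _ hm]
    rfl
  · intro p p' h0 hz hs h0' hz' hs'
    have hm : MeasurableSet {a | ch L p a ≠ ch L p' a} :=
      (measurableSet_eq_fun (meas_ch L (measurable_const (a := p)) measurable_id)
        (meas_ch L (measurable_const (a := p')) measurable_id)).compl
    refine le_trans (le_of_eq ?_) (diff hL h0 hz (le_one h0 hz hs) hs h0' hz' (le_one h0' hz' hs') hs')
    rw [← key _ hm]
    rfl

end Pool.Agent.H99Q.SEL
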