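import Pool.Agent.H99Q.Stm2

/-!
Project PCR, stub STEPK.
-/

set_option autoImplicit false

open MeasureTheory Set Filter Topology Pool.Agent.R972.PC
open scoped NNReal ENNReal

namespace Pool.Agent.H99Q.STEPK

/-- the cell `(i, j)` -/
def K (l r : ℝ → ℕ) (i j : ℕ) : Set ℝ := {x | l x = i ∧ r x = j}

lemma K_meas {l r : ℝ → ℕ} (hl : Measurable l) (hr : Measurable r) (i j : ℕ) :
    MeasurableSet (K l r i j) :=
  (hl (measurableSet_singleton i)).inter (hr (measurableSet_singleton j))

lemma sum_K (P : Measure ℝ) {l r : ℝ → ℕ} (hl : Measurable l) (hr : Measurable r) {L : ℕ}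
    (hL : ∀ x, r x < L) (i : ℕ) :
    ∑ j ∈ Finset.range L, P (K l r i j) = P {x | l x = i} := by
  rw [← measure_biUnion_finset]
  · congr 1
    ext x
    simp only [mem_iUnion, Finset.mem_range, exists_prop, K, mem_ofPred_eq]
    constructor
    · rintro ⟨j, _, h, _⟩
      exact h
    · intro h
      exact ⟨r x, hL x, h, rfl⟩
  · intro j _ j' _ hjj'
    refine Set.disjoint_left.2 ?_
    rintro x ⟨_, h1⟩ ⟨_, h2⟩
    exact hjj' (h1.symm.trans h2)
  · intro j _
    exact K_meas hl hr i j

lemma cp_eq (P : Measure ℝ) (l r : ℝ → ℕ) (y : ℝ) (j : ℕ) :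
    cp P l r y j = (P (K l r (l y) j) / P {x | l x = l y}).toReal := rfl

lemma cp_prob (P : Measure ℝ) [IsProbabilityMeasure P] {l r : ℝ → ℕ} (hl : Measurable l)
    (hr : Measurable r) {L : ℕ} (hL : ∀ x, r x < L) (y : ℝ) (h0 : P {x | l x = l y} ≠ 0) :
    (∀ j, 0 ≤ cp P l r y j) ∧ (∀ j, L ≤ j → cp P l r y j = 0) ∧
      ∑ j ∈ Finset.range L, cp P l r y j = 1 := by
  refine ⟨fun j => ENNReal.toReal_nonneg, fun j hj => ?_, ?_⟩
  · rw [cp_eq]
    have : K l r (l y) j = ∅ := by
      ext x
      simp only [K, mem_ofPred_eq, mem_empty_iff_false, iff_false, not_and]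
      intro _ h
      have := hL x
      omega
    rw [this]
    simp
  · have h1 : ∀ j ∈ Finset.range L, P (K l r (l y) j) / P {x | l x = l y} ≠ ⊤ := fun j _ =>
      ENNReal.div_ne_top (measure_ne_top _ _) h0
    have h2 : ∑ j ∈ Finset.range L, cp P l r y j =
        (∑ j ∈ Finset.range L, P (K l r (l y) j) / P {x | l x = l y}).toReal := by
      rw [ENNReal.toReal_sum h1]
      rfl
    rw [h2]
    simp only [div_eq_mul_inv]
    rw [← Finset.sum_mul, sum_K P hl hr hL, ENNReal.mul_inv_cancel h0 (measure_ne_top _ _)]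
    simp

lemma ae_mem (h1 : S_QLAW) {L : ℕ} {sel : (ℕ → ℝ) → ℝ → ℕ} (hsel : IsSel L sel) (P : Measure ℝ)
    [IsProbabilityMeasure P] {l r : ℝ → ℕ} (hl : Measurable l) (hr : Measurable r)
    (hL : ∀ x, r x < L) (y : ℝ) (h0 : P {x | l x = l y} ≠ 0) :
    ∀ᵐ w : ℝ × ℝ ∂(leb.prod leb), l (rk sel P l r y w.1 w.2) = l y ∧
      r (rk sel P l r y w.1 w.2) = sel (cp P l r y) w.1 := by
  obtain ⟨c1, c2, c3⟩ := cp_prob P hl hr hL y h0
  have hj : ∀ j : ℕ, ∀ᵐ w : ℝ × ℝ ∂(leb.prod leb), sel (cp P l r y) w.1 = j →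
      G (P.restrict (K l r (l y) j)) w.2 ∈ K l r (l y) j := by
    intro j
    by_cases hK : P (K l r (l y) j) = 0
    · rw [ae_iff]
      refine measure_mono_null (t := {u | sel (cp P l r y) u = j} ×ˢ univ) ?_ ?_
      · intro w hw
        simp only [mem_ofPred_eq, Classical.not_imp] at hw
        exact ⟨hw.1, mem_univ _⟩
      · rw [Measure.prod_prod, hsel.law _ c1 c2 c3 j, cp_eq, hK]
        simp
    · have hν : P.restrict (K l r (l y) j) ≠ 0 := by
        intro h
        apply hK
        rw [← Measure.restrict_apply_univ (K l r (l y) j), h]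
        rfl
      obtain ⟨-, hm, hlaw⟩ := h1 (P.restrict (K l r (l y) j)) hν
      have h3 : leb (G (P.restrict (K l r (l y) j)) ⁻¹' (K l r (l y) j)ᶜ) = 0 := by
        rw [← Measure.map_apply hm (K_meas hl hr _ _).compl, hlaw, Measure.smul_apply,
          Measure.restrict_apply (K_meas hl hr _ _).compl, compl_inter_self, measure_empty]
        simp
      rw [ae_iff]
      refine measure_mono_null
        (t := univ ×ˢ (G (P.restrict (K l r (l y) j)) ⁻¹' (K l r (l y) j)ᶜ)) ?_ ?_
      · intro w hw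
        simp only [mem_ofPred_eq, Classical.not_imp] at hw
        exact ⟨mem_univ _, hw.2⟩
      · rw [Measure.prod_prod, h3, mul_zero]
  filter_upwards [ae_all_iff.2 hj] with w hw
  have h4 := hw _ rfl
  have e : rk sel P l r y w.1 w.2 =
      G (P.restrict (K l r (l y) (sel (cp P l r y) w.1))) w.2 := by
    show (if l (G (P.restrict (K l r (l y) (sel (cp P l r y) w.1))) w.2) = l y then
      G (P.restrict (K l r (l y) (sel (cp P l r y) w.1))) w.2 else y) = _
    rw [if_pos h4.1]
  rw [e]
  exact h4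

lemma real_ineq (L : ℕ) (p q : ℕ → ℝ) (a b m : ℝ) (ha : 0 < a) (hb : 0 < b) (hm : 0 ≤ m)
    (hma : m ≤ a) (hq : ∀ j, 0 ≤ q j) (hpa : ∑ j ∈ Finset.range L, p j = a)
    (hqb : ∑ j ∈ Finset.range L, q j = b) :
    m * ∑ j ∈ Finset.range L, |p j / a - q j / b| ≤ 2 * ∑ j ∈ Finset.range L, |p j - q j| := by
  have h1 : ∀ j, m * |p j / a - q j / b| ≤ |p j - q j| + q j * (|b - a| / b) := by
    intro j
    have e : p j / a - q j / b = (p j - q j) / a + q j * (b - a) / (a * b) := by
      field_simp
      ring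
    have h2 : |p j / a - q j / b| ≤ |p j - q j| / a + q j * |b - a| / (a * b) := by
      rw [e]
      refine (abs_add_le _ _).trans (le_of_eq ?_)
      rw [abs_div, abs_div, abs_mul, abs_of_pos ha, abs_of_pos (mul_pos ha hb), abs_of_nonneg (hq j)]
    calc m * |p j / a - q j / b| ≤ a * |p j / a - q j / b| :=
          mul_le_mul_of_nonneg_right hma (abs_nonneg _)
      _ ≤ a * (|p j - q j| / a + q j * |b - a| / (a * b)) := mul_le_mul_of_nonneg_left h2 ha.le
      _ = |p j - q j| + q j * (|b - a| / b) := by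
          field_simp
  have h3 : |b - a| ≤ ∑ j ∈ Finset.range L, |p j - q j| := by
    rw [← hpa, ← hqb, ← Finset.sum_sub_distrib]
    refine (Finset.abs_sum_le_sum_abs _ _).trans (Finset.sum_le_sum fun j _ => ?_)
    rw [abs_sub_comm]
  calc m * ∑ j ∈ Finset.range L, |p j / a - q j / b| =
        ∑ j ∈ Finset.range L, m * |p j / a - q j / b| := Finset.mul_sum _ _ _
    _ ≤ ∑ j ∈ Finset.range L, (|p j - q j| + q j * (|b - a| / b)) :=
        Finset.sum_le_sum fun j _ => h1 j
    _ = ∑ j ∈ Finset.range L, |p j - q j| + |b - a| := by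
        rw [Finset.sum_add_distrib, ← Finset.sum_mul, hqb]
        field_simp
    _ ≤ 2 * ∑ j ∈ Finset.range L, |p j - q j| := by linarith

/-- exactly one coordinate in `S` -/
def E (S : Set ℝ) : Set (ℝ × ℝ) := {p | (p.1 ∈ S ∧ p.2 ∉ S) ∨ (p.2 ∈ S ∧ p.1 ∉ S)}

lemma E_meas {S : Set ℝ} (hS : MeasurableSet S) : MeasurableSet (E S) :=
  ((measurable_fst hS).inter (measurable_snd hS).compl).union
    ((measurable_snd hS).inter (measurable_fst hS).compl)

lemma diff_le {P Q : Measure ℝ} [IsProbabilityMeasure P] [IsProbabilityMeasure Q]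
    {π : Measure (ℝ × ℝ)} (hπ : Cpl π P Q) {S : Set ℝ} (hS : MeasurableSet S) :
    ENNReal.ofReal |(P S).toReal - (Q S).toReal| ≤ π (E S) := by
  have hP : P S = π (Prod.fst ⁻¹' S) := by rw [← hπ.1, Measure.map_apply measurable_fst hS]
  have hQ : Q S = π (Prod.snd ⁻¹' S) := by rw [← hπ.2, Measure.map_apply measurable_snd hS]
  have h1 : P S ≤ Q S + π (E S) := by
    rw [hP, hQ]
    refine (measure_mono ?_).trans (measure_union_le _ _)
    intro p hp
    by_cases h : p.2 ∈ S
    · exact Or.inl h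
    · exact Or.inr (Or.inl ⟨hp, h⟩)
  have h2 : Q S ≤ P S + π (E S) := by
    rw [hP, hQ]
    refine (measure_mono ?_).trans (measure_union_le _ _)
    intro p hp
    by_cases h : p.1 ∈ S
    · exact Or.inl h
    · exact Or.inr (Or.inr ⟨hp, h⟩)
  by_cases ht : π (E S) = ⊤
  · rw [ht]; exact le_top
  rw [← ENNReal.ofReal_toReal ht]
  apply ENNReal.ofReal_le_ofReal
  have h3 := ENNReal.toReal_mono (ENNReal.add_ne_top.2 ⟨measure_ne_top Q S, ht⟩) h1
  have h4 := ENNReal.toReal_mono (ENNReal.add_ne_top.2 ⟨measure_ne_top P S, ht⟩) h2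
  rw [ENNReal.toReal_add (measure_ne_top _ _) ht] at h3 h4
  rw [abs_le]
  constructor <;> linarith

theorem t (h1 : S_QLAW) (_h2 : S_MRK) : S_STEPK := by
  classical
  intro L sel hsel P Q _ _ l r l' c hl hr hl' hc hL hc0 hcl hcell π hπ Ω _ μ _ A B hA hB hPA hQB
  -- the value of the weight on a block
  obtain ⟨C, hC⟩ : ∃ C : ℕ → ℝ≥0∞, ∀ x, C (l x) = ENNReal.ofReal (c x) := by
    refine ⟨fun i => ⨆ x ∈ {x | l x = i}, ENNReal.ofReal (c x), fun x => ?_⟩
    apply le_antisymm
    · refine iSup₂_le fun z hz => ?_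
      rw [hcl z x hz]
    · exact le_iSup₂ (f := fun z (_ : z ∈ {z | l z = l x}) => ENNReal.ofReal (c z)) x rfl
  obtain ⟨D, hD⟩ : ∃ D : ℕ → ℝ≥0∞, ∀ i, D i = ENNReal.ofReal (∑ j ∈ Finset.range L,
      |(P (K l r i j) / P {x | l x = i}).toReal - (Q (K l r i j) / Q {x | l x = i}).toReal|) :=
    ⟨_, fun _ => rfl⟩
  -- the blocks
  have hblock : ∀ i, D i * μ {ω | l (A ω) = i ∧ l (B ω) = i} ≤
      2 * ∑ j ∈ Finset.range L, π (E (K l r i j)) := by
    intro i
    have m1 : μ {ω | l (A ω) = i ∧ l (B ω) = i} ≤ P {x | l x = i} :=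
      (measure_mono fun ω h => h.1).trans (hPA i)
    have m2 : μ {ω | l (A ω) = i ∧ l (B ω) = i} ≤ Q {x | l x = i} :=
      (measure_mono fun ω h => h.2).trans (hQB i)
    by_cases hP0 : P {x | l x = i} = 0
    · rw [hP0] at m1
      rw [nonpos_iff_eq_zero.1 m1, mul_zero]
      exact zero_le
    by_cases hQ0 : Q {x | l x = i} = 0
    · rw [hQ0] at m2
      rw [nonpos_iff_eq_zero.1 m2, mul_zero]
      exact zero_le
    have hmt : μ {ω | l (A ω) = i ∧ l (B ω) = i} ≠ ⊤ := measure_ne_top _ _
    have hsP : ∑ j ∈ Finset.range L, (P (K l r i j)).toReal = (P {x | l x = i}).toReal := by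
      rw [← ENNReal.toReal_sum fun j _ => measure_ne_top _ _, sum_K P hl hr hL]
    have hsQ : ∑ j ∈ Finset.range L, (Q (K l r i j)).toReal = (Q {x | l x = i}).toReal := by
      rw [← ENNReal.toReal_sum fun j _ => measure_ne_top _ _, sum_K Q hl hr hL]
    have key := real_ineq L (fun j => (P (K l r i j)).toReal) (fun j => (Q (K l r i j)).toReal)
      (P {x | l x = i}).toReal (Q {x | l x = i}).toReal
      (μ {ω | l (A ω) = i ∧ l (B ω) = i}).toReal
      (ENNReal.toReal_pos hP0 (measure_ne_top _ _)) (ENNReal.toReal_pos hQ0 (measure_ne_top _ _))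
      ENNReal.toReal_nonneg (ENNReal.toReal_mono (measure_ne_top _ _) m1)
      (fun j => ENNReal.toReal_nonneg) hsP hsQ
    rw [hD, ← ENNReal.ofReal_toReal hmt, ← ENNReal.ofReal_mul (Finset.sum_nonneg fun j _ => abs_nonneg _),
      mul_comm]
    simp only [ENNReal.toReal_div]
    refine (ENNReal.ofReal_le_ofReal key).trans ?_
    rw [ENNReal.ofReal_mul (by norm_num), ENNReal.ofReal_sum_of_nonneg fun j _ => abs_nonneg _]
    rw [show ENNReal.ofReal 2 = 2 by simp]
    exact mul_le_mul_right (Finset.sum_le_sum fun j _ => diff_le hπ (K_meas hl hr i j)) 2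
  -- nonnull blocks
  have aeP : ∀ᵐ ω ∂μ, P {x | l x = l (A ω)} ≠ 0 := by
    have : ∀ i : ℕ, ∀ᵐ ω ∂μ, l (A ω) = i → P {x | l x = i} ≠ 0 := by
      intro i
      by_cases h : P {x | l x = i} = 0
      · rw [ae_iff]
        refine measure_mono_null (t := {ω | l (A ω) = i}) ?_ ?_
        · intro ω hω
          simp only [mem_ofPred_eq, Classical.not_imp] at hω
          exact hω.1
        · have := hPA i
          rw [h] at this
          exact nonpos_iff_eq_zero.1 this
      · exact Eventually.of_forall fun ω _ => h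
    filter_upwards [ae_all_iff.2 this] with ω hω
    exact hω _ rfl
  have aeQ : ∀ᵐ ω ∂μ, Q {x | l x = l (B ω)} ≠ 0 := by
    have : ∀ i : ℕ, ∀ᵐ ω ∂μ, l (B ω) = i → Q {x | l x = i} ≠ 0 := by
      intro i
      by_cases h : Q {x | l x = i} = 0
      · rw [ae_iff]
        refine measure_mono_null (t := {ω | l (B ω) = i}) ?_ ?_
        · intro ω hω
          simp only [mem_ofPred_eq, Classical.not_imp] at hω
          exact hω.1
        · have := hQB i
          rw [h] at this
          exact nonpos_iff_eq_zero.1 this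
      · exact Eventually.of_forall fun ω _ => h
    filter_upwards [ae_all_iff.2 this] with ω hω
    exact hω _ rfl
  have hmeasAB : ∀ i : ℕ, MeasurableSet {ω | l (A ω) = i ∧ l (B ω) = i} := fun i =>
    ((hl.comp hA) (measurableSet_singleton i)).inter ((hl.comp hB) (measurableSet_singleton i))
  calc ∫⁻ ω, ({ω | l (A ω) = l (B ω)}.indicator (fun ω => ENNReal.ofReal (c (A ω)) *
      (leb.prod leb) {w | l' (rk sel P l r (A ω) w.1 w.2) ≠ l' (rk sel Q l r (B ω) w.1 w.2)}) ω) ∂μ
      ≤ ∫⁻ ω, ∑' i : ℕ, ({ω | l (A ω) = i ∧ l (B ω) = i}.indicator (fun _ => C i * D i) ω) ∂μ := by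
        refine lintegral_mono_ae ?_
        filter_upwards [aeP, aeQ] with ω hP0 hQ0
        by_cases hAB : l (A ω) = l (B ω)
        · rw [indicator_of_mem (show ω ∈ {ω | l (A ω) = l (B ω)} from hAB)]
          refine le_trans ?_ (ENNReal.le_tsum (l (A ω)))
          rw [indicator_of_mem (show ω ∈ {ω' | l (A ω') = l (A ω) ∧ l (B ω') = l (A ω)} from
            ⟨rfl, hAB.symm⟩), hC]
          refine mul_le_mul_right ?_ _
          obtain ⟨c1, c2, c3⟩ := cp_prob P hl hr hL (A ω) hP0
          obtain ⟨d1, d2, d3⟩ := cp_prob Q hl hr hL (B ω) hQ0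
          have hd := hsel.diff _ _ c1 c2 c3 d1 d2 d3
          have hset : (leb.prod leb) {w | l' (rk sel P l r (A ω) w.1 w.2) ≠
              l' (rk sel Q l r (B ω) w.1 w.2)} ≤
              (leb.prod leb) ({u | sel (cp P l r (A ω)) u ≠ sel (cp Q l r (B ω)) u} ×ˢ univ) := by
            apply measure_mono_ae
            filter_upwards [ae_mem h1 hsel P hl hr hL (A ω) hP0,
              ae_mem h1 hsel Q hl hr hL (B ω) hQ0] with w hw1 hw2 hw
            refine ⟨fun heq => hw ?_, mem_univ _⟩
            rw [hcell]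
            refine ⟨hw1.1.trans (hAB.trans hw2.1.symm), ?_⟩
            rw [hw1.2, hw2.2]
            exact heq
          refine hset.trans ?_
          rw [Measure.prod_prod, measure_univ, mul_one]
          refine hd.trans (le_of_eq ?_)
          rw [hD]
          congr 1
          refine Finset.sum_congr rfl fun j _ => ?_
          rw [cp_eq, cp_eq, hAB]
        · rw [indicator_of_notMem (show ω ∉ {ω | l (A ω) = l (B ω)} from hAB)]
          exact zero_le
    _ = ∑' i : ℕ, C i * D i * μ {ω | l (A ω) = i ∧ l (B ω) = i} := by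
        rw [lintegral_tsum fun i => (measurable_const.indicator (hmeasAB i)).aemeasurable]
        refine tsum_congr fun i => ?_
        rw [lintegral_indicator_const (hmeasAB i)]
    _ ≤ ∑' i : ℕ, C i * (2 * ∑ j ∈ Finset.range L, π (E (K l r i j))) := by
        refine ENNReal.tsum_le_tsum fun i => ?_
        rw [mul_assoc]
        exact mul_le_mul_right (hblock i) _
    _ = ∫⁻ p, ∑' i : ℕ, C i * (2 * ∑ j ∈ Finset.range L,
          (E (K l r i j)).indicator (fun _ => (1 : ℝ≥0∞)) p) ∂π := by
        have hm1 : ∀ i j, Measurable ((E (K l r i j)).indicator (fun _ => (1 : ℝ≥0∞))) := fun i j =>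
          measurable_const.indicator (E_meas (K_meas hl hr i j))
        have hm2 : ∀ i, Measurable fun p => ∑ j ∈ Finset.range L,
            (E (K l r i j)).indicator (fun _ => (1 : ℝ≥0∞)) p := fun i =>
          Finset.measurable_fun_sum _ fun j _ => hm1 i j
        rw [lintegral_tsum fun i => (((hm2 i).const_mul 2).const_mul (C i)).aemeasurable]
        refine tsum_congr fun i => ?_
        rw [lintegral_const_mul _ ((hm2 i).const_mul 2), lintegral_const_mul _ (hm2 i),
          lintegral_finsetSum _ fun j _ => hm1 i j]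
        congr 2
        refine Finset.sum_congr rfl fun j _ => ?_
        rw [lintegral_indicator_const (E_meas (K_meas hl hr i j)), one_mul]
    _ ≤ ∫⁻ p, D2 l' c p.1 p.2 ∂π := by
        refine lintegral_mono fun p => ?_
        obtain ⟨x, y⟩ := p
        have hone : ∀ (z : ℝ) (i : ℕ), ∑ j ∈ Finset.range L,
            (K l r i j).indicator (fun _ => (1 : ℝ≥0∞)) z = if i = l z then 1 else 0 := by
          intro z i
          by_cases hi : i = l z
          · rw [if_pos hi, Finset.sum_eq_single (r z)]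
            · rw [indicator_of_mem (show z ∈ K l r i (r z) from ⟨hi.symm, rfl⟩)]
            · intro j _ hj
              exact indicator_of_notMem (fun h => hj h.2.symm) _
            · intro h
              exact absurd (Finset.mem_range.2 (hL z)) h
          · rw [if_neg hi]
            exact Finset.sum_eq_zero fun j _ => indicator_of_notMem (fun h => hi h.1.symm) _
        have hts : ∀ z : ℝ, ∑' i : ℕ, C i * (2 * ∑ j ∈ Finset.range L,
            (K l r i j).indicator (fun _ => (1 : ℝ≥0∞)) z) = 2 * ENNReal.ofReal (c z) := by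
          intro z
          rw [tsum_eq_single (l z)]
          · rw [hone, if_pos rfl, hC, mul_one, mul_comm]
          · intro i hi
            rw [hone, if_neg hi, mul_zero, mul_zero]
        show ∑' i : ℕ, C i * (2 * ∑ j ∈ Finset.range L,
          (E (K l r i j)).indicator (fun _ => (1 : ℝ≥0∞)) (x, y)) ≤ D2 l' c x y
        unfold D2
        by_cases hxy : l' x = l' y
        · rw [if_pos hxy]
          rw [hcell] at hxy
          refine le_of_eq (ENNReal.tsum_eq_zero.2 fun i => ?_)
          rw [Finset.sum_eq_zero, mul_zero, mul_zero]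
          intro j _
          refine indicator_of_notMem ?_ _
          rintro (⟨⟨h3, h4⟩, h5⟩ | ⟨⟨h3, h4⟩, h5⟩)
          · exact h5 ⟨hxy.1 ▸ h3, hxy.2 ▸ h4⟩
          · exact h5 ⟨hxy.1 ▸ h3, hxy.2 ▸ h4⟩
        · rw [if_neg hxy, ENNReal.ofReal_mul (by norm_num), ENNReal.ofReal_add (hc0 x) (hc0 y),
            mul_add, show ENNReal.ofReal 2 = 2 by simp, ← hts x, ← hts y, ← ENNReal.tsum_add]
          refine ENNReal.tsum_le_tsum fun i => ?_
          rw [← mul_add, ← mul_add, ← Finset.sum_add_distrib]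
          refine mul_le_mul_right (mul_le_mul_right (Finset.sum_le_sum fun j _ => ?_) _) _
          by_cases hE : (x, y) ∈ E (K l r i j)
          · rw [indicator_of_mem hE]
            rcases hE with ⟨h3, -⟩ | ⟨h3, -⟩
            · rw [indicator_of_mem (show x ∈ K l r i j from h3)]
              exact le_self_add
            · rw [indicator_of_mem (show y ∈ K l r i j from h3)]
              exact le_add_self
          · rw [indicator_of_notMem hE]
            exact zero_le

end Pool.Agent.H99Q.STEPK
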