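import Pool.Agent.H99Q.Stm2

set_option autoImplicit false

open MeasureTheory Set Filter Topology Pool.Agent.R972.PC
open scoped NNReal ENNReal

namespace Pool.Agent.H99Q.TOPE2

/-- the periodic factor -/
noncomputable def g (M : ℕ) (q u : ℝ) : ℝ := (M : ℝ) ^ (q * (1 - Int.fract u))

lemma g_nonneg (M : ℕ) (q u : ℝ) : 0 ≤ g M q u := Real.rpow_nonneg (Nat.cast_nonneg M) _

lemma g_le {q : ℝ} {M : ℕ} (hM : HK q M) (u : ℝ) : g M q u ≤ 4 := by
  have hM1 : (1 : ℝ) ≤ M := by exact_mod_cast (show 1 ≤ M by have := hM.M2; omega)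
  unfold g
  calc (M : ℝ) ^ (q * (1 - Int.fract u)) ≤ (M : ℝ) ^ q := by
        apply Real.rpow_le_rpow_of_exponent_le hM1
        have := Int.fract_nonneg u
        have := hM.q0
        nlinarith
    _ ≤ 4 := hM.hi

lemma g_per (M : ℕ) (q : ℝ) : Function.Periodic (g M q) 1 := by
  intro u
  unfold g
  rw [Int.fract_add_one]

lemma g_meas (M : ℕ) (q : ℝ) : Measurable (g M q) := by
  unfold g
  have : Measurable (fun u : ℝ => Int.fract u) := measurable_fract
  fun_prop

lemma T_nonneg (M : ℕ) (t x : ℝ) : 0 ≤ T2 M t x := by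
  unfold T2
  split_ifs
  · exact le_rfl
  · exact Real.rpow_nonneg (Nat.cast_nonneg M) _

lemma T_eq {M : ℕ} (hM : 2 ≤ M) {x : ℝ} (hx : x ≠ 0) (q t : ℝ) :
    T2 M t x ^ q = |x| ^ q * g M q (Real.logb M |x| - t) := by
  have hM1 : (2 : ℝ) ≤ M := by exact_mod_cast hM
  have hM0 : (0 : ℝ) < M := by linarith
  unfold T2 g sc2
  rw [if_neg hx]
  have h1 : ((⌊Real.logb M |x| - t⌋ : ℤ) : ℝ) + 1 + t =
      Real.logb M |x| + (1 - Int.fract (Real.logb M |x| - t)) := by
    have := Int.floor_add_fract (Real.logb M |x| - t)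
    linarith
  rw [h1, Real.rpow_add hM0, Real.rpow_logb hM0 (by linarith) (abs_pos.2 hx),
    Real.mul_rpow (abs_nonneg _) (Real.rpow_nonneg hM0.le _), ← Real.rpow_mul hM0.le]
  congr 2
  ring

lemma T_mono {M : ℕ} (hM : 2 ≤ M) {x y : ℝ} (h : |x| ≤ |y|) (t : ℝ) : T2 M t x ≤ T2 M t y := by
  have hM1 : (2 : ℝ) ≤ M := by exact_mod_cast hM
  by_cases hx : x = 0
  · rw [show T2 M t x = 0 by unfold T2; rw [if_pos hx]]
    exact T_nonneg M t y
  · have hx' : 0 < |x| := abs_pos.2 hx
    have hy : y ≠ 0 := abs_pos.1 (lt_of_lt_of_le hx' h)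
    unfold T2 sc2
    rw [if_neg hx, if_neg hy]
    apply Real.rpow_le_rpow_of_exponent_le (by linarith)
    have h1 : Real.logb M |x| ≤ Real.logb M |y| := Real.logb_le_logb_of_le (by linarith) hx' h
    have h2 : ⌊Real.logb M |x| - t⌋ ≤ ⌊Real.logb M |y| - t⌋ := Int.floor_le_floor (by linarith)
    have h3 : ((⌊Real.logb M |x| - t⌋ : ℤ) : ℝ) ≤ ((⌊Real.logb M |y| - t⌋ : ℤ) : ℝ) := by exact_mod_cast h2
    linarith

/-- the mean -/
noncomputable def c (M : ℕ) (q : ℝ) : ℝ := ∫ u in (0:ℝ)..(0 + 1), g M q u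

lemma c_nonneg (M : ℕ) (q : ℝ) : 0 ≤ c M q := by
  unfold c
  exact intervalIntegral.integral_nonneg (by norm_num) fun u _ => g_nonneg M q u

lemma c_le {q : ℝ} {M : ℕ} (hM : HK q M) : c M q ≤ 4 := by
  unfold c
  have h := intervalIntegral.norm_integral_le_of_norm_le_const (a := 0) (b := 0 + 1) (f := g M q) (C := 4)
    (fun u _ => by rw [Real.norm_of_nonneg (g_nonneg M q u)]; exact g_le hM u)
  have h2 := le_abs_self (∫ u in (0:ℝ)..(0 + 1), g M q u)
  rw [Real.norm_eq_abs] at h
  norm_num at h h2 ⊢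
  linarith

lemma T_int {q : ℝ} {M : ℕ} (hM : HK q M) (x : ℝ) :
    Integrable (fun t => T2 M t x ^ q) leb ∧ ∫ t, T2 M t x ^ q ∂leb = c M q * |x| ^ q := by
  have h0 := hM.q0
  by_cases hx : x = 0
  · subst hx
    have : ∀ t, T2 M t 0 ^ q = 0 := fun t => by
      unfold T2
      rw [if_pos rfl, Real.zero_rpow h0.ne']
    simp only [this, abs_zero, Real.zero_rpow h0.ne', mul_zero, integral_zero, and_true]
    exact integrable_zero _ _ _
  · have e : (fun t => T2 M t x ^ q) = fun t => |x| ^ q * g M q (Real.logb M |x| - t) := by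
      funext t
      exact T_eq hM.M2 hx q t
    rw [e]
    constructor
    · apply Integrable.const_mul
      apply Integrable.of_bound (C := 4)
      · exact ((g_meas M q).comp (measurable_const.sub measurable_id)).aestronglyMeasurable
      · filter_upwards with t
        rw [Real.norm_of_nonneg (g_nonneg M q _)]
        exact g_le hM _
    · rw [integral_const_mul, mul_comm]
      congr 1
      unfold leb
      rw [integral_Icc_eq_integral_Ioc, ← intervalIntegral.integral_of_le (by norm_num),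
        intervalIntegral.integral_comp_sub_left (g M q)]
      unfold c
      rw [← (g_per M q).intervalIntegral_add_eq (Real.logb M |x| - 1) 0]
      congr 1
      ring

lemma pow_sub_le {q a b : ℝ} (h0 : 0 ≤ q) (h1 : q ≤ 1) (ha : 0 ≤ a) (hab : a ≤ b) :
    b ^ q - a ^ q ≤ (b - a) ^ q := by
  have h := Real.rpow_add_le_add_rpow (sub_nonneg.2 hab) ha h0 h1
  rw [sub_add_cancel] at h
  linarith

lemma same {q : ℝ} {M : ℕ} (hM : HK q M) (h0 : 0 < q) (h1 : q ≤ 1) {x y : ℝ} (hs : 0 ≤ x * y) (h : |x| ≤ |y|) :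
    ∫⁻ t, ENNReal.ofReal |w02 q M t x - w02 q M t y| ∂leb ≤ ENNReal.ofReal (32 * |x - y| ^ q) := by
  have hF : ∀ t, T2 M t x ^ q ≤ T2 M t y ^ q := fun t => Real.rpow_le_rpow (T_nonneg M t x) (T_mono hM.M2 h t) h0.le
  have hp : ∀ t, |w02 q M t x - w02 q M t y| ≤ 4 * (T2 M t y ^ q - T2 M t x ^ q) := by
    intro t
    have hFx : 0 ≤ T2 M t x ^ q := Real.rpow_nonneg (T_nonneg M t x) _
    have hFy : 0 ≤ T2 M t y ^ q := Real.rpow_nonneg (T_nonneg M t y) _
    have hh := hF t
    unfold w02
    rcases lt_trichotomy x 0 with hx | hx | hx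
    · have hy : y < 0 := by
        rcases lt_trichotomy y 0 with hy | hy | hy
        · exact hy
        · subst hy
          rw [abs_zero] at h
          exact absurd h (not_le.2 (abs_pos.2 hx.ne))
        · nlinarith
      rw [sign_neg hx, sign_neg hy]
      rw [abs_le]
      push_cast
      constructor <;> simp <;> linarith
    · subst hx
      have h2 : T2 M t 0 ^ q = 0 := by
        unfold T2
        rw [if_pos rfl, Real.zero_rpow h0.ne']
      rw [h2, mul_zero, sub_zero, zero_sub, abs_neg, abs_mul, abs_mul, abs_of_nonneg hFy]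
      have h3 : |(((SignType.sign y : SignType) : ℝ))| ≤ 1 := by
        rcases lt_trichotomy y 0 with hy | hy | hy
        · rw [sign_neg hy]; simp
        · rw [hy, sign_zero]; simp
        · rw [sign_pos hy]; simp
      have h4 : |(4:ℝ)| = 4 := by norm_num
      rw [h4]
      nlinarith
    · have hy : 0 < y := by
        rcases lt_trichotomy y 0 with hy | hy | hy
        · nlinarith
        · subst hy
          rw [abs_zero] at h
          exact absurd h (not_le.2 (abs_pos.2 hx.ne'))
        · exact hy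
      rw [sign_pos hx, sign_pos hy]
      rw [abs_le]
      constructor <;> simp <;> linarith
  obtain ⟨ix, ex⟩ := T_int hM x
  obtain ⟨iy, ey⟩ := T_int hM y
  calc ∫⁻ t, ENNReal.ofReal |w02 q M t x - w02 q M t y| ∂leb
      ≤ ∫⁻ t, ENNReal.ofReal (4 * (T2 M t y ^ q - T2 M t x ^ q)) ∂leb :=
        lintegral_mono fun t => ENNReal.ofReal_le_ofReal (hp t)
    _ = ENNReal.ofReal (∫ t, 4 * (T2 M t y ^ q - T2 M t x ^ q) ∂leb) := by
        have hi : Integrable (fun t => 4 * (T2 M t y ^ q - T2 M t x ^ q)) leb := (iy.sub ix).const_mul 4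
        rw [ofReal_integral_eq_lintegral_ofReal hi]
        filter_upwards with t
        have := hF t
        simp only [Pi.zero_apply]
        linarith
    _ ≤ ENNReal.ofReal (32 * |x - y| ^ q) := by
        apply ENNReal.ofReal_le_ofReal
        rw [integral_const_mul, integral_sub iy ix, ex, ey]
        have h2 := pow_sub_le h0.le h1 (abs_nonneg x) h
        have h3 : (|y| - |x|) ^ q ≤ |x - y| ^ q := by
          apply Real.rpow_le_rpow (sub_nonneg.2 h) _ h0.le
          rw [abs_sub_comm]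
          exact abs_sub_abs_le_abs_sub y x
        have h4 := c_le hM
        have h5 := c_nonneg M q
        have h6 : 0 ≤ |x - y| ^ q := Real.rpow_nonneg (abs_nonneg _) _
        have h7 : c M q * (|y| ^ q - |x| ^ q) ≤ 4 * |x - y| ^ q := by
          calc c M q * (|y| ^ q - |x| ^ q) ≤ c M q * |x - y| ^ q := mul_le_mul_of_nonneg_left (h2.trans h3) h5
            _ ≤ 4 * |x - y| ^ q := mul_le_mul_of_nonneg_right h4 h6
        nlinarith

lemma diff {q : ℝ} {M : ℕ} (hM : HK q M) (h0 : 0 < q) (h1 : q ≤ 1) {x y : ℝ} (hs : x * y < 0) :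
    ∫⁻ t, ENNReal.ofReal |w02 q M t x - w02 q M t y| ∂leb ≤ ENNReal.ofReal (32 * |x - y| ^ q) := by
  have hsg : ∀ z : ℝ, |(((SignType.sign z : SignType) : ℝ))| ≤ 1 := by
    intro y
    rcases lt_trichotomy y 0 with hy | hy | hy
    · rw [sign_neg hy]; simp
    · rw [hy, sign_zero]; simp
    · rw [sign_pos hy]; simp
  have hw : ∀ t z, |w02 q M t z| ≤ 4 * T2 M t z ^ q := by
    intro t z
    have hFy : 0 ≤ T2 M t z ^ q := Real.rpow_nonneg (T_nonneg M t z) _
    unfold w02
    rw [abs_mul, abs_mul, abs_of_nonneg hFy]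
    have h4 : |(4:ℝ)| = 4 := by norm_num
    have := hsg z
    rw [h4]
    nlinarith
  have hp : ∀ t, |w02 q M t x - w02 q M t y| ≤ 4 * (T2 M t y ^ q + T2 M t x ^ q) := by
    intro t
    have h2 := hw t x
    have h3 := hw t y
    have h4 := abs_sub (w02 q M t x) (w02 q M t y)
    linarith
  obtain ⟨ix, ex⟩ := T_int hM x
  obtain ⟨iy, ey⟩ := T_int hM y
  calc ∫⁻ t, ENNReal.ofReal |w02 q M t x - w02 q M t y| ∂leb
      ≤ ∫⁻ t, ENNReal.ofReal (4 * (T2 M t y ^ q + T2 M t x ^ q)) ∂leb :=
        lintegral_mono fun t => ENNReal.ofReal_le_ofReal (hp t)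
    _ = ENNReal.ofReal (∫ t, 4 * (T2 M t y ^ q + T2 M t x ^ q) ∂leb) := by
        have hi : Integrable (fun t => 4 * (T2 M t y ^ q + T2 M t x ^ q)) leb := (iy.add ix).const_mul 4
        rw [ofReal_integral_eq_lintegral_ofReal hi]
        filter_upwards with t
        have hFx : 0 ≤ T2 M t x ^ q := Real.rpow_nonneg (T_nonneg M t x) _
        have hFy : 0 ≤ T2 M t y ^ q := Real.rpow_nonneg (T_nonneg M t y) _
        simp only [Pi.zero_apply]
        linarith
    _ ≤ ENNReal.ofReal (32 * |x - y| ^ q) := by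
        apply ENNReal.ofReal_le_ofReal
        rw [integral_const_mul, integral_add iy ix, ex, ey]
        have hxy : |x| ≤ |x - y| ∧ |y| ≤ |x - y| := by
          rcases lt_trichotomy x 0 with hx | hx | hx
          · have hy : 0 < y := by nlinarith
            rw [abs_of_neg hx, abs_of_pos hy, abs_of_neg (by linarith)]
            constructor <;> linarith
          · rw [hx, zero_mul] at hs
            exact absurd hs (lt_irrefl _)
          · have hy : y < 0 := by nlinarith
            rw [abs_of_pos hx, abs_of_neg hy, abs_of_pos (by linarith)]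
            constructor <;> linarith
        have h2 : |x| ^ q ≤ |x - y| ^ q := Real.rpow_le_rpow (abs_nonneg _) hxy.1 h0.le
        have h3 : |y| ^ q ≤ |x - y| ^ q := Real.rpow_le_rpow (abs_nonneg _) hxy.2 h0.le
        have h4 := c_le hM
        have h5 := c_nonneg M q
        have h6 : 0 ≤ |x - y| ^ q := Real.rpow_nonneg (abs_nonneg _) _
        have h7 : c M q * |x| ^ q ≤ 4 * |x - y| ^ q :=
          (mul_le_mul_of_nonneg_left h2 h5).trans (mul_le_mul_of_nonneg_right h4 h6)
        have h8 : c M q * |y| ^ q ≤ 4 * |x - y| ^ q :=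
          (mul_le_mul_of_nonneg_left h3 h5).trans (mul_le_mul_of_nonneg_right h4 h6)
        nlinarith

theorem t : S_TOPE2 := by
  intro q M hM x y
  have h0 : 0 < q := hM.q0
  have hq1 : q ≤ 1 := by linarith [hM.q1]
  rcases lt_or_ge (x * y) 0 with hs | hs
  · exact diff hM h0 hq1 hs
  · rcases le_total |x| |y| with h | h
    · exact same hM h0 hq1 hs h
    · have h2 := same hM h0 hq1 (x := y) (y := x) (by rwa [mul_comm]) h
      simp only [abs_sub_comm (w02 q M _ x), abs_sub_comm x y]
      exact h2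

end Pool.Agent.H99Q.TOPE2
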