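import Pool.Agent.H99Q.Stm2

set_option autoImplicit false

open MeasureTheory Set Filter Topology Pool.Agent.R972.PC
open scoped NNReal ENNReal

namespace Pool.Agent.H99Q.TOPN2

theorem lab_ne {M : ℕ} {t s x y : ℝ} (h : lab2 M t s 0 x ≠ lab2 M t s 0 y) :
    ∀ n, lab2 M t s n x ≠ lab2 M t s n y
  | 0 => h
  | n + 1 => by
    intro he
    simp only [lab2] at he
    have h1 := Encodable.encode_injective he
    exact lab_ne h n (Prod.mk.inj h1).1

theorem T_zero (M : ℕ) (t : ℝ) : T2 M t 0 = 0 := by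
  unfold T2
  rw [if_pos rfl]

theorem T_eq {M : ℕ} {t x : ℝ} (hx : x ≠ 0) : T2 M t x = (M : ℝ) ^ ((sc2 M t x : ℝ) + 1 + t) := by
  unfold T2
  rw [if_neg hx]

theorem T_nonneg (M : ℕ) (t x : ℝ) : 0 ≤ T2 M t x := by
  by_cases hx : x = 0
  · rw [hx, T_zero]
  · rw [T_eq hx]
    positivity

/-- comparison for two different scales -/
theorem scale_lt {q t x y : ℝ} {M : ℕ} (hM : HK q M) (hx : x ≠ 0) (hy : y ≠ 0)
    (h : sc2 M t x < sc2 M t y) : 2 * T2 M t x ^ q ≤ T2 M t y ^ q := by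
  have hM1 : (2 : ℝ) ≤ M := by exact_mod_cast hM.M2
  have hM0 : (0 : ℝ) < M := by linarith
  have hq := hM.q0
  have h1 : (sc2 M t x : ℝ) + 1 ≤ sc2 M t y := by exact_mod_cast h
  rw [T_eq hx, T_eq hy, ← Real.rpow_mul hM0.le, ← Real.rpow_mul hM0.le]
  have h2 : ((sc2 M t x : ℝ) + 1 + t) * q + q ≤ ((sc2 M t y : ℝ) + 1 + t) * q := by nlinarith
  have h3 : (M : ℝ) ^ (((sc2 M t x : ℝ) + 1 + t) * q) * (M : ℝ) ^ q ≤
      (M : ℝ) ^ (((sc2 M t y : ℝ) + 1 + t) * q) := by
    rw [← Real.rpow_add hM0]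
    exact Real.rpow_le_rpow_of_exponent_le (by linarith) h2
  have h5 : 0 < (M : ℝ) ^ (((sc2 M t x : ℝ) + 1 + t) * q) := by positivity
  have h4 := hM.lo
  nlinarith

theorem key {q t x y : ℝ} {M : ℕ} (hM : HK q M) {s : ℝ} (h : lab2 M t s 0 x ≠ lab2 M t s 0 y) :
    T2 M t x ^ q + T2 M t y ^ q ≤ 2 * |w02 q M t x - w02 q M t y| := by
  have hq0 : q ≠ 0 := hM.q0.ne'
  have hTx := Real.rpow_nonneg (T_nonneg M t x) q
  have hTy := Real.rpow_nonneg (T_nonneg M t y) q
  unfold w02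
  rcases lt_trichotomy x 0 with hx | hx | hx <;> rcases lt_trichotomy y 0 with hy | hy | hy
  · have hsc : sc2 M t x ≠ sc2 M t y := by
      intro hs
      apply h
      simp only [lab2]
      rw [hs, sign_neg hx, sign_neg hy]
    rw [sign_neg hx, sign_neg hy]
    rcases lt_or_gt_of_ne hsc with hs | hs
    · have := scale_lt hM hx.ne hy.ne hs
      have h2 := le_abs_self (4 * ((-1 : SignType) : ℝ) * T2 M t x ^ q - 4 * ((-1 : SignType) : ℝ) * T2 M t y ^ q)
      simp only [SignType.coe_neg, SignType.coe_one] at h2 ⊢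
      linarith
    · have := scale_lt hM hy.ne hx.ne hs
      have h2 := neg_abs_le (4 * ((-1 : SignType) : ℝ) * T2 M t x ^ q - 4 * ((-1 : SignType) : ℝ) * T2 M t y ^ q)
      simp only [SignType.coe_neg, SignType.coe_one] at h2 ⊢
      linarith
  · rw [hy, T_zero, Real.zero_rpow hq0, sign_neg hx]
    have h2 := neg_abs_le (4 * ((-1 : SignType) : ℝ) * T2 M t x ^ q - 4 * ((SignType.sign (0 : ℝ) : SignType) : ℝ) * 0)
    simp only [SignType.coe_neg, SignType.coe_one] at h2 ⊢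
    linarith
  · rw [sign_neg hx, sign_pos hy]
    have h2 := neg_abs_le (4 * ((-1 : SignType) : ℝ) * T2 M t x ^ q - 4 * ((1 : SignType) : ℝ) * T2 M t y ^ q)
    simp only [SignType.coe_neg, SignType.coe_one] at h2 ⊢
    linarith
  · rw [hx, T_zero, Real.zero_rpow hq0, sign_neg hy]
    have h2 := le_abs_self (4 * ((SignType.sign (0 : ℝ) : SignType) : ℝ) * 0 - 4 * ((-1 : SignType) : ℝ) * T2 M t y ^ q)
    simp only [SignType.coe_neg, SignType.coe_one] at h2 ⊢
    linarith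
  · exact absurd (by rw [hx, hy]) h
  · rw [hx, T_zero, Real.zero_rpow hq0, sign_pos hy]
    have h2 := neg_abs_le (4 * ((SignType.sign (0 : ℝ) : SignType) : ℝ) * 0 - 4 * ((1 : SignType) : ℝ) * T2 M t y ^ q)
    simp only [SignType.coe_one] at h2 ⊢
    linarith
  · rw [sign_pos hx, sign_neg hy]
    have h2 := le_abs_self (4 * ((1 : SignType) : ℝ) * T2 M t x ^ q - 4 * ((-1 : SignType) : ℝ) * T2 M t y ^ q)
    simp only [SignType.coe_neg, SignType.coe_one] at h2 ⊢
    linarith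
  · rw [hy, T_zero, Real.zero_rpow hq0, sign_pos hx]
    have h2 := le_abs_self (4 * ((1 : SignType) : ℝ) * T2 M t x ^ q - 4 * ((SignType.sign (0 : ℝ) : SignType) : ℝ) * 0)
    simp only [SignType.coe_one] at h2 ⊢
    linarith
  · have hsc : sc2 M t x ≠ sc2 M t y := by
      intro hs
      apply h
      simp only [lab2]
      rw [hs, sign_pos hx, sign_pos hy]
    rw [sign_pos hx, sign_pos hy]
    rcases lt_or_gt_of_ne hsc with hs | hs
    · have := scale_lt hM hx.ne' hy.ne' hs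
      have h2 := neg_abs_le (4 * ((1 : SignType) : ℝ) * T2 M t x ^ q - 4 * ((1 : SignType) : ℝ) * T2 M t y ^ q)
      simp only [SignType.coe_one] at h2 ⊢
      linarith
    · have := scale_lt hM hy.ne' hx.ne' hs
      have h2 := le_abs_self (4 * ((1 : SignType) : ℝ) * T2 M t x ^ q - 4 * ((1 : SignType) : ℝ) * T2 M t y ^ q)
      simp only [SignType.coe_one] at h2 ⊢
      linarith

theorem t : S_TOPN2 := by
  intro q M hM t s x y h
  have hM1 : (2 : ℝ) ≤ M := by exact_mod_cast hM.M2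
  have hM0 : (0 : ℝ) < M := by linarith
  obtain ⟨S, hS⟩ : ∃ S, S = T2 M t x ^ q + T2 M t y ^ q := ⟨_, rfl⟩
  have hS0 : 0 ≤ S := by
    rw [hS]
    exact add_nonneg (Real.rpow_nonneg (T_nonneg M t x) q) (Real.rpow_nonneg (T_nonneg M t y) q)
  have hkey := key hM h
  rw [← hS] at hkey
  have hr : (M : ℝ) ^ (-q) ≤ 1 / 2 := by
    rw [Real.rpow_neg hM0.le, one_div]
    exact inv_anti₀ (by norm_num) hM.lo
  have hr0 : 0 ≤ (M : ℝ) ^ (-q) := by positivity
  have hterm : ∀ n : ℕ, D2 (lab2 M t s (n + 1)) (cc q M t n) x y ≤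
      ENNReal.ofReal (2 * S) * ENNReal.ofReal (1 / 2) ^ n := by
    intro n
    unfold D2
    rw [if_neg (lab_ne h (n + 1)), ← ENNReal.ofReal_pow (by norm_num),
      ← ENNReal.ofReal_mul (by positivity)]
    apply ENNReal.ofReal_le_ofReal
    have e1 : 2 * (cc q M t n x + cc q M t n y) = 2 * S * ((M : ℝ) ^ (-(n : ℝ) * q)) := by
      unfold cc
      rw [hS]
      ring
    have e2 : (M : ℝ) ^ (-(n : ℝ) * q) = ((M : ℝ) ^ (-q)) ^ n := by
      rw [← Real.rpow_natCast ((M : ℝ) ^ (-q)) n, ← Real.rpow_mul hM0.le]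
      congr 1
      ring
    rw [e1, e2]
    have h3 : ((M : ℝ) ^ (-q)) ^ n ≤ (1 / 2) ^ n := pow_le_pow_left₀ hr0 hr n
    exact mul_le_mul_of_nonneg_left h3 (by positivity)
  refine (ENNReal.tsum_le_tsum hterm).trans ?_
  rw [ENNReal.tsum_mul_left, ENNReal.tsum_geometric]
  have e3 : (1 - ENNReal.ofReal (1 / 2))⁻¹ = ENNReal.ofReal 2 := by
    rw [← ENNReal.ofReal_one, ← ENNReal.ofReal_sub _ (by norm_num), ← ENNReal.ofReal_inv_of_pos (by norm_num)]
    norm_num
  rw [e3, ← ENNReal.ofReal_mul (by positivity)]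
  apply ENNReal.ofReal_le_ofReal
  linarith

end Pool.Agent.H99Q.TOPN2
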