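import Pool.Agent.H99Q.Stm2

set_option autoImplicit false

open MeasureTheory Set Filter Topology Pool.Agent.R972.PC
open scoped NNReal ENNReal

namespace Pool.Agent.H99Q.WP2

theorem lab_base (M : ℕ) (t s : ℝ) : ∀ (n : ℕ) (x y : ℝ), lab2 M t s n x = lab2 M t s n y →
    ((SignType.sign x : SignType) : ℤ) = ((SignType.sign y : SignType) : ℤ) ∧ sc2 M t x = sc2 M t y := by
  intro n
  induction n with
  | zero =>
    intro x y h
    simp only [lab2] at h
    have h' := Encodable.encode_injective h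
    rw [Prod.mk.injEq] at h'
    exact h'
  | succ n ih =>
    intro x y h
    simp only [lab2] at h
    have h' := Encodable.encode_injective h
    rw [Prod.mk.injEq] at h'
    exact ih x y h'.1

theorem lab_succ (M : ℕ) (t s : ℝ) (n : ℕ) (x y : ℝ) : lab2 M t s (n + 1) x = lab2 M t s (n + 1) y ↔
    (lab2 M t s n x = lab2 M t s n y ∧ kk2 M t s (n + 1) x = kk2 M t s (n + 1) y) := by
  constructor
  · intro h
    simp only [lab2] at h
    have h' := Encodable.encode_injective h
    rw [Prod.mk.injEq] at h'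
    exact h'
  · rintro ⟨h1, h2⟩
    simp only [lab2, h1, h2]

theorem sign_eq {x y : ℝ}
    (h : ((SignType.sign x : SignType) : ℤ) = ((SignType.sign y : SignType) : ℤ)) :
    (SignType.sign x : SignType) = SignType.sign y := by
  revert h
  generalize (SignType.sign x : SignType) = a
  generalize (SignType.sign y : SignType) = b
  cases a <;> cases b <;> simp

theorem T_eq {M : ℕ} {t s : ℝ} {n : ℕ} {x y : ℝ} (h : lab2 M t s n x = lab2 M t s n y) :
    T2 M t x = T2 M t y := by
  obtain ⟨h1, h2⟩ := lab_base M t s n x y h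
  have h3 := sign_eq h1
  have h4 : x = 0 ↔ y = 0 := by
    rw [← sign_eq_zero_iff, h3, sign_eq_zero_iff]
  unfold T2
  by_cases hx : x = 0
  · rw [if_pos hx, if_pos (h4.1 hx)]
  · rw [if_neg hx, if_neg (fun hy => hx (h4.2 hy)), h2]

theorem T_nonneg (M : ℕ) (t x : ℝ) : 0 ≤ T2 M t x := by
  unfold T2
  split_ifs
  · exact le_refl _
  · positivity

theorem T_lt {M : ℕ} (hM : 2 ≤ M) (t x : ℝ) (hx : x ≠ 0) : |x| < T2 M t x := by
  have hM1 : (1 : ℝ) < M := by exact_mod_cast hM
  unfold T2
  rw [if_neg hx]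
  have hpos : 0 < |x| := abs_pos.2 hx
  have h1 : Real.logb M |x| - t < (sc2 M t x : ℝ) + 1 := Int.lt_floor_add_one _
  have h2 : Real.logb M |x| < (sc2 M t x : ℝ) + 1 + t := by linarith
  exact (Real.logb_lt_iff_lt_rpow hM1 hpos).1 h2

theorem sc_mono {M : ℕ} (hM : 2 ≤ M) (t : ℝ) {x y : ℝ} (hx : x ≠ 0) (h : |x| ≤ |y|) :
    sc2 M t x ≤ sc2 M t y := by
  have hM1 : (1 : ℝ) < M := by exact_mod_cast hM
  unfold sc2
  apply Int.floor_le_floor
  have hpos : 0 < |x| := abs_pos.2 hx
  have := Real.logb_le_logb_of_le (b := M) hM1 hpos h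
  linarith

theorem T_mono {M : ℕ} (hM : 2 ≤ M) (t : ℝ) {x y : ℝ} (h : |x| ≤ |y|) : T2 M t x ≤ T2 M t y := by
  have hM1 : (1 : ℝ) < M := by exact_mod_cast hM
  by_cases hx : x = 0
  · have : T2 M t x = 0 := by unfold T2; rw [if_pos hx]
    rw [this]
    exact T_nonneg M t y
  · have hy : y ≠ 0 := by
      intro hy
      rw [hy, abs_zero] at h
      exact hx (abs_nonpos_iff.1 h)
    unfold T2
    rw [if_neg hx, if_neg hy]
    have h1 : (sc2 M t x : ℝ) ≤ sc2 M t y := by exact_mod_cast sc_mono hM t hx h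
    exact Real.rpow_le_rpow_of_exponent_le hM1.le (by linarith)

theorem w02_mono {M : ℕ} (hM : 2 ≤ M) (q t : ℝ) (hq : 0 ≤ q) : Monotone (w02 q M t) := by
  intro x y hxy
  unfold w02
  have hTx : 0 ≤ T2 M t x ^ q := Real.rpow_nonneg (T_nonneg M t x) q
  have hTy : 0 ≤ T2 M t y ^ q := Real.rpow_nonneg (T_nonneg M t y) q
  rcases lt_trichotomy x 0 with hx | hx | hx
  · rcases lt_trichotomy y 0 with hy | hy | hy
    · have h1 : T2 M t y ^ q ≤ T2 M t x ^ q := by
        apply Real.rpow_le_rpow (T_nonneg M t y) _ hq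
        apply T_mono hM
        rw [abs_of_neg hx, abs_of_neg hy]
        linarith
      rw [sign_neg hx, sign_neg hy]
      simp only [SignType.coe_neg_one]
      linarith
    · rw [sign_neg hx, hy]
      simp
      linarith
    · rw [sign_neg hx, sign_pos hy]
      simp
      linarith
  · rw [hx]
    have hy : 0 ≤ y := by linarith
    rcases hy.eq_or_lt with hy | hy
    · rw [← hy]
    · rw [sign_pos hy]
      simp
      linarith
  · have hy : 0 < y := by linarith
    have h1 : T2 M t x ^ q ≤ T2 M t y ^ q := by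
      apply Real.rpow_le_rpow (T_nonneg M t x) _ hq
      apply T_mono hM
      rw [abs_of_pos hx, abs_of_pos hy]
      linarith
    rw [sign_pos hx, sign_pos hy]
    simp only [SignType.coe_one]
    linarith

theorem quot_le {M : ℕ} (hM : 2 ≤ M) (t x : ℝ) : |x / T2 M t x| ≤ 1 := by
  by_cases hx : x = 0
  · rw [hx]; simp
  · have h1 := T_lt hM t x hx
    have hpos : 0 < T2 M t x := lt_of_le_of_lt (abs_nonneg x) h1
    rw [abs_div, abs_of_pos hpos, div_le_one hpos]
    exact h1.le

theorem rng {M : ℕ} (hM : 2 ≤ M) (t s : ℝ) (n : ℕ) (x : ℝ) :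
    0 ≤ kk2 M t s (n + 1) x - (if n = 0 then -((M : ℤ) + 1) else M * kk2 M t s n x) ∧
    kk2 M t s (n + 1) x - (if n = 0 then -((M : ℤ) + 1) else M * kk2 M t s n x) < 2 * M + 2 := by
  have hM' : (2 : ℝ) ≤ M := by exact_mod_cast hM
  have hf0 := Int.fract_nonneg s
  have hf1 := Int.fract_lt_one s
  cases n with
  | zero =>
    rw [if_pos rfl]
    have hz := abs_le.1 (quot_le hM t x)
    have h1 : -((M : ℤ) + 1) ≤ kk2 M t s (0 + 1) x := by
      unfold kk2
      rw [Int.le_floor]
      push_cast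
      rw [pow_one, mul_div_assoc]
      nlinarith [hz.1]
    have h2 : kk2 M t s (0 + 1) x < (M : ℤ) + 1 := by
      unfold kk2
      rw [Int.floor_lt]
      push_cast
      rw [pow_one, mul_div_assoc]
      nlinarith [hz.2]
    constructor <;> omega
  | succ n =>
    rw [if_neg (Nat.succ_ne_zero n)]
    have h1 : (kk2 M t s (n + 1) x : ℝ) ≤ (M : ℝ) ^ (n + 1) * x / T2 M t x - Int.fract s :=
      Int.floor_le _
    have h2 : (M : ℝ) ^ (n + 1) * x / T2 M t x - Int.fract s < (kk2 M t s (n + 1) x : ℝ) + 1 :=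
      Int.lt_floor_add_one _
    have hz : (M : ℝ) ^ (n + 1 + 1) * x / T2 M t x = M * ((M : ℝ) ^ (n + 1) * x / T2 M t x) := by
      rw [pow_succ (M : ℝ) (n + 1)]; ring
    have h3 : (M : ℤ) * kk2 M t s (n + 1) x ≤ kk2 M t s (n + 1 + 1) x := by
      rw [show kk2 M t s (n + 1 + 1) x = ⌊(M : ℝ) ^ (n + 1 + 1) * x / T2 M t x - Int.fract s⌋ from rfl,
        Int.le_floor, hz]
      push_cast
      nlinarith
    have h4 : kk2 M t s (n + 1 + 1) x < (M : ℤ) * kk2 M t s (n + 1) x + (2 * M + 2) := by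
      rw [show kk2 M t s (n + 1 + 1) x = ⌊(M : ℝ) ^ (n + 1 + 1) * x / T2 M t x - Int.fract s⌋ from rfl,
        Int.floor_lt, hz]
      push_cast
      nlinarith
    constructor
    · linarith
    · linarith

theorem t : S_WP2 := by
  intro q M hM t s
  refine ⟨w02_mono hM.M2 q t hM.q0.le, fun n => ⟨?_, ?_, ?_, ?_⟩⟩
  · intro x
    have h := rng hM.M2 t s n x
    unfold rr
    omega
  · intro x
    unfold cc
    have := Real.rpow_nonneg (T_nonneg M t x) q
    positivity
  · intro x y h
    unfold cc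
    rw [T_eq h]
  · intro x y
    rw [lab_succ]
    refine and_congr_right fun h => ?_
    have hb : (if n = 0 then -((M : ℤ) + 1) else M * kk2 M t s n x) =
        (if n = 0 then -((M : ℤ) + 1) else M * kk2 M t s n y) := by
      cases n with
      | zero => rfl
      | succ n =>
        rw [if_neg (Nat.succ_ne_zero n), if_neg (Nat.succ_ne_zero n), ((lab_succ M t s n x y).1 h).2]
    have h1 := (rng hM.M2 t s n x).1
    have h2 := (rng hM.M2 t s n y).1
    unfold rr
    rw [← hb] at h2 ⊢
    constructor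
    · intro h3
      rw [h3]
    · intro h3
      have h4 := Int.toNat_of_nonneg h1
      have h5 := Int.toNat_of_nonneg h2
      rw [h3] at h4
      linarith

end Pool.Agent.H99Q.WP2
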