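import Pool.Agent.H99Q.Asm2
import Pool.Agent.H99Q.P1
import Pool.Agent.H99Q.EXM2
import Pool.Agent.H99Q.SEL
import Pool.Agent.H99Q.PSI
import Pool.Agent.H99Q.ML2
import Pool.Agent.H99Q.LAWK
import Pool.Agent.H99Q.STEPK
import Pool.Agent.H99Q.WP2
import Pool.Agent.H99Q.PATH2
import Pool.Agent.H99Q.TOPE2
import Pool.Agent.H99Q.TOPN2
import Pool.Agent.H99Q.INNB

/-! All powers `q > 0`, up to the measurability statement `S_MRK`. -/

open scoped ENNReal NNReal

namespace Pool.Agent.H99Q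

open Pool.Agent.R972.PC

theorem all_powers (hK : S_MRK) (q : ℝ) (h : 0 < q) : optRatio q ≤ 5000 := by
  rcases le_total q (1 / 2) with h1 | h1
  · exact main2 EXM2.t SEL.t PSI.t QLAW.t ML2.t hK SPLIT.t (LAWK.t QLAW.t hK) (STEP0.t QLAW.t)
      (STEPK.t QLAW.t hK) WP2.t PATH2.t TOPE2.t TOPN2.t (INNB.t FLOOR.t) UNIF.t q h h1
  · exact ge_half q h1

end Pool.Agent.H99Q
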