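import Pool.Agent.R972.PC.Defs

/-!
PROJECT PCR (MP_ee92c9_pr, Q1: specialist problem, full answer).  For `1/2 ≤ q < 1` there is a coupling of
ALL Borel probability measures on the line with pairwise ratio at most `5000` for the cost `|x - y| ^ q`
(known: `10.55 / (1 - q)`; question: bounded as `q → 1`).

Coupling: random scales `t, s` (uniform in `[0,1]`).  Blocks of level `0`: sign and dyadic scale of `x`,
shifted by `t`; `T t x` = upper end of the block, `|x| < T ≤ 2 |x|`.  Block of level `n`: in addition the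
integers `kk 1 x, …, kk n x`, `kk n x = ⌊M ^ n x / T - s⌋`.  `M ^ (1-q) ∈ [2,4]`.  `Y 0` = quantile of `P`
at `U 0`; `Y (n+1)` = quantile of `P` conditioned to the block of level `n` of `Y n`, at `U (n+1)`.  All
`Y n` have law `P`, `X_P = lim Y n`.

Every stub: file `Pool/Agent/H99Q/<STUB>.lean`, import `Pool.Agent.H99Q.Stm`, theorem
`Pool.Agent.H99Q.<STUB>.t : S_<STUB>` (with the hypotheses named in the docstring as arguments, e.g.
`theorem t (h : S_QLAW) : S_STEPB`).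
-/

set_option autoImplicit false

open MeasureTheory Set Filter Topology Pool.Agent.R972.PC
open scoped NNReal ENNReal

namespace Pool.Agent.H99Q

theorem leb_prob : IsProbabilityMeasure leb := by
  refine ⟨?_⟩
  unfold leb
  rw [Measure.restrict_apply_univ, Real.volume_Icc]
  simp

instance : IsProbabilityMeasure leb := leb_prob

/-- the quantile function of the finite measure `μ`, divided by its mass -/
noncomputable def G (μ : Measure ℝ) (u : ℝ) : ℝ :=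
  if 0 < u ∧ u < 1 then sInf {x : ℝ | ENNReal.ofReal u * μ univ ≤ μ (Iic x)} else 0

/-- resampling inside the block of `y` (label function `l`) -/
noncomputable def rs (P : Measure ℝ) (l : ℝ → ℕ) (y u : ℝ) : ℝ :=
  if l (G (P.restrict {x | l x = l y}) u) = l y then G (P.restrict {x | l x = l y}) u else y

/-- shifted dyadic scale -/
noncomputable def sc (t x : ℝ) : ℤ := ⌊Real.logb 2 |x| - t⌋

/-- upper end of the block of level `0` of `|x|` -/
noncomputable def T (t x : ℝ) : ℝ := if x = 0 then 0 else 2 ^ ((sc t x : ℝ) + 1 + t)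

noncomputable def kk (M : ℕ) (t s : ℝ) (n : ℕ) (x : ℝ) : ℤ := ⌊(M : ℝ) ^ n * x / T t x - s⌋

/-- label of the block of level `n` -/
noncomputable def lab (M : ℕ) (t s : ℝ) : ℕ → ℝ → ℕ
  | 0, x => Encodable.encode ((((SignType.sign x : SignType) : ℤ)), sc t x)
  | n + 1, x => Encodable.encode (lab M t s n x, kk M t s (n + 1) x)

/-- weight function of level `0` -/
noncomputable def w0 (q t x : ℝ) : ℝ := 4 * ((SignType.sign x : SignType) : ℝ) * T t x ^ q

/-- weight function of level `n ≥ 1` -/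
noncomputable def wn (q : ℝ) (M : ℕ) (t s : ℝ) (n : ℕ) (x : ℝ) : ℝ :=
  2 * T t x ^ q * (M : ℝ) ^ (-(n : ℝ) * q) * kk M t s n x

/-- bound for the oscillation of `wn n` in the blocks of level `n - 1` -/
noncomputable def on (q : ℝ) (M : ℕ) (t : ℝ) (n : ℕ) (x : ℝ) : ℝ :=
  4 * M * T t x ^ q * (M : ℝ) ^ (-(n : ℝ) * q)

/-- transport cost of one level -/
noncomputable def DD (l : ℝ → ℕ) (W o : ℝ → ℝ) (x y : ℝ) : ℝ≥0∞ :=
  if l x = l y then ENNReal.ofReal |W x - W y| else ENNReal.ofReal (2 * (o x + o y))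

def Cpl (π : Measure (ℝ × ℝ)) (P Q : Measure ℝ) : Prop := π.map Prod.fst = P ∧ π.map Prod.snd = Q

/-- the parameters -/
structure HM (q : ℝ) (M : ℕ) : Prop where
  q1 : 1 / 2 ≤ q
  q2 : q < 1
  M2 : 2 ≤ M
  lo : 2 ≤ (M : ℝ) ^ (1 - q)
  hi : (M : ℝ) ^ (1 - q) ≤ 4

/-- EXM.  `M = 2 ^ ⌈1 / (1 - q)⌉`: `M ^ (1-q) = 2 ^ (⌈1/(1-q)⌉ (1-q)) ∈ [2, 2 ^ (2 - q)]`. -/
def S_EXM : Prop := ∀ q : ℝ, 1 / 2 ≤ q → q < 1 → ∃ M : ℕ, HM q M

/-- QLAW.  Law of the quantile function of a finite measure, and monotonicity.  Right continuity of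
`x ↦ μ (Iic x)`: for `0 < u < 1` the set is a closed half line `[G μ u, ∞)`, so `G μ u ≤ x` iff
`ofReal u * μ univ ≤ μ (Iic x)`, iff `u ≤ (μ (Iic x) / μ univ).toReal`; compare the measures of `Iic x`. -/
def S_QLAW : Prop := ∀ (μ : Measure ℝ) [IsFiniteMeasure μ], μ ≠ 0 →
  MonotoneOn (G μ) (Ioo 0 1) ∧ Measurable (G μ) ∧ leb.map (G μ) = (μ univ)⁻¹ • μ

/-- STEP0 (uses QLAW).  The quantile coupling is optimal for `|g x - g y|`, `g` monotone:
`|a - b| = ∫ |1(w < a) - 1(w < b)| dw` (`volume (Ico (min a b) (max a b))`), Tonelli, and for the up-sets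
`A_w = {x | w < g x}` of the line the sets `{u ∈ (0,1) | G P u ∈ A_w}`, `{u ∈ (0,1) | G Q u ∈ A_w}` are
up-sets of `(0,1)`, so nested, and `leb` of the symmetric difference is `|P A_w - Q A_w|`, at most
`π {exactly one coordinate in A_w}`. -/
def S_STEP0 : Prop := ∀ (P Q : Measure ℝ) [IsProbabilityMeasure P] [IsProbabilityMeasure Q] (g : ℝ → ℝ),
  Monotone g → ∀ π : Measure (ℝ × ℝ), Cpl π P Q →
    ∫⁻ u, ENNReal.ofReal |g (G P u) - g (G Q u)| ∂leb ≤ ∫⁻ p, ENNReal.ofReal |g p.1 - g p.2| ∂π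

/-- STEPB (uses QLAW).  The same in one block `B`, `a = P B`, `b = Q B`: for `w ∉ [c, c+o)` the sets
`A_w = {x ∈ B | w < g x}` are `B` or empty; for `w ∈ [c, c+o)`:
`min a b * |P A_w / a - Q A_w / b| ≤ |P A_w - Q A_w| + |a - b|` (for `a ≤ b`, `v = Q A_w ≤ b`:
`|P A_w - v a / b| ≤ |P A_w - v| + v (1 - a / b)`), and `|P A_w - Q A_w| ≤ π {exactly one in A_w}`,
`|a - b| ≤ π {exactly one in B}`.  Integrate over `w`: for `x, y ∈ B` one gets `|g x - g y|`, if exactly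
one of them, say `x`, is in `B`: `(g x - c) + o ≤ 2 o`.  (`G (P.restrict B) u` may be outside of `B` for a
null set of `u` only; use the up-sets `{x | w < g x}` of the whole line for the monotonicity.) -/
def S_STEPB : Prop := ∀ (P Q : Measure ℝ) [IsProbabilityMeasure P] [IsProbabilityMeasure Q] (B : Set ℝ),
  MeasurableSet B → P B ≠ 0 → Q B ≠ 0 → ∀ (g : ℝ → ℝ) (c o : ℝ), Monotone g →
  (∀ x ∈ B, c ≤ g x ∧ g x ≤ c + o) → ∀ π : Measure (ℝ × ℝ), Cpl π P Q →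
    min (P B) (Q B) * ∫⁻ u, ENNReal.ofReal |g (G (P.restrict B) u) - g (G (Q.restrict B) u)| ∂leb ≤
      ∫⁻ p, ((B ×ˢ B).indicator (fun p => ENNReal.ofReal |g p.1 - g p.2|) p +
        (B ×ˢ Bᶜ).indicator (fun _ => ENNReal.ofReal (2 * o)) p +
        (Bᶜ ×ˢ B).indicator (fun _ => ENNReal.ofReal (2 * o)) p) ∂π

/-- STEP (uses QLAW, STEPB).  Sum over the labels `i` of the blocks `B_i = {l = i}`: the left side is
`∑_i μ {l A = i, l B = i} * ∫ |W (rs P l (A ω) u) - W (rs Q l (B ω) u)| du`, only the `i` with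
`P B_i ≠ 0 ≠ Q B_i` count, there `rs P l y u = G (P.restrict B_i) u` for almost all `u` (QLAW: almost all
values are in `B_i`) and `W = g_i` on `B_i`; `c = inf of W on B_i`, `o = o_i`.  Then STEPB and
`lintegral_tsum`; the sum over `i` of the right sides of STEPB is `DD l W o x y` pointwise (at most). -/
def S_STEP : Prop := ∀ (P Q : Measure ℝ) [IsProbabilityMeasure P] [IsProbabilityMeasure Q] (l : ℝ → ℕ)
  (W o : ℝ → ℝ), Measurable l → Measurable W → Measurable o →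
  (∀ i : ℕ, ∃ g : ℝ → ℝ, Monotone g ∧ ∀ x, l x = i → W x = g x) →
  (∀ x y, l x = l y → |W x - W y| ≤ o x ∧ o x = o y) → ∀ π : Measure (ℝ × ℝ), Cpl π P Q →
  ∀ (Ω : Type) [MeasurableSpace Ω] (μ : Measure Ω) [IsProbabilityMeasure μ] (A B : Ω → ℝ),
  Measurable A → Measurable B → (∀ i, μ {ω | l (A ω) = i} ≤ P {x | l x = i}) →
  (∀ i, μ {ω | l (B ω) = i} ≤ Q {x | l x = i}) →
    ∫⁻ ω, ({ω | l (A ω) = l (B ω)}.indicator (fun ω =>
      ∫⁻ u, ENNReal.ofReal |W (rs P l (A ω) u) - W (rs Q l (B ω) u)| ∂leb) ω) ∂μ ≤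
      ∫⁻ p, DD l W o p.1 p.2 ∂π

/-- LAW (uses QLAW).  Resampling inside the blocks preserves the law: for measurable `S`, the mass of
`rs ∈ S` is `∑_i μ {l A = i} * (P B_i)⁻¹ * P (B_i ∩ S) = P S`. -/
def S_LAW : Prop := ∀ (P : Measure ℝ) [IsProbabilityMeasure P] (l : ℝ → ℕ), Measurable l →
  ∀ (Ω : Type) [MeasurableSpace Ω] (μ : Measure Ω) [IsProbabilityMeasure μ] (A : Ω → ℝ), Measurable A →
  (∀ i, μ {ω | l (A ω) = i} = P {x | l x = i}) →
    (μ.prod leb).map (fun w => rs P l (A w.1) w.2) = P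

/-- MRS.  Joint measurability of the resampling in the parameters.  For `0 < u < 1` and
`P B > 0`, `B = {x | l a x = l a y}`: `G (P.restrict B) u ≤ c` iff `ofReal u * P B ≤ P (B ∩ Iic c)`, and
both sides are measurable in `(a, y, u)` (`measurable_measure_prodMk_left` for the measurable set
`{((a, y), x) | l a x = l a y, x ≤ c}`); for `P B = 0` the value of `G` is `sInf univ = 0`. -/
def S_MRS : Prop := ∀ (α : Type) [MeasurableSpace α] (P : Measure ℝ) [IsProbabilityMeasure P]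
  (l : α → ℝ → ℕ), Measurable (fun p : α × ℝ => l p.1 p.2) →
    Measurable (fun p : α × ℝ × ℝ => rs P (l p.1) p.2.1 p.2.2)

/-- ML.  Measurability of the labels and weights in `(t, s, x)`. -/
def S_ML : Prop := ∀ (q : ℝ) (M n : ℕ),
  Measurable (fun p : ℝ × ℝ × ℝ => lab M p.1 p.2.1 n p.2.2) ∧
  Measurable (fun p : ℝ × ℝ × ℝ => w0 q p.1 p.2.2) ∧
  Measurable (fun p : ℝ × ℝ × ℝ => wn q M p.1 p.2.1 n p.2.2) ∧
  Measurable (fun p : ℝ × ℝ × ℝ => on q M p.1 n p.2.2)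

/-- WPROP.  Properties of the weights.  `T` is a function of the block of level 0 and
`|x| < T ≤ 2 |x|` for `x ≠ 0`; `w0` is monotone.  In a block of level `n` (`lab n`), `wn (n+1)` is
`x ↦ 2 T^q M^(-(n+1)q) ⌊M^(n+1) x / T - s⌋`, `T` constant; two points of a block of level `n` have
`|x - y| ≤ T / M^n` (`n = 0`: `T / 2 ≤ |x|, |y| < T`), so the integers differ by at most `M + 1 ≤ 2 M`. -/
def S_WPROP : Prop := ∀ (q : ℝ) (M : ℕ), HM q M → ∀ t s : ℝ, Monotone (w0 q t) ∧ ∀ n : ℕ,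
  (∀ i : ℕ, ∃ g : ℝ → ℝ, Monotone g ∧ ∀ x, lab M t s n x = i → wn q M t s (n + 1) x = g x) ∧
  (∀ x y, lab M t s n x = lab M t s n y →
    |wn q M t s (n + 1) x - wn q M t s (n + 1) y| ≤ on q M t (n + 1) x ∧
      on q M t (n + 1) x = on q M t (n + 1) y)

/-- PATH.  (1) A sequence `a` with `lab n (a (n+1)) = lab n (a n)` converges (`lab n (a m) = lab n (a n)`
for `m ≥ n`, so `|a m - a n| ≤ T / M^n`, `n ≥ 1`).  (2) For two such sequences with limits `x`, `y`: if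
`lab n (a n) = lab n (b n)` for all `n`, then `x = y`.  Otherwise let `N` be the first `n` with
`lab n (a n) ≠ lab n (b n)`.  `N = 0`: `|x - y| ^ q ≤ |w0 (a 0) - w0 (b 0)|` (`|x| ≤ T (a 0)`, `x` has the
sign of `a 0` or is `0`; same sign, scales different, `T < T'`, so `T' ≥ 2 T`: `|x - y| ≤ T'` and
`4 (T'^q - T^q) ≥ 4 T'^q (1 - 2^(-1/2)) ≥ T'^q`; different signs: `|x - y|^q ≤ T^q + T'^q`).
`N = n + 1`: `lab n (a (n+1)) = lab n (b (n+1))` and `k = kk (n+1) (a (n+1)) ≠ k' = kk (n+1) (b (n+1))`, and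
`x ∈ [(k+s) T / M^(n+1), (k+1+s) T / M^(n+1)]`, so `|x - y| ≤ (|k-k'| + 1) T / M^(n+1)` and
`|x - y|^q ≤ 2 |k - k'| T^q M^(-(n+1)q)`. -/
def S_PATH : Prop := ∀ (q : ℝ) (M : ℕ), HM q M → ∀ (t s : ℝ) (a b : ℕ → ℝ),
  (∀ n, lab M t s n (a (n + 1)) = lab M t s n (a n)) →
  (∀ n, lab M t s n (b (n + 1)) = lab M t s n (b n)) →
  (∃ x : ℝ, Tendsto a atTop (𝓝 x)) ∧ ∀ x y : ℝ, Tendsto a atTop (𝓝 x) → Tendsto b atTop (𝓝 y) →
    ENNReal.ofReal (|x - y| ^ q) ≤ ENNReal.ofReal |w0 q t (a 0) - w0 q t (b 0)| +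
      ∑' n : ℕ, (if lab M t s n (a n) = lab M t s n (b n) then
        ENNReal.ofReal |wn q M t s (n + 1) (a (n + 1)) - wn q M t s (n + 1) (b (n + 1))| else 0)

/-- FLOOR.  Mean number of integers between two shifted points.  (`|⌊a-s⌋ - ⌊b-s⌋|`, `a ≤ b`: by
periodicity of `a - s - ⌊a - s⌋` in `s`, or by counting the integers `k` with `a < k + s ≤ b`.) -/
def S_FLOOR : Prop := ∀ a b : ℝ,
  ∫⁻ s, ENNReal.ofReal |((⌊a - s⌋ : ℤ) : ℝ) - ((⌊b - s⌋ : ℤ) : ℝ)| ∂leb ≤ ENNReal.ofReal |a - b|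

/-- TOPE.  Mean over the shift `t` of the weights of level 0.  `T t x = |x| 2^(1 - fract (logb 2 |x| - t))`,
so the mean of `T t x ^ q` over `t` is `c |x|^q`, `1 ≤ c ≤ 2`, `c = ∫_0^1 2^(q v) dv` (periodicity); `T` is
monotone in `|x|`; for `0 ≤ x ≤ y` the mean is `4 c (y^q - x^q) ≤ 8 (y - x)^q`; for different signs the
integrand is at most `4 (2|x|)^q + 4 (2|y|)^q ≤ 16 |x - y|^q`. -/
def S_TOPE : Prop := ∀ q : ℝ, 1 / 2 ≤ q → q < 1 → ∀ x y : ℝ,
  ∫⁻ t, ENNReal.ofReal |w0 q t x - w0 q t y| ∂leb ≤ ENNReal.ofReal (32 * |x - y| ^ q)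

/-- TOPN.  Points in different blocks of level 0: all terms are of the second kind (`lab n x ≠ lab n y`
for all `n`), the sum is `∑_{n≥1} 8 M^(1-nq) (T^q + T'^q) ≤ 8 * 4 * 2 (T^q + T'^q)`, and
`T^q + T'^q ≤ 2 |w0 x - w0 y|` (as in PATH, `N = 0`; for `x = 0`: `T^q = 0`). -/
def S_TOPN : Prop := ∀ (q : ℝ) (M : ℕ), HM q M → ∀ t s x y : ℝ, lab M t s 0 x ≠ lab M t s 0 y →
  ∑' n : ℕ, DD (lab M t s n) (wn q M t s (n + 1)) (on q M t (n + 1)) x y ≤
    ENNReal.ofReal (128 * |w0 q t x - w0 q t y|)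

/-- INN (uses FLOOR).  Points in the same block of level 0, `r = |x - y| > 0`, `T = T t x = T t y`.
First kind (`lab n x = lab n y`, which implies `r ≤ T M^(-n)`): mean over `s` at most
`2 T^q M^(-(n+1)q) * M^(n+1) r / T`, and the sum over the `n` with `M^n ≤ T / r` is at most
`2 r T^(q-1) * 2 M^(1-q) (T/r)^(1-q) ≤ 16 r^q` (geometric, ratio `M^(1-q) ≥ 2`).  Second kind: the term is
`16 M^(1-(n+1)q) T^q`, and `1(lab n x ≠ lab n y) ≤ ∑_{i=1}^n 1(kk i x ≠ kk i y)`; exchange the sums: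
`∑_i 1(kk i x ≠ kk i y) * 32 M^(1-(i+1)q) T^q ≤ ∑_i 128 M^(-iq) T^q 1(kk i x ≠ kk i y)`, whose mean is at
most `∑_i 128 M^(-iq) T^q min(1, M^i r / T) ≤ 512 r^q` (split at `M^i = T / r`). -/
def S_INN : Prop := ∀ (q : ℝ) (M : ℕ), HM q M → ∀ t x y : ℝ, (∀ s, lab M t s 0 x = lab M t s 0 y) →
  ∫⁻ s, ∑' n : ℕ, DD (lab M t s n) (wn q M t s (n + 1)) (on q M t (n + 1)) x y ∂leb ≤
    ENNReal.ofReal (600 * |x - y| ^ q)

/-- GE1 (uses QLAW).  For `q ≥ 1` the quantile coupling `P ↦ G P` is optimal for `|x - y| ^ q` (known):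
`(x-y-a)⁺ = ∫ 1(x > z) 1(y ≤ z - a) dz`, `|r|^q = ∫_0^∞ q (q-1) a^(q-2) (|r| - a)⁺ da` for `q > 1`, and for all
`z, z'` the probability of `{X > z, Y ≤ z'}` is at least `(P (Ioi z) + Q (Iic z') - 1)⁺`, with equality for the
quantile coupling (`{u | G P u > z}` is an up-set, `{u | G Q u ≤ z'}` a down-set of `(0,1)`). -/
def S_GE1 : Prop := ∀ q : ℝ, 1 ≤ q → optRatio q ≤ 1

/-- SPLIT.  The coordinate `n + 1` is independent of the earlier ones
(`iIndepFun_infinitePi`, `iIndepFun.indepFun_finset`, `measurePreserving_eval_infinitePi`). -/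
def S_SPLIT : Prop := ∀ (α : Type) [MeasurableSpace α] (n : ℕ) (Z : (ℕ → ℝ) → α), Measurable Z →
  (∀ U U' : ℕ → ℝ, (∀ i ≤ n, U i = U' i) → Z U = Z U') →
    (Measure.infinitePi (fun _ : ℕ => leb)).map (fun U => (Z U, U (n + 1))) =
      ((Measure.infinitePi (fun _ : ℕ => leb)).map Z).prod leb

/-- UNIF.  `ProbabilityTheory.Kernel.exists_measurable_map_eq_unitInterval` (or the version for measures in
the same file `Mathlib/Probability/Kernel/Representation.lean`) and the map `ℝ → [0,1]`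
(`Set.projIcc` or restriction). -/
def S_UNIF : Prop := ∃ φ : ℝ → ℝ × ℝ × (ℕ → ℝ), Measurable φ ∧
  leb.map φ = leb.prod (leb.prod (Measure.infinitePi (fun _ : ℕ => leb)))

end Pool.Agent.H99Q
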