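import Pool.Agent.H99Q.Stm

/-!
PROJECT PCR, PART 2: the powers `0 < q ≤ 1/2` (so that the final theorem is about ALL `q > 0`).  The same
structure, but base `M` with `M ^ q ∈ [2, 4]` also in level 0, and in the levels `n ≥ 1` the sub-block is
chosen by rejection sampling (SEL: probability of different choices `≤ ∑ |p_j - p'_j|`) instead of the quantile.
The cost of separation in level `n + 1` is `T^q M^(-n q)`, whatever the sub-blocks are.

Every stub: file `Pool/Agent/H99Q/<STUB>.lean`, import `Pool.Agent.H99Q.Stm2`, theorem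
`Pool.Agent.H99Q.<STUB>.t : S_<STUB>`.
-/

set_option autoImplicit false

open MeasureTheory Set Filter Topology Pool.Agent.R972.PC
open scoped NNReal ENNReal

namespace Pool.Agent.H99Q

noncomputable def sc2 (M : ℕ) (t x : ℝ) : ℤ := ⌊Real.logb M |x| - t⌋

/-- upper end of the block of level `0` of `|x|` : `|x| < T2 ≤ M |x|` for `x ≠ 0` -/
noncomputable def T2 (M : ℕ) (t x : ℝ) : ℝ := if x = 0 then 0 else (M : ℝ) ^ ((sc2 M t x : ℝ) + 1 + t)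

noncomputable def kk2 (M : ℕ) (t s : ℝ) (n : ℕ) (x : ℝ) : ℤ := ⌊(M : ℝ) ^ n * x / T2 M t x - Int.fract s⌋

noncomputable def lab2 (M : ℕ) (t s : ℝ) : ℕ → ℝ → ℕ
  | 0, x => Encodable.encode ((((SignType.sign x : SignType) : ℤ)), sc2 M t x)
  | n + 1, x => Encodable.encode (lab2 M t s n x, kk2 M t s (n + 1) x)

/-- number of the sub-block of level `n + 1` inside the block of level `n` -/
noncomputable def rr (M : ℕ) (t s : ℝ) (n : ℕ) (x : ℝ) : ℕ :=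
  (kk2 M t s (n + 1) x - (if n = 0 then -((M : ℤ) + 1) else M * kk2 M t s n x)).toNat

noncomputable def w02 (q : ℝ) (M : ℕ) (t x : ℝ) : ℝ :=
  4 * ((SignType.sign x : SignType) : ℝ) * T2 M t x ^ q

/-- cost of a separation in level `n + 1` -/
noncomputable def cc (q : ℝ) (M : ℕ) (t : ℝ) (n : ℕ) (x : ℝ) : ℝ := T2 M t x ^ q * (M : ℝ) ^ (-(n : ℝ) * q)

/-- transport cost of one level: `l'` label of level `n + 1` -/
noncomputable def D2 (l' : ℝ → ℕ) (c : ℝ → ℝ) (x y : ℝ) : ℝ≥0∞ :=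
  if l' x = l' y then 0 else ENNReal.ofReal (2 * (c x + c y))

structure HK (q : ℝ) (M : ℕ) : Prop where
  q0 : 0 < q
  q1 : q ≤ 1 / 2
  M2 : 2 ≤ M
  lo : 2 ≤ (M : ℝ) ^ q
  hi : (M : ℝ) ^ q ≤ 4

/-- selection rules: for every probability vector `p` on `{0, …, L-1}` a random element `sel p u` with law
`p`, measurable, and such that the probability of different choices for `p`, `p'` is at most the `ℓ¹` distance -/
structure IsSel (L : ℕ) (sel : (ℕ → ℝ) → ℝ → ℕ) : Prop where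
  meas : Measurable fun w : (ℕ → ℝ) × ℝ => sel w.1 w.2
  law : ∀ p : ℕ → ℝ, (∀ i, 0 ≤ p i) → (∀ i, L ≤ i → p i = 0) → ∑ i ∈ Finset.range L, p i = 1 →
    ∀ i, leb {u | sel p u = i} = ENNReal.ofReal (p i)
  diff : ∀ p p' : ℕ → ℝ, (∀ i, 0 ≤ p i) → (∀ i, L ≤ i → p i = 0) → ∑ i ∈ Finset.range L, p i = 1 →
    (∀ i, 0 ≤ p' i) → (∀ i, L ≤ i → p' i = 0) → ∑ i ∈ Finset.range L, p' i = 1 →
    leb {u | sel p u ≠ sel p' u} ≤ ENNReal.ofReal (∑ i ∈ Finset.range L, |p i - p' i|)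

/-- conditional probabilities of the sub-blocks `{r = j}` in the block of `y` -/
noncomputable def cp (P : Measure ℝ) (l r : ℝ → ℕ) (y : ℝ) (j : ℕ) : ℝ :=
  (P {x | l x = l y ∧ r x = j} / P {x | l x = l y}).toReal

/-- resampling with a selection rule: choose the sub-block `j`, then a point in it -/
noncomputable def rk (sel : (ℕ → ℝ) → ℝ → ℕ) (P : Measure ℝ) (l r : ℝ → ℕ) (y u v : ℝ) : ℝ :=
  if l (G (P.restrict {x | l x = l y ∧ r x = sel (cp P l r y) u}) v) = l y then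
    G (P.restrict {x | l x = l y ∧ r x = sel (cp P l r y) u}) v else y

/-- EXM2.  `M = 2 ^ ⌈1 / q⌉`. -/
def S_EXM2 : Prop := ∀ q : ℝ, 0 < q → q ≤ 1 / 2 → ∃ M : ℕ, HK q M

/-- SEL.  Rejection sampling (Holenstein, Kleinberg-Tardos).  Let `ψ : ℝ → (ℕ → ℝ × ℝ)` be measurable with
`leb.map ψ` the law of a sequence of independent uniform pairs `(a_k, b_k)` in `[0,1]^2`
(`Measure.infinitePi fun _ => leb.prod leb`; exists as in UNIF).  Let `j_k = ⌊L a_k⌋₊`, let `K` be the first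
`k` with `b_k < p (j_k)` and `sel p u = j_K` (`0` if there is none).  Each step accepts `i` with probability
`p i / L`, so the law is `∑_k (1 - 1/L)^k p i / L = p i`.  For two vectors: in each step the probability that
both accept is `b = ∑ min (p j) (p' j) / L`, that one of them accepts `a = ∑ max / L`; the choices are equal
with probability at least `∑_k (1-a)^k b = b / a`, and `1 - b/a = ∑ |p j - p' j| / ∑ max ≤ ∑ |p j - p' j|`. -/
def S_SEL : Prop := ∀ L : ℕ, 1 ≤ L → ∃ sel : (ℕ → ℝ) → ℝ → ℕ, IsSel L sel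

/-- MRK.  Joint measurability of `rk` (compare MRS; `cp` is measurable in the parameters). -/
def S_MRK : Prop := ∀ (α : Type) [MeasurableSpace α] (L : ℕ) (sel : (ℕ → ℝ) → ℝ → ℕ), IsSel L sel →
  ∀ (P : Measure ℝ) [IsProbabilityMeasure P] (l r : α → ℝ → ℕ),
  Measurable (fun p : α × ℝ => l p.1 p.2) → Measurable (fun p : α × ℝ => r p.1 p.2) →
    Measurable (fun p : α × ℝ × ℝ × ℝ => rk sel P (l p.1) (r p.1) p.2.1 p.2.2.1 p.2.2.2)

/-- LAWK (uses QLAW, MRK).  Resampling with a selection rule preserves the law: `∑_i μ {l A = i} ∑_j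
(P B_ij / P B_i) (P B_ij)⁻¹ P (B_ij ∩ S) = P S`, `B_ij = {l = i, r = j}`, `j < L`. -/
def S_LAWK : Prop := ∀ (L : ℕ) (sel : (ℕ → ℝ) → ℝ → ℕ), IsSel L sel → ∀ (P : Measure ℝ)
  [IsProbabilityMeasure P] (l r : ℝ → ℕ), Measurable l → Measurable r → (∀ x, r x < L) →
  ∀ (Ω : Type) [MeasurableSpace Ω] (μ : Measure Ω) [IsProbabilityMeasure μ] (A : Ω → ℝ), Measurable A →
  (∀ i, μ {ω | l (A ω) = i} = P {x | l x = i}) →
    (μ.prod (leb.prod leb)).map (fun w => rk sel P l r (A w.1) w.2.1 w.2.2) = P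

/-- STEPK (uses QLAW, MRK).  One level.  `∑_i c_i μ {l A = i, l B = i} * ∑_j |P B_ij / a - Q B_ij / b|`
(`a = P B_i`, `b = Q B_i`; only `i` with `a ≠ 0 ≠ b`; for almost all `v` the point is in the chosen
sub-block, so `l'` differs only if the selections differ), `μ {..} ≤ min a b`, and
`min a b * |u / a - v / b| ≤ |u - v| + v (1 - a / b)` (`a ≤ b`), so the sum over `j` is at most
`∑_j |P B_ij - Q B_ij| + |a - b| ≤ 2 ∑_j |P B_ij - Q B_ij| ≤ 2 ∑_j π {exactly one point in B_ij}`; the sum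
over `i, j` with the weights `c_i` is the integral of `D2`. -/
def S_STEPK : Prop := ∀ (L : ℕ) (sel : (ℕ → ℝ) → ℝ → ℕ), IsSel L sel → ∀ (P Q : Measure ℝ)
  [IsProbabilityMeasure P] [IsProbabilityMeasure Q] (l r l' : ℝ → ℕ) (c : ℝ → ℝ),
  Measurable l → Measurable r → Measurable l' → Measurable c → (∀ x, r x < L) → (∀ x, 0 ≤ c x) →
  (∀ x y, l x = l y → c x = c y) → (∀ x y, l' x = l' y ↔ (l x = l y ∧ r x = r y)) →
  ∀ π : Measure (ℝ × ℝ), Cpl π P Q →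
  ∀ (Ω : Type) [MeasurableSpace Ω] (μ : Measure Ω) [IsProbabilityMeasure μ] (A B : Ω → ℝ),
  Measurable A → Measurable B → (∀ i, μ {ω | l (A ω) = i} ≤ P {x | l x = i}) →
  (∀ i, μ {ω | l (B ω) = i} ≤ Q {x | l x = i}) →
    ∫⁻ ω, ({ω | l (A ω) = l (B ω)}.indicator (fun ω => ENNReal.ofReal (c (A ω)) *
      (leb.prod leb) {w | l' (rk sel P l r (A ω) w.1 w.2) ≠ l' (rk sel Q l r (B ω) w.1 w.2)}) ω) ∂μ ≤
      ∫⁻ p, D2 l' c p.1 p.2 ∂π

/-- ML2.  Measurability of labels and weights in `(t, s, x)`. -/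
def S_ML2 : Prop := ∀ (q : ℝ) (M n : ℕ),
  Measurable (fun p : ℝ × ℝ × ℝ => lab2 M p.1 p.2.1 n p.2.2) ∧
  Measurable (fun p : ℝ × ℝ × ℝ => rr M p.1 p.2.1 n p.2.2) ∧
  Measurable (fun p : ℝ × ℝ × ℝ => w02 q M p.1 p.2.2) ∧
  Measurable (fun p : ℝ × ℝ × ℝ => cc q M p.1 n p.2.2)

/-- WP2.  `w02` is monotone; `cc` depends only on the block; `rr` numbers the sub-blocks.  In the block of
level `n ≥ 1` with `kk2 n = k`: `M^(n+1) x / T - s = M (M^n x / T - s) + (M-1) s ∈ [M k, M k + 2 M - 1)`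
(`s = fract s ∈ [0,1)`); `n = 0`: `M x / T - s ∈ (-M-1, M)`. -/
def S_WP2 : Prop := ∀ (q : ℝ) (M : ℕ), HK q M → ∀ t s : ℝ, Monotone (w02 q M t) ∧ ∀ n : ℕ,
  (∀ x, rr M t s n x < 2 * M + 2) ∧ (∀ x, 0 ≤ cc q M t n x) ∧
  (∀ x y, lab2 M t s n x = lab2 M t s n y → cc q M t n x = cc q M t n y) ∧
  (∀ x y, lab2 M t s (n + 1) x = lab2 M t s (n + 1) y ↔
    (lab2 M t s n x = lab2 M t s n y ∧ rr M t s n x = rr M t s n y))

/-- PATH2.  As PATH: two points with the same `lab2 n` have `|x - y| ≤ T M^(-n)`; `N = 0`: for different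
scales `T' ≥ M T`, `T'^q ≥ 2 T^q`, `4 (T'^q - T^q) ≥ 2 T'^q`; `N = n + 1`: `|x - y| ≤ T M^(-n)`. -/
def S_PATH2 : Prop := ∀ (q : ℝ) (M : ℕ), HK q M → ∀ (t s : ℝ) (a b : ℕ → ℝ),
  (∀ n, lab2 M t s n (a (n + 1)) = lab2 M t s n (a n)) →
  (∀ n, lab2 M t s n (b (n + 1)) = lab2 M t s n (b n)) →
  (∃ x : ℝ, Tendsto a atTop (𝓝 x)) ∧ ∀ x y : ℝ, Tendsto a atTop (𝓝 x) → Tendsto b atTop (𝓝 y) →
    ENNReal.ofReal (|x - y| ^ q) ≤ ENNReal.ofReal |w02 q M t (a 0) - w02 q M t (b 0)| +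
      ∑' n : ℕ, (if lab2 M t s n (a n) = lab2 M t s n (b n) ∧
          lab2 M t s (n + 1) (a (n + 1)) ≠ lab2 M t s (n + 1) (b (n + 1)) then
        ENNReal.ofReal (cc q M t n (a n)) else 0)

/-- TOPE2.  As TOPE: `T2 M t x = |x| M^(1 - fract (logb M |x| - t))`, mean of `T2 ^ q` over `t`:
`c |x|^q`, `c = ∫_0^1 M^(q v) dv ≤ 4`; same sign: `4 c (y^q - x^q) ≤ 16 (y - x)^q`; different signs:
`4 (T^q + T'^q) ≤ 16 (|x|^q + |y|^q) ≤ 32 |x - y|^q`. -/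
def S_TOPE2 : Prop := ∀ (q : ℝ) (M : ℕ), HK q M → ∀ x y : ℝ,
  ∫⁻ t, ENNReal.ofReal |w02 q M t x - w02 q M t y| ∂leb ≤ ENNReal.ofReal (32 * |x - y| ^ q)

/-- TOPN2.  Different blocks of level 0: `∑_n 2 M^(-nq) (T^q + T'^q) ≤ 4 (T^q + T'^q) ≤ 4 |w02 x - w02 y|`. -/
def S_TOPN2 : Prop := ∀ (q : ℝ) (M : ℕ), HK q M → ∀ t s x y : ℝ, lab2 M t s 0 x ≠ lab2 M t s 0 y →
  ∑' n : ℕ, D2 (lab2 M t s (n + 1)) (cc q M t n) x y ≤ ENNReal.ofReal (8 * |w02 q M t x - w02 q M t y|)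

/-- INN2 (uses FLOOR).  Same block of level 0, `r = |x - y| > 0`:
`1(lab2 (n+1) x ≠ lab2 (n+1) y) ≤ ∑_{i=1}^{n+1} 1(kk2 i x ≠ kk2 i y)`, exchange the sums:
`∑_n D2 ≤ ∑_{i≥1} 1(kk2 i x ≠ kk2 i y) 8 M^(-(i-1)q) T^q ≤ 32 T^q ∑_i M^(-iq) 1(kk2 i x ≠ kk2 i y)`, mean over
`s` at most `32 T^q ∑_i M^(-iq) min(1, M^i r / T) ≤ 32 (2 + 2) r^q` (split at `M^i = T / r`; the ratios are
`M^(1-q) ≥ M^q ≥ 2` and `M^(-q) ≤ 1/2`).  `Int.fract s = s` for almost all `s` in `[0,1]`. -/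
def S_INN2 : Prop := ∀ (q : ℝ) (M : ℕ), HK q M → ∀ t x y : ℝ,
  (∀ s, lab2 M t s 0 x = lab2 M t s 0 y) →
  ∫⁻ s, ∑' n : ℕ, D2 (lab2 M t s (n + 1)) (cc q M t n) x y ∂leb ≤ ENNReal.ofReal (200 * |x - y| ^ q)

/-- PSI.  As UNIF: one uniform variable contains two independent ones. -/
def S_PSI : Prop := ∃ ψ : ℝ → ℝ × ℝ, Measurable ψ ∧ leb.map ψ = leb.prod leb

end Pool.Agent.H99Q
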